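import Pool.Agent.Lib.MP_9214e0_lc.Arith

/-!
Names and their values; the action of a definable map of conditions on names.
-/

set_option autoImplicit false
set_option linter.unusedSectionVars false
set_option linter.unusedVariables false

namespace Pool.Agent.Generics

open Set ZFSet FirstOrder Language

variable {M : Set ZFSet.{0}} [hM : Fact (IsCTM M)]

theorem name_induction {p : ZFSet.{0} → Prop} (τ : ZFSet.{0})
    (h : ∀ τ, (∀ σ q, ZFSet.pair σ q ∈ τ → p σ) → p τ) : p τ := by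
  have key : ∀ o : Ordinal.{0}, ∀ τ : ZFSet.{0}, ZFSet.rank τ = o → p τ := by
    intro o
    induction o using WellFoundedLT.induction with
    | _ o ih =>
      intro τ hτ
      exact h τ fun σ q hq => ih _ (by rw [← hτ]; exact fst_lt hq) σ rfl
  exact key _ τ rfl

theorem mem_val {G : Set ZFSet.{0}} {τ z : ZFSet.{0}} :
    z ∈ val G τ ↔ ∃ σ p, ZFSet.pair σ p ∈ τ ∧ p ∈ G ∧ val G σ = z := by
  have := fst_small τ (· ∈ G)
  rw [val]
  rw [ZFSet.mem_range]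
  constructor
  · rintro ⟨⟨σ, p, h1, h2⟩, rfl⟩
    exact ⟨σ, p, h1, h2, rfl⟩
  · rintro ⟨σ, p, h1, h2, rfl⟩
    exact ⟨⟨σ, p, h1, h2⟩, rfl⟩

/-- The canonical names for the natural numbers. -/
noncomputable def chk (t : ZFSet.{0}) : ℕ → ZFSet.{0}
  | 0 => ∅
  | n + 1 => insert (ZFSet.pair (chk t n) t) (chk t n)

theorem mem_chk {t z : ZFSet.{0}} {n : ℕ} : z ∈ chk t n ↔ ∃ k < n, z = ZFSet.pair (chk t k) t := by
  induction n with
  | zero => simp [chk]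
  | succ n ih =>
    rw [chk, ZFSet.mem_insert_iff, ih]
    constructor
    · rintro (rfl | ⟨k, hk, rfl⟩)
      · exact ⟨n, by omega, rfl⟩
      · exact ⟨k, by omega, rfl⟩
    · rintro ⟨k, hk, rfl⟩
      rcases Nat.lt_succ_iff_lt_or_eq.1 hk with h | h
      · exact Or.inr ⟨k, h, rfl⟩
      · exact Or.inl (by rw [h])

theorem val_chk {G : Set ZFSet.{0}} {t : ZFSet.{0}} (ht : t ∈ G) (n : ℕ) :
    val G (chk t n) = nat n := by
  induction n using Nat.strong_induction_on with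
  | _ n ih =>
    ext z
    rw [mem_val, mem_nat]
    constructor
    · rintro ⟨σ, p, h1, h2, rfl⟩
      obtain ⟨k, hk, h3⟩ := mem_chk.1 h1
      rw [ZFSet.pair_inj] at h3
      rw [h3.1, ih k hk]
      exact ⟨k, hk, rfl⟩
    · rintro ⟨k, hk, rfl⟩
      exact ⟨chk t k, t, mem_chk.2 ⟨k, hk, rfl⟩, ht, ih k hk⟩

theorem isName_chk {P : Set ZFSet.{0}} {t : ZFSet.{0}} (ht : t ∈ P) (n : ℕ) :
    IsName P (chk t n) := by
  induction n using Nat.strong_induction_on with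
  | _ n ih =>
    refine IsName.mk _ ?_ ?_
    · intro r hr
      obtain ⟨k, hk, rfl⟩ := mem_chk.1 hr
      exact ⟨_, _, rfl, ht⟩
    · intro σ p h
      obtain ⟨k, hk, h2⟩ := mem_chk.1 h
      rw [ZFSet.pair_inj] at h2
      rw [h2.1]
      exact ih k hk

instance instDFchk {t : (ℕ → ZFSet.{0}) → ZFSet.{0}} {n : (ℕ → ZFSet.{0}) → ℕ} [ht : DF M t]
    [hn : DN M n] : DF M (fun v => chk (t v) (n v)) := by
  have h1 := ht.shift.shift
  exact DF.recur (fun k v => chk (t v) k) (fun k y v => insert (ZFSet.pair y (t v)) y)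
    (inferInstance : DF M (fun v => ∅))
    (inferInstance : DF M (fun v => insert (ZFSet.pair (v 1) (t (fun i => v (i + 2)))) (v 1)))
    (fun k v => rfl) hn

/-! ### Maps of names -/

variable (F : ZFSet.{0} → ZFSet.{0})

theorem pairs_small (τ : ZFSet.{0}) :
    Small.{0} {r : ZFSet.{0} × ZFSet.{0} // ZFSet.pair r.1 r.2 ∈ τ} := by
  let f : {r : ZFSet.{0} × ZFSet.{0} // ZFSet.pair r.1 r.2 ∈ τ} → τ :=
    fun r => ⟨ZFSet.pair r.1.1 r.1.2, r.2⟩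
  have hf : Function.Injective f := by
    intro r r' h
    have h1 : ZFSet.pair r.1.1 r.1.2 = ZFSet.pair r'.1.1 r'.1.2 := congrArg (fun z => z.1) h
    rw [ZFSet.pair_inj] at h1
    exact Subtype.ext (Prod.ext h1.1 h1.2)
  exact small_of_injective hf

/-- The action of a map of conditions on names. -/
noncomputable def hat (τ : ZFSet.{0}) : ZFSet.{0} :=
  have := pairs_small τ
  ZFSet.range (fun r : {r : ZFSet.{0} × ZFSet.{0} // ZFSet.pair r.1 r.2 ∈ τ} =>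
    ZFSet.pair (hat r.1.1) (F r.1.2))
termination_by ZFSet.rank τ
decreasing_by exact fst_lt r.2

theorem mem_hat {τ z : ZFSet.{0}} :
    z ∈ hat F τ ↔ ∃ σ p, ZFSet.pair σ p ∈ τ ∧ ZFSet.pair (hat F σ) (F p) = z := by
  have := pairs_small τ
  rw [hat]
  rw [ZFSet.mem_range]
  constructor
  · rintro ⟨⟨⟨σ, p⟩, h1⟩, rfl⟩
    exact ⟨σ, p, h1, rfl⟩
  · rintro ⟨σ, p, h1, rfl⟩
    exact ⟨⟨⟨σ, p⟩, h1⟩, rfl⟩

variable {F}

theorem isName_hat {P : Set ZFSet.{0}} (hF : ∀ p ∈ P, F p ∈ P) {τ : ZFSet.{0}}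
    (hτ : IsName P τ) : IsName P (hat F τ) := by
  induction hτ with
  | mk τ h h' ih =>
    refine IsName.mk _ ?_ ?_
    · intro r hr
      obtain ⟨σ, p, h1, rfl⟩ := (mem_hat F).1 hr
      obtain ⟨σ', p', h2, h3⟩ := h _ h1
      rw [ZFSet.pair_inj] at h2
      exact ⟨_, _, rfl, hF p (by rw [h2.2]; exact h3)⟩
    · intro σ p h1
      obtain ⟨σ', p', h2, h3⟩ := (mem_hat F).1 h1
      rw [ZFSet.pair_inj] at h3
      rw [← h3.1]
      exact ih σ' p' h2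

theorem val_hat {P G G' : Set ZFSet.{0}} (hG : ∀ p ∈ P, (F p ∈ G' ↔ p ∈ G)) {τ : ZFSet.{0}}
    (hτ : IsName P τ) : val G' (hat F τ) = val G τ := by
  induction hτ with
  | mk τ h h' ih =>
    ext z
    rw [mem_val, mem_val]
    constructor
    · rintro ⟨σ, p, h1, h2, rfl⟩
      obtain ⟨σ', p', h3, h4⟩ := (mem_hat F).1 h1
      rw [ZFSet.pair_inj] at h4
      obtain ⟨σ'', p'', h5, h6⟩ := h _ h3
      rw [ZFSet.pair_inj] at h5
      refine ⟨σ', p', h3, ?_, ?_⟩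
      · rw [← hG p' (by rw [h5.2]; exact h6), h4.2]
        exact h2
      · rw [← h4.1, ih σ' p' h3]
    · rintro ⟨σ, p, h1, h2, rfl⟩
      obtain ⟨σ'', p'', h5, h6⟩ := h _ h1
      rw [ZFSet.pair_inj] at h5
      exact ⟨hat F σ, F p, (mem_hat F).2 ⟨σ, p, h1, rfl⟩,
        (hG p (by rw [h5.2]; exact h6)).2 h2, ih σ p h1⟩

/-! ### Closure of `M` under the action on names -/

variable (F)

/-- Approximations to the recursion. -/
def att (M : Set ZFSet.{0}) (s : ZFSet.{0}) : Prop :=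
  ∀ q ∈ s, ∃ x ∈ M, ∃ y ∈ M, q = ZFSet.pair x y ∧
    (∀ σ ∈ M, ∀ p ∈ M, ZFSet.pair σ p ∈ x → ∃ y' ∈ M, ZFSet.pair σ y' ∈ s) ∧
    (∀ z ∈ M, z ∈ y ↔ ∃ σ ∈ M, ∃ p ∈ M, ∃ y' ∈ M, ZFSet.pair σ p ∈ x ∧ ZFSet.pair σ y' ∈ s ∧
      z = ZFSet.pair y' (F p))

instance instDfnatt [hF : DF M (fun v => F (v 0))] {s : (ℕ → ZFSet.{0}) → ZFSet.{0}}
    [hs : DF M s] : Dfn M (fun v => att F M (s v)) := by
  have h1 : ∀ i : ℕ, DF M (fun v => F (v i)) := fun i => DF.comp1 F hF (instDFvar i)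
  have h2 := h1 1
  refine Dfn.comp1 (fun s => att F M s) ?_ hs
  unfold att
  infer_instance

/-- The least approximation which is defined at `τ`. -/
noncomputable def fap (τ : ZFSet.{0}) : ZFSet.{0} :=
  have := pairs_small τ
  insert (ZFSet.pair τ (hat F τ))
    (⋃₀ (ZFSet.range (fun r : {r : ZFSet.{0} × ZFSet.{0} // ZFSet.pair r.1 r.2 ∈ τ} =>
      fap r.1.1)))
termination_by ZFSet.rank τ
decreasing_by exact fst_lt r.2

theorem mem_fap {τ q : ZFSet.{0}} : q ∈ fap F τ ↔ q = ZFSet.pair τ (hat F τ) ∨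
    ∃ σ p, ZFSet.pair σ p ∈ τ ∧ q ∈ fap F σ := by
  have := pairs_small τ
  rw [fap]
  rw [ZFSet.mem_insert_iff, ZFSet.mem_sUnion]
  refine or_congr Iff.rfl ?_
  constructor
  · rintro ⟨z, hz, hq⟩
    rw [ZFSet.mem_range] at hz
    obtain ⟨⟨⟨σ, p⟩, h1⟩, rfl⟩ := hz
    exact ⟨σ, p, h1, hq⟩
  · rintro ⟨σ, p, h1, hq⟩
    exact ⟨_, ZFSet.mem_range.2 ⟨⟨⟨σ, p⟩, h1⟩, rfl⟩, hq⟩

theorem fst_mem {σ p x : ZFSet.{0}} (hx : x ∈ M) (h : ZFSet.pair σ p ∈ x) : σ ∈ M ∧ p ∈ M := by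
  have h1 : ZFSet.pair σ p ∈ M := tr hx h
  have h2 : ({σ, p} : ZFSet.{0}) ∈ M := tr h1 (by simp [ZFSet.pair])
  exact ⟨tr h2 (by simp), tr h2 (by simp)⟩

variable [hF : DF M (fun v => F (v 0))]

theorem F_mem {p : ZFSet.{0}} (hp : p ∈ M) : F p ∈ M := hF.mem (fun _ => p) (fun _ => hp)

theorem pair_mem_M {x y : ZFSet.{0}} (hx : x ∈ M) (hy : y ∈ M) : ZFSet.pair x y ∈ M :=
  (inferInstance : DF M (fun v => ZFSet.pair (v 0) (v 1))).mem (vcons x (fun _ => y))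
    (vcons_mem hx (fun _ => hy))

theorem att_eq {s : ZFSet.{0}} (hs : att F M s) (x : ZFSet.{0}) :
    ∀ y, ZFSet.pair x y ∈ s → y = hat F x := by
  induction x using name_induction with
  | h x ih =>
    intro y hy
    obtain ⟨x', hx', y', hy', h1, h2, h3⟩ := hs _ hy
    rw [ZFSet.pair_inj] at h1
    obtain ⟨rfl, rfl⟩ := h1
    ext z
    rw [mem_hat]
    constructor
    · intro hz
      obtain ⟨σ, hσ, p, hp, w, hw, h4, h5, h6⟩ := (h3 z (tr hy' hz)).1 hz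
      refine ⟨σ, p, h4, ?_⟩
      rw [h6, ih σ p h4 w h5]
    · rintro ⟨σ, p, h4, rfl⟩
      obtain ⟨hσ, hp⟩ := fst_mem hx' h4
      obtain ⟨w, hw, h5⟩ := h2 σ hσ p hp h4
      have h6 := ih σ p h4 w h5
      rw [← h6]
      exact (h3 _ (pair_mem_M hw (F_mem F hp))).2 ⟨σ, hσ, p, hp, w, hw, h4, h5, rfl⟩

theorem fap_subset {s : ZFSet.{0}} (hs : att F M s) (x : ZFSet.{0}) :
    ∀ y, ZFSet.pair x y ∈ s → fap F x ⊆ s := by
  induction x using name_induction with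
  | h x ih =>
    intro y hy
    obtain ⟨x', hx', y', hy', h1, h2, h3⟩ := hs _ hy
    rw [ZFSet.pair_inj] at h1
    obtain ⟨rfl, rfl⟩ := h1
    intro q hq
    rw [mem_fap] at hq
    rcases hq with rfl | ⟨σ, p, h4, hq⟩
    · rw [← att_eq F hs x y hy]
      exact hy
    · obtain ⟨hσ, hp⟩ := fst_mem hx' h4
      obtain ⟨w, hw, h5⟩ := h2 σ hσ p hp h4
      exact ih σ p h4 w h5 hq

theorem self_mem_fap (x : ZFSet.{0}) : ZFSet.pair x (hat F x) ∈ fap F x :=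
  (mem_fap F).2 (Or.inl rfl)

theorem fap_pairs (x : ZFSet.{0}) : ∀ q ∈ fap F x, ∃ z, q = ZFSet.pair z (hat F z) ∧
    ∀ σ p, ZFSet.pair σ p ∈ z → ZFSet.pair σ (hat F σ) ∈ fap F x := by
  induction x using name_induction with
  | h x ih =>
    intro q hq
    rw [mem_fap] at hq
    rcases hq with rfl | ⟨σ, p, h4, hq⟩
    · exact ⟨x, rfl, fun σ p h => (mem_fap F).2 (Or.inr ⟨σ, p, h, self_mem_fap F σ⟩)⟩
    · obtain ⟨z, rfl, hz⟩ := ih σ p h4 q hq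
      exact ⟨z, rfl, fun σ' p' h => (mem_fap F).2 (Or.inr ⟨σ, p, h4, hz σ' p' h⟩)⟩

theorem att_fap {x : ZFSet.{0}} (hx : fap F x ∈ M) : att F M (fap F x) := by
  intro q hq
  obtain ⟨z, rfl, hz⟩ := fap_pairs F x q hq
  obtain ⟨h1, h2⟩ := fst_mem hx hq
  refine ⟨z, h1, _, h2, rfl, ?_, ?_⟩
  · intro σ hσ p hp h3
    have h4 := hz σ p h3
    exact ⟨_, (fst_mem hx h4).2, h4⟩
  · intro w hw
    rw [mem_hat]
    constructor
    · rintro ⟨σ, p, h3, rfl⟩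
      obtain ⟨hσ, hp⟩ := fst_mem h1 h3
      have h4 := hz σ p h3
      exact ⟨σ, hσ, p, hp, _, (fst_mem hx h4).2, h3, h4, rfl⟩
    · rintro ⟨σ, hσ, p, hp, y', hy', h3, h4, rfl⟩
      refine ⟨σ, p, h3, ?_⟩
      obtain ⟨z', h5, -⟩ := fap_pairs F x _ h4
      rw [ZFSet.pair_inj] at h5
      rw [h5.2, h5.1]

/-- The least approximation, as a definable relation. -/
def isFap (M : Set ZFSet.{0}) (σ s : ZFSet.{0}) : Prop :=
  att F M s ∧ (∃ y ∈ M, ZFSet.pair σ y ∈ s) ∧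
    ∀ s' ∈ M, att F M s' → (∃ y ∈ M, ZFSet.pair σ y ∈ s') → s ⊆ s'

theorem isFap_iff {σ s : ZFSet.{0}} (hσ : fap F σ ∈ M) (hs : s ∈ M) :
    isFap F M σ s ↔ s = fap F σ := by
  constructor
  · rintro ⟨h1, ⟨y, hy, h2⟩, h3⟩
    have h4 := fap_subset F h1 σ y h2
    have h5 := h3 _ hσ (att_fap F hσ) ⟨_, (fst_mem hσ (self_mem_fap F σ)).2, self_mem_fap F σ⟩
    ext z
    exact ⟨fun h => h5 h, fun h => h4 h⟩
  · rintro rfl
    refine ⟨att_fap F hσ, ⟨_, (fst_mem hσ (self_mem_fap F σ)).2, self_mem_fap F σ⟩, ?_⟩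
    rintro s' hs' h1 ⟨y, hy, h2⟩
    exact fap_subset F h1 σ y h2

theorem hat_fap_mem (τ : ZFSet.{0}) : τ ∈ M → hat F τ ∈ M ∧ fap F τ ∈ M := by
  induction τ using name_induction with
  | h τ ih =>
    intro hτ
    have ih' : ∀ σ p, ZFSet.pair σ p ∈ τ → hat F σ ∈ M ∧ fap F σ ∈ M :=
      fun σ p h => ih σ p h (fst_mem hτ h).1
    -- the domain
    set a : ZFSet.{0} := ZFSet.sep (fun σ => ∃ p ∈ M, ZFSet.pair σ p ∈ τ) (⋃₀ (⋃₀ τ)) with ha
    have haM : a ∈ M := (inferInstance : DF M (fun v => ZFSet.sep (fun σ => ∃ p ∈ M,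
      ZFSet.pair σ p ∈ v 0) (⋃₀ (⋃₀ (v 0))))).mem (fun _ => τ) (fun _ => hτ)
    have hmema : ∀ σ, σ ∈ a ↔ ∃ p, ZFSet.pair σ p ∈ τ := by
      intro σ
      rw [ha, ZFSet.mem_sep, ZFSet.mem_sUnion]
      constructor
      · rintro ⟨-, p, -, h⟩
        exact ⟨p, h⟩
      · rintro ⟨p, h⟩
        refine ⟨⟨{σ}, ?_, by simp⟩, p, (fst_mem hτ h).2, h⟩
        rw [ZFSet.mem_sUnion]
        exact ⟨_, h, by simp [ZFSet.pair]⟩
    have hR : Dfn M (fun v => isFap F M (v 0) (v 1)) := by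
      unfold isFap
      infer_instance
    obtain ⟨b, hb⟩ := hM.out.replacement _ (hR.definable₂ (v := fun _ => ∅)
      (fun _ => (inferInstance : InM M ∅).out)) ⟨a, haM⟩ (by
      intro σ hσ
      obtain ⟨p, hp⟩ := (hmema _).1 hσ
      have h1 := (ih' _ p hp).2
      refine ⟨⟨fap F σ, h1⟩, ?_, ?_⟩
      · exact (isFap_iff F h1 h1).2 rfl
      · intro y hy
        exact Subtype.ext ((isFap_iff F h1 y.2).1 hy))
    -- the union of the approximations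
    set U : ZFSet.{0} := ⋃₀ (ZFSet.sep (fun s => ∃ σ ∈ a, isFap F M σ s) b.1) with hU
    have hUM : U ∈ M := (inferInstance : DF M (fun v => ⋃₀ (ZFSet.sep (fun s => ∃ σ ∈ v 0,
      isFap F M σ s) (v 1)))).mem (vcons a (fun _ => b.1)) (vcons_mem haM (fun _ => b.2))
    have hmemU : ∀ q, q ∈ U ↔ ∃ σ p, ZFSet.pair σ p ∈ τ ∧ q ∈ fap F σ := by
      intro q
      rw [hU, ZFSet.mem_sUnion]
      constructor
      · rintro ⟨s, hs, hq⟩
        rw [ZFSet.mem_sep] at hs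
        obtain ⟨hsb, σ, hσ, h1⟩ := hs
        obtain ⟨p, hp⟩ := (hmema _).1 hσ
        rw [isFap_iff F (ih' _ p hp).2 (tr b.2 hsb)] at h1
        rw [h1] at hq
        exact ⟨σ, p, hp, hq⟩
      · rintro ⟨σ, p, hp, hq⟩
        have h0 : σ ∈ a := (hmema _).2 ⟨p, hp⟩
        obtain ⟨y, hy, h1⟩ := hb ⟨σ, tr haM h0⟩ h0
        have h2 : isFap F M σ y.1 := h1
        have h3 := (isFap_iff F (ih' _ p hp).2 y.2).1 h2
        refine ⟨y.1, ?_, by rwa [h3]⟩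
        rw [ZFSet.mem_sep]
        exact ⟨hy, σ, h0, h2⟩
    have hpairU : ∀ σ y, (∃ p, ZFSet.pair σ p ∈ τ) → (ZFSet.pair σ y ∈ U ↔ y = hat F σ) := by
      rintro σ y ⟨p, hp⟩
      rw [hmemU]
      constructor
      · rintro ⟨σ', p', hp', hq⟩
        obtain ⟨z, h1, -⟩ := fap_pairs F _ _ hq
        rw [ZFSet.pair_inj] at h1
        rw [h1.2, h1.1]
      · rintro rfl
        exact ⟨σ, p, hp, self_mem_fap F σ⟩
    have hhat : hat F τ ∈ M := by
      have h1 : ∀ i : ℕ, DF M (fun v => F (v i)) := fun i => DF.comp1 F hF (instDFvar i)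
      have h2 := h1 1
      have h3 : ⋃₀ (img (fun p => img (fun y => ZFSet.pair y (F p)) (ZFSet.sep (fun y => ∃ σ ∈ M,
          ZFSet.pair σ p ∈ τ ∧ ZFSet.pair σ y ∈ U) (⋃₀ (⋃₀ U)))) (⋃₀ (⋃₀ τ))) ∈ M :=
        (inferInstance : DF M (fun v => ⋃₀ (img (fun p => img (fun y => ZFSet.pair y (F p))
          (ZFSet.sep (fun y => ∃ σ ∈ M, ZFSet.pair σ p ∈ v 0 ∧ ZFSet.pair σ y ∈ v 1)
          (⋃₀ (⋃₀ (v 1))))) (⋃₀ (⋃₀ (v 0)))))).mem (vcons τ (fun _ => U))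
          (vcons_mem hτ (fun _ => hUM))
      convert h3 using 1
      ext z
      rw [mem_hat, ZFSet.mem_sUnion]
      constructor
      · rintro ⟨σ, p, h4, rfl⟩
        have h5 : ZFSet.pair σ (hat F σ) ∈ U := (hpairU σ _ ⟨p, h4⟩).2 rfl
        refine ⟨_, mem_img.2 ⟨p, ?_, rfl⟩, mem_img.2 ⟨hat F σ, ?_, rfl⟩⟩
        · rw [ZFSet.mem_sUnion]
          refine ⟨{σ, p}, ?_, by simp⟩
          rw [ZFSet.mem_sUnion]
          exact ⟨_, h4, by simp [ZFSet.pair]⟩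
        · rw [ZFSet.mem_sep]
          refine ⟨?_, σ, (fst_mem hτ h4).1, h4, h5⟩
          rw [ZFSet.mem_sUnion]
          refine ⟨{σ, hat F σ}, ?_, by simp⟩
          rw [ZFSet.mem_sUnion]
          exact ⟨_, h5, by simp [ZFSet.pair]⟩
      · rintro ⟨w, hw, hz⟩
        obtain ⟨p, -, rfl⟩ := mem_img.1 hw
        obtain ⟨y, hy, rfl⟩ := mem_img.1 hz
        rw [ZFSet.mem_sep] at hy
        obtain ⟨-, σ, -, h4, h5⟩ := hy
        rw [hpairU σ y ⟨p, h4⟩] at h5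
        exact ⟨σ, p, h4, by rw [h5]⟩
    refine ⟨hhat, ?_⟩
    have h4 : fap F τ = insert (ZFSet.pair τ (hat F τ)) U := by
      ext q
      rw [mem_fap, ZFSet.mem_insert_iff, hmemU]
    rw [h4]
    exact (inferInstance : DF M (fun v => insert (v 0) (v 1))).mem (vcons _ (fun _ => U))
      (vcons_mem (pair_mem_M hτ hhat) (fun _ => hUM))

theorem hat_mem {τ : ZFSet.{0}} (hτ : τ ∈ M) : hat F τ ∈ M := (hat_fap_mem F τ hτ).1

end Pool.Agent.Generics
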