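import Pool.Agent.Lib.MP_9214e0_lc.Generic
import Pool.Agent.Lib.MP_9214e0_lc.Names

/-!
Admissible maps of the reals; they do not change the generic extension.
-/

set_option autoImplicit false
set_option linter.unusedSectionVars false
set_option linter.unusedVariables false

namespace Pool.Agent.Generics

open MeasureTheory Set ZFSet FirstOrder Language Filter
open scoped ENNReal Topology

variable {M : Set ZFSet.{0}} [hM : Fact (IsCTM M)]

/-- A continuous measure preserving map whose restriction to the reals of `M` is definable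
over `M`. -/
structure Adm (M : Set ZFSet.{0}) (T : (ℕ → Bool) → (ℕ → Bool)) : Prop where
  cont : ∀ n, ∃ N, ∀ x y : ℕ → Bool, (∀ i < N, x i = y i) → T x n = T y n
  dfn : DR M (fun v => T (ofz (v 0)))
  mp : MeasurePreserving T (coin ℕ) (coin ℕ)

theorem DR.comp1 {T : (ℕ → Bool) → (ℕ → Bool)} (h : DR M (fun v => T (ofz (v 0))))
    {x : (ℕ → ZFSet.{0}) → (ℕ → Bool)} (hx : DR M x) : DR M (fun v => T (x v)) :=
  ⟨DF.congr (DF.comp1 (fun z => real (T (ofz z))) h.out hx.out) (fun v _ => by rw [ofz_real])⟩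

/-- A property of reals which depends on finitely many coordinates only. -/
def FinDep (P : (ℕ → Bool) → Prop) : Prop :=
  ∃ N, ∀ x y : ℕ → Bool, (∀ i < N, x i = y i) → P x → P y

/-- Code of an open set given by a property of reals. -/
def cd (M : Set ZFSet.{0}) (P : (ℕ → Bool) → Prop) : Set ℕ :=
  {c | c ≠ 0 ∧ ∀ x : ℕ → Bool, real x ∈ M → (∃ m, pre x m = c) → P x}

theorem up_cd (P : (ℕ → Bool) → Prop) : Up (cd M P) := up_cyl

theorem opn_cd {P : (ℕ → Bool) → Prop} (hP : FinDep P) : opn (cd M P) = {x | P x} := by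
  obtain ⟨N, hN⟩ := hP
  ext x
  constructor
  · rintro ⟨m, -, hm⟩
    set y : ℕ → Bool := fun i => if i < max m N then x i else false with hy
    have h1 : pre y m = pre x m := by
      rw [pre_eq_iff]
      intro i hi
      simp [hy, hi]
    have h2 := hm y (real_fin_mem (n := max m N) (by
      intro i hi
      simp only [hy]
      rw [if_neg (not_lt.2 hi)])) ⟨m, h1⟩
    refine hN y x ?_ h2
    intro i hi
    simp [hy, hi]
  · intro hx
    refine ⟨N, pre_ne_zero _ _, ?_⟩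
    rintro y - ⟨m, hm⟩
    have h1 : m = N := by rw [← log_pre y m, hm, log_pre]
    subst h1
    exact hN x y (fun i hi => ((pre_eq_iff _ _ _).1 hm i hi).symm) hx

theorem Adm.finDep_pre {T : (ℕ → Bool) → (ℕ → Bool)} (hT : Adm M T) (d : ℕ) :
    FinDep (fun x => ∃ m, pre (T x) m = d) := by
  choose N hN using hT.cont
  refine ⟨(Finset.range (Nat.log 2 d)).sup N, ?_⟩
  rintro x y hxy ⟨m, hm⟩
  refine ⟨m, ?_⟩
  rw [← hm, pre_eq_iff]
  intro i hi
  have h1 : Nat.log 2 d = m := by rw [← hm, log_pre]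
  refine (hN i x y fun j hj => hxy j (hj.trans_le ?_)).symm
  exact Finset.le_sup (f := N) (by rw [h1]; exact Finset.mem_range.2 hi)

/-- Code of the preimage of an open set. -/
def tc (M : Set ZFSet.{0}) (T : (ℕ → Bool) → (ℕ → Bool)) (u : Set ℕ) : Set ℕ :=
  {c | ∃ d : ℕ, d ∈ u ∧ c ≠ 0 ∧ ∀ x : ℕ → Bool, real x ∈ M → (∃ m, pre x m = c) →
    ∃ m, pre (T x) m = d}

theorem opn_tc {T : (ℕ → Bool) → (ℕ → Bool)} (hT : Adm M T) (u : Set ℕ) :
    opn (tc M T u) = {x | T x ∈ opn u} := by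
  ext x
  constructor
  · rintro ⟨m, d, hd, hm⟩
    have h1 : x ∈ opn (cd M (fun x => ∃ m, pre (T x) m = d)) := ⟨m, hm⟩
    rw [opn_cd (hT.finDep_pre d)] at h1
    obtain ⟨n, hn⟩ := h1
    exact ⟨n, by rwa [hn]⟩
  · rintro ⟨n, hn⟩
    have h1 : x ∈ opn (cd M (fun y => ∃ m, pre (T y) m = pre (T x) n)) := by
      rw [opn_cd (hT.finDep_pre _)]
      exact ⟨n, rfl⟩
    obtain ⟨m, hm⟩ := h1
    exact ⟨m, _, hn, hm⟩

theorem code_tc_mem {T : (ℕ → Bool) → (ℕ → Bool)} (hT : Adm M T) {u : Set ℕ} (hu : code u ∈ M) :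
    code (tc M T u) ∈ M := by
  have h0 : ∀ i : ℕ, DR M (fun v => T (ofz (v i))) := fun i => DR.comp1 hT.dfn inferInstance
  have h1 := (inferInstance : DF M (fun v => code {c | ∃ d : ℕ, d ∈ dec (v 0) ∧ c ≠ 0 ∧
    ∀ x : ℕ → Bool, real x ∈ M → (∃ m : ℕ, pre x m = c) → ∃ m : ℕ, pre (T x) m = d})).mem1 hu
  simp only [dec_code] at h1
  exact h1

/-- The image of a condition. -/
noncomputable def imT (T : (ℕ → Bool) → (ℕ → Bool)) (A : ZFSet.{0}) : ZFSet.{0} :=
  img (fun z => real (T (ofz z))) A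

theorem Adm.df {T : (ℕ → Bool) → (ℕ → Bool)} (hT : Adm M T) : DF M (fun v => imT T (v 0)) := by
  have h0 : ∀ i : ℕ, DR M (fun v => T (ofz (v i))) := fun i => DR.comp1 hT.dfn inferInstance
  exact (inferInstance : DF M (fun v => img (fun z => real (T (ofz z))) (v 0)))

theorem Adm.real_mem {T : (ℕ → Bool) → (ℕ → Bool)} (hT : Adm M T) {x : ℕ → Bool}
    (hx : real x ∈ M) : real (T x) ∈ M := by
  have h1 := hT.dfn.out.mem (fun _ => real x) (fun _ => hx)
  simp only [ofz_real] at h1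
  exact h1

theorem imT_mem {T : (ℕ → Bool) → (ℕ → Bool)} (hT : Adm M T) {A : ZFSet.{0}} (hA : A ∈ M) :
    imT T A ∈ M := hT.df.mem (fun _ => A) (fun _ => hA)

theorem imT_subset {T : (ℕ → Bool) → (ℕ → Bool)} (hT : Adm M T) {A : ZFSet.{0}}
    (hA : A ⊆ reals M) : imT T A ⊆ reals M := by
  intro z hz
  obtain ⟨y, hy, rfl⟩ := mem_img.1 hz
  rw [real_mem_reals]
  refine hT.real_mem ?_
  rw [real_ofz' (hA hy)]
  exact (mem_reals.1 (hA hy)).1

theorem real_mem_imT {T T' : (ℕ → Bool) → (ℕ → Bool)} (h1 : ∀ x, T' (T x) = x)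
    (h2 : ∀ x, T (T' x) = x) {A : ZFSet.{0}} (hA : A ⊆ reals M) {x : ℕ → Bool} :
    real x ∈ imT T A ↔ real (T' x) ∈ A := by
  rw [imT, mem_img]
  constructor
  · rintro ⟨y, hy, h⟩
    rw [real_inj] at h
    rw [← h, h1, real_ofz' (hA hy)]
    exact hy
  · intro h
    exact ⟨_, h, by rw [ofz_real, h2]⟩

theorem imT_imT {T T' : (ℕ → Bool) → (ℕ → Bool)} (h1 : ∀ x, T' (T x) = x)
    {A : ZFSet.{0}} (hA : A ⊆ reals M) : imT T' (imT T A) = A := by
  ext z
  rw [imT, mem_img]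
  constructor
  · rintro ⟨y, hy, rfl⟩
    obtain ⟨w, hw, rfl⟩ := mem_img.1 hy
    rw [ofz_real, h1, real_ofz' (hA hw)]
    exact hw
  · intro hz
    refine ⟨real (T (ofz z)), mem_img.2 ⟨z, hz, rfl⟩, ?_⟩
    rw [ofz_real, h1, real_ofz' (hA hz)]

theorem zext {A B : ZFSet.{0}} (hA : A ⊆ reals M) (hB : B ⊆ reals M)
    (h : ∀ x : ℕ → Bool, real x ∈ M → (real x ∈ A ↔ real x ∈ B)) : A = B := by
  ext z
  constructor
  · intro hz
    have h1 := real_ofz' (hA hz)
    rw [← h1]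
    refine (h _ ?_).1 (by rwa [h1])
    rw [h1]
    exact (mem_reals.1 (hA hz)).1
  · intro hz
    have h1 := real_ofz' (hB hz)
    rw [← h1]
    refine (h _ ?_).2 (by rwa [h1])
    rw [h1]
    exact (mem_reals.1 (hB hz)).1

theorem opR_subset {u : Set ℕ} : opR M u ⊆ reals M := fun z hz => (mem_opR.1 hz).1

section Pair

variable {T T' : (ℕ → Bool) → (ℕ → Bool)} (hT : Adm M T) (hT' : Adm M T')
  (h1 : ∀ x, T' (T x) = x) (h2 : ∀ x, T (T' x) = x)

include hT hT' h1 h2

theorem imT_borel {A : ZFSet.{0}} (hA : IsBorelIn M A) : IsBorelIn M (imT T A) := by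
  obtain ⟨hAM, hAr, hAS⟩ := hA
  refine ⟨imT_mem hT hAM, imT_subset hT hAr, fun S hS => ?_⟩
  have h0 : ∀ i : ℕ, DF M (fun v => imT T (v i)) := fun i => DF.comp1 (imT T) hT.df (instDFvar i)
  have hS' : IsSigma M (ZFSet.sep (fun B => imT T B ∈ S) (pwM M (reals M))) := {
    mem := (inferInstance : DF M (fun v => ZFSet.sep (fun B => imT T B ∈ v 0)
      (pwM M (reals M)))).mem1 hS.mem
    sub := fun B hB => (mem_pw.1 (ZFSet.mem_sep.1 hB).1).2
    basic := fun n => by
      have h3 : ZFSet.sep (fun x => nat n ∈ x) (reals M) ∈ M :=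
        (inferInstance : DF M (fun _ => ZFSet.sep (fun x => nat n ∈ x) (reals M))).mem0
      rw [ZFSet.mem_sep, mem_pw]
      refine ⟨⟨h3, ZFSet.sep_subset⟩, ?_⟩
      have hfd : FinDep (fun x => T' x n = true) := by
        obtain ⟨N, hN⟩ := hT'.cont n
        exact ⟨N, fun x y hxy hx => (hN x y hxy).symm.trans hx⟩
      have h4 : imT T (ZFSet.sep (fun x => nat n ∈ x) (reals M)) =
          opR M (cd M (fun x => T' x n = true)) := by
        refine zext (imT_subset hT ZFSet.sep_subset) opR_subset fun x hx => ?_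
        rw [real_mem_imT h1 h2 ZFSet.sep_subset, real_mem_opR, opn_cd hfd, ZFSet.mem_sep,
          nat_mem_real, real_mem_reals]
        exact ⟨fun h => ⟨hx, h.2⟩, fun h => ⟨hT'.real_mem hx, h.2⟩⟩
      rw [h4]
      refine hS.opR_mem ?_
      have h5 : ∀ i : ℕ, DR M (fun v => T' (ofz (v i))) := fun i => DR.comp1 hT'.dfn inferInstance
      exact (inferInstance : DF M (fun _ => code {c | c ≠ 0 ∧ ∀ x : ℕ → Bool, real x ∈ M →
        (∃ m, pre x m = c) → T' x n = true})).mem0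
    compl := fun B hB => by
      rw [ZFSet.mem_sep, mem_pw] at hB ⊢
      obtain ⟨⟨hBM, hBr⟩, hBS⟩ := hB
      have hsub : reals M \ B ⊆ reals M := fun z hz => (ZFSet.mem_sdiff.1 hz).1
      refine ⟨⟨(inferInstance : DF M (fun v => reals M \ v 0)).mem1 hBM, hsub⟩, ?_⟩
      have h3 : imT T (reals M \ B) = reals M \ imT T B := by
        refine zext (imT_subset hT hsub) (fun z hz => (ZFSet.mem_sdiff.1 hz).1) fun x hx => ?_
        rw [real_mem_imT h1 h2 hsub, ZFSet.mem_sdiff, ZFSet.mem_sdiff, real_mem_imT h1 h2 hBr,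
          real_mem_reals, real_mem_reals]
        exact ⟨fun h => ⟨hx, h.2⟩, fun h => ⟨hT'.real_mem hx, h.2⟩⟩
      rw [h3]
      exact hS.compl _ hBS
    union := fun s hs hsS => by
      have hs1 : ∀ n, (s n ∈ M ∧ s n ⊆ reals M) ∧ imT T (s n) ∈ S := by
        intro n
        have := hsS n
        rwa [ZFSet.mem_sep, mem_pw] at this
      have hsub : ZFSet.iUnion s ⊆ reals M := by
        intro z hz
        rw [ZFSet.mem_iUnion] at hz
        obtain ⟨n, hn⟩ := hz
        exact (hs1 n).1.2 hn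
      rw [ZFSet.mem_sep, mem_pw]
      refine ⟨⟨?_, hsub⟩, ?_⟩
      · have h3 : ZFSet.iUnion (fun n => app (seqc s) (nat n)) ∈ M :=
          (inferInstance : DF M (fun v => ZFSet.iUnion (fun n => app (v 0) (nat n)))).mem1 hs
        simpa only [app_seqc] using h3
      · have h3 : imT T (ZFSet.iUnion s) = ZFSet.iUnion (fun n => imT T (s n)) := by
          refine zext (imT_subset hT hsub) ?_ fun x hx => ?_
          · intro z hz
            rw [ZFSet.mem_iUnion] at hz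
            obtain ⟨n, hn⟩ := hz
            exact hS.sub _ (hs1 n).2 hn
          · rw [real_mem_imT h1 h2 hsub, ZFSet.mem_iUnion, ZFSet.mem_iUnion]
            exact exists_congr fun n => (real_mem_imT h1 h2 (hs1 n).1.2).symm
        rw [h3]
        refine hS.union _ ?_ (fun n => (hs1 n).2)
        have h5 : DF M (fun v => imT T (app (v 1) (nat (nn (v 0))))) :=
          DF.comp1 (imT T) hT.df inferInstance
        have h4 : seqc (fun n => imT T (app (seqc s) (nat n))) ∈ M :=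
          (inferInstance : DF M (fun v => seqc (fun n => imT T (app (v 0) (nat n))))).mem1 hs
        simpa only [app_seqc] using h4 }
  exact (ZFSet.mem_sep.1 (hAS _ hS')).2

theorem imT_rand {A : ZFSet.{0}} (hA : A ∈ rand M) : imT T A ∈ rand M := by
  obtain ⟨hA1, hA2⟩ := hA
  refine ⟨imT_borel hT hT' h1 h2 hA1, fun hnull => hA2 fun k => ?_⟩
  obtain ⟨u, hu, hu1, hu2⟩ := hnull k
  refine ⟨mnl (upc (tc M T u)), code_mnl_mem (code_upc_mem (code_tc_mem hT hu)), ?_, ?_⟩
  · refine (tsum_mnl (up_upc _)).trans ?_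
    rw [opn_upc, opn_tc hT]
    have h3 := hT.mp.measure_preimage (measurableSet_opn u).nullMeasurableSet
    have h4 : {x | T x ∈ opn u} = T ⁻¹' opn u := rfl
    rw [h4, h3]
    exact (coin_opn_le_tsum u).trans hu1
  · intro x hx
    rw [opn_mnl, opn_upc, opn_tc hT]
    refine hu2 _ ?_
    rw [real_mem_imT h1 h2 hA1.2.1, h1]
    exact hx

theorem imT_mem_Gw {w : ℕ → Bool} {p : ZFSet.{0}} (hp : p ∈ Gw M w) : imT T p ∈ Gw M (T w) := by
  obtain ⟨hp1, v, hv, hvp, hwv, hvA⟩ := hp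
  refine ⟨imT_rand hT hT' h1 h2 hp1, upc (tc M T' v), code_upc_mem (code_tc_mem hT' hv),
    up_upc _, ?_, ?_⟩
  · rw [opn_upc, opn_tc hT', mem_ofPred_eq, h1]
    exact hwv
  · intro z hz
    obtain ⟨hz1, hz2⟩ := mem_clR.1 hz
    rw [opn_upc, opn_tc hT', mem_ofPred_eq] at hz2
    have h3 := real_ofz' hz1
    rw [← h3, real_mem_imT h1 h2 hp1.1.2.1]
    apply hvA
    rw [real_mem_clR]
    refine ⟨hT'.real_mem ?_, hz2⟩
    rw [h3]
    exact (mem_reals.1 hz1).1

end Pair

theorem imT_mem_Gw_iff {T T' : (ℕ → Bool) → (ℕ → Bool)} (hT : Adm M T) (hT' : Adm M T')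
    (h1 : ∀ x, T' (T x) = x) (h2 : ∀ x, T (T' x) = x) {w : ℕ → Bool} {p : ZFSet.{0}}
    (hp : p ∈ rand M) : imT T p ∈ Gw M (T w) ↔ p ∈ Gw M w := by
  constructor
  · intro h
    have h3 := imT_mem_Gw hT' hT h2 h1 h
    rwa [imT_imT h1 hp.1.2.1, h1] at h3
  · exact imT_mem_Gw hT hT' h1 h2

theorem extn_subset {T T' : (ℕ → Bool) → (ℕ → Bool)} (hT : Adm M T) (hT' : Adm M T')
    (h1 : ∀ x, T' (T x) = x) (h2 : ∀ x, T (T' x) = x) (w : ℕ → Bool) :
    extn M (rand M) (Gw M w) ⊆ extn M (rand M) (Gw M (T w)) := by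
  rintro x ⟨τ, hτ, hτn, rfl⟩
  have := hT.df
  exact ⟨hat (imT T) τ, hat_mem (imT T) hτ, isName_hat (fun p hp => imT_rand hT hT' h1 h2 hp) hτn,
    val_hat (fun p hp => imT_mem_Gw_iff hT hT' h1 h2 hp) hτn⟩

/-- Admissible maps do not change the generic extension. -/
theorem extn_eq {T T' : (ℕ → Bool) → (ℕ → Bool)} (hT : Adm M T) (hT' : Adm M T')
    (h1 : ∀ x, T' (T x) = x) (h2 : ∀ x, T (T' x) = x) (w : ℕ → Bool) :
    extn M (rand M) (Gw M (T w)) = extn M (rand M) (Gw M w) := by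
  refine Subset.antisymm ?_ (extn_subset hT hT' h1 h2 w)
  have h3 := extn_subset hT' hT h2 h1 (T w)
  rwa [h1] at h3

/-! ### The generic real -/

theorem basic_eq (n : ℕ) : ZFSet.sep (fun x => nat n ∈ x) (reals M) =
    clR M (cd M (fun x => ¬ x n = true)) := by
  refine zext ZFSet.sep_subset clR_subset fun x hx => ?_
  rw [ZFSet.mem_sep, nat_mem_real, real_mem_clR, real_mem_reals, opn_cd, mem_ofPred_eq, not_not]
  exact ⟨n + 1, fun x y hxy hx h => hx ((hxy n (by omega)).trans h)⟩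

theorem code_bit_mem (n : ℕ) (b : Bool) : code (cd M (fun x => ¬ x n = b)) ∈ M := by
  cases b
  · have h1 : cd M (fun x => ¬ x n = false) = cd M (fun x => x n = true) := by
      simp only [Bool.not_eq_false]
    rw [h1]
    exact (inferInstance : DF M (fun _ => code {c | c ≠ 0 ∧ ∀ x : ℕ → Bool, real x ∈ M →
      (∃ m, pre x m = c) → x n = true})).mem0
  · exact (inferInstance : DF M (fun _ => code {c | c ≠ 0 ∧ ∀ x : ℕ → Bool, real x ∈ M →
      (∃ m, pre x m = c) → ¬ x n = true})).mem0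

theorem opn_bit (n : ℕ) (b : Bool) : opn (cd M (fun x => ¬ x n = b)) = {x | ¬ x n = b} :=
  opn_cd ⟨n + 1, fun x y hxy hx h => hx ((hxy n (by omega)).trans h)⟩

theorem basic_mem_rand (n : ℕ) : ZFSet.sep (fun x => nat n ∈ x) (reals M) ∈ rand M := by
  rw [basic_eq]
  refine clR_mem_rand (code_bit_mem n true) (up_cd _) ?_
  rw [opn_bit]
  have h1 : {x : ℕ → Bool | ¬ x n = true} = Set.pi (({n} : Finset ℕ) : Set ℕ) (fun _ => {false}) := by
    ext x
    simp
  rw [h1, coin_pi]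
  simp only [Finset.prod_singleton, fair_singleton]
  norm_num

theorem basic_mem_Gw {w : ℕ → Bool} (hw : RandomOver M w) (n : ℕ) :
    ZFSet.sep (fun x => nat n ∈ x) (reals M) ∈ Gw M w ↔ w n = true := by
  constructor
  · rintro ⟨-, v, hv, hvp, hwv, hvA⟩
    have h1 : (opn v)ᶜ ⊆ opn (cd M (fun x => ¬ x n = false)) :=
      compl_subset (code_bit_mem n false) (up_cd _) hv hvp fun x hx hxv => by
        rw [opn_bit, mem_ofPred_eq, Bool.not_eq_false]
        have := hvA (real_mem_clR.2 ⟨hx, hxv⟩)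
        rw [ZFSet.mem_sep, nat_mem_real] at this
        exact this.2
    have h2 := h1 hwv
    rwa [opn_bit, mem_ofPred_eq, Bool.not_eq_false] at h2
  · intro h
    rw [basic_eq]
    refine clR_mem_Gw hw (code_bit_mem n true) (up_cd _) ?_
    rw [opn_bit, mem_ofPred_eq, not_not]
    exact h

/-- The name of the generic real. -/
noncomputable def gnm (M : Set ZFSet.{0}) : ZFSet.{0} :=
  img (fun k => ZFSet.pair (chk (reals M) (nn k)) (ZFSet.sep (fun x => nat (nn k) ∈ x) (reals M))) om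

theorem gnm_mem : gnm M ∈ M :=
  (inferInstance : DF M (fun _ => img (fun k => ZFSet.pair (chk (reals M) (nn k))
    (ZFSet.sep (fun x => nat (nn k) ∈ x) (reals M))) om)).mem0

theorem mem_gnm {r : ZFSet.{0}} : r ∈ gnm M ↔ ∃ n : ℕ, r = ZFSet.pair (chk (reals M) n)
    (ZFSet.sep (fun x => nat n ∈ x) (reals M)) := by
  rw [gnm, mem_img]
  constructor
  · rintro ⟨k, hk, rfl⟩
    exact ⟨nn k, rfl⟩
  · rintro ⟨n, rfl⟩
    exact ⟨nat n, nat_mem_om n, by rw [nn_nat]⟩

theorem reals_mem_rand : reals M ∈ rand M := by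
  have := clR_mem_rand (M := M) code_empty_mem up_empty (by
    rw [opn_empty, measure_empty]
    norm_num)
  rwa [clR_empty] at this

theorem isName_gnm : IsName (rand M) (gnm M) := by
  refine IsName.mk _ ?_ ?_
  · intro r hr
    obtain ⟨n, rfl⟩ := mem_gnm.1 hr
    exact ⟨_, _, rfl, basic_mem_rand n⟩
  · intro σ p h
    obtain ⟨n, hn⟩ := mem_gnm.1 h
    rw [ZFSet.pair_inj] at hn
    rw [hn.1]
    exact isName_chk reals_mem_rand n

theorem val_gnm {w : ℕ → Bool} (hw : RandomOver M w) : val (Gw M w) (gnm M) = real w := by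
  ext z
  rw [mem_val, real, mem_code]
  constructor
  · rintro ⟨σ, p, h1, h2, rfl⟩
    obtain ⟨n, hn⟩ := mem_gnm.1 h1
    rw [ZFSet.pair_inj] at hn
    rw [hn.2, basic_mem_Gw hw] at h2
    exact ⟨n, h2, by rw [hn.1, val_chk (reals_mem_Gw hw)]⟩
  · rintro ⟨n, hn, rfl⟩
    exact ⟨_, _, mem_gnm.2 ⟨n, rfl⟩, (basic_mem_Gw hw n).2 hn, val_chk (reals_mem_Gw hw) n⟩

theorem real_mem_extn {w : ℕ → Bool} (hw : RandomOver M w) :
    real w ∈ extn M (rand M) (Gw M w) := ⟨gnm M, gnm_mem, isName_gnm, val_gnm hw⟩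

theorem extn_countable (P G : Set ZFSet.{0}) : (extn M P G).Countable := by
  refine (hM.out.countable.image (val G)).mono ?_
  rintro x ⟨τ, hτ, -, rfl⟩
  exact ⟨τ, hτ, rfl⟩

end Pool.Agent.Generics
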