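import Pool.Agent.Lib.MP_9214e0_lc.Gap

/-!
Approximation of measurable functions by functions of finitely many coordinates.
-/

set_option autoImplicit false

namespace Pool.Agent.Generics

open MeasureTheory Set Function
open scoped ENNReal symmDiff

variable {ι : Type}

/-- The function `A` depends only on the coordinates in the finite set `S`. -/
def DepOn {α : Type} (S : Finset ι) (A : (ι → Bool) → α) : Prop :=
  ∀ w w', (∀ i ∈ S, w i = w' i) → A w = A w'

theorem DepOn.measurable {α : Type} [MeasurableSpace α] {S : Finset ι} {A : (ι → Bool) → α}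
    (h : DepOn S A) : Measurable A := by
  classical
  let ext : (S → Bool) → (ι → Bool) := fun v i => if h : i ∈ S then v ⟨i, h⟩ else false
  let res : (ι → Bool) → (S → Bool) := fun w i => w i
  have h1 : A = (A ∘ ext) ∘ res := by
    funext w
    refine h _ _ ?_
    intro i hi
    simp [ext, res, hi]
  rw [h1]
  have h2 : Measurable res := by fun_prop
  exact (measurable_of_countable _).comp h2

theorem approx_set {A : Set (ι → Bool)} (hA : MeasurableSet A) {ε : ℝ} (hε : 0 < ε) :
    ∃ (S : Finset ι) (C : Set (ι → Bool)), DepOn S (fun w => w ∈ C) ∧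
      (coin ι).real (A ∆ C) < ε := by
  have halg : IsSetAlgebra (measurableCylinders (fun _ : ι => Bool)) :=
    ⟨empty_mem_measurableCylinders _, fun _ h => compl_mem_measurableCylinders h,
      fun _ _ h h' => union_mem_measurableCylinders h h'⟩
  have hd := Measure.MeasureDense.of_generateFrom_isSetAlgebra_finite (μ := coin ι) halg
    generateFrom_measurableCylinders.symm
  obtain ⟨C, hC, hlt⟩ := hd.approx A hA (measure_ne_top _ _) ε hε
  obtain ⟨S, T, _, rfl⟩ := (mem_measurableCylinders _).1 hC
  refine ⟨S, cylinder S T, ?_, ?_⟩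
  · intro w w' hw
    have : S.restrict w = S.restrict w' := by
      funext i
      exact hw i.1 i.2
    simp only [mem_cylinder, this]
  · unfold Measure.real
    have h2 := (ENNReal.toReal_lt_toReal (measure_ne_top _ _) (ENNReal.ofReal_ne_top)).2 hlt
    rwa [ENNReal.toReal_ofReal hε.le] at h2

theorem approx_nat {G : (ι → Bool) → ℕ} (hG : Measurable G) {ε : ℝ} (hε : 0 < ε) :
    ∃ (S : Finset ι) (A : (ι → Bool) → ℕ), DepOn S A ∧
      (coin ι).real {w | G w ≠ A w} ≤ ε := by
  classical
  -- a bound
  obtain ⟨n, hn⟩ : ∃ n : ℕ, (coin ι).real {w | n ≤ G w} ≤ ε / 2 := by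
    have h1 : Filter.Tendsto (fun n : ℕ => (coin ι) {w | n ≤ G w}) Filter.atTop
        (nhds ((coin ι) (⋂ n : ℕ, {w | n ≤ G w}))) := by
      refine tendsto_measure_iInter_atTop ?_ ?_ ⟨0, measure_ne_top _ _⟩
      · intro n
        exact (hG (measurableSet_Ici (a := n))).nullMeasurableSet
      · intro n m hnm w hw
        exact le_trans hnm hw
    have h2 : (⋂ n : ℕ, {w : ι → Bool | n ≤ G w}) = ∅ := by
      ext w
      simp only [mem_iInter, mem_ofPred_eq, mem_empty_iff_false, iff_false, not_forall, not_le]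
      exact ⟨G w + 1, Nat.lt_succ_self _⟩
    rw [h2, measure_empty] at h1
    have h3 := h1.eventually (gt_mem_nhds (show (0 : ℝ≥0∞) < ENNReal.ofReal (ε / 2) by
      rw [ENNReal.ofReal_pos]; positivity))
    obtain ⟨n, hn⟩ := h3.exists
    refine ⟨n, ?_⟩
    unfold Measure.real
    have h4 := (ENNReal.toReal_lt_toReal (measure_ne_top _ _) (ENNReal.ofReal_ne_top)).2 hn
    rw [ENNReal.toReal_ofReal (by positivity)] at h4
    exact h4.le
  have hpos : 0 < ε / (2 * (n + 1)) := by positivity
  choose S C hdep hlt using fun m : ℕ => approx_set (hG (measurableSet_singleton m)) hpos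
  let A : (ι → Bool) → ℕ := fun w => sInf {m | w ∈ C m ∨ n ≤ m}
  refine ⟨(Finset.range n).biUnion S, A, ?_, ?_⟩
  · intro w w' hw
    simp only [A]
    congr 1
    ext m
    simp only [mem_ofPred_eq]
    by_cases hm : n ≤ m
    · simp [hm]
    · have h1 : (w ∈ C m) = (w' ∈ C m) := hdep m w w' (fun i hi => hw i
        (Finset.mem_biUnion.2 ⟨m, Finset.mem_range.2 (by omega), hi⟩))
      simp [hm, h1]
  · have hsub : {w | G w ≠ A w} ⊆ {w | n ≤ G w} ∪ ⋃ m ∈ Finset.range n, (G ⁻¹' {m}) ∆ (C m) := by
      intro w hw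
      by_contra hcon
      simp only [mem_union, mem_ofPred_eq, mem_iUnion, Finset.mem_range, not_or, not_le,
        not_exists] at hcon
      obtain ⟨h1, h2⟩ := hcon
      apply hw
      have h3 : w ∈ C (G w) := by
        have := h2 (G w) h1
        by_contra h4
        exact this (Or.inl ⟨rfl, h4⟩)
      have h4 : ∀ m, m < n → w ∈ C m → G w = m := by
        intro m hm hwm
        by_contra h5
        exact h2 m hm (Or.inr ⟨hwm, h5⟩)
      have h6 : A w ∈ {m | w ∈ C m ∨ n ≤ m} := Nat.sInf_mem ⟨n, Or.inr le_rfl⟩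
      have h7 : A w ≤ G w := Nat.sInf_le (Or.inl h3)
      rcases h6 with h6 | h6
      · exact h4 _ (lt_of_le_of_lt h7 h1) h6
      · omega
    calc (coin ι).real {w | G w ≠ A w} ≤ (coin ι).real ({w | n ≤ G w} ∪
          ⋃ m ∈ Finset.range n, (G ⁻¹' {m}) ∆ (C m)) := measureReal_mono hsub
      _ ≤ (coin ι).real {w | n ≤ G w} + (coin ι).real
          (⋃ m ∈ Finset.range n, (G ⁻¹' {m}) ∆ (C m)) := measureReal_union_le _ _
      _ ≤ ε / 2 + ∑ m ∈ Finset.range n, (coin ι).real ((G ⁻¹' {m}) ∆ (C m)) :=
          add_le_add hn (measureReal_biUnion_finset_le _ _)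
      _ ≤ ε / 2 + ∑ _m ∈ Finset.range n, ε / (2 * (n + 1)) := by
          gcongr with m _
          exact (hlt m).le
      _ ≤ ε := by
          rw [Finset.sum_const, Finset.card_range, nsmul_eq_mul]
          have : (n : ℝ) * (ε / (2 * (n + 1))) ≤ ε / 2 := by
            rw [mul_div_assoc', div_le_div_iff₀ (by positivity) (by positivity)]
            nlinarith
          linarith

theorem approx_fun {Δ : Type} [Countable Δ] [MeasurableSpace Δ] [DiscreteMeasurableSpace Δ]
    {F : (ι → Bool) → Δ} (hF : Measurable F) {ε : ℝ} (hε : 0 < ε) :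
    ∃ (S : Finset ι) (A : (ι → Bool) → Δ), DepOn S A ∧
      (coin ι).real {w | F w ≠ A w} ≤ ε := by
  classical
  obtain ⟨e, he⟩ := exists_injective_nat Δ
  have : Nonempty Δ := ⟨F (fun _ => false)⟩
  obtain ⟨S, A, hdep, hA⟩ := approx_nat (G := fun w => e (F w))
    ((measurable_of_countable e).comp hF) hε
  refine ⟨S, fun w => invFun e (A w), ?_, ?_⟩
  · intro w w' hw
    simp only [hdep w w' hw]
  · refine le_trans (measureReal_mono ?_) hA
    intro w hw h
    apply hw
    change F w = invFun e (A w)
    rw [← h, leftInverse_invFun he]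

end Pool.Agent.Generics
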