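import Pool.Agent.Lib.MP_9214e0_lc.Rec

/-!
Arithmetic inside countable transitive models, finite sets, and choice of sequences.
-/

set_option autoImplicit false
set_option linter.unusedSectionVars false
set_option linter.unusedVariables false

namespace Pool.Agent.Generics

open Set ZFSet FirstOrder Language

variable {M : Set ZFSet.{0}} [hM : Fact (IsCTM M)]

theorem dn_succ : DN M (fun v => nn (v 0) + 1) :=
  ⟨(inferInstance : DF M (fun v => insert (nat (nn (v 0))) (nat (nn (v 0)))))⟩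

instance instDNsucc {t : (ℕ → ZFSet.{0}) → ℕ} [ht : DN M t] : DN M (fun v => t v + 1) :=
  DN.comp1 (fun n => n + 1) dn_succ ht

theorem dn_add : DN M (fun v => nn (v 0) + nn (v 1)) :=
  DN.recur (fun k v => nn (v 0) + k) (fun k y v => y + 1)
    (inferInstance : DN M (fun v => nn (v 0))) (inferInstance : DN M (fun v => nn (v 1) + 1))
    (fun k v => rfl) (inferInstance : DN M (fun v => nn (v 1)))

instance instDNadd {s t : (ℕ → ZFSet.{0}) → ℕ} [hs : DN M s] [ht : DN M t] :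
    DN M (fun v => s v + t v) :=
  DN.comp2 (fun n m => n + m) dn_add hs ht

theorem dn_mul : DN M (fun v => nn (v 0) * nn (v 1)) :=
  DN.recur (fun k v => nn (v 0) * k) (fun k y v => y + nn (v 0))
    (inferInstance : DN M (fun v => 0))
    (inferInstance : DN M (fun v => nn (v 1) + nn (v 2)))
    (fun k v => Nat.mul_succ _ _) (inferInstance : DN M (fun v => nn (v 1)))

instance instDNmul {s t : (ℕ → ZFSet.{0}) → ℕ} [hs : DN M s] [ht : DN M t] :
    DN M (fun v => s v * t v) :=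
  DN.comp2 (fun n m => n * m) dn_mul hs ht

theorem dn_pow : DN M (fun v => 2 ^ nn (v 0)) :=
  DN.recur (fun k v => 2 ^ k) (fun k y v => 2 * y)
    (inferInstance : DN M (fun v => 1))
    (inferInstance : DN M (fun v => 2 * nn (v 1)))
    (fun k v => by rw [pow_succ, mul_comm]) (inferInstance : DN M (fun v => nn (v 0)))

instance instDNpow {s : (ℕ → ZFSet.{0}) → ℕ} [hs : DN M s] :
    DN M (fun v => 2 ^ s v) :=
  DN.comp1 (fun n => 2 ^ n) dn_pow hs

theorem dn_sub : DN M (fun v => nn (v 0) - nn (v 1)) := by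
  refine DN.of_graph ?_
  refine Dfn.congr (inferInstance : Dfn M (fun v => (nn (v 2) ≤ nn (v 1) ∧
    nn (v 0) + nn (v 2) = nn (v 1)) ∨ (nn (v 1) < nn (v 2) ∧ nn (v 0) = 0))) (fun v _ => ?_)
  show _ ↔ nn (v 0) = nn (v 1) - nn (v 2)
  omega

instance instDNsub {s t : (ℕ → ZFSet.{0}) → ℕ} [hs : DN M s] [ht : DN M t] :
    DN M (fun v => s v - t v) :=
  DN.comp2 (fun n m => n - m) dn_sub hs ht

theorem dn_div : DN M (fun v => nn (v 0) / nn (v 1)) := by
  refine DN.of_graph ?_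
  refine Dfn.congr (inferInstance : Dfn M (fun v => (nn (v 2) = 0 ∧ nn (v 0) = 0) ∨
    (0 < nn (v 2) ∧ nn (v 2) * nn (v 0) ≤ nn (v 1) ∧ nn (v 1) < nn (v 2) * (nn (v 0) + 1))))
    (fun v _ => ?_)
  show _ ↔ nn (v 0) = nn (v 1) / nn (v 2)
  rcases Nat.eq_zero_or_pos (nn (v 2)) with h | h
  · simp [h]
  · have hsymm : (nn (v 0) = nn (v 1) / nn (v 2)) ↔ (nn (v 1) / nn (v 2) = nn (v 0)) := eq_comm
    rw [hsymm, Nat.div_eq_iff h]
    constructor
    · rintro (⟨h1, -⟩ | ⟨-, h1, h2⟩)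
      · omega
      · constructor
        · nlinarith
        · have : nn (v 2) * (nn (v 0) + 1) = nn (v 0) * nn (v 2) + nn (v 2) := by ring
          omega
    · rintro ⟨h1, h2⟩
      right
      refine ⟨h, by nlinarith, ?_⟩
      have : nn (v 2) * (nn (v 0) + 1) = nn (v 0) * nn (v 2) + nn (v 2) := by ring
      omega

instance instDNdiv {s t : (ℕ → ZFSet.{0}) → ℕ} [hs : DN M s] [ht : DN M t] :
    DN M (fun v => s v / t v) :=
  DN.comp2 (fun n m => n / m) dn_div hs ht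

instance instDNmod {s t : (ℕ → ZFSet.{0}) → ℕ} [hs : DN M s] [ht : DN M t] :
    DN M (fun v => s v % t v) :=
  DN.congr (inferInstance : DN M (fun v => s v - t v * (s v / t v))) (fun v _ => by
    have := Nat.div_add_mod (s v) (t v)
    omega)

instance instDNpair {s t : (ℕ → ZFSet.{0}) → ℕ} [hs : DN M s] [ht : DN M t] :
    DN M (fun v => Nat.pair (s v) (t v)) :=
  (inferInstance : DN M (fun v => if s v < t v then t v * t v + s v else s v * s v + s v + t v))

theorem dn_unpair1 : DN M (fun v => (Nat.unpair (nn (v 0))).1) := by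
  refine DN.of_graph ?_
  refine Dfn.congr (inferInstance : Dfn M (fun v => ∃ b : ℕ, Nat.pair (nn (v 0)) b = nn (v 1)))
    (fun v _ => ?_)
  show _ ↔ nn (v 0) = (Nat.unpair (nn (v 1))).1
  constructor
  · rintro ⟨b, hb⟩
    rw [← hb, Nat.unpair_pair]
  · intro h
    exact ⟨(Nat.unpair (nn (v 1))).2, by rw [h, Nat.pair_unpair]⟩

theorem dn_unpair2 : DN M (fun v => (Nat.unpair (nn (v 0))).2) := by
  refine DN.of_graph ?_
  refine Dfn.congr (inferInstance : Dfn M (fun v => ∃ b : ℕ, Nat.pair b (nn (v 0)) = nn (v 1)))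
    (fun v _ => ?_)
  show _ ↔ nn (v 0) = (Nat.unpair (nn (v 1))).2
  constructor
  · rintro ⟨b, hb⟩
    rw [← hb, Nat.unpair_pair]
  · intro h
    exact ⟨(Nat.unpair (nn (v 1))).1, by rw [h, Nat.pair_unpair]⟩

instance instDNunpair1 {s : (ℕ → ZFSet.{0}) → ℕ} [hs : DN M s] :
    DN M (fun v => (Nat.unpair (s v)).1) :=
  DN.comp1 (fun n => (Nat.unpair n).1) dn_unpair1 hs

instance instDNunpair2 {s : (ℕ → ZFSet.{0}) → ℕ} [hs : DN M s] :
    DN M (fun v => (Nat.unpair (s v)).2) :=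
  DN.comp1 (fun n => (Nat.unpair n).2) dn_unpair2 hs

/-- Initial segments of reals. -/
instance instDNpre {x : (ℕ → ZFSet.{0}) → (ℕ → Bool)} {s : (ℕ → ZFSet.{0}) → ℕ} [hx : DR M x]
    [hs : DN M s] : DN M (fun v => pre (x v) (s v)) := by
  have h1 : DR M (fun v => x (fun i => v (i + 2))) := hx.reindex (· + 2)
  exact DN.recur (fun k v => pre (x v) k) (fun k y v => 2 * y + (if x v k = true then 1 else 0))
    (inferInstance : DN M (fun v => 1))
    (inferInstance : DN M (fun v => 2 * nn (v 1) + (if x (fun i => v (i + 2)) (nn (v 0)) = true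
      then 1 else 0)))
    (fun k v => rfl) hs

instance instDfnopn {x : (ℕ → ZFSet.{0}) → (ℕ → Bool)} {u : (ℕ → ZFSet.{0}) → Set ℕ} [hx : DR M x]
    [hu : DS M u] : Dfn M (fun v => x v ∈ opn (u v)) := by
  have h1 := hx.shift
  have h2 := hu.shift
  exact (inferInstance : Dfn M (fun v => ∃ n : ℕ, pre (x v) n ∈ u v))

open Classical in
instance instDNcount {p : ℕ → (ℕ → ZFSet.{0}) → Prop} {s : (ℕ → ZFSet.{0}) → ℕ}
    [hp : Dfn M (fun v => p (nn (v 0)) (fun i => v (i + 1)))]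
    [hs : DN M s] : DN M (fun v => Nat.count (fun n => p n v) (s v)) := by
  have h1 : Dfn M (fun v => p (nn (v 0)) (fun i => v (i + 2))) :=
    hp.reindex (fun i => match i with | 0 => 0 | (j + 1) => j + 2)
  exact DN.recur (fun k v => Nat.count (fun n => p n v) k)
    (fun k y v => y + (if p k v then 1 else 0))
    (inferInstance : DN M (fun v => 0))
    (inferInstance : DN M (fun v => nn (v 1) + (if p (nn (v 0)) (fun i => v (i + 2))
      then 1 else 0)))
    (fun k v => Nat.count_succ _ _) hs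

instance instDFapp {s t : (ℕ → ZFSet.{0}) → ZFSet.{0}} [hs : DF M s] [ht : DF M t] :
    DF M (fun v => app (s v) (t v)) := by
  have h1 := hs.shift
  have h2 := ht.shift
  exact (inferInstance : DF M (fun v => ⋃₀ (ZFSet.sep (fun y => ZFSet.pair (t v) y ∈ s v)
    (⋃₀ (⋃₀ (s v))))))

instance instDFseqc {s : ℕ → (ℕ → ZFSet.{0}) → ZFSet.{0}}
    [hs : DF M (fun v => s (nn (v 0)) (fun i => v (i + 1)))] :
    DF M (fun v => seqc (fun n => s n v)) :=
  DF.congr (inferInstance : DF M (fun v => img (fun x => ZFSet.pair (nat (nn x)) (s (nn x) v)) om))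
    (fun v _ => by
      ext y
      rw [mem_img, mem_seqc]
      constructor
      · rintro ⟨x, -, rfl⟩
        exact ⟨nn x, rfl⟩
      · rintro ⟨n, rfl⟩
        exact ⟨nat n, nat_mem_om n, by rw [nn_nat]⟩)

instance instDFiUnion {s : ℕ → (ℕ → ZFSet.{0}) → ZFSet.{0}}
    [hs : DF M (fun v => s (nn (v 0)) (fun i => v (i + 1)))] :
    DF M (fun v => ZFSet.iUnion (fun n => s n v)) :=
  DF.congr (inferInstance : DF M (fun v => ⋃₀ (img (fun x => s (nn x) v) om)))
    (fun v _ => by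
      ext y
      rw [ZFSet.mem_iUnion, ZFSet.mem_sUnion]
      constructor
      · rintro ⟨z, hz, hy⟩
        obtain ⟨x, -, rfl⟩ := mem_img.1 hz
        exact ⟨nn x, hy⟩
      · rintro ⟨n, hn⟩
        exact ⟨_, mem_img.2 ⟨nat n, nat_mem_om n, rfl⟩, by rwa [nn_nat]⟩)

/-! ### Finite sets -/

theorem finite_mem {s : Set ZFSet.{0}} (hs : s.Finite) (hsM : s ⊆ M) :
    ∃ z ∈ M, ∀ x, x ∈ z ↔ x ∈ s := by
  induction s, hs using Set.Finite.induction_on with
  | empty => exact ⟨∅, (inferInstance : InM M ∅).out, fun x => by simp⟩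
  | @insert a s ha hs ih =>
    obtain ⟨z, hz, h⟩ := ih (fun x hx => hsM (Set.mem_insert_of_mem _ hx))
    refine ⟨insert a z, ?_, fun x => by simp [h]⟩
    exact (inferInstance : DF M (fun v => insert (v 0) (v 1))).mem (vcons a (fun _ => z))
      (vcons_mem (hsM (Set.mem_insert _ _)) (fun _ => hz))

theorem dfn_finite : Dfn M (fun v => (v 0 : Set ZFSet.{0}).Finite) := by
  refine Dfn.congr (inferInstance : Dfn M (fun v => ∃ f ∈ M, ∃ n : ℕ, ∀ a ∈ v 0,
    ∃ m : ℕ, m < n ∧ app f (nat m) = a)) (fun v hv => ?_)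
  constructor
  · rintro ⟨f, -, n, h⟩
    refine ((Set.finite_lt_nat n).image (fun m => app f (nat m))).subset ?_
    intro a ha
    obtain ⟨m, hm, h1⟩ := h a ha
    exact ⟨m, hm, h1⟩
  · intro h
    obtain ⟨n, f, hf⟩ := h.fin_param
    obtain ⟨z, hz, h1⟩ := finite_mem (M := M) (s := Set.range (fun i : Fin n =>
      ZFSet.pair (nat i) (f i))) (Set.finite_range _) (by
        rintro _ ⟨i, rfl⟩
        have h2 : f i ∈ v 0 := by
          have : f i ∈ (v 0 : Set ZFSet.{0}) := by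
            rw [← hf.2]
            exact ⟨i, rfl⟩
          exact this
        exact (inferInstance : DF M (fun v => ZFSet.pair (nat i) (v 0))).mem (fun _ => f i)
          (fun _ => tr (hv 0) h2))
    refine ⟨z, hz, n, ?_⟩
    intro a ha
    have h2 : a ∈ Set.range f := by
      rw [hf.2]
      exact ha
    obtain ⟨i, rfl⟩ := h2
    refine ⟨i, i.2, app_eq ((h1 _).2 ⟨i, rfl⟩) ?_⟩
    intro w hw
    obtain ⟨j, hj⟩ := (h1 _).1 hw
    rw [ZFSet.pair_inj, nat_inj] at hj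
    rw [← hj.2, Fin.ext hj.1]

instance instDfnfinite {s : (ℕ → ZFSet.{0}) → ZFSet.{0}} [hs : DF M s] :
    Dfn M (fun v => (s v : Set ZFSet.{0}).Finite) :=
  Dfn.comp1 (fun x => (x : Set ZFSet.{0}).Finite) dfn_finite hs

/-! ### Choice -/

theorem choose_seq {R : ℕ → ZFSet.{0} → (ℕ → ZFSet.{0}) → Prop}
    (hR : Dfn M (fun v => R (nn (v 0)) (v 1) (fun i => v (i + 2))))
    {v : ℕ → ZFSet.{0}} (hv : ∀ i, v i ∈ M) {b : ZFSet.{0}} (hb : b ∈ M)
    (h : ∀ n, ∃ y ∈ b, R n y v) :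
    ∃ s : ℕ → ZFSet.{0}, seqc s ∈ M ∧ ∀ n, s n ∈ b ∧ R n (s n) v := by
  have h1 : Dfn M (fun v => R (nn (v 1)) (v 0) (fun i => v (i + 3))) :=
    hR.reindex (fun i => match i with | 0 => 1 | 1 => 0 | (j + 2) => j + 3)
  have hx := (inferInstance : DF M (fun v => img (fun k => img (fun y => ZFSet.pair k y)
    (ZFSet.sep (fun y => R (nn k) y (fun i => v (i + 1))) (v 0))) om)).mem (vcons b v)
    (vcons_mem hb hv)
  set A : ZFSet.{0} → ZFSet.{0} := fun k => img (fun y => ZFSet.pair k y)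
    (ZFSet.sep (fun y => R (nn k) y v) b) with hA
  have hx' : img A om ∈ M := hx
  have hmemA : ∀ k p, p ∈ A k ↔ ∃ y ∈ b, R (nn k) y v ∧ ZFSet.pair k y = p := by
    intro k p
    rw [hA]
    simp only [mem_img, ZFSet.mem_sep]
    constructor
    · rintro ⟨y, ⟨h1, h2⟩, h3⟩
      exact ⟨y, h1, h2, h3⟩
    · rintro ⟨y, h1, h2, h3⟩
      exact ⟨y, ⟨h1, h2⟩, h3⟩
  obtain ⟨c, hc, hc1⟩ := hM.out.choice (img A om) hx' (by
    intro y hy hy0
    obtain ⟨k, hk, rfl⟩ := mem_img.1 hy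
    obtain ⟨n, rfl⟩ := mem_om.1 hk
    obtain ⟨y, hyb, hyR⟩ := h n
    have : ZFSet.pair (nat n) y ∈ A (nat n) := (hmemA _ _).2 ⟨y, hyb, by rwa [nn_nat], rfl⟩
    rw [hy0] at this
    exact ZFSet.notMem_empty _ this) (by
    intro y hy z hz hyz w hwy hwz
    obtain ⟨k, hk, rfl⟩ := mem_img.1 hy
    obtain ⟨l, hl, rfl⟩ := mem_img.1 hz
    obtain ⟨y1, -, -, rfl⟩ := (hmemA _ _).1 hwy
    obtain ⟨z1, -, -, h2⟩ := (hmemA _ _).1 hwz
    rw [ZFSet.pair_inj] at h2
    rw [h2.1] at hyz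
    exact hyz rfl)
  have h2 : ∀ n : ℕ, ∃ y, (y ∈ b ∧ R n y v) ∧ ZFSet.pair (nat n) y ∈ c ∧
      ∀ w ∈ c, w ∈ A (nat n) → w = ZFSet.pair (nat n) y := by
    intro n
    obtain ⟨w, ⟨hwc, hwA⟩, hw2⟩ := hc1 (A (nat n)) (mem_img.2 ⟨nat n, nat_mem_om n, rfl⟩)
    obtain ⟨y, hyb, hyR, rfl⟩ := (hmemA _ _).1 hwA
    rw [nn_nat] at hyR
    exact ⟨y, ⟨hyb, hyR⟩, hwc, fun w' hw' hw'' => hw2 w' ⟨hw', hw''⟩⟩
  choose s hs1 hs2 hs3 using h2
  refine ⟨s, ?_, hs1⟩
  have h3 : seqc s = c ∩ ⋃₀ (img A om) := by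
    ext p
    rw [mem_seqc, ZFSet.mem_inter, ZFSet.mem_sUnion]
    constructor
    · rintro ⟨n, rfl⟩
      exact ⟨hs2 n, A (nat n), mem_img.2 ⟨nat n, nat_mem_om n, rfl⟩,
        (hmemA _ _).2 ⟨s n, (hs1 n).1, by
          rw [nn_nat]
          exact (hs1 n).2, rfl⟩⟩
    · rintro ⟨hpc, z, hz, hpz⟩
      obtain ⟨k, hk, rfl⟩ := mem_img.1 hz
      obtain ⟨n, rfl⟩ := mem_om.1 hk
      exact ⟨n, (hs3 n p hpc hpz).symm⟩
  rw [h3]
  exact (inferInstance : DF M (fun v => v 0 ∩ ⋃₀ (v 1))).mem (vcons c (fun _ => img A om))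
    (vcons_mem hc (fun _ => hx'))

end Pool.Agent.Generics
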