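import Pool.Agent.Lib.MP_9214e0_lc.Dfn

/-!
Closure of countable transitive models under definable operations.
-/

set_option autoImplicit false
set_option linter.unusedSectionVars false
set_option linter.unusedVariables false

namespace Pool.Agent.Generics

open Set ZFSet FirstOrder Language

variable {M : Set ZFSet.{0}} [hM : Fact (IsCTM M)]

theorem tr {x y : ZFSet.{0}} (hx : x ∈ M) (hy : y ∈ x) : y ∈ M := hM.out.transitive x hx y hy

instance instDfnbex {s : (ℕ → ZFSet.{0}) → ZFSet.{0}} {φ : ZFSet.{0} → (ℕ → ZFSet.{0}) → Prop}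
    [hs : DF M s] [h : Dfn M (fun v => φ (v 0) (fun i => v (i + 1)))] :
    Dfn M (fun v => ∃ x ∈ s v, φ x v) := by
  have hs' := hs.shift
  refine Dfn.congr (inferInstance : Dfn M (fun v => ∃ x ∈ M, x ∈ s v ∧ φ x v)) ?_
  intro v hv
  constructor
  · rintro ⟨x, -, h⟩
    exact ⟨x, h⟩
  · rintro ⟨x, h1, h2⟩
    exact ⟨x, tr (hs.mem v hv) h1, h1, h2⟩

instance instDfnball {s : (ℕ → ZFSet.{0}) → ZFSet.{0}} {φ : ZFSet.{0} → (ℕ → ZFSet.{0}) → Prop}
    [hs : DF M s] [h : Dfn M (fun v => φ (v 0) (fun i => v (i + 1)))] :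
    Dfn M (fun v => ∀ x ∈ s v, φ x v) :=
  Dfn.congr (inferInstance : Dfn M (fun v => ¬ ∃ x ∈ s v, ¬ φ x v)) (fun v _ => by
    push Not
    rfl)

instance instDfnsub_set {s t : (ℕ → ZFSet.{0}) → ZFSet.{0}} [hs : DF M s] [ht : DF M t] :
    Dfn M (fun v => s v ⊆ t v) :=
  Dfn.comp2 (fun x y => x ⊆ y) (inferInstance : Dfn M (fun v => ∀ x ∈ v 0, x ∈ v 1)) hs ht

theorem sep_mem {φ : (ℕ → ZFSet.{0}) → Prop} (h : Dfn M φ) {v : ℕ → ZFSet.{0}}
    (hv : ∀ i, v i ∈ M) {a : ZFSet.{0}} (ha : a ∈ M) :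
    ZFSet.sep (fun x => φ (vcons x v)) a ∈ M := by
  obtain ⟨b, hb⟩ := hM.out.separation _ (h.definable₁ hv) ⟨a, ha⟩
  have : ZFSet.sep (fun x => φ (vcons x v)) a = b.1 := by
    ext x
    rw [ZFSet.mem_sep]
    constructor
    · rintro ⟨h1, h2⟩
      exact (hb ⟨x, tr ha h1⟩).2 ⟨h1, h2⟩
    · intro hx
      exact (hb ⟨x, tr b.2 hx⟩).1 hx
  rw [this]
  exact b.2

theorem DF.of_mem {t : (ℕ → ZFSet.{0}) → ZFSet.{0}}
    (hmem : ∀ v : ℕ → ZFSet.{0}, (∀ i, v i ∈ M) → t v ∈ M)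
    (h : Dfn M (fun v => v 0 ∈ t (fun i => v (i + 1)))) : DF M t := by
  refine ⟨hmem, ?_⟩
  have h1 : Dfn M (fun v => v 0 ∈ t (fun i => v (i + 2))) :=
    h.reindex (fun i => match i with | 0 => 0 | (j + 1) => j + 2)
  refine Dfn.congr (inferInstance : Dfn M (fun v => ∀ x ∈ M, (x ∈ v 0 ↔ x ∈ t (fun i => v (i + 1))))) ?_
  intro v hv
  constructor
  · intro h
    ext x
    constructor
    · intro hx
      exact (h x (tr (hv 0) hx)).1 hx
    · intro hx
      exact (h x (tr (hmem _ (fun i => hv (i + 1))) hx)).2 hx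
  · intro h x _
    rw [h]

instance instDFsep {φ : ZFSet.{0} → (ℕ → ZFSet.{0}) → Prop} {t : (ℕ → ZFSet.{0}) → ZFSet.{0}}
    [h : Dfn M (fun v => φ (v 0) (fun i => v (i + 1)))] [ht : DF M t] :
    DF M (fun v => ZFSet.sep (fun x => φ x v) (t v)) := by
  refine DF.of_mem (fun v hv => sep_mem h hv (ht.mem v hv)) ?_
  have h1 := ht.shift
  exact Dfn.congr (inferInstance : Dfn M (fun v => v 0 ∈ t (fun i => v (i + 1)) ∧
    φ (v 0) (fun i => v (i + 1)))) (fun v _ => by rw [ZFSet.mem_sep])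

theorem upair_mem {a b : ZFSet.{0}} (ha : a ∈ M) (hb : b ∈ M) : ({a, b} : ZFSet.{0}) ∈ M := by
  obtain ⟨z, hz, h1, h2⟩ := hM.out.pairing a ha b hb
  have h3 := (inferInstance : DF M (fun v => ZFSet.sep (fun x => x = v 0 ∨ x = v 1) (v 2))).mem
    (vcons a (vcons b (fun _ => z))) (vcons_mem ha (vcons_mem hb (fun _ => hz)))
  have h4 : ZFSet.sep (fun x => x = a ∨ x = b) z = {a, b} := by
    ext x
    rw [ZFSet.mem_sep, ZFSet.mem_pair]
    constructor
    · exact fun h => h.2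
    · rintro (rfl | rfl)
      · exact ⟨h1, Or.inl rfl⟩
      · exact ⟨h2, Or.inr rfl⟩
  rw [← h4]
  exact h3

instance instDFupair {s t : (ℕ → ZFSet.{0}) → ZFSet.{0}} [hs : DF M s] [ht : DF M t] :
    DF M (fun v => ({s v, t v} : ZFSet.{0})) := by
  refine DF.of_mem (fun v hv => upair_mem (hs.mem v hv) (ht.mem v hv)) ?_
  have h1 := hs.shift
  have h2 := ht.shift
  exact Dfn.congr (inferInstance : Dfn M (fun v => v 0 = s (fun i => v (i + 1)) ∨
    v 0 = t (fun i => v (i + 1)))) (fun v _ => by rw [ZFSet.mem_pair])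

instance instDFsingleton {s : (ℕ → ZFSet.{0}) → ZFSet.{0}} [hs : DF M s] :
    DF M (fun v => ({s v} : ZFSet.{0})) :=
  DF.congr (inferInstance : DF M (fun v => ({s v, s v} : ZFSet.{0}))) (fun v _ => by simp)

instance instDFpair {s t : (ℕ → ZFSet.{0}) → ZFSet.{0}} [hs : DF M s] [ht : DF M t] :
    DF M (fun v => ZFSet.pair (s v) (t v)) :=
  (inferInstance : DF M (fun v => ({{s v}, {s v, t v}} : ZFSet.{0})))

theorem sUnion_mem {a : ZFSet.{0}} (ha : a ∈ M) : ⋃₀ a ∈ M := by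
  obtain ⟨z, hz, h1⟩ := hM.out.union a ha
  have h3 := (inferInstance : DF M (fun v => ZFSet.sep (fun x => ∃ y ∈ v 0, x ∈ y) (v 1))).mem
    (vcons a (fun _ => z)) (vcons_mem ha (fun _ => hz))
  have h4 : ZFSet.sep (fun x => ∃ y ∈ a, x ∈ y) z = ⋃₀ a := by
    ext x
    rw [ZFSet.mem_sep, ZFSet.mem_sUnion]
    constructor
    · exact fun h => h.2
    · rintro ⟨y, hy, hx⟩
      exact ⟨h1 y hy x hx, y, hy, hx⟩
  rw [← h4]
  exact h3

instance instDFsUnion {s : (ℕ → ZFSet.{0}) → ZFSet.{0}} [hs : DF M s] :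
    DF M (fun v => ⋃₀ (s v)) := by
  refine DF.of_mem (fun v hv => sUnion_mem (hs.mem v hv)) ?_
  have h1 := hs.shift
  exact Dfn.congr (inferInstance : Dfn M (fun v => ∃ y ∈ s (fun i => v (i + 1)), v 0 ∈ y))
    (fun v _ => by rw [ZFSet.mem_sUnion])

instance instDFunion {s t : (ℕ → ZFSet.{0}) → ZFSet.{0}} [hs : DF M s] [ht : DF M t] :
    DF M (fun v => s v ∪ t v) :=
  (inferInstance : DF M (fun v => ⋃₀ ({s v, t v} : ZFSet.{0})))

instance instDFinter {s t : (ℕ → ZFSet.{0}) → ZFSet.{0}} [hs : DF M s] [ht : DF M t] :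
    DF M (fun v => s v ∩ t v) := by
  have h1 := ht.shift
  exact (inferInstance : DF M (fun v => ZFSet.sep (fun x => x ∈ t v) (s v)))

instance instDFsdiff {s t : (ℕ → ZFSet.{0}) → ZFSet.{0}} [hs : DF M s] [ht : DF M t] :
    DF M (fun v => s v \ t v) := by
  have h1 := ht.shift
  exact (inferInstance : DF M (fun v => ZFSet.sep (fun x => x ∉ t v) (s v)))

instance instDFinsert {s t : (ℕ → ZFSet.{0}) → ZFSet.{0}} [hs : DF M s] [ht : DF M t] :
    DF M (fun v => insert (s v) (t v)) :=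
  DF.congr (inferInstance : DF M (fun v => {s v} ∪ t v)) (fun v _ => (ZFSet.insert_eq _ _).symm)

/-- The power set in the sense of `M`. -/
noncomputable def pwM (M : Set ZFSet.{0}) (a : ZFSet.{0}) : ZFSet.{0} :=
  ZFSet.sep (· ∈ M) (ZFSet.powerset a)

theorem mem_pw {a x : ZFSet.{0}} : x ∈ pwM M a ↔ x ∈ M ∧ x ⊆ a := by
  rw [pwM, ZFSet.mem_sep, ZFSet.mem_powerset, and_comm]

theorem pw_mem {a : ZFSet.{0}} (ha : a ∈ M) : pwM M a ∈ M := by
  obtain ⟨z, hz, h1⟩ := hM.out.power a ha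
  have h3 := (inferInstance : DF M (fun v => ZFSet.sep (fun x => x ⊆ v 0) (v 1))).mem
    (vcons a (fun _ => z)) (vcons_mem ha (fun _ => hz))
  have h4 : ZFSet.sep (fun x => x ⊆ a) z = pwM M a := by
    ext x
    rw [ZFSet.mem_sep, mem_pw]
    constructor
    · exact fun h => ⟨tr hz h.1, h.2⟩
    · rintro ⟨hx, h⟩
      exact ⟨h1 x hx h, h⟩
  rw [← h4]
  exact h3

instance instDFpw {s : (ℕ → ZFSet.{0}) → ZFSet.{0}} [hs : DF M s] :
    DF M (fun v => pwM M (s v)) := by
  refine DF.of_mem (fun v hv => pw_mem (hs.mem v hv)) ?_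
  have h1 := hs.shift
  exact Dfn.congr (inferInstance : Dfn M (fun v => v 0 ⊆ s (fun i => v (i + 1))))
    (fun v hv => by rw [mem_pw, and_iff_right (hv 0)])

theorem img_mem {F : ZFSet.{0} → (ℕ → ZFSet.{0}) → ZFSet.{0}}
    (h : DF M (fun v => F (v 0) (fun i => v (i + 1)))) {v : ℕ → ZFSet.{0}}
    (hv : ∀ i, v i ∈ M) {a : ZFSet.{0}} (ha : a ∈ M) : img (fun x => F x v) a ∈ M := by
  have h1 : Dfn M (fun v => v 1 = F (v 0) (fun i => v (i + 2))) :=
    h.dfn.reindex (fun i => match i with | 0 => 1 | 1 => 0 | (j + 2) => j + 2)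
  obtain ⟨b, hb⟩ := hM.out.replacement _ (h1.definable₂ hv) ⟨a, ha⟩ (by
    intro x _
    refine ⟨⟨F x v, h.mem (vcons x.1 v) (vcons_mem x.2 hv)⟩, rfl, ?_⟩
    intro y hy
    exact Subtype.ext hy)
  have h2 : DF M (fun v => F (v 0) (fun i => v (i + 4))) :=
    h.reindex (fun i => match i with | 0 => 0 | (j + 1) => j + 4)
  have h3 := (inferInstance : DF M (fun v => ZFSet.sep (fun y => ∃ x ∈ v 0,
    F x (fun i => v (i + 1 + 1)) = y) (v 1))).mem
    (vcons a (vcons b.1 v)) (vcons_mem ha (vcons_mem b.2 hv))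
  have h4 : ZFSet.sep (fun y => ∃ x ∈ a, F x v = y) b.1 = img (fun x => F x v) a := by
    ext y
    rw [ZFSet.mem_sep, mem_img]
    constructor
    · exact fun h => h.2
    · rintro ⟨x, hx, rfl⟩
      obtain ⟨y, hy, hxy⟩ := hb ⟨x, tr ha hx⟩ hx
      have : y.1 = F x v := hxy
      rw [← this]
      exact ⟨hy, x, hx, this.symm⟩
  rw [← h4]
  exact h3

instance instDFimg {F : ZFSet.{0} → (ℕ → ZFSet.{0}) → ZFSet.{0}} {t : (ℕ → ZFSet.{0}) → ZFSet.{0}}
    [h : DF M (fun v => F (v 0) (fun i => v (i + 1)))] [ht : DF M t] :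
    DF M (fun v => img (fun x => F x v) (t v)) := by
  refine DF.of_mem (fun v hv => img_mem h hv (ht.mem v hv)) ?_
  have h1 := ht.shift
  have h2 : DF M (fun v => F (v 0) (fun i => v (i + 2))) :=
    h.reindex (fun i => match i with | 0 => 0 | (j + 1) => j + 2)
  exact Dfn.congr (inferInstance : Dfn M (fun v => ∃ x ∈ t (fun i => v (i + 1)),
    F x (fun i => v (i + 1)) = v 0)) (fun v _ => by rw [mem_img])

instance instDFite {φ : (ℕ → ZFSet.{0}) → Prop} {s t : (ℕ → ZFSet.{0}) → ZFSet.{0}}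
    {d : ∀ v, Decidable (φ v)} [h : Dfn M φ] [hs : DF M s] [ht : DF M t] :
    DF M (fun v => if φ v then s v else t v) := by
  refine ⟨fun v hv => ?_, ?_⟩
  · by_cases h : φ v
    · simp only [h, if_true]
      exact hs.mem v hv
    · simp only [h, if_false]
      exact ht.mem v hv
  · have h1 := hs.shift
    have h2 := ht.shift
    have h3 := h.reindex (· + 1)
    refine Dfn.congr (inferInstance : Dfn M (fun v => (φ (fun i => v (i + 1)) ∧
      v 0 = s (fun i => v (i + 1))) ∨ (¬ φ (fun i => v (i + 1)) ∧ v 0 = t (fun i => v (i + 1))))) ?_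
    intro v _
    by_cases h : φ (fun i => v (i + 1)) <;> simp [h]

instance : InM M ∅ := by
  obtain ⟨x, hx, h, -⟩ := hM.out.infinity
  exact ⟨tr hx h⟩

theorem nat_mem_M (n : ℕ) : nat n ∈ M := by
  induction n with
  | zero => exact (inferInstance : InM M ∅).out
  | succ n ih =>
    rw [nat_succ]
    exact (inferInstance : DF M (fun v => insert (v 0) (v 0))).mem (fun _ => nat n) (fun _ => ih)

instance (n : ℕ) : InM M (nat n) := ⟨nat_mem_M n⟩

theorem om_mem_M : om ∈ M := by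
  obtain ⟨x, hx, h0, hs⟩ := hM.out.infinity
  have hnat : ∀ n, nat n ∈ x := by
    intro n
    induction n with
    | zero => exact h0
    | succ n ih => exact hs _ ih
  -- the set of members of `x` which lie in every inductive set of `M`
  have h1 := (inferInstance : DF M (fun v => ZFSet.sep (fun z => ∀ y ∈ M, (v 1 ∈ y ∧
    ∀ w ∈ y, insert w w ∈ y) → z ∈ y) (v 0))).mem (vcons x (fun _ => ∅))
    (vcons_mem hx (fun _ => (inferInstance : InM M ∅).out))
  have h2 : ZFSet.sep (fun z => ∀ y ∈ M, (∅ ∈ y ∧ ∀ w ∈ y, insert w w ∈ y) → z ∈ y) x = om := by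
    ext z
    rw [ZFSet.mem_sep, mem_om]
    constructor
    · rintro ⟨hzx, hz⟩
      by_contra hcon
      -- take an `∈`-minimal member of `sep … x` which is not a natural number
      have key : ∀ z : ZFSet.{0}, z ∈ ZFSet.sep (fun z => ∀ y ∈ M, (∅ ∈ y ∧
          ∀ w ∈ y, insert w w ∈ y) → z ∈ y) x → ∃ n, nat n = z := by
        intro z
        induction z using ZFSet.inductionOn with
        | _ z ih =>
          intro hz'
          by_contra hcon'
          rw [ZFSet.mem_sep] at hz'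
          have h3 : (ZFSet.sep (fun z => ∀ y ∈ M, (∅ ∈ y ∧
              ∀ w ∈ y, insert w w ∈ y) → z ∈ y) x) \ {z} ∈ M := by
            have := (inferInstance : DF M (fun v => v 0 \ {v 1})).mem
              (vcons (ZFSet.sep (fun z => ∀ y ∈ M, (∅ ∈ y ∧
              ∀ w ∈ y, insert w w ∈ y) → z ∈ y) x) (fun _ => z)) (vcons_mem h1 (fun _ => tr hx hz'.1))
            exact this
          have h4 := hz'.2 _ h3 ?_
          · rw [ZFSet.mem_sdiff, ZFSet.mem_singleton] at h4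
            exact h4.2 rfl
          · constructor
            · rw [ZFSet.mem_sdiff, ZFSet.mem_sep, ZFSet.mem_singleton]
              refine ⟨⟨h0, fun y _ hy => hy.1⟩, ?_⟩
              intro h
              exact hcon' ⟨0, h⟩
            · intro w hw
              rw [ZFSet.mem_sdiff, ZFSet.mem_sep, ZFSet.mem_singleton] at hw ⊢
              obtain ⟨⟨hwx, hw1⟩, hw2⟩ := hw
              refine ⟨⟨hs w hwx, fun y hy hy' => hy'.2 _ (hw1 y hy hy')⟩, ?_⟩
              intro h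
              obtain ⟨n, hn⟩ := ih w (by rw [← h]; exact ZFSet.mem_insert w w)
                (ZFSet.mem_sep.2 ⟨hwx, hw1⟩)
              apply hcon'
              refine ⟨n + 1, ?_⟩
              rw [nat_succ, hn, h]
      exact hcon (key z (ZFSet.mem_sep.2 ⟨hzx, hz⟩))
    · rintro ⟨n, rfl⟩
      refine ⟨hnat n, fun y _ hy => ?_⟩
      induction n with
      | zero => exact hy.1
      | succ n ih => exact hy.2 _ ih
  rw [← h2]
  exact h1

instance : InM M om := ⟨om_mem_M⟩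

end Pool.Agent.Generics
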