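import Pool.Agent.Lib.MP_9214e0_lc.Reduction

/-!
The permutations which are used.
-/

set_option autoImplicit false

namespace Pool.Agent.Generics

open Set Function

/-- The shift, in the zigzag enumeration of the integers. -/
def zig : Equiv.Perm ℕ where
  toFun n := if n % 2 = 0 then n + 2 else if n = 1 then 0 else n - 2
  invFun n := if n % 2 = 1 then n + 2 else if n = 0 then 1 else n - 2
  left_inv n := by
    dsimp only
    grind
  right_inv n := by
    dsimp only
    grind

/-- The reflection, in the zigzag enumeration of the integers. -/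
def zag : Equiv.Perm ℕ where
  toFun n := if n % 2 = 0 then n + 1 else n - 1
  invFun n := if n % 2 = 0 then n + 1 else n - 1
  left_inv n := by
    dsimp only
    split_ifs <;> omega
  right_inv n := by
    dsimp only
    split_ifs <;> omega

theorem zag_zig_zag (n : ℕ) : zag (zig (zag n)) = zig.symm n := by
  simp only [zag, zig, Equiv.coe_fn_mk, Equiv.coe_fn_symm_mk]
  split_ifs <;> omega

/-- the height -/
def ht (n : ℕ) : ℤ := if n % 2 = 0 then (n / 2 : ℕ) else -((n / 2 : ℕ) : ℤ) - 1

theorem ht_zig (n : ℕ) : ht (zig n) = ht n + 1 := by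
  simp only [ht, zig, Equiv.coe_fn_mk]
  split_ifs <;> omega

theorem ht_injective : Injective ht := by
  intro n m h
  simp only [ht] at h
  split_ifs at h <;> omega

theorem ht_zig_symm (n : ℕ) : ht (zig.symm n) = ht n - 1 := by
  have := ht_zig (zig.symm n)
  rw [Equiv.apply_symm_apply] at this
  omega

theorem ht_zig_pow (j : ℤ) (n : ℕ) : ht ((zig ^ j) n) = ht n + j := by
  induction j with
  | zero => simp
  | succ j ih =>
    rw [add_comm, zpow_one_add, Equiv.Perm.mul_apply, ht_zig, ih]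
    ring
  | pred j ih =>
    rw [sub_eq_add_neg, add_comm, zpow_add, zpow_neg_one, Equiv.Perm.mul_apply]
    have := ht_zig_symm ((zig ^ (-(j : ℤ))) n)
    rw [show zig⁻¹ ((zig ^ (-(j : ℤ))) n) = zig.symm ((zig ^ (-(j : ℤ))) n) from rfl, this, ih]
    ring

theorem exists_zig_pow (n m : ℕ) : ∃ j : ℤ, (zig ^ j) n = m :=
  ⟨ht m - ht n, ht_injective (by rw [ht_zig_pow]; ring)⟩

theorem zig_pow_injective (j : ℤ) (hj : j ≠ 0) (i : ℕ) : Injective (fun n : ℕ => ((zig ^ j) ^ n) i) := by
  intro n m h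
  have h1 := congrArg ht h
  simp only [← zpow_natCast, ← zpow_mul, ht_zig_pow, add_right_inj] at h1
  have := mul_left_cancel₀ hj h1
  exact_mod_cast this

/-- the first generator of the action with spectral gap -/
def gA : Equiv.Perm ℕ where
  toFun l := if l % 3 = 1 then 2 * (l - 1) else if l % 3 = 2 then 2 * l - 1 else
    if l % 2 = 0 then l / 2 + 1 else (l + 1) / 2
  invFun l := if l % 3 = 1 then 2 * (l - 1) else if l % 3 = 2 then 2 * l - 1 else
    if l % 2 = 0 then l / 2 + 1 else (l + 1) / 2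
  left_inv l := by
    dsimp only
    split_ifs <;> omega
  right_inv l := by
    dsimp only
    split_ifs <;> omega

/-- the second generator of the action with spectral gap -/
def gB : Equiv.Perm ℕ where
  toFun l := if l % 3 = 2 then l - 2 else l + 1
  invFun l := if l % 3 = 0 then l + 2 else l - 1
  left_inv l := by
    dsimp only
    split_ifs <;> omega
  right_inv l := by
    dsimp only
    split_ifs <;> omega

/-- The set of coordinates. -/
abbrev Idx : Type := ℕ × ℕ × ℕ × ℕ

/-- `a` acts on the first coordinate -/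
def pa : Equiv.Perm Idx := Equiv.prodCongr gA (Equiv.refl _)

/-- `b` acts on the first coordinate -/
def pb : Equiv.Perm Idx := Equiv.prodCongr gB (Equiv.refl _)

/-- `u` acts on the second coordinate -/
def pu : Equiv.Perm Idx := Equiv.prodCongr (Equiv.refl _) (Equiv.prodCongr zig (Equiv.refl _))

/-- `t` acts on the fourth coordinate -/
def pT : Equiv.Perm Idx := Equiv.prodCongr (Equiv.refl _) (Equiv.prodCongr (Equiv.refl _)
  (Equiv.prodCongr (Equiv.refl _) zig))

/-- `r` reflects the third coordinate if the fourth is `0` -/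
def pr : Equiv.Perm Idx where
  toFun p := (p.1, p.2.1, if p.2.2.2 = 0 then zag p.2.2.1 else p.2.2.1, p.2.2.2)
  invFun p := (p.1, p.2.1, if p.2.2.2 = 0 then zag.symm p.2.2.1 else p.2.2.1, p.2.2.2)
  left_inv p := by
    obtain ⟨l, k, m, i⟩ := p
    by_cases h : i = 0 <;> simp [h]
  right_inv p := by
    obtain ⟨l, k, m, i⟩ := p
    by_cases h : i = 0 <;> simp [h]

/-- `s` shifts the third coordinate if the parameter `x` has a one at the fourth coordinate -/
def ps (x : ℕ → Bool) : Equiv.Perm Idx where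
  toFun p := (p.1, p.2.1, if x p.2.2.2 = true then zig p.2.2.1 else p.2.2.1, p.2.2.2)
  invFun p := (p.1, p.2.1, if x p.2.2.2 = true then zig.symm p.2.2.1 else p.2.2.1, p.2.2.2)
  left_inv p := by
    obtain ⟨l, k, m, i⟩ := p
    by_cases h : x i = true <;> simp [h]
  right_inv p := by
    obtain ⟨l, k, m, i⟩ := p
    by_cases h : x i = true <;> simp [h]

/-- The data for the spectral gap. -/
def gapData : GapData Idx where
  L := ℕ
  pr := Prod.fst
  a := pa
  b := pb
  aL := gA
  bL := gB
  ha _ := rfl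
  hb _ := rfl
  B := {l | l % 3 = 0}
  h1 l := by
    simp only [mem_ofPred_eq, gA, Equiv.coe_fn_mk]
    split_ifs <;> omega
  h2 l := by
    simp only [mem_ofPred_eq, gB, Equiv.coe_fn_mk]
    split_ifs <;> omega
  h3 l := by
    simp only [mem_ofPred_eq, gB, Equiv.coe_fn_mk]
    split_ifs <;> omega

theorem pu_pow (n : ℕ) (p : Idx) : (pu ^ n) p = (p.1, (zig ^ n) p.2.1, p.2.2) := by
  induction n with
  | zero => rfl
  | succ n ih =>
    rw [pow_succ', Equiv.Perm.mul_apply, ih, pow_succ', Equiv.Perm.mul_apply]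
    rfl

theorem pu_injective (p : Idx) : Injective (fun n : ℕ => (pu ^ n) p) := by
  intro n m h
  simp only [pu_pow, Prod.mk.injEq, true_and, and_true] at h
  have := zig_pow_injective 1 one_ne_zero p.2.1
  simp only [zpow_one] at this
  exact this h

theorem pT_pow (j : ℤ) (p : Idx) : (pT ^ j) p = (p.1, p.2.1, p.2.2.1, (zig ^ j) p.2.2.2) := by
  induction j with
  | zero => rfl
  | succ j ih =>
    rw [add_comm, zpow_one_add, Equiv.Perm.mul_apply, ih, zpow_one_add, Equiv.Perm.mul_apply]
    rfl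
  | pred j ih =>
    rw [sub_eq_add_neg, add_comm, zpow_add, zpow_neg_one, Equiv.Perm.mul_apply, ih, zpow_add,
      zpow_neg_one, Equiv.Perm.mul_apply]
    rfl

/-- the shifted versions of `s` -/
def psn (x : ℕ → Bool) (n : ℤ) : Equiv.Perm Idx := (pT ^ n)⁻¹ * ps x * pT ^ n

/-- the commutators -/
def pw (x : ℕ → Bool) (n : ℤ) : Equiv.Perm Idx := pr * psn x n * pr⁻¹ * (psn x n)⁻¹

/-- the shifted commutators -/
def pwj (x : ℕ → Bool) (n j : ℤ) : Equiv.Perm Idx := (pT ^ j)⁻¹ * pw x n * pT ^ j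

theorem psn_apply (x : ℕ → Bool) (n : ℤ) (l k m i : ℕ) : psn x n (l, k, m, i) =
    (l, k, if x ((zig ^ n) i) = true then zig m else m, i) := by
  unfold psn
  rw [Equiv.Perm.mul_apply, Equiv.Perm.mul_apply, pT_pow, ← zpow_neg, pT_pow]
  simp only [ps, Equiv.coe_fn_mk, zpow_neg]
  have : (zig ^ n)⁻¹ ((zig ^ n) i) = i := (zig ^ n).symm_apply_apply i
  rw [this]

theorem psn_inv_apply (x : ℕ → Bool) (n : ℤ) (l k m i : ℕ) : (psn x n)⁻¹ (l, k, m, i) =
    (l, k, if x ((zig ^ n) i) = true then zig.symm m else m, i) := by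
  rw [Equiv.Perm.inv_eq_iff_eq, psn_apply]
  by_cases h : x ((zig ^ n) i) = true <;> simp [h]

theorem pw_apply (x : ℕ → Bool) (n : ℤ) (l k m i : ℕ) : pw x n (l, k, m, i) =
    (l, k, if i = 0 ∧ x ((zig ^ n) 0) = true then zig.symm (zig.symm m) else m, i) := by
  unfold pw
  rw [Equiv.Perm.mul_apply, Equiv.Perm.mul_apply, Equiv.Perm.mul_apply, psn_inv_apply]
  have hinv : ∀ (l k m i : ℕ), pr⁻¹ (l, k, m, i) = (l, k, if i = 0 then zag m else m, i) := by
    intro l k m i
    rfl
  have hpr : ∀ (l k m i : ℕ), pr (l, k, m, i) = (l, k, if i = 0 then zag m else m, i) := by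
    intro l k m i
    rfl
  have hzz : ∀ m, zag (zag m) = m := fun m => zag.left_inv m
  rw [hinv, psn_apply, hpr]
  by_cases h : i = 0
  · subst h
    by_cases h2 : x ((zig ^ n) 0) = true
    · simp [h2, zag_zig_zag]
    · simp [h2, hzz]
  · by_cases h2 : x ((zig ^ n) i) = true <;> simp [h, h2]

theorem pw_eq_one (x : ℕ → Bool) (n : ℤ) (h : x ((zig ^ n) 0) = false) : pw x n = 1 := by
  ext1 ⟨l, k, m, i⟩
  rw [pw_apply]
  simp [h]

theorem pwj_apply (x : ℕ → Bool) (n j : ℤ) (h : x ((zig ^ n) 0) = true) (l k m i : ℕ)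
    (hi : (zig ^ j) i = 0) : pwj x n j (l, k, m, i) = (l, k, (zig ^ (-2 : ℤ)) m, i) := by
  unfold pwj
  rw [Equiv.Perm.mul_apply, Equiv.Perm.mul_apply, pT_pow]
  simp only [hi]
  rw [pw_apply, ← zpow_neg, pT_pow]
  simp only [h, and_self, if_true]
  have h2 : (zig ^ (-j)) 0 = i := by
    rw [← hi, zpow_neg]
    exact (zig ^ j).symm_apply_apply i
  rw [h2]
  rfl

theorem pwj_injective (x : ℕ → Bool) (n : ℤ) (h : x ((zig ^ n) 0) = true) (p : Idx) :
    ∃ j : ℤ, Injective (fun N : ℕ => ((pwj x n j) ^ N) p) := by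
  obtain ⟨l, k, m, i⟩ := p
  obtain ⟨j, hj⟩ := exists_zig_pow i 0
  refine ⟨j, ?_⟩
  have key : ∀ N : ℕ, ((pwj x n j) ^ N) (l, k, m, i) = (l, k, ((zig ^ (-2 : ℤ)) ^ N) m, i) := by
    intro N
    induction N with
    | zero => rfl
    | succ N ih =>
      rw [pow_succ', Equiv.Perm.mul_apply, ih, pwj_apply x n j h _ _ _ _ hj, pow_succ',
        Equiv.Perm.mul_apply]
  intro N N' hN
  simp only [key, Prod.mk.injEq, true_and, and_true] at hN
  exact zig_pow_injective (-2) (by norm_num) m hN

end Pool.Agent.Generics
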