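import Pool.Agent.Lib.MP_9214e0_lc.Adm
import Pool.Agent.Lib.MP_9214e0_lc.Perms

/-!
Coordinates: reals as pairs of a parameter and a point of the shift space, and the admissible
maps given by the permutations.
-/

set_option autoImplicit false
set_option linter.unusedSectionVars false
set_option linter.unusedVariables false

namespace Pool.Agent.Generics

open MeasureTheory Set ZFSet FirstOrder Language Filter
open scoped ENNReal Topology

/-- coding of indices -/
def cix (p : Idx) : ℕ := Nat.pair (Nat.pair p.1 p.2.1) (Nat.pair p.2.2.1 p.2.2.2)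

/-- decoding of indices -/
def dix (n : ℕ) : Idx := ((Nat.unpair (Nat.unpair n).1).1, (Nat.unpair (Nat.unpair n).1).2,
  (Nat.unpair (Nat.unpair n).2).1, (Nat.unpair (Nat.unpair n).2).2)

theorem dix_cix (p : Idx) : dix (cix p) = p := by
  obtain ⟨l, k, m, i⟩ := p
  simp [dix, cix]

theorem cix_dix (n : ℕ) : cix (dix n) = n := by
  simp [dix, cix]

/-- the coordinates -/
def eco : ℕ ≃ ℕ ⊕ Idx where
  toFun n := if n % 2 = 0 then Sum.inl (n / 2) else Sum.inr (dix (n / 2))
  invFun := Sum.elim (fun i => 2 * i) (fun p => 2 * cix p + 1)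
  left_inv n := by
    dsimp only
    split_ifs with h
    · simp only [Sum.elim_inl]
      omega
    · simp only [Sum.elim_inr, cix_dix]
      omega
  right_inv s := by
    rcases s with i | p
    · simp
    · have h1 : (2 * cix p + 1) % 2 ≠ 0 := by omega
      have h2 : (2 * cix p + 1) / 2 = cix p := by omega
      change (if (2 * cix p + 1) % 2 = 0 then Sum.inl ((2 * cix p + 1) / 2) else
        Sum.inr (dix ((2 * cix p + 1) / 2))) = _
      rw [if_neg h1, h2, dix_cix]

/-- join a parameter and a point -/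
def jn (x : ℕ → Bool) (z : Idx → Bool) : ℕ → Bool := (Sum.elim x z) ∘ eco

/-- the parameter of a real -/
def par (w : ℕ → Bool) : ℕ → Bool := (w ∘ eco.symm) ∘ Sum.inl

/-- the point of a real -/
def fib (w : ℕ → Bool) : Idx → Bool := (w ∘ eco.symm) ∘ Sum.inr

theorem par_jn (x : ℕ → Bool) (z : Idx → Bool) : par (jn x z) = x := by
  funext i
  simp [par, jn]

theorem fib_jn (x : ℕ → Bool) (z : Idx → Bool) : fib (jn x z) = z := by
  funext i
  simp [fib, jn]

theorem jn_par_fib (w : ℕ → Bool) : jn (par w) (fib w) = w := by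
  funext n
  rw [jn, Function.comp_apply]
  rcases h : eco n with i | p
  · rw [Sum.elim_inl, par]
    simp only [Function.comp_apply]
    rw [← h, Equiv.symm_apply_apply]
  · rw [Sum.elim_inr, fib]
    simp only [Function.comp_apply]
    rw [← h, Equiv.symm_apply_apply]

theorem mp_jn : MeasurePreserving (fun p : (ℕ → Bool) × (Idx → Bool) => jn p.1 p.2)
    ((coin ℕ).prod (coin Idx)) (coin ℕ) :=
  (mp_comp (ι := ℕ ⊕ Idx) (κ := ℕ) (j := eco) eco.injective).comp mp_elim

theorem mp_split : MeasurePreserving (fun w : ℕ → Bool => (par w, fib w)) (coin ℕ)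
    ((coin ℕ).prod (coin Idx)) :=
  mp_sum.comp (mp_comp (ι := ℕ) (κ := ℕ ⊕ Idx) (j := eco.symm) eco.symm.injective)

/-- The map of the reals given by a family of permutations. -/
def TP (π : (ℕ → Bool) → Equiv.Perm Idx) (w : ℕ → Bool) : ℕ → Bool :=
  jn (par w) (fib w ∘ π (par w))

theorem TP_jn (π : (ℕ → Bool) → Equiv.Perm Idx) (x : ℕ → Bool) (z : Idx → Bool) :
    TP π (jn x z) = jn x (z ∘ π x) := by
  rw [TP, par_jn, fib_jn]

theorem TP_symm (π : (ℕ → Bool) → Equiv.Perm Idx) (w : ℕ → Bool) :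
    TP (fun x => (π x).symm) (TP π w) = w := by
  rw [TP, TP, par_jn, fib_jn, Function.comp_assoc]
  have : (π (par w) : Idx → Idx) ∘ (π (par w)).symm = id := by
    funext p
    simp
  rw [this, Function.comp_id, jn_par_fib]

theorem mp_TP {π : (ℕ → Bool) → Equiv.Perm Idx} (hπ : ∀ p, Measurable (fun x => π x p)) :
    MeasurePreserving (TP π) (coin ℕ) (coin ℕ) := by
  have h1 : MeasurePreserving (fun p : (ℕ → Bool) × (Idx → Bool) => (id p.1, p.2 ∘ π p.1))
      ((coin ℕ).prod (coin Idx)) ((coin ℕ).prod (coin Idx)) := by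
    refine MeasurePreserving.skew_product (g := fun (x : ℕ → Bool) (z : Idx → Bool) => z ∘ π x)
      (MeasurePreserving.id _) ?_ ?_
    · rw [measurable_pi_iff]
      intro p
      have h2 : Measurable (fun q : Idx × (Idx → Bool) => q.2 q.1) :=
        measurable_from_prod_countable_right fun q => measurable_pi_apply q
      exact h2.comp (((hπ p).comp measurable_fst).prodMk measurable_snd)
    · exact ae_of_all _ fun x => (mp_perm (π x)).map_eq
  have h2 := (mp_jn.comp h1).comp mp_split
  exact h2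

theorem TP_apply (π : (ℕ → Bool) → Equiv.Perm Idx) (w : ℕ → Bool) (n : ℕ) : TP π w n =
    if n % 2 = 0 then w n else w (2 * cix (π (par w) (dix (n / 2))) + 1) := by
  rw [TP, jn, Function.comp_apply]
  by_cases h : n % 2 = 0
  · have h1 : eco n = Sum.inl (n / 2) := by simp [eco, h]
    rw [h1, Sum.elim_inl, if_pos h, par]
    simp only [Function.comp_apply]
    rw [← h1, Equiv.symm_apply_apply]
  · have h1 : eco n = Sum.inr (dix (n / 2)) := by simp [eco, h]
    rw [h1, Sum.elim_inr, if_neg h]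
    rfl

variable {M : Set ZFSet.{0}} [hM : Fact (IsCTM M)]

/-- Criterion for admissibility. -/
theorem adm_of {T : (ℕ → Bool) → (ℕ → Bool)} (hmp : MeasurePreserving T (coin ℕ) (coin ℕ))
    {a b c : ℕ → ℕ} (ha : DN M (fun v => a (nn (v 0)))) (hb : DN M (fun v => b (nn (v 0))))
    (hc : DN M (fun v => c (nn (v 0))))
    (hT : ∀ w n, T w n = if w (c n) = true then w (a n) else w (b n)) : Adm M T := by
  refine ⟨?_, ?_, hmp⟩
  · intro n
    refine ⟨max (a n) (max (b n) (c n)) + 1, fun x y hxy => ?_⟩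
    rw [hT, hT, hxy (a n) (by omega), hxy (b n) (by omega), hxy (c n) (by omega)]
  · classical
    refine DR.congr (inferInstance : DR M (fun v n => decide ((ofz (v 0) (c n) = true ∧
      ofz (v 0) (a n) = true) ∨ (¬ ofz (v 0) (c n) = true ∧ ofz (v 0) (b n) = true)))) ?_
    intro v _
    funext n
    rw [hT, Bool.eq_iff_iff, decide_eq_true_eq]
    by_cases h : ofz (v 0) (c n) = true <;> simp [h]

theorem adm_TP {π : (ℕ → Bool) → Equiv.Perm Idx} (hπ : ∀ p, Measurable (fun x => π x p))
    {a b c : ℕ → ℕ} (ha : DN M (fun v => a (nn (v 0)))) (hb : DN M (fun v => b (nn (v 0))))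
    (hc : DN M (fun v => c (nn (v 0))))
    (hT : ∀ x n, cix (π x (dix n)) = if x (c n) = true then a n else b n) : Adm M (TP π) := by
  have ha' : DN M (fun v => a (nn (v 0) / 2)) := DN.comp1 a ha inferInstance
  have hb' : DN M (fun v => b (nn (v 0) / 2)) := DN.comp1 b hb inferInstance
  have hc' : DN M (fun v => c (nn (v 0) / 2)) := DN.comp1 c hc inferInstance
  refine adm_of (mp_TP hπ) (a := fun n => if n % 2 = 0 then n else 2 * a (n / 2) + 1)
    (b := fun n => if n % 2 = 0 then n else 2 * b (n / 2) + 1)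
    (c := fun n => 2 * c (n / 2)) inferInstance inferInstance inferInstance ?_
  intro w n
  rw [TP_apply, hT]
  have h1 : par w (c (n / 2)) = w (2 * c (n / 2)) := rfl
  rw [h1]
  split_ifs <;> rfl

theorem dn_gA : DN M (fun v => gA (nn (v 0))) :=
  (inferInstance : DN M (fun v => if nn (v 0) % 3 = 1 then 2 * (nn (v 0) - 1) else
    if nn (v 0) % 3 = 2 then 2 * nn (v 0) - 1 else
    if nn (v 0) % 2 = 0 then nn (v 0) / 2 + 1 else (nn (v 0) + 1) / 2))

theorem dn_gA' : DN M (fun v => gA.symm (nn (v 0))) :=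
  (inferInstance : DN M (fun v => if nn (v 0) % 3 = 1 then 2 * (nn (v 0) - 1) else
    if nn (v 0) % 3 = 2 then 2 * nn (v 0) - 1 else
    if nn (v 0) % 2 = 0 then nn (v 0) / 2 + 1 else (nn (v 0) + 1) / 2))

theorem dn_gB : DN M (fun v => gB (nn (v 0))) :=
  (inferInstance : DN M (fun v => if nn (v 0) % 3 = 2 then nn (v 0) - 2 else nn (v 0) + 1))

theorem dn_gB' : DN M (fun v => gB.symm (nn (v 0))) :=
  (inferInstance : DN M (fun v => if nn (v 0) % 3 = 0 then nn (v 0) + 2 else nn (v 0) - 1))

theorem dn_zig : DN M (fun v => zig (nn (v 0))) :=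
  (inferInstance : DN M (fun v => if nn (v 0) % 2 = 0 then nn (v 0) + 2 else
    if nn (v 0) = 1 then 0 else nn (v 0) - 2))

theorem dn_zig' : DN M (fun v => zig.symm (nn (v 0))) :=
  (inferInstance : DN M (fun v => if nn (v 0) % 2 = 1 then nn (v 0) + 2 else
    if nn (v 0) = 0 then 1 else nn (v 0) - 2))

theorem dn_zag : DN M (fun v => zag (nn (v 0))) :=
  (inferInstance : DN M (fun v => if nn (v 0) % 2 = 0 then nn (v 0) + 1 else nn (v 0) - 1))

theorem dn_zag' : DN M (fun v => zag.symm (nn (v 0))) :=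
  (inferInstance : DN M (fun v => if nn (v 0) % 2 = 0 then nn (v 0) + 1 else nn (v 0) - 1))

/-- Pairs of mutually inverse admissible maps. -/
def AdmPair (M : Set ZFSet.{0}) (π : (ℕ → Bool) → Equiv.Perm Idx) : Prop :=
  Adm M (TP π) ∧ Adm M (TP (fun x => (π x).symm))

theorem AdmPair.extn_eq {π : (ℕ → Bool) → Equiv.Perm Idx} (h : AdmPair M π) (w : ℕ → Bool) :
    extn M (rand M) (Gw M (TP π w)) = extn M (rand M) (Gw M w) := by
  refine Pool.Agent.Generics.extn_eq h.1 h.2 (TP_symm π) ?_ w
  intro w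
  have h1 := TP_symm (fun x => (π x).symm) w
  simpa only [Equiv.symm_symm] using h1

theorem adm_first {g : ℕ → ℕ} (hg : DN M (fun v => g (nn (v 0)))) {e : Equiv.Perm Idx}
    (he : ∀ p, e p = (g p.1, p.2)) : Adm M (TP (fun _ => e)) := by
  have h1 : DN M (fun v => g (Nat.unpair (Nat.unpair (nn (v 0))).1).1) :=
    DN.comp1 g hg inferInstance
  refine adm_TP (fun p => measurable_const)
    (a := fun n => Nat.pair (Nat.pair (g (Nat.unpair (Nat.unpair n).1).1)
      (Nat.unpair (Nat.unpair n).1).2) (Nat.unpair n).2)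
    (b := fun n => Nat.pair (Nat.pair (g (Nat.unpair (Nat.unpair n).1).1)
      (Nat.unpair (Nat.unpair n).1).2) (Nat.unpair n).2)
    (c := fun _ => 0) inferInstance inferInstance inferInstance ?_
  intro x n
  rw [he]
  simp [cix, dix]

theorem admPair_pa : AdmPair M (fun _ => pa) :=
  ⟨adm_first dn_gA (fun p => rfl), adm_first dn_gA' (fun p => rfl)⟩

theorem admPair_pb : AdmPair M (fun _ => pb) :=
  ⟨adm_first dn_gB (fun p => rfl), adm_first dn_gB' (fun p => rfl)⟩

theorem adm_second {g : ℕ → ℕ} (hg : DN M (fun v => g (nn (v 0)))) {e : Equiv.Perm Idx}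
    (he : ∀ p, e p = (p.1, g p.2.1, p.2.2)) : Adm M (TP (fun _ => e)) := by
  have h1 : DN M (fun v => g (Nat.unpair (Nat.unpair (nn (v 0))).1).2) :=
    DN.comp1 g hg inferInstance
  refine adm_TP (fun p => measurable_const)
    (a := fun n => Nat.pair (Nat.pair (Nat.unpair (Nat.unpair n).1).1
      (g (Nat.unpair (Nat.unpair n).1).2)) (Nat.unpair n).2)
    (b := fun n => Nat.pair (Nat.pair (Nat.unpair (Nat.unpair n).1).1
      (g (Nat.unpair (Nat.unpair n).1).2)) (Nat.unpair n).2)
    (c := fun _ => 0) inferInstance inferInstance inferInstance ?_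
  intro x n
  rw [he]
  simp [cix, dix]

theorem admPair_pu : AdmPair M (fun _ => pu) :=
  ⟨adm_second dn_zig (fun p => rfl), adm_second dn_zig' (fun p => rfl)⟩

theorem adm_fourth {g : ℕ → ℕ} (hg : DN M (fun v => g (nn (v 0)))) {e : Equiv.Perm Idx}
    (he : ∀ p, e p = (p.1, p.2.1, p.2.2.1, g p.2.2.2)) : Adm M (TP (fun _ => e)) := by
  have h1 : DN M (fun v => g (Nat.unpair (Nat.unpair (nn (v 0))).2).2) :=
    DN.comp1 g hg inferInstance
  refine adm_TP (fun p => measurable_const)
    (a := fun n => Nat.pair (Nat.unpair n).1 (Nat.pair (Nat.unpair (Nat.unpair n).2).1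
      (g (Nat.unpair (Nat.unpair n).2).2)))
    (b := fun n => Nat.pair (Nat.unpair n).1 (Nat.pair (Nat.unpair (Nat.unpair n).2).1
      (g (Nat.unpair (Nat.unpair n).2).2)))
    (c := fun _ => 0) inferInstance inferInstance inferInstance ?_
  intro x n
  rw [he]
  simp [cix, dix]

theorem admPair_pT : AdmPair M (fun _ => pT) :=
  ⟨adm_fourth dn_zig (fun p => rfl), adm_fourth dn_zig' (fun p => rfl)⟩

theorem adm_third {g : ℕ → ℕ} (hg : DN M (fun v => g (nn (v 0)))) {e : Equiv.Perm Idx}
    (he : ∀ p, e p = (p.1, p.2.1, if p.2.2.2 = 0 then g p.2.2.1 else p.2.2.1, p.2.2.2)) :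
    Adm M (TP (fun _ => e)) := by
  have h1 : DN M (fun v => g (Nat.unpair (Nat.unpair (nn (v 0))).2).1) :=
    DN.comp1 g hg inferInstance
  refine adm_TP (fun p => measurable_const)
    (a := fun n => Nat.pair (Nat.unpair n).1 (Nat.pair (if (Nat.unpair (Nat.unpair n).2).2 = 0 then
      g (Nat.unpair (Nat.unpair n).2).1 else (Nat.unpair (Nat.unpair n).2).1)
      (Nat.unpair (Nat.unpair n).2).2))
    (b := fun n => Nat.pair (Nat.unpair n).1 (Nat.pair (if (Nat.unpair (Nat.unpair n).2).2 = 0 then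
      g (Nat.unpair (Nat.unpair n).2).1 else (Nat.unpair (Nat.unpair n).2).1)
      (Nat.unpair (Nat.unpair n).2).2))
    (c := fun _ => 0) inferInstance inferInstance inferInstance ?_
  intro x n
  rw [he]
  simp [cix, dix]

theorem admPair_pr : AdmPair M (fun _ => pr) :=
  ⟨adm_third dn_zag (fun p => rfl), adm_third dn_zag' (fun p => rfl)⟩

theorem adm_par {g : ℕ → ℕ} (hg : DN M (fun v => g (nn (v 0)))) {e : (ℕ → Bool) → Equiv.Perm Idx}
    (he : ∀ x p, e x p = (p.1, p.2.1, if x p.2.2.2 = true then g p.2.2.1 else p.2.2.1, p.2.2.2)) :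
    Adm M (TP e) := by
  have h1 : DN M (fun v => g (Nat.unpair (Nat.unpair (nn (v 0))).2).1) :=
    DN.comp1 g hg inferInstance
  refine adm_TP (fun p => ?_)
    (a := fun n => Nat.pair (Nat.unpair n).1 (Nat.pair (g (Nat.unpair (Nat.unpair n).2).1)
      (Nat.unpair (Nat.unpair n).2).2))
    (b := fun n => Nat.pair (Nat.unpair n).1 (Nat.pair (Nat.unpair (Nat.unpair n).2).1
      (Nat.unpair (Nat.unpair n).2).2))
    (c := fun n => (Nat.unpair (Nat.unpair n).2).2) inferInstance inferInstance inferInstance ?_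
  · simp only [he]
    refine measurable_const.prodMk (measurable_const.prodMk (Measurable.prodMk ?_ measurable_const))
    exact Measurable.ite (measurableSet_eq_fun (measurable_pi_apply _) measurable_const)
      measurable_const measurable_const
  · intro x n
    rw [he]
    by_cases h : x (Nat.unpair (Nat.unpair n).2).2 = true
    · simp [cix, dix, h]
    · simp [cix, dix, h]

theorem admPair_ps : AdmPair M ps :=
  ⟨adm_par dn_zig (fun x p => rfl), adm_par dn_zig' (fun x p => rfl)⟩

end Pool.Agent.Generics
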