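import Mathlib

/-!
The coin-tossing measure on `ι → Bool` and measure-preserving maps.
-/

set_option autoImplicit false

namespace Pool.Agent.Generics

open MeasureTheory Set Function
open scoped ENNReal

/-- The fair coin. -/
noncomputable def fair : Measure Bool := (2 : ℝ≥0∞)⁻¹ • Measure.count

theorem fair_singleton (b : Bool) : fair {b} = (2 : ℝ≥0∞)⁻¹ := by
  simp [fair]

instance : IsProbabilityMeasure fair := ⟨by
  have h : (univ : Set Bool) = {true} ∪ {false} := by
    ext b
    cases b <;> simp
  rw [h, measure_union (by simp) (measurableSet_singleton _), fair_singleton, fair_singleton,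
    ENNReal.inv_two_add_inv_two]⟩

theorem fair_map_not : fair.map (fun b => !b) = fair := by
  ext s _
  rw [Measure.map_apply (measurable_of_countable _) (MeasurableSet.of_discrete)]
  simp only [fair, Measure.smul_apply]
  congr 1
  have : (fun b : Bool => !b) ⁻¹' s = (fun b : Bool => !b) '' s := by
    ext b
    simp only [mem_preimage, mem_image]
    constructor
    · intro h
      exact ⟨!b, h, by simp⟩
    · rintro ⟨a, ha, rfl⟩
      simpa using ha
  rw [this]
  exact Measure.count_injective_image (fun a b h => by simpa using h) s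

/-- The coin-tossing measure. -/
noncomputable def coin (ι : Type) : Measure (ι → Bool) := Measure.infinitePi (fun _ => fair)

instance (ι : Type) : IsProbabilityMeasure (coin ι) := by
  unfold coin
  infer_instance

variable {ι κ : Type}

theorem coin_pi {s : Finset ι} {t : ι → Set Bool} :
    coin ι (Set.pi s t) = ∏ i ∈ s, fair (t i) :=
  Measure.infinitePi_pi _ (fun _ _ => MeasurableSet.of_discrete)

/-- Restriction to a set of coordinates preserves the coin-tossing measure. -/
theorem mp_comp {j : κ → ι} (hj : Injective j) :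
    MeasurePreserving (fun w : ι → Bool => w ∘ j) (coin ι) (coin κ) := by
  classical
  refine ⟨by fun_prop, ?_⟩
  refine Measure.eq_infinitePi _ ?_
  intro s t ht
  have hm : MeasurableSet (Set.pi (s : Set κ) t) := MeasurableSet.pi s.countable_toSet
    (fun i _ => ht i)
  rw [Measure.map_apply (by fun_prop) hm]
  have h1 : (fun w : ι → Bool => w ∘ j) ⁻¹' (Set.pi (s : Set κ) t) =
      Set.pi ((s.map ⟨j, hj⟩ : Finset ι) : Set ι) (fun i => {b | ∀ k, j k = i → b ∈ t k}) := by
    ext w
    simp only [mem_preimage, Set.mem_pi, Finset.coe_map, Embedding.coeFn_mk, mem_image,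
      SetLike.mem_coe, comp_apply, mem_ofPred_eq, forall_exists_index, and_imp]
    constructor
    · rintro h i k hk rfl k' hk'
      rw [hj hk', ← comp_apply (f := w)]
      exact h k hk
    · intro h k hk
      exact h (j k) k hk rfl k rfl
  rw [h1, coin_pi, Finset.prod_map]
  refine Finset.prod_congr rfl fun k _ => ?_
  congr 1
  ext b
  simp only [Embedding.coeFn_mk, mem_ofPred_eq]
  constructor
  · intro h
    exact h k rfl
  · intro h k' hk'
    rw [hj hk']
    exact h

/-- Reindexing by a permutation. -/
theorem mp_perm (e : Equiv.Perm ι) :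
    MeasurePreserving (fun w : ι → Bool => w ∘ e) (coin ι) (coin ι) := mp_comp e.injective

/-- A sum of index sets corresponds to a product of measures. -/
theorem mp_sum : MeasurePreserving
    (fun w : (ι ⊕ κ) → Bool => ((w ∘ Sum.inl : ι → Bool), (w ∘ Sum.inr : κ → Bool)))
    (coin (ι ⊕ κ)) ((coin ι).prod (coin κ)) := by
  classical
  refine ⟨by fun_prop, ?_⟩
  have hmeas : Measurable (fun p : (ι → Bool) × (κ → Bool) =>
      (Sum.elim p.1 p.2 : ι ⊕ κ → Bool)) := by
    rw [measurable_pi_iff]
    rintro (i | k)
    · simp only [Sum.elim_inl]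
      fun_prop
    · simp only [Sum.elim_inr]
      fun_prop
  have h1 : ((coin ι).prod (coin κ)).map (fun p : (ι → Bool) × (κ → Bool) =>
      (Sum.elim p.1 p.2 : ι ⊕ κ → Bool)) = coin (ι ⊕ κ) := by
    refine Measure.eq_infinitePi _ ?_
    intro s t ht
    have hm : MeasurableSet (Set.pi (s : Set (ι ⊕ κ)) t) := MeasurableSet.pi s.countable_toSet
      (fun i _ => ht i)
    rw [Measure.map_apply hmeas hm]
    have h2 : (fun p : (ι → Bool) × (κ → Bool) => (Sum.elim p.1 p.2 : ι ⊕ κ → Bool)) ⁻¹'
        (Set.pi (s : Set (ι ⊕ κ)) t) = (Set.pi (s.toLeft : Set ι) (fun i => t (Sum.inl i))) ×ˢ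
        (Set.pi (s.toRight : Set κ) (fun i => t (Sum.inr i))) := by
      ext p
      simp only [mem_preimage, Set.mem_pi, SetLike.mem_coe, Sum.forall, Sum.elim_inl,
        Sum.elim_inr, mem_prod, Finset.mem_toLeft, Finset.mem_toRight]
    rw [h2, Measure.prod_prod, coin_pi, coin_pi]
    conv_rhs => rw [← Finset.toLeft_disjSum_toRight (u := s)]
    rw [Finset.prod_disjSum]
  rw [← h1, Measure.map_map (by fun_prop) hmeas]
  conv_rhs => rw [← Measure.map_id (μ := (coin ι).prod (coin κ))]
  congr 1

/-- The inverse of the map in `mp_sum`. -/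
theorem mp_elim : MeasurePreserving
    (fun p : (ι → Bool) × (κ → Bool) => (Sum.elim p.1 p.2 : ι ⊕ κ → Bool))
    ((coin ι).prod (coin κ)) (coin (ι ⊕ κ)) := by
  have hmeas : Measurable (fun p : (ι → Bool) × (κ → Bool) =>
      (Sum.elim p.1 p.2 : ι ⊕ κ → Bool)) := by
    rw [measurable_pi_iff]
    rintro (i | k)
    · simp only [Sum.elim_inl]
      fun_prop
    · simp only [Sum.elim_inr]
      fun_prop
  refine ⟨hmeas, ?_⟩
  rw [← (mp_sum (ι := ι) (κ := κ)).map_eq, Measure.map_map hmeas (by fun_prop)]
  conv_rhs => rw [← Measure.map_id (μ := coin (ι ⊕ κ))]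
  congr 1
  funext w
  ext (i | k) <;> rfl

end Pool.Agent.Generics
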