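import Mathlib

/-!
Countable transitive models of `ZFC`, the random forcing of such a model, its generic filters,
generic extensions, and essentially free equivalence relations.
-/

set_option autoImplicit false

namespace Pool.Agent.Generics

open Set ZFSet FirstOrder
open scoped ENNReal

/-! ### The language of set theory -/

/-- The language of set theory: its only symbol is a binary relation symbol. -/
def setLang : Language := ⟨fun _ => Empty, fun n => PLift (n = 2)⟩

/-- A class of sets is a structure in the language of set theory, with the true membership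
relation. -/
instance setStr (M : Set ZFSet.{0}) : setLang.Structure M where
  funMap := fun f => f.elim
  RelMap := fun r v => (v (Fin.cast r.down.symm 0)).1 ∈ (v (Fin.cast r.down.symm 1)).1

/-! ### Countable transitive models -/

/-- `M` is a countable transitive model of `ZFC`.  Extensionality and foundation hold in every
transitive set.  The remaining axioms are stated as they read in the transitive set `M`;
the schemas of separation and replacement are stated for all subsets of `M` and of `M × M`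
which are first-order definable over `(M, ∈)` with parameters. -/
structure IsCTM (M : Set ZFSet.{0}) : Prop where
  /-- `M` is countable -/
  countable : M.Countable
  /-- `M` is transitive -/
  transitive : ∀ x ∈ M, ∀ y ∈ x, y ∈ M
  /-- the axiom of pairing -/
  pairing : ∀ x ∈ M, ∀ y ∈ M, ∃ z ∈ M, x ∈ z ∧ y ∈ z
  /-- the axiom of union -/
  union : ∀ x ∈ M, ∃ z ∈ M, ∀ y ∈ x, ∀ w ∈ y, w ∈ z
  /-- the axiom of power set -/
  power : ∀ x ∈ M, ∃ z ∈ M, ∀ y ∈ M, y ⊆ x → y ∈ z
  /-- the axiom of infinity -/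
  infinity : ∃ x ∈ M, ∅ ∈ x ∧ ∀ y ∈ x, insert y y ∈ x
  /-- the schema of separation -/
  separation : ∀ s : Set M, (univ : Set M).Definable₁ setLang s →
    ∀ a : M, ∃ b : M, ∀ x : M, x.1 ∈ b.1 ↔ x.1 ∈ a.1 ∧ x ∈ s
  /-- the schema of replacement -/
  replacement : ∀ r : Set (M × M), (univ : Set M).Definable₂ setLang r →
    ∀ a : M, (∀ x : M, x.1 ∈ a.1 → ∃! y : M, (x, y) ∈ r) →
      ∃ b : M, ∀ x : M, x.1 ∈ a.1 → ∃ y : M, y.1 ∈ b.1 ∧ (x, y) ∈ r
  /-- the axiom of choice: a family of nonempty pairwise disjoint sets has a selector -/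
  choice : ∀ x ∈ M, (∀ y ∈ x, y ≠ ∅) → (∀ y ∈ x, ∀ z ∈ x, y ≠ z → ∀ w ∈ y, w ∉ z) →
    ∃ c ∈ M, ∀ y ∈ x, ∃! w, w ∈ c ∧ w ∈ y

/-! ### Natural numbers, subsets of `ω`, reals and sequences as sets -/

/-- The von Neumann natural number `n`. -/
noncomputable def nat : ℕ → ZFSet.{0}
  | 0 => ∅
  | n + 1 => insert (nat n) (nat n)

/-- The set of natural numbers. -/
noncomputable def om : ZFSet.{0} := ZFSet.range nat

/-- The set of natural numbers `u` as a member of the universe of sets. -/
noncomputable def code (u : Set ℕ) : ZFSet.{0} := ZFSet.range (fun n : u => nat n)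

/-- The element of `2^ω` as a set of natural numbers. -/
noncomputable def real (x : ℕ → Bool) : ZFSet.{0} := code {n | x n = true}

/-- A sequence of sets as a function with domain `ω`. -/
noncomputable def seqc (s : ℕ → ZFSet.{0}) : ZFSet.{0} :=
  ZFSet.range (fun n : ℕ => ZFSet.pair (nat n) (s n))

/-! ### The real line of `M` and random forcing -/

/-- The set `2^ω ∩ M`, where an element of `2^ω` is identified with a subset of `ω`. -/
noncomputable def reals (M : Set ZFSet.{0}) : ZFSet.{0} := ZFSet.sep (· ∈ M) (ZFSet.powerset om)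

/-- `pre x n` is the natural number with binary expansion `1, x 0, …, x (n - 1)`. It codes
the finite sequence `x 0, …, x (n - 1)`. -/
def pre (x : ℕ → Bool) : ℕ → ℕ
  | 0 => 1
  | n + 1 => 2 * pre x n + (if x n = true then 1 else 0)

/-- The open set coded by a set `u` of (codes of) finite sequences: all `x` which have an initial
segment in `u`. -/
def opn (u : Set ℕ) : Set (ℕ → Bool) := {x | ∃ n, pre x n ∈ u}

/-- In `M`, the set `S` is a `σ`-algebra on `2^ω` which contains the subbasic clopen sets. -/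
structure IsSigma (M : Set ZFSet.{0}) (S : ZFSet.{0}) : Prop where
  /-- `S` belongs to `M` -/
  mem : S ∈ M
  /-- its members are subsets of `2^ω` -/
  sub : ∀ A ∈ S, A ⊆ reals M
  /-- it contains the subbasic clopen sets `{x | x n = 1}` -/
  basic : ∀ n : ℕ, ZFSet.sep (fun x => nat n ∈ x) (reals M) ∈ S
  /-- it is closed under complements -/
  compl : ∀ A ∈ S, reals M \ A ∈ S
  /-- it is closed under unions of sequences which belong to `M` -/
  union : ∀ s : ℕ → ZFSet.{0}, seqc s ∈ M → (∀ n, s n ∈ S) → ZFSet.iUnion s ∈ S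

/-- In `M`, the set `A` is a Borel subset of `2^ω`. -/
def IsBorelIn (M : Set ZFSet.{0}) (A : ZFSet.{0}) : Prop :=
  A ∈ M ∧ A ⊆ reals M ∧ ∀ S, IsSigma M S → A ∈ S

/-- In `M`, the set `A` is a null subset of `2^ω`: for every `k` there is in `M` a set `u` of
finite sequences such that the basic clopen sets given by `u` cover `A` and the sum of their
measures is at most `2^(-k)`.  The measure of the basic clopen set given by a sequence with
code `c` is `2^(-log₂ c)`. -/
def IsNullIn (M : Set ZFSet.{0}) (A : ZFSet.{0}) : Prop :=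
  ∀ k : ℕ, ∃ u : Set ℕ, code u ∈ M ∧ ∑' c : u, ((2 : ℝ≥0∞)⁻¹) ^ (Nat.log 2 c) ≤ 2⁻¹ ^ k ∧
    ∀ x : ℕ → Bool, real x ∈ A → x ∈ opn u

/-- The random forcing of `M`: the Borel sets of positive measure, in the sense of `M`. -/
def rand (M : Set ZFSet.{0}) : Set ZFSet.{0} := {A | IsBorelIn M A ∧ ¬ IsNullIn M A}

/-- `G` is an `M`-generic filter on the set `P` of conditions, ordered by inclusion. -/
structure IsGenericFilter (M P G : Set ZFSet.{0}) : Prop where
  /-- `G` consists of conditions -/
  sub : G ⊆ P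
  /-- `G` is nonempty -/
  nonempty : G.Nonempty
  /-- `G` is upward closed -/
  up : ∀ A ∈ G, ∀ B ∈ P, A ⊆ B → B ∈ G
  /-- `G` is directed -/
  dir : ∀ A ∈ G, ∀ B ∈ G, ∃ C ∈ G, C ⊆ A ∧ C ⊆ B
  /-- `G` meets every dense set in `M` -/
  meets : ∀ D ∈ M, (∀ A ∈ D, A ∈ P) → (∀ A ∈ P, ∃ B ∈ D, B ⊆ A) → ∃ A ∈ D, A ∈ G

/-- The `M`-generic filters on the random forcing of `M`. -/
def Gen (M : Set ZFSet.{0}) : Type 1 := {G : Set ZFSet.{0} // IsGenericFilter M (rand M) G}

open Classical in
/-- The characteristic function of a generic filter, an element of `2^P`. -/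
noncomputable def Gen.toCantor {M : Set ZFSet.{0}} (G : Gen M) : rand M → Bool :=
  fun A => decide (A.1 ∈ G.1)

/-- The topology on the set of generic filters is the subspace topology of the product topology
on `2^P`. -/
noncomputable instance (M : Set ZFSet.{0}) : TopologicalSpace (Gen M) :=
  TopologicalSpace.induced Gen.toCantor inferInstance

/-- Borel sets of generic filters. -/
noncomputable instance (M : Set ZFSet.{0}) : MeasurableSpace (Gen M) := borel (Gen M)

/-! ### Names and generic extensions -/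

/-- The `P`-names: sets of pairs `(σ, p)` with `σ` a `P`-name and `p ∈ P`. -/
inductive IsName (P : Set ZFSet.{0}) : ZFSet.{0} → Prop
  | mk (τ : ZFSet.{0}) (h : ∀ r ∈ τ, ∃ σ p, r = ZFSet.pair σ p ∧ p ∈ P)
      (h' : ∀ σ p, ZFSet.pair σ p ∈ τ → IsName P σ) : IsName P τ

theorem fst_small (τ : ZFSet.{0}) (Q : ZFSet.{0} → Prop) :
    Small.{0} {σ : ZFSet.{0} // ∃ p, ZFSet.pair σ p ∈ τ ∧ Q p} := by
  have key : ∀ σ : {σ : ZFSet.{0} // ∃ p, ZFSet.pair σ p ∈ τ ∧ Q p}, σ.1 ∈ ⋃₀ (⋃₀ τ) := by
    rintro ⟨σ, p, hp, -⟩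
    rw [ZFSet.mem_sUnion]
    refine ⟨{σ}, ?_, by simp⟩
    rw [ZFSet.mem_sUnion]
    exact ⟨_, hp, by simp [ZFSet.pair]⟩
  let f : {σ : ZFSet.{0} // ∃ p, ZFSet.pair σ p ∈ τ ∧ Q p} → (⋃₀ (⋃₀ τ) : ZFSet.{0}) :=
    fun σ => ⟨σ.1, key σ⟩
  have hf : Function.Injective f := by
    intro σ σ' h
    apply Subtype.ext
    exact congrArg (fun z => z.1) h
  exact small_of_injective hf

theorem fst_lt {τ σ p : ZFSet.{0}} (h : ZFSet.pair σ p ∈ τ) : ZFSet.rank σ < ZFSet.rank τ := by
  have h1 : σ ∈ ({σ} : ZFSet.{0}) := by simp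
  have h2 : ({σ} : ZFSet.{0}) ∈ ZFSet.pair σ p := by simp [ZFSet.pair]
  exact ((ZFSet.rank_lt_of_mem h1).trans (ZFSet.rank_lt_of_mem h2)).trans
    (ZFSet.rank_lt_of_mem h)

/-- The value of a name: `val G τ = {val G σ | (σ, p) ∈ τ for some p ∈ G}`. -/
noncomputable def val (G : Set ZFSet.{0}) (τ : ZFSet.{0}) : ZFSet.{0} :=
  have := fst_small τ (· ∈ G)
  ZFSet.range (fun σ : {σ : ZFSet.{0} // ∃ p, ZFSet.pair σ p ∈ τ ∧ p ∈ G} => val G σ.1)
termination_by ZFSet.rank τ
decreasing_by
  obtain ⟨p, hp, -⟩ := σ.2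
  exact fst_lt hp

/-- The generic extension `M[G]`: the values of the `P`-names in `M`. -/
def extn (M P G : Set ZFSet.{0}) : Set ZFSet.{0} := {x | ∃ τ ∈ M, IsName P τ ∧ val G τ = x}

/-! ### Essentially free equivalence relations -/

/-- The equivalence relation `E` is Borel reducible to the orbit equivalence relation of a free
Borel action of a countable group on a standard Borel space. -/
def EssentiallyFree {X : Type*} [MeasurableSpace X] (E : X → X → Prop) : Prop :=
  ∃ (Γ : Type) (_ : Group Γ) (_ : Countable Γ) (Y : Type) (_ : MeasurableSpace Y)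
    (_ : StandardBorelSpace Y) (_ : MulAction Γ Y),
    (∀ g : Γ, Measurable (fun y : Y => g • y)) ∧ (∀ (g : Γ) (y : Y), g • y = y → g = 1) ∧
    ∃ f : X → Y, Measurable f ∧ ∀ x x' : X, E x x' ↔ ∃ g : Γ, g • f x = f x'

/-- The relation `M[G] = M[H]` on the `M`-generic filters on the random forcing of `M`. -/
def genEquiv (M : Set ZFSet.{0}) (G H : Gen M) : Prop :=
  extn M (rand M) G.1 = extn M (rand M) H.1

end Pool.Agent.Generics
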