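import Pool.Agent.Lib.MP_9214e0_lc.Cube
import Pool.Agent.Lib.MP_9214e0_lc.ForcDefs

/-!
Basic clopen sets and open sets of `2^ω` given by codes; their measure.
-/

set_option autoImplicit false

namespace Pool.Agent.Generics

open MeasureTheory Set Function
open scoped ENNReal

theorem pre_bounds (x : ℕ → Bool) (n : ℕ) : 2 ^ n ≤ pre x n ∧ pre x n < 2 ^ (n + 1) := by
  induction n with
  | zero => simp [pre]
  | succ n ih =>
    rw [pre, pow_succ 2 n, pow_succ 2 (n + 1)]
    split_ifs <;> omega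

theorem pre_ne_zero (x : ℕ → Bool) (n : ℕ) : pre x n ≠ 0 := by
  have := (pre_bounds x n).1
  have h2 : 0 < 2 ^ n := by positivity
  omega

theorem pre_succ_div (x : ℕ → Bool) (n : ℕ) : pre x (n + 1) / 2 = pre x n := by
  rw [pre]
  split_ifs <;> omega

theorem pre_succ_mod (x : ℕ → Bool) (n : ℕ) : x n = decide (pre x (n + 1) % 2 = 1) := by
  rw [pre]
  cases hx : x n
  · simp
  · simp only [if_true]
    rw [eq_comm, decide_eq_true_eq]
    omega

theorem pre_add_div (x : ℕ → Bool) (n k : ℕ) : pre x (n + k) / 2 ^ k = pre x n := by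
  induction k with
  | zero => simp
  | succ k ih =>
    rw [pow_succ, mul_comm, ← Nat.div_div_eq_div_mul, ← add_assoc, pre_succ_div, ih]

theorem log_pre (x : ℕ → Bool) (n : ℕ) : Nat.log 2 (pre x n) = n :=
  (Nat.log_eq_iff (Or.inr ⟨by norm_num, pre_ne_zero x n⟩)).2 (pre_bounds x n)

theorem pre_eq_iff (x y : ℕ → Bool) (n : ℕ) : pre x n = pre y n ↔ ∀ i < n, x i = y i := by
  induction n with
  | zero => simp [pre]
  | succ n ih =>
    constructor
    · intro h
      have h1 : pre x n = pre y n := by rw [← pre_succ_div, h, pre_succ_div]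
      intro i hi
      rcases Nat.lt_succ_iff_lt_or_eq.1 hi with h2 | h2
      · exact (ih.1 h1) i h2
      · rw [h2, pre_succ_mod x, pre_succ_mod y, h]
    · intro h
      rw [pre, pre, ih.2 (fun i hi => h i (by omega)), h n (by omega)]

theorem exists_pre (n c : ℕ) (h1 : 2 ^ n ≤ c) (h2 : c < 2 ^ (n + 1)) : ∃ x, pre x n = c ∧
    ∀ i, n ≤ i → x i = false := by
  induction n generalizing c with
  | zero =>
    refine ⟨fun _ => false, ?_, fun i _ => rfl⟩
    rw [pre]
    simp at h1 h2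
    omega
  | succ n ih =>
    rw [pow_succ] at h1 h2
    obtain ⟨x, hx, hx'⟩ := ih (c / 2) (by omega) (by omega)
    refine ⟨fun i => if i = n then decide (c % 2 = 1) else x i, ?_, ?_⟩
    · have h3 : pre (fun i => if i = n then decide (c % 2 = 1) else x i) n = pre x n := by
        rw [pre_eq_iff]
        intro i hi
        simp [hi.ne]
      rw [pre, h3, hx]
      simp only [if_true, decide_eq_true_eq]
      split_ifs <;> omega
    · intro i hi
      have : i ≠ n := by omega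
      simp only [this, if_false]
      exact hx' i (by omega)

theorem exists_pre' (c : ℕ) (h : c ≠ 0) : ∃ x n, pre x n = c ∧ ∀ i, n ≤ i → x i = false := by
  obtain ⟨x, hx⟩ := exists_pre (Nat.log 2 c) c (Nat.pow_log_le_self 2 h)
    (Nat.lt_pow_succ_log_self (by norm_num) c)
  exact ⟨x, _, hx⟩

theorem coin_pre_self (s : ℕ → Bool) (n : ℕ) : coin ℕ {x | pre x n = pre s n} = 2⁻¹ ^ n := by
  have h1 : {x | pre x n = pre s n} = Set.pi ((Finset.range n : Finset ℕ) : Set ℕ)
      (fun i => {s i}) := by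
    ext x
    rw [mem_ofPred_eq, pre_eq_iff, Set.mem_pi]
    simp
  rw [h1, coin_pi]
  simp [fair_singleton]

theorem coin_pre (n c : ℕ) (h1 : 2 ^ n ≤ c) (h2 : c < 2 ^ (n + 1)) :
    coin ℕ {x | pre x n = c} = 2⁻¹ ^ n := by
  obtain ⟨s, hs, -⟩ := exists_pre n c h1 h2
  rw [← hs]
  exact coin_pre_self s n

theorem measurable_pre (n : ℕ) : Measurable (fun x : ℕ → Bool => pre x n) := by
  induction n with
  | zero => exact measurable_const
  | succ n ih =>
    simp only [pre]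
    refine (ih.const_mul 2).add (Measurable.ite ?_ measurable_const measurable_const)
    exact measurableSet_eq_fun (measurable_pi_apply n) measurable_const

theorem measurableSet_pre (u : Set ℕ) (n : ℕ) : MeasurableSet {x : ℕ → Bool | pre x n ∈ u} :=
  measurable_pre n (MeasurableSet.of_discrete)

theorem opn_eq (u : Set ℕ) : opn u = ⋃ n, {x | pre x n ∈ u} := by
  ext x
  simp [opn]

theorem measurableSet_opn (u : Set ℕ) : MeasurableSet (opn u) := by
  rw [opn_eq]
  exact MeasurableSet.iUnion fun n => measurableSet_pre u n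

open Classical in
/-- The number of elements of `u` on level `n`. -/
noncomputable def lev (u : Set ℕ) (n : ℕ) : ℕ := Nat.count (fun i => 2 ^ n + i ∈ u) (2 ^ n)

theorem coin_lev (u : Set ℕ) (n : ℕ) : coin ℕ {x | pre x n ∈ u} = lev u n * 2⁻¹ ^ n := by
  classical
  have h1 : {x : ℕ → Bool | pre x n ∈ u} =
      ⋃ i ∈ (Finset.range (2 ^ n)).filter (fun i => 2 ^ n + i ∈ u), {x | pre x n = 2 ^ n + i} := by
    ext x
    simp only [mem_ofPred_eq, Finset.mem_filter, Finset.mem_range, mem_iUnion, exists_prop]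
    constructor
    · intro h
      have := pre_bounds x n
      rw [pow_succ] at this
      refine ⟨pre x n - 2 ^ n, ⟨by omega, ?_⟩, by omega⟩
      rwa [Nat.add_sub_cancel' this.1]
    · rintro ⟨i, ⟨-, hi⟩, h⟩
      rwa [h]
  rw [h1, measure_biUnion_finset]
  · rw [Finset.sum_congr rfl (fun i hi => coin_pre n (2 ^ n + i) (by omega) (by
      rw [Finset.mem_filter, Finset.mem_range] at hi
      rw [pow_succ]
      omega))]
    rw [Finset.sum_const, nsmul_eq_mul, lev, Nat.count_eq_card_filter_range]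
  · intro i _ j _ hij
    refine Set.disjoint_left.2 ?_
    intro x hx hx'
    rw [mem_ofPred_eq] at hx hx'
    omega
  · intro i _
    exact measurableSet_pre {c | c = 2 ^ n + i} n

open Classical in
theorem lev_eq_zero {u : Set ℕ} {n : ℕ} (h : ∀ i, 2 ^ n + i ∉ u) : lev u n = 0 := by
  rw [lev, Nat.count_eq_card_filter_range, Finset.card_eq_zero, Finset.filter_eq_empty_iff]
  exact fun i _ => h i

/-- A set of finite sequences closed under extensions. -/
def Up (u : Set ℕ) : Prop := ∀ c ∈ u, 2 * c ∈ u ∧ 2 * c + 1 ∈ u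

theorem Up.pre_succ {u : Set ℕ} (hu : Up u) {x : ℕ → Bool} {n : ℕ} (h : pre x n ∈ u) :
    pre x (n + 1) ∈ u := by
  rw [pre]
  split_ifs
  · exact (hu _ h).2
  · exact (hu _ h).1

theorem Up.pre_le {u : Set ℕ} (hu : Up u) {x : ℕ → Bool} {n m : ℕ} (hnm : n ≤ m)
    (h : pre x n ∈ u) : pre x m ∈ u := by
  induction m, hnm using Nat.le_induction with
  | base => exact h
  | succ m _ ih => exact hu.pre_succ ih

theorem Up.inter {u v : Set ℕ} (hu : Up u) (hv : Up v) : Up (u ∩ v) :=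
  fun c hc => ⟨⟨(hu c hc.1).1, (hv c hc.2).1⟩, ⟨(hu c hc.1).2, (hv c hc.2).2⟩⟩

theorem Up.union {u v : Set ℕ} (hu : Up u) (hv : Up v) : Up (u ∪ v) := by
  rintro c (hc | hc)
  · exact ⟨Or.inl (hu c hc).1, Or.inl (hu c hc).2⟩
  · exact ⟨Or.inr (hv c hc).1, Or.inr (hv c hc).2⟩

theorem opn_inter {u v : Set ℕ} (hu : Up u) (hv : Up v) : opn (u ∩ v) = opn u ∩ opn v := by
  ext x
  constructor
  · rintro ⟨n, hn⟩
    exact ⟨⟨n, hn.1⟩, ⟨n, hn.2⟩⟩
  · rintro ⟨⟨n, hn⟩, ⟨m, hm⟩⟩
    exact ⟨max n m, hu.pre_le (le_max_left _ _) hn, hv.pre_le (le_max_right _ _) hm⟩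

theorem opn_union (u v : Set ℕ) : opn (u ∪ v) = opn u ∪ opn v := by
  ext x
  constructor
  · rintro ⟨n, hn | hn⟩
    · exact Or.inl ⟨n, hn⟩
    · exact Or.inr ⟨n, hn⟩
  · rintro (⟨n, hn⟩ | ⟨n, hn⟩)
    · exact ⟨n, Or.inl hn⟩
    · exact ⟨n, Or.inr hn⟩

theorem opn_mono {u v : Set ℕ} (h : u ⊆ v) : opn u ⊆ opn v := by
  rintro x ⟨n, hn⟩
  exact ⟨n, h hn⟩

theorem coin_opn_le {u : Set ℕ} (hu : Up u) (q : ℝ≥0∞) :
    coin ℕ (opn u) ≤ q ↔ ∀ n, (lev u n : ℝ≥0∞) * 2⁻¹ ^ n ≤ q := by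
  have hmono : Monotone (fun n => {x : ℕ → Bool | pre x n ∈ u}) := by
    intro n m hnm x hx
    exact hu.pre_le hnm hx
  rw [opn_eq, hmono.measure_iUnion, iSup_le_iff]
  refine forall_congr' fun n => ?_
  rw [coin_lev]

/-- The closure of a set of finite sequences under extensions. -/
def upc (u : Set ℕ) : Set ℕ := {c | ∃ k, c / 2 ^ k ∈ u ∧ c / 2 ^ k ≠ 0}

theorem up_upc (u : Set ℕ) : Up (upc u) := by
  rintro c ⟨k, hk, hk'⟩
  have h1 : 2 * c / 2 ^ (k + 1) = c / 2 ^ k := by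
    rw [pow_succ, mul_comm (2 ^ k), ← Nat.div_div_eq_div_mul]
    congr 1
    omega
  have h2 : (2 * c + 1) / 2 ^ (k + 1) = c / 2 ^ k := by
    rw [pow_succ, mul_comm (2 ^ k), ← Nat.div_div_eq_div_mul]
    congr 1
    omega
  exact ⟨⟨k + 1, by rw [h1]; exact hk, by rw [h1]; exact hk'⟩,
    ⟨k + 1, by rw [h2]; exact hk, by rw [h2]; exact hk'⟩⟩

theorem opn_upc (u : Set ℕ) : opn (upc u) = opn u := by
  ext x
  constructor
  · rintro ⟨n, k, hk, hk'⟩
    by_cases h : k ≤ n
    · obtain ⟨m, rfl⟩ := Nat.exists_eq_add_of_le' h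
      rw [pre_add_div] at hk
      exact ⟨m, hk⟩
    · exfalso
      apply hk'
      apply Nat.div_eq_of_lt
      exact (pre_bounds x n).2.trans_le (Nat.pow_le_pow_right (by norm_num) (by omega))
  · rintro ⟨n, hn⟩
    exact ⟨n, 0, by simpa using hn, by simpa using pre_ne_zero x n⟩

theorem coin_opn_le_tsum (u : Set ℕ) :
    coin ℕ (opn u) ≤ ∑' c : u, ((2 : ℝ≥0∞)⁻¹) ^ (Nat.log 2 c) := by
  have h1 : opn u ⊆ ⋃ c : u, {x | pre x (Nat.log 2 c) = c} := by
    rintro x ⟨n, hn⟩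
    rw [mem_iUnion]
    exact ⟨⟨_, hn⟩, by rw [mem_ofPred_eq, log_pre]⟩
  refine (measure_mono h1).trans ((measure_iUnion_le _).trans ?_)
  refine ENNReal.tsum_le_tsum fun c => ?_
  by_cases hc : c.1 = 0
  · rw [hc]
    simp [pre]
  · rw [coin_pre _ _ (Nat.pow_log_le_self 2 hc) (Nat.lt_pow_succ_log_self (by norm_num) c)]

/-- The minimal sequences in `u`. -/
def mnl (u : Set ℕ) : Set ℕ := {c | c ∈ u ∧ c ≠ 0 ∧ (c = 1 ∨ c / 2 ∉ u)}

theorem opn_mnl (u : Set ℕ) : opn (mnl u) = opn u := by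
  ext x
  constructor
  · rintro ⟨n, hn⟩
    exact ⟨n, hn.1⟩
  · intro h
    classical
    have h' : ∃ n, pre x n ∈ u := h
    refine ⟨Nat.find h', Nat.find_spec h', pre_ne_zero _ _, ?_⟩
    rcases hk : Nat.find h' with _ | k
    · left
      rfl
    · right
      rw [pre_succ_div]
      exact Nat.find_min h' (by omega)

theorem tsum_mnl {u : Set ℕ} (hu : Up u) :
    ∑' c : mnl u, ((2 : ℝ≥0∞)⁻¹) ^ (Nat.log 2 c) ≤ coin ℕ (opn u) := by
  have h1 : ∀ c : mnl u, ((2 : ℝ≥0∞)⁻¹) ^ (Nat.log 2 c) =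
      coin ℕ {x | pre x (Nat.log 2 c) = c} := by
    intro c
    rw [coin_pre _ _ (Nat.pow_log_le_self 2 c.2.2.1) (Nat.lt_pow_succ_log_self (by norm_num) c)]
  simp_rw [h1]
  rw [← measure_iUnion]
  · refine measure_mono ?_
    intro x hx
    rw [mem_iUnion] at hx
    obtain ⟨c, hc⟩ := hx
    exact ⟨_, by rw [mem_ofPred_eq] at hc; rw [hc]; exact c.2.1⟩
  · have key : ∀ c c' : mnl u, ∀ x, x ∈ {x | pre x (Nat.log 2 c) = c} →
        x ∈ {x | pre x (Nat.log 2 c') = c'} → ¬ (Nat.log 2 c.1 < Nat.log 2 c'.1) := by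
      intro c c' x hx hx' hlt
      rw [mem_ofPred_eq] at hx hx'
      obtain ⟨m, hm⟩ : ∃ m, Nat.log 2 c'.1 = m + 1 := ⟨Nat.log 2 c'.1 - 1, by omega⟩
      rcases c'.2.2.2 with h | h
      · rw [h] at hm
        simp at hm
      · apply h
        rw [← hx', hm, pre_succ_div]
        refine hu.pre_le (n := Nat.log 2 c) (by omega) ?_
        rw [hx]
        exact c.2.1
    intro c c' hcc'
    refine Set.disjoint_left.2 ?_
    intro x hx hx'
    have h2 := key c c' x hx hx'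
    have h3 := key c' c x hx' hx
    have h4 : Nat.log 2 c.1 = Nat.log 2 c'.1 := by omega
    apply hcc'
    apply Subtype.ext
    rw [mem_ofPred_eq] at hx hx'
    rw [← hx, h4, hx']
  · intro c
    exact measurableSet_pre {d | d = c.1} _

end Pool.Agent.Generics
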