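import Pool.Agent.Lib.MP_9214e0_lc.ZBasic

/-!
A calculus of definable predicates and functions over a transitive model of set theory.
-/

set_option autoImplicit false
set_option linter.unusedSectionVars false
set_option linter.unusedVariables false

namespace Pool.Agent.Generics

open Set ZFSet FirstOrder Language

/-- A predicate on valuations which is definable over `M` with parameters. -/
class Dfn (M : Set ZFSet.{0}) (φ : (ℕ → ZFSet.{0}) → Prop) : Prop where
  out : (univ : Set M).Definable setLang {v : ℕ → M | φ (fun i => (v i).1)}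

/-- Membership in `M` as a class. -/
class InM (M : Set ZFSet.{0}) (c : ZFSet.{0}) : Prop where
  out : c ∈ M

variable {M : Set ZFSet.{0}} {φ ψ : (ℕ → ZFSet.{0}) → Prop}

theorem Dfn.congr (h : Dfn M φ) (h' : ∀ v : ℕ → ZFSet.{0}, (∀ i, v i ∈ M) → (φ v ↔ ψ v)) :
    Dfn M ψ := by
  refine ⟨?_⟩
  have h1 := h.out
  have h2 : {v : ℕ → M | φ (fun i => (v i).1)} = {v : ℕ → M | ψ (fun i => (v i).1)} := by
    ext v
    exact h' _ (fun i => (v i).2)
  rwa [h2] at h1

instance instDfnand [h : Dfn M φ] [h' : Dfn M ψ] : Dfn M (fun v => φ v ∧ ψ v) :=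
  ⟨h.out.inter h'.out⟩

instance instDfnor [h : Dfn M φ] [h' : Dfn M ψ] : Dfn M (fun v => φ v ∨ ψ v) :=
  ⟨h.out.union h'.out⟩

instance instDfnnot [h : Dfn M φ] : Dfn M (fun v => ¬ φ v) :=
  ⟨h.out.compl⟩

instance instDfnimp [h : Dfn M φ] [h' : Dfn M ψ] : Dfn M (fun v => φ v → ψ v) :=
  Dfn.congr (inferInstance : Dfn M (fun v => ¬ φ v ∨ ψ v)) (fun v _ => by tauto)

instance instDfniff [h : Dfn M φ] [h' : Dfn M ψ] : Dfn M (fun v => φ v ↔ ψ v) :=
  Dfn.congr (inferInstance : Dfn M (fun v => (φ v → ψ v) ∧ (ψ v → φ v))) (fun v _ => by tauto)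

instance instDfnprop (p : Prop) : Dfn M (fun _ => p) := by
  by_cases hp : p
  · refine ⟨?_⟩
    simp only [hp]
    exact definable_univ
  · refine ⟨?_⟩
    simp only [hp]
    exact definable_empty

theorem Dfn.reindex (f : ℕ → ℕ) (h : Dfn M φ) : Dfn M (fun v => φ (fun i => v (f i))) :=
  ⟨h.out.preimage_comp f⟩

/-- existential quantification over `M` -/
instance instDfnex {φ : ZFSet.{0} → (ℕ → ZFSet.{0}) → Prop}
    [h : Dfn M (fun v => φ (v 0) (fun i => v (i + 1)))] : Dfn M (fun v => ∃ x ∈ M, φ x v) := by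
  refine ⟨?_⟩
  have h1 := (h.out.preimage_comp (β := ℕ ⊕ Unit)
    (fun i => Nat.casesOn i (Sum.inr ()) (fun j => Sum.inl j))).exists_of_finite
  convert h1 using 1
  ext v
  simp only [mem_ofPred_eq]
  constructor
  · rintro ⟨x, hx, hφ⟩
    exact ⟨fun _ => ⟨x, hx⟩, hφ⟩
  · rintro ⟨u, hu⟩
    exact ⟨(u ()).1, (u ()).2, hu⟩

instance instDfnall {φ : ZFSet.{0} → (ℕ → ZFSet.{0}) → Prop}
    [h : Dfn M (fun v => φ (v 0) (fun i => v (i + 1)))] : Dfn M (fun v => ∀ x ∈ M, φ x v) :=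
  Dfn.congr (inferInstance : Dfn M (fun v => ¬ ∃ x ∈ M, ¬ φ x v)) (fun v _ => by
    push Not
    rfl)

/-- The membership symbol. -/
def setMem : setLang.Relations 2 := PLift.up rfl

theorem relMap_setMem (x y : M) : Structure.RelMap (L := setLang) (M := M) setMem ![x, y] ↔ x.1 ∈ y.1 :=
  Iff.rfl

theorem Dfn.mem_var (i j : ℕ) : Dfn M (fun v => v i ∈ v j) := by
  refine ⟨Definable.mono (A := ∅) (empty_definable_iff.2 ⟨setMem.formula₂ (Term.var i) (Term.var j), ?_⟩)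
    (empty_subset _)⟩
  ext v
  simp only [mem_ofPred_eq]
  rw [Formula.realize_rel₂]
  exact Iff.rfl

theorem Dfn.eq_var (i j : ℕ) : Dfn M (fun v => v i = v j) := by
  refine ⟨⟨(Term.var i).equal (Term.var j), ?_⟩⟩
  ext v
  simp only [mem_ofPred_eq]
  rw [Formula.realize_equal]
  exact Subtype.ext_iff.symm

theorem Dfn.eq_const (i : ℕ) {c : ZFSet.{0}} (hc : c ∈ M) : Dfn M (fun v => v i = c) := by
  refine ⟨⟨(Term.var i).equal
    (setLang.con (⟨⟨c, hc⟩, mem_univ _⟩ : (univ : Set M))).term, ?_⟩⟩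
  ext v
  simp only [mem_ofPred_eq]
  rw [Formula.realize_equal, Term.realize_con]
  exact (Subtype.ext_iff (a1 := v i) (a2 := ⟨c, hc⟩)).symm

/-- The valuation `x, v 0, v 1, …`. -/
def vcons (x : ZFSet.{0}) (v : ℕ → ZFSet.{0}) : ℕ → ZFSet.{0} := fun i => Nat.casesOn i x v

theorem vcons_mem {x : ZFSet.{0}} {v : ℕ → ZFSet.{0}} (hx : x ∈ M) (hv : ∀ i, v i ∈ M) (i : ℕ) :
    vcons x v i ∈ M := by
  cases i with
  | zero => exact hx
  | succ i => exact hv i

theorem Dfn.definable₁ (h : Dfn M φ) {v : ℕ → ZFSet.{0}} (hv : ∀ i, v i ∈ M) :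
    (univ : Set M).Definable₁ setLang {x : M | φ (vcons x.1 v)} := by
  obtain ⟨θ, hθ⟩ := h.out
  refine ⟨BoundedFormula.subst θ (fun i => Nat.casesOn i (Term.var 0)
    (fun j => (setLang.con (⟨⟨v j, hv j⟩, mem_univ _⟩ : (univ : Set M))).term)), ?_⟩
  ext x
  simp only [mem_ofPred_eq]
  rw [Formula.Realize, BoundedFormula.realize_subst]
  have h1 : (fun a => Term.realize x (Nat.casesOn a (Term.var 0)
    (fun j => (setLang.con (⟨⟨v j, hv j⟩, mem_univ _⟩ : (univ : Set M))).term) :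
      setLang[[(univ : Set M)]].Term (Fin 1))) = fun a => Nat.casesOn a (x 0) (fun j => ⟨v j, hv j⟩) := by
    funext a
    cases a with
    | zero => rfl
    | succ a => exact Term.realize_con
  rw [h1]
  have h2 := Set.ext_iff.1 hθ (fun a => Nat.casesOn a (x 0) (fun j => ⟨v j, hv j⟩))
  simp only [mem_ofPred_eq] at h2
  rw [Formula.Realize] at h2
  rw [← h2]
  refine iff_of_eq (congrArg φ ?_)
  funext i
  cases i <;> rfl

theorem Dfn.definable₂ (h : Dfn M φ) {v : ℕ → ZFSet.{0}} (hv : ∀ i, v i ∈ M) :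
    (univ : Set M).Definable₂ setLang {p : M × M | φ (vcons p.1.1 (vcons p.2.1 v))} := by
  obtain ⟨θ, hθ⟩ := h.out
  refine ⟨BoundedFormula.subst θ (fun i => Nat.casesOn i (Term.var 0)
    (fun j => Nat.casesOn j (Term.var 1)
    (fun j => (setLang.con (⟨⟨v j, hv j⟩, mem_univ _⟩ : (univ : Set M))).term))), ?_⟩
  ext x
  simp only [mem_ofPred_eq]
  rw [Formula.Realize, BoundedFormula.realize_subst]
  have h1 : (fun a => Term.realize x (Nat.casesOn a (Term.var 0)
    (fun j => Nat.casesOn j (Term.var 1)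
    (fun j => (setLang.con (⟨⟨v j, hv j⟩, mem_univ _⟩ : (univ : Set M))).term)) :
      setLang[[(univ : Set M)]].Term (Fin 2))) = fun a => Nat.casesOn a (x 0)
      (fun j => Nat.casesOn j (x 1) (fun j => ⟨v j, hv j⟩)) := by
    funext a
    cases a with
    | zero => rfl
    | succ a =>
      cases a with
      | zero => rfl
      | succ a => exact Term.realize_con
  rw [h1]
  have h2 := Set.ext_iff.1 hθ (fun a => Nat.casesOn a (x 0)
      (fun j => Nat.casesOn j (x 1) (fun j => ⟨v j, hv j⟩)))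
  simp only [mem_ofPred_eq] at h2
  rw [Formula.Realize] at h2
  rw [← h2]
  refine iff_of_eq (congrArg φ ?_)
  funext i
  rcases i with _ | _ | i <;> rfl

/-- A function on valuations which is definable over `M` with parameters. -/
class DF (M : Set ZFSet.{0}) (t : (ℕ → ZFSet.{0}) → ZFSet.{0}) : Prop where
  mem : ∀ v : ℕ → ZFSet.{0}, (∀ i, v i ∈ M) → t v ∈ M
  dfn : Dfn M (fun v => v 0 = t (fun i => v (i + 1)))

instance instDFvar (i : ℕ) : DF M (fun v => v i) := ⟨fun _ hv => hv i, Dfn.eq_var 0 (i + 1)⟩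

instance instDFconst (c : ZFSet.{0}) [hc : InM M c] : DF M (fun _ => c) :=
  ⟨fun _ _ => hc.out, Dfn.eq_const 0 hc.out⟩

theorem DF.reindex {t : (ℕ → ZFSet.{0}) → ZFSet.{0}} (f : ℕ → ℕ) (h : DF M t) :
    DF M (fun v => t (fun i => v (f i))) :=
  ⟨fun v hv => h.mem _ (fun i => hv (f i)),
    (h.dfn.reindex (fun i => Nat.casesOn i 0 (fun j => f j + 1)))⟩

theorem DF.shift {t : (ℕ → ZFSet.{0}) → ZFSet.{0}} (h : DF M t) :
    DF M (fun v => t (fun i => v (i + 1))) := h.reindex (· + 1)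

theorem DF.congr {t s : (ℕ → ZFSet.{0}) → ZFSet.{0}} (h : DF M t)
    (h' : ∀ v : ℕ → ZFSet.{0}, (∀ i, v i ∈ M) → t v = s v) : DF M s :=
  ⟨fun v hv => by
    rw [← h' v hv]
    exact h.mem v hv,
    h.dfn.congr (fun v hv => by rw [h' _ (fun i => hv (i + 1))])⟩

/-- Substitution. -/
theorem Dfn.sub {φ : ZFSet.{0} → (ℕ → ZFSet.{0}) → Prop} {t : (ℕ → ZFSet.{0}) → ZFSet.{0}}
    (h : Dfn M (fun v => φ (v 0) (fun i => v (i + 1)))) (ht : DF M t) :
    Dfn M (fun v => φ (t v) v) := by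
  have h1 := ht.dfn
  refine Dfn.congr (inferInstance : Dfn M (fun v => ∃ x ∈ M, x = t v ∧ φ x v)) ?_
  intro v hv
  constructor
  · rintro ⟨x, -, rfl, h⟩
    exact h
  · intro h
    exact ⟨t v, ht.mem v hv, rfl, h⟩

theorem DF.sub {s : ZFSet.{0} → (ℕ → ZFSet.{0}) → ZFSet.{0}} {t : (ℕ → ZFSet.{0}) → ZFSet.{0}}
    (h : DF M (fun v => s (v 0) (fun i => v (i + 1)))) (ht : DF M t) :
    DF M (fun v => s (t v) v) := by
  refine ⟨fun v hv => ?_, ?_⟩
  · have := h.mem (vcons (t v) v) (vcons_mem (ht.mem v hv) hv)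
    exact this
  · have h1 : Dfn M (fun v => v 1 = s (v 0) (fun i => v (i + 2))) :=
      h.dfn.reindex (fun i => match i with | 0 => 1 | 1 => 0 | (j + 2) => j + 2)
    exact Dfn.sub (φ := fun x v => v 0 = s x (fun i => v (i + 1))) h1 ht.shift

theorem Dfn.comp1 (R : ZFSet.{0} → Prop) (h : Dfn M (fun v => R (v 0)))
    {s : (ℕ → ZFSet.{0}) → ZFSet.{0}} (hs : DF M s) : Dfn M (fun v => R (s v)) :=
  Dfn.sub (φ := fun x _ => R x) h hs

theorem Dfn.comp2 (R : ZFSet.{0} → ZFSet.{0} → Prop) (h : Dfn M (fun v => R (v 0) (v 1)))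
    {s t : (ℕ → ZFSet.{0}) → ZFSet.{0}} (hs : DF M s) (ht : DF M t) :
    Dfn M (fun v => R (s v) (t v)) := by
  have h1 : Dfn M (fun v => R (v 0) (t (fun i => v (i + 1)))) :=
    Dfn.sub (φ := fun x v => R (v 0) x)
      (h.reindex (fun i => match i with | 0 => 1 | 1 => 0 | (j + 2) => j)) ht.shift
  exact Dfn.sub (φ := fun x v => R x (t v)) h1 hs

theorem Dfn.comp3 (R : ZFSet.{0} → ZFSet.{0} → ZFSet.{0} → Prop)
    (h : Dfn M (fun v => R (v 0) (v 1) (v 2)))
    {s t r : (ℕ → ZFSet.{0}) → ZFSet.{0}} (hs : DF M s) (ht : DF M t) (hr : DF M r) :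
    Dfn M (fun v => R (s v) (t v) (r v)) := by
  have h1 : Dfn M (fun v => R (v 0) (v 1) (r (fun i => v (i + 2)))) :=
    Dfn.sub (φ := fun x v => R (v 0) (v 1) x)
      (h.reindex (fun i => match i with | 0 => 1 | 1 => 2 | 2 => 0 | (j + 3) => j)) hr.shift.shift
  have h2 : Dfn M (fun v => R (v 0) (t (fun i => v (i + 1))) (r (fun i => v (i + 1)))) :=
    Dfn.sub (φ := fun x v => R (v 0) x (r (fun i => v (i + 1))))
      (h1.reindex (fun i => match i with | 0 => 1 | 1 => 0 | (j + 2) => j + 2)) ht.shift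
  exact Dfn.sub (φ := fun x v => R x (t v) (r v)) h2 hs

theorem DF.comp1 (F : ZFSet.{0} → ZFSet.{0}) (h : DF M (fun v => F (v 0)))
    {s : (ℕ → ZFSet.{0}) → ZFSet.{0}} (hs : DF M s) : DF M (fun v => F (s v)) :=
  DF.sub (s := fun x _ => F x) h hs

theorem DF.comp2 (F : ZFSet.{0} → ZFSet.{0} → ZFSet.{0}) (h : DF M (fun v => F (v 0) (v 1)))
    {s t : (ℕ → ZFSet.{0}) → ZFSet.{0}} (hs : DF M s) (ht : DF M t) :
    DF M (fun v => F (s v) (t v)) := by
  have h1 : DF M (fun v => F (v 0) (t (fun i => v (i + 1)))) :=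
    DF.sub (s := fun x v => F (v 0) x)
      (h.reindex (fun i => match i with | 0 => 1 | 1 => 0 | (j + 2) => j)) ht.shift
  exact DF.sub (s := fun x v => F x (t v)) h1 hs

theorem DF.comp3 (F : ZFSet.{0} → ZFSet.{0} → ZFSet.{0} → ZFSet.{0})
    (h : DF M (fun v => F (v 0) (v 1) (v 2)))
    {s t r : (ℕ → ZFSet.{0}) → ZFSet.{0}} (hs : DF M s) (ht : DF M t) (hr : DF M r) :
    DF M (fun v => F (s v) (t v) (r v)) := by
  have h1 : DF M (fun v => F (v 0) (v 1) (r (fun i => v (i + 2)))) :=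
    DF.sub (s := fun x v => F (v 0) (v 1) x)
      (h.reindex (fun i => match i with | 0 => 1 | 1 => 2 | 2 => 0 | (j + 3) => j)) hr.shift.shift
  have h2 : DF M (fun v => F (v 0) (t (fun i => v (i + 1))) (r (fun i => v (i + 1)))) :=
    DF.sub (s := fun x v => F (v 0) x (r (fun i => v (i + 1))))
      (h1.reindex (fun i => match i with | 0 => 1 | 1 => 0 | (j + 2) => j + 2)) ht.shift
  exact DF.sub (s := fun x v => F x (t v) (r v)) h2 hs

instance instDfnmem {s t : (ℕ → ZFSet.{0}) → ZFSet.{0}} [hs : DF M s] [ht : DF M t] :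
    Dfn M (fun v => s v ∈ t v) := Dfn.comp2 (fun x y => x ∈ y) (Dfn.mem_var 0 1) hs ht

instance instDfneq {s t : (ℕ → ZFSet.{0}) → ZFSet.{0}} [hs : DF M s] [ht : DF M t] :
    Dfn M (fun v => s v = t v) := Dfn.comp2 (fun x y => x = y) (Dfn.eq_var 0 1) hs ht

end Pool.Agent.Generics
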