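import Pool.Agent.Lib.MP_9214e0_lc.Walsh

/-!
Ergodicity and spectral gap for actions by permutations of the coordinates.
-/

set_option autoImplicit false

namespace Pool.Agent.Generics

open MeasureTheory Set Function
open scoped ENNReal

variable {ι : Type}

/-- The measurable equivalence given by a permutation of the coordinates. -/
def permEquiv (e : Equiv.Perm ι) : (ι → Bool) ≃ᵐ (ι → Bool) where
  toFun w := w ∘ e
  invFun w := w ∘ e.symm
  left_inv w := by funext i; simp
  right_inv w := by funext i; simp
  measurable_toFun := by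
    change Measurable (fun w : ι → Bool => w ∘ e)
    fun_prop
  measurable_invFun := by
    change Measurable (fun w : ι → Bool => w ∘ e.symm)
    fun_prop

theorem integral_comp_perm (e : Equiv.Perm ι) (h : (ι → Bool) → ℝ) :
    ∫ w, h (w ∘ e) ∂(coin ι) = ∫ w, h w ∂(coin ι) := by
  have h1 : MeasurePreserving (permEquiv e) (coin ι) (coin ι) := mp_perm e
  exact h1.integral_comp' h

theorem coef_comp (e : Equiv.Perm ι) (h : (ι → Bool) → ℝ) (S : Finset ι) :
    coef (fun w => h (w ∘ e)) (S.map e.toEmbedding) = coef h S := by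
  unfold coef
  rw [← integral_comp_perm e (fun w => h w * walsh S w)]
  simp_rw [walsh_comp]

theorem coef_congr {h g : (ι → Bool) → ℝ} (hg : h =ᵐ[coin ι] g) (S : Finset ι) :
    coef h S = coef g S := by
  unfold coef
  refine integral_congr_ae ?_
  filter_upwards [hg] with w hw
  rw [hw]

theorem coef_empty (h : (ι → Bool) → ℝ) : coef h ∅ = ∫ w, h w ∂(coin ι) := by
  unfold coef
  simp [walsh_empty]

/-- A function all of whose nontrivial coefficients vanish is constant. -/
theorem const_of_coef [Countable ι] {h : (ι → Bool) → ℝ} (hh : MemLp h 2 (coin ι))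
    (h0 : ∀ S : Finset ι, S.Nonempty → coef h S = 0) :
    ∀ᵐ w ∂(coin ι), h w = ∫ w, h w ∂(coin ι) := by
  classical
  set c := ∫ w, h w ∂(coin ι) with hc
  have h1 := hasSum_coef_sq hh
  have h2 : HasSum (fun S => coef h S ^ 2) (coef h ∅ ^ 2) := by
    refine hasSum_single ∅ ?_
    intro S hS
    rw [h0 S (Finset.nonempty_iff_ne_empty.2 hS)]
    norm_num
  have h3 := h1.unique h2
  rw [coef_empty] at h3
  have hint : Integrable h (coin ι) := hh.integrable (by norm_num)
  have hint2 : Integrable (fun w => h w ^ 2) (coin ι) := hh.integrable_sq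
  have h4 : ∫ w, (h w - c) ^ 2 ∂(coin ι) = 0 := by
    have : ∀ w, (h w - c) ^ 2 = h w ^ 2 - 2 * c * h w + c ^ 2 := fun w => by ring
    simp_rw [this]
    have i1 : Integrable (fun w => h w ^ 2 - 2 * c * h w) (coin ι) :=
      hint2.sub (hint.const_mul (2 * c))
    have i2 : Integrable (fun _ : ι → Bool => c ^ 2) (coin ι) := integrable_const _
    rw [integral_add i1 i2, integral_sub hint2 (hint.const_mul (2 * c)), integral_const_mul, h3,
      ← hc]
    simp
    ring
  have h5 : Integrable (fun w => (h w - c) ^ 2) (coin ι) := by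
    have : (fun w => (h w - c) ^ 2) = fun w => h w ^ 2 - 2 * c * h w + c ^ 2 := by
      funext w
      ring
    rw [this]
    exact (hint2.sub (hint.const_mul _)).add (integrable_const _)
  rw [integral_eq_zero_iff_of_nonneg (fun w => sq_nonneg _) h5] at h4
  filter_upwards [h4] with w hw
  have : (h w - c) ^ 2 = 0 := hw
  have := pow_eq_zero_iff (n := 2) (by norm_num) |>.1 this
  linarith

/-- Coefficients of functions which are invariant under permutations with infinite orbits. -/
theorem coef_eq_zero_of_invariant [Countable ι] {h : (ι → Bool) → ℝ} (hh : MemLp h 2 (coin ι))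
    (S : Finset ι) (i : ι) (hi : i ∈ S) (e : Equiv.Perm ι)
    (he : Injective (fun n : ℕ => (e ^ n) i))
    (hinv : (fun w => h (w ∘ e)) =ᵐ[coin ι] h) : coef h S = 0 := by
  classical
  by_contra hne
  have hpos : 0 < coef h S ^ 2 := by positivity
  have hstep : ∀ T : Finset ι, coef h (T.map e.toEmbedding) = coef h T := by
    intro T
    rw [← coef_comp e h T]
    exact coef_congr hinv.symm _
  have hiter : ∀ n : ℕ, coef h (S.map (e ^ n).toEmbedding) = coef h S := by
    intro n
    induction n with
    | zero =>
      have : (e ^ 0).toEmbedding = Function.Embedding.refl ι := by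
        ext j
        simp
      rw [this, Finset.map_refl]
    | succ n ih =>
      have : S.map (e ^ (n + 1)).toEmbedding = (S.map (e ^ n).toEmbedding).map e.toEmbedding := by
        rw [Finset.map_map]
        congr 1
        ext j
        simp [pow_succ']
      rw [this, hstep, ih]
  have hsum := (hasSum_coef_sq hh).summable.tendsto_cofinite_zero
  have hfin : {T : Finset ι | ¬ coef h T ^ 2 < coef h S ^ 2}.Finite := by
    have := hsum.eventually (gt_mem_nhds hpos)
    exact this
  have hfin2 : (⋃ T ∈ {T : Finset ι | ¬ coef h T ^ 2 < coef h S ^ 2}, (T : Set ι)).Finite :=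
    hfin.biUnion fun T _ => T.finite_toSet
  refine (Set.infinite_range_of_injective he) (hfin2.subset ?_)
  rintro _ ⟨n, rfl⟩
  simp only [mem_iUnion]
  refine ⟨S.map (e ^ n).toEmbedding, ?_, ?_⟩
  · simp only [mem_ofPred_eq, not_lt]
    rw [hiter n]
  · simp only [Finset.coe_map, Equiv.coe_toEmbedding, mem_image, SetLike.mem_coe]
    exact ⟨i, hi, rfl⟩

theorem memLp_indicator {A : Set (ι → Bool)} (hA : MeasurableSet A) :
    MemLp (A.indicator (fun _ => (1 : ℝ))) 2 (coin ι) :=
  memLp_indicator_const 2 hA 1 (Or.inr (measure_ne_top _ _))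

/-- Ergodicity: a set which is invariant under permutations, such that each point has an infinite
orbit under one of them, has measure `0` or `1`. -/
theorem ergodic_family [Countable ι] (E : Set (Equiv.Perm ι))
    (hE : ∀ i : ι, ∃ e ∈ E, Injective (fun n : ℕ => (e ^ n) i))
    {A : Set (ι → Bool)} (hA : MeasurableSet A)
    (hinv : ∀ e ∈ E, ∀ᵐ w ∂(coin ι), w ∘ e ∈ A ↔ w ∈ A) :
    (∀ᵐ w ∂(coin ι), w ∈ A) ∨ ∀ᵐ w ∂(coin ι), w ∉ A := by
  classical
  have hh := memLp_indicator hA
  have h1 := const_of_coef hh (by
    rintro S ⟨i, hi⟩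
    obtain ⟨e, heE, he⟩ := hE i
    refine coef_eq_zero_of_invariant hh S i hi e he ?_
    filter_upwards [hinv e heE] with w hw
    by_cases h : w ∈ A
    · simp [h, hw.2 h]
    · have : w ∘ e ∉ A := fun h' => h (hw.1 h')
      simp [h, this])
  set c := ∫ w, A.indicator (fun _ => (1 : ℝ)) w ∂(coin ι)
  by_cases hc : c = 1
  · left
    filter_upwards [h1] with w hw
    by_contra h
    rw [hc] at hw
    simp [h] at hw
  · right
    filter_upwards [h1] with w hw
    intro h
    apply hc
    rw [← hw]
    simp [h]

/-- the fraction of the elements of `S` which are mapped to `A` -/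
noncomputable def frac {L : Type} (pr : ι → L) (A : Set L) (S : Finset ι) : ℝ := by
  classical
  exact ((S.filter (fun i => pr i ∈ A)).card : ℝ) / S.card

theorem frac_nonneg {L : Type} (pr : ι → L) (A : Set L) (S : Finset ι) : 0 ≤ frac pr A S := by
  unfold frac
  positivity

theorem frac_le_one {L : Type} (pr : ι → L) (A : Set L) (S : Finset ι) : frac pr A S ≤ 1 := by
  classical
  unfold frac
  refine div_le_one_of_le₀ ?_ (by positivity)
  exact_mod_cast Finset.card_le_card (Finset.filter_subset _ _)

theorem frac_map {L : Type} (pr : ι → L) (e : Equiv.Perm ι) (eL : L → L)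
    (he : ∀ i, pr (e i) = eL (pr i)) (A : Set L) (S : Finset ι) :
    frac pr A (S.map e.toEmbedding) = frac pr (eL ⁻¹' A) S := by
  classical
  unfold frac
  rw [Finset.card_map]
  congr 2
  rw [Finset.filter_map, Finset.card_map]
  congr 1
  ext i
  simp [he]

/-- at most one of three disjoint sets, total at most one -/
theorem frac_three {L : Type} (pr : ι → L) (A B C : Set L) (h : ∀ l, ¬ (l ∈ A ∧ l ∈ B))
    (h' : ∀ l, ¬ (l ∈ A ∧ l ∈ C)) (h'' : ∀ l, ¬ (l ∈ B ∧ l ∈ C)) (S : Finset ι) :
    frac pr A S + frac pr B S + frac pr C S ≤ 1 := by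
  classical
  unfold frac
  rw [← add_div, ← add_div]
  refine div_le_one_of_le₀ ?_ (by positivity)
  have h1 : (S.filter (fun i => pr i ∈ A)).card + (S.filter (fun i => pr i ∈ B)).card +
      (S.filter (fun i => pr i ∈ C)).card ≤ S.card := by
    rw [← Finset.card_union_of_disjoint, ← Finset.card_union_of_disjoint]
    · refine Finset.card_le_card ?_
      intro i hi
      simp only [Finset.mem_union, Finset.mem_filter] at hi
      tauto
    · rw [Finset.disjoint_left]
      intro i hi hi'
      simp only [Finset.mem_union, Finset.mem_filter] at hi hi'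
      rcases hi with hi | hi
      · exact h' _ ⟨hi.2, hi'.2⟩
      · exact h'' _ ⟨hi.2, hi'.2⟩
    · rw [Finset.disjoint_left]
      intro i hi hi'
      simp only [Finset.mem_filter] at hi hi'
      exact h _ ⟨hi.2, hi'.2⟩
  exact_mod_cast h1

theorem frac_two {L : Type} (pr : ι → L) (A B : Set L) (h : ∀ l, l ∈ A ∨ l ∈ B) (S : Finset ι)
    (hS : S.Nonempty) : 1 ≤ frac pr A S + frac pr B S := by
  classical
  unfold frac
  rw [← add_div, one_le_div (by exact_mod_cast Finset.card_pos.2 hS)]
  have h1 : S.card ≤ (S.filter (fun i => pr i ∈ A)).card + (S.filter (fun i => pr i ∈ B)).card := by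
    refine le_trans (Finset.card_le_card ?_) (Finset.card_union_le _ _)
    intro i hi
    simp only [Finset.mem_union, Finset.mem_filter]
    rcases h (pr i) with h | h
    · exact Or.inl ⟨hi, h⟩
    · exact Or.inr ⟨hi, h⟩
  exact_mod_cast h1

end Pool.Agent.Generics
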