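import Pool.Agent.Lib.MP_9214e0_lc.Regular

/-!
The filter given by a random real, and its genericity.
-/

set_option autoImplicit false
set_option linter.unusedSectionVars false
set_option linter.unusedVariables false

namespace Pool.Agent.Generics

open MeasureTheory Set ZFSet FirstOrder Language Filter
open scoped ENNReal Topology

variable {M : Set ZFSet.{0}} [hM : Fact (IsCTM M)]

/-- The closed set whose complement has the code `v`, in `M`. -/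
noncomputable def clR (M : Set ZFSet.{0}) (v : Set ℕ) : ZFSet.{0} := reals M \ opR M v

theorem mem_clR {v : Set ℕ} {z : ZFSet.{0}} : z ∈ clR M v ↔ z ∈ reals M ∧ ofz z ∉ opn v := by
  rw [clR, ZFSet.mem_sdiff, mem_opR]
  tauto

theorem real_mem_clR {v : Set ℕ} {x : ℕ → Bool} : real x ∈ clR M v ↔ real x ∈ M ∧ x ∉ opn v := by
  rw [mem_clR, real_mem_reals, ofz_real]

instance instDFclR {u : (ℕ → ZFSet.{0}) → Set ℕ} [hu : DS M u] : DF M (fun v => clR M (u v)) :=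
  (inferInstance : DF M (fun v => reals M \ opR M (u v)))

theorem clR_mem {u : Set ℕ} (hu : code u ∈ M) : clR M u ∈ M := by
  have h1 := (inferInstance : DF M (fun v => clR M (dec (v 0)))).mem1 hu
  simp only [dec_code] at h1
  exact h1

theorem clR_subset {u : Set ℕ} : clR M u ⊆ reals M := fun z hz => (mem_clR.1 hz).1

theorem clR_borel {u : Set ℕ} (hu : code u ∈ M) : IsBorelIn M (clR M u) :=
  ⟨clR_mem hu, clR_subset, fun S hS => hS.compl _ (hS.opR_mem hu)⟩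

theorem clR_mem_rand {v : Set ℕ} (hv : code v ∈ M) (hvp : Up v) (h : coin ℕ (opn v) < 1) :
    clR M v ∈ rand M := by
  refine ⟨clR_borel hv, fun hnull => ?_⟩
  have h1 : coin ℕ (opn v)ᶜ ≠ 0 := by
    rw [prob_compl_eq_one_sub (measurableSet_opn v)]
    exact (tsub_pos_of_lt h).ne'
  obtain ⟨k, hk⟩ := ENNReal.exists_inv_two_pow_lt h1
  obtain ⟨u, hu, hu1, hu2⟩ := hnull k
  have h2 : (opn v)ᶜ ⊆ opn (upc u) := compl_subset (code_upc_mem hu) (up_upc u) hv hvp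
    (fun x hx hxv => by
      rw [opn_upc]
      exact hu2 x (real_mem_clR.2 ⟨hx, hxv⟩))
  rw [opn_upc] at h2
  have h3 := (measure_mono h2).trans ((coin_opn_le_tsum u).trans hu1)
  exact absurd hk (not_lt.2 h3)

theorem rand_inner {A : ZFSet.{0}} (hA : A ∈ rand M) :
    ∃ v, code v ∈ M ∧ Up v ∧ coin ℕ (opn v) < 1 ∧ clR M v ⊆ A := by
  obtain ⟨⟨hAM, hAr, hAS⟩, hnull⟩ := hA
  have h1 := (mem_Reg.1 (hAS _ Reg_sigma)).2
  simp only [IsNullIn, not_forall, not_exists, not_and] at hnull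
  obtain ⟨k, hk⟩ := hnull
  obtain ⟨u, hu, v, hv, h⟩ := h1 k
  rw [rg_iff] at h
  obtain ⟨h2, h3, h4, h5, h6⟩ := h
  refine ⟨v, hv, h3, ?_, ?_⟩
  · by_contra hcon
    rw [not_lt] at hcon
    have h7 : coin ℕ (opn v)ᶜ = 0 := by
      rw [prob_compl_eq_zero_iff (measurableSet_opn v)]
      exact le_antisymm prob_le_one hcon
    have h8 : coin ℕ (opn u) ≤ 2⁻¹ ^ k := by
      have h9 : opn u ⊆ (opn u ∩ opn v) ∪ (opn v)ᶜ := by
        intro x hx
        by_cases hxv : x ∈ opn v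
        · exact Or.inl ⟨hx, hxv⟩
        · exact Or.inr hxv
      refine (measure_mono h9).trans ((measure_union_le _ _).trans ?_)
      rw [h7, add_zero]
      exact h6
    obtain ⟨x, hxA, hxu⟩ := hk (mnl u) (code_mnl_mem hu) ((tsum_mnl h2).trans h8)
    rw [opn_mnl] at hxu
    exact hxu (h4 x (tr hAM hxA) hxA)
  · intro z hz
    obtain ⟨hz1, hz2⟩ := mem_clR.1 hz
    by_contra hzA
    apply hz2
    have h7 := real_ofz' hz1
    refine h5 _ ?_ ?_
    · rw [h7]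
      exact (mem_reals.1 hz1).1
    · rwa [h7]

/-- The random reals over `M`. -/
def RandomOver (M : Set ZFSet.{0}) (w : ℕ → Bool) : Prop :=
  ∀ v : Set ℕ, code v ∈ M → Up v → coin ℕ (opn v) = 1 → w ∈ opn v

theorem countable_codes : {v : Set ℕ | code v ∈ M}.Countable := by
  refine (hM.out.countable).preimage_of_injOn (f := code) ?_
  intro u _ v _ h
  exact code_inj.1 h

theorem ae_random : ∀ᵐ w ∂(coin ℕ), RandomOver M w := by
  unfold RandomOver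
  rw [show (∀ᵐ w ∂(coin ℕ), ∀ v : Set ℕ, code v ∈ M → Up v → coin ℕ (opn v) = 1 → w ∈ opn v) ↔
    ∀ᵐ w ∂(coin ℕ), ∀ v ∈ {v : Set ℕ | code v ∈ M}, Up v → coin ℕ (opn v) = 1 → w ∈ opn v from
    Iff.rfl, ae_ball_iff countable_codes]
  intro v _
  by_cases h : coin ℕ (opn v) = 1
  · have h1 : ∀ᵐ w ∂(coin ℕ), w ∈ opn v :=
      (mem_ae_iff_prob_eq_one (measurableSet_opn v)).2 h
    filter_upwards [h1] with w hw _ _
    exact hw
  · exact Eventually.of_forall fun w _ h' => absurd h' h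

theorem RandomOver.lt_one {w : ℕ → Bool} (hw : RandomOver M w) {v : Set ℕ} (hv : code v ∈ M)
    (hvp : Up v) (h : w ∉ opn v) : coin ℕ (opn v) < 1 := by
  refine lt_of_le_of_ne prob_le_one ?_
  intro h1
  exact h (hw v hv hvp h1)

/-- The filter of the random real `w`. -/
def Gw (M : Set ZFSet.{0}) (w : ℕ → Bool) : Set ZFSet.{0} :=
  {A | A ∈ rand M ∧ ∃ v : Set ℕ, code v ∈ M ∧ Up v ∧ w ∉ opn v ∧ clR M v ⊆ A}

theorem clR_mem_Gw {w : ℕ → Bool} (hw : RandomOver M w) {v : Set ℕ} (hv : code v ∈ M)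
    (hvp : Up v) (h : w ∉ opn v) : clR M v ∈ Gw M w :=
  ⟨clR_mem_rand hv hvp (hw.lt_one hv hvp h), v, hv, hvp, h, fun _ hz => hz⟩

theorem code_empty_mem : code ∅ ∈ M := code_fin_mem Set.finite_empty

theorem up_empty : Up (∅ : Set ℕ) := fun c hc => absurd hc (Set.notMem_empty c)

theorem opn_empty : opn (∅ : Set ℕ) = ∅ := by
  ext x
  simp [opn]

theorem clR_empty : clR M ∅ = reals M := by
  ext z
  rw [mem_clR, opn_empty]
  simp

theorem reals_mem_Gw {w : ℕ → Bool} (hw : RandomOver M w) : reals M ∈ Gw M w := by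
  have := clR_mem_Gw hw code_empty_mem up_empty (by rw [opn_empty]; exact Set.notMem_empty w)
  rwa [clR_empty] at this

theorem level_le_iff (a b n m k : ℕ) : a * 2 ^ m * 2 ^ k ≤ b * 2 ^ n * 2 ^ k + 2 ^ n * 2 ^ m ↔
    (a : ℝ≥0∞) * 2⁻¹ ^ n ≤ b * 2⁻¹ ^ m + 2⁻¹ ^ k := by
  have h1 : ∀ j : ℕ, (2⁻¹ : ℝ≥0∞) ^ j * 2 ^ j = 1 := by
    intro j
    rw [← mul_pow, ENNReal.inv_mul_cancel (by norm_num) (by norm_num), one_pow]
  have h2 : ((2 : ℝ≥0∞) ^ n * 2 ^ m * 2 ^ k) ≠ 0 := by positivity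
  have h3 : ((2 : ℝ≥0∞) ^ n * 2 ^ m * 2 ^ k) ≠ ⊤ := by
    have : ((2 : ℝ≥0∞) ^ n * 2 ^ m * 2 ^ k) = ((2 ^ n * 2 ^ m * 2 ^ k : ℕ) : ℝ≥0∞) := by push_cast; rfl
    rw [this]
    exact ENNReal.natCast_ne_top _
  rw [← ENNReal.mul_le_mul_iff_left h2 h3, ← Nat.cast_le (α := ℝ≥0∞)]
  have e1 : (a : ℝ≥0∞) * 2⁻¹ ^ n * (2 ^ n * 2 ^ m * 2 ^ k) = a * 2 ^ m * 2 ^ k * (2⁻¹ ^ n * 2 ^ n) := by
    ring
  have e2 : ((b : ℝ≥0∞) * 2⁻¹ ^ m + 2⁻¹ ^ k) * (2 ^ n * 2 ^ m * 2 ^ k) =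
      b * 2 ^ n * 2 ^ k * (2⁻¹ ^ m * 2 ^ m) + 2 ^ n * 2 ^ m * (2⁻¹ ^ k * 2 ^ k) := by
    ring
  rw [e1, e2, h1, h1, h1, mul_one, mul_one, mul_one]
  push_cast
  rfl

theorem coin_opn_iSup {u : Set ℕ} (hu : Up u) :
    coin ℕ (opn u) = ⨆ n, (lev u n : ℝ≥0∞) * 2⁻¹ ^ n := by
  have hmono : Monotone (fun n => {x : ℕ → Bool | pre x n ∈ u}) := by
    intro n m hnm x hx
    exact hu.pre_le hnm hx
  rw [opn_eq, hmono.measure_iUnion]
  simp_rw [coin_lev]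

end Pool.Agent.Generics
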