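import Pool.Agent.Lib.MP_9214e0_lc.Perms

/-!
Only countably many parameters can be treated with one countable group.
-/

set_option autoImplicit false

namespace Pool.Agent.Generics

open MeasureTheory Set Function
open scoped ENNReal

variable {Δ : Type} [Group Δ] [Countable Δ] {Y : Type} [MeasurableSpace Y]
  [MeasurableSpace.CountablySeparated Y] [MeasurableEq Y] [MulAction Δ Y]

/-- The permutation `e` acts on `F` by the constant `ρ`. -/
def ActsBy (F : (Idx → Bool) → Y) (e : Equiv.Perm Idx) (ρ : Δ) : Prop :=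
  ∀ᵐ z ∂(coin Idx), F (z ∘ e) = ρ • F z

omit [Countable Δ] [MeasurableSpace Y] [MeasurableSpace.CountablySeparated Y] [MeasurableEq Y] in
theorem ActsBy.mul {F : (Idx → Bool) → Y} {e e' : Equiv.Perm Idx} {ρ ρ' : Δ}
    (h : ActsBy F e ρ) (h' : ActsBy F e' ρ') : ActsBy F (e * e') (ρ' * ρ) := by
  unfold ActsBy at h h' ⊢
  filter_upwards [h, (mp_perm e).quasiMeasurePreserving.ae h'] with z h1 h2
  rw [mul_smul, ← h1, ← h2]
  rfl

omit [Countable Δ] [MeasurableSpace Y] [MeasurableSpace.CountablySeparated Y] [MeasurableEq Y] in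
theorem ActsBy.inv {F : (Idx → Bool) → Y} {e : Equiv.Perm Idx} {ρ : Δ}
    (h : ActsBy F e ρ) : ActsBy F e⁻¹ ρ⁻¹ := by
  unfold ActsBy at h ⊢
  filter_upwards [(mp_perm e⁻¹).quasiMeasurePreserving.ae h] with z h1
  have h2 : (z ∘ ⇑e⁻¹) ∘ ⇑e = z := by
    funext i
    exact congrArg z (e.symm_apply_apply i)
  rw [h2] at h1
  rw [h1, inv_smul_smul]

omit [Countable Δ] [MeasurableSpace Y] [MeasurableSpace.CountablySeparated Y] [MeasurableEq Y] in
theorem ActsBy.zpow {F : (Idx → Bool) → Y} {e : Equiv.Perm Idx} {ρ : Δ}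
    (h : ActsBy F e ρ) (n : ℤ) : ActsBy F (e ^ n) (ρ ^ n) := by
  have hone : ActsBy F 1 (1 : Δ) := Filter.Eventually.of_forall fun z => (one_smul Δ _).symm
  induction n with
  | zero => simpa using hone
  | succ n ih =>
    rw [add_comm, zpow_one_add, add_comm, zpow_add_one]
    exact h.mul ih
  | pred n ih =>
    rw [sub_eq_add_neg, add_comm, zpow_add, zpow_neg_one, add_comm, zpow_add, zpow_neg_one]
    exact h.inv.mul ih

omit [Countable Δ] [MeasurableSpace Y] [MeasurableSpace.CountablySeparated Y] [MeasurableEq Y] in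
theorem actsBy_pwj {F : (Idx → Bool) → Y} {x : ℕ → Bool} {ρt ρs ρr : Δ} (ht : ActsBy F pT ρt)
    (hs : ActsBy F (ps x) ρs) (hr : ActsBy F pr ρr) (n : ℤ) :
    ActsBy F (pw x n) ((ρt ^ n * (ρs * (ρt ^ n)⁻¹))⁻¹ * (ρr⁻¹ * ((ρt ^ n * (ρs * (ρt ^ n)⁻¹)) *
      ρr))) := by
  have h1 : ActsBy F (psn x n) (ρt ^ n * (ρs * (ρt ^ n)⁻¹)) :=
    ((ht.zpow n).inv.mul hs).mul (ht.zpow n)
  have h2 := ((hr.mul h1).mul hr.inv).mul h1.inv
  exact h2

/-- If `F` is invariant under the words `pwj`, then it is constant. -/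
theorem const_of_invariant [Nonempty Y] {F : (Idx → Bool) → Y} (hF : Measurable F)
    {x : ℕ → Bool} {n : ℤ} (hx : x ((zig ^ n) 0) = true)
    (hinv : ∀ j : ℤ, ∀ᵐ z ∂(coin Idx), F (z ∘ pwj x n j) = F z) :
    ∃ y : Y, ∀ᵐ z ∂(coin Idx), F z = y := by
  have h := Filter.exists_eventuallyEq_const_of_forall_separating (l := ae (coin Idx)) (f := F)
    MeasurableSet (fun U hU => by
      refine ergodic_family {e | ∃ j : ℤ, e = pwj x n j} ?_ (hF hU) ?_
      · intro i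
        obtain ⟨j, hj⟩ := pwj_injective x n hx i
        exact ⟨pwj x n j, ⟨j, rfl⟩, hj⟩
      · rintro _ ⟨j, rfl⟩
        filter_upwards [hinv j] with z hz
        change F (z ∘ pwj x n j) ∈ U ↔ F z ∈ U
        rw [hz])
  obtain ⟨y, hy⟩ := h
  exact ⟨y, hy⟩

/-- Only countably many parameters `x` admit a map to a free action of the countable group `Δ`
which is not essentially constant modulo `Δ`. -/
theorem countable_params (hfree : ∀ (δ : Δ) (y : Y), δ • y = y → δ = 1)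
    (hsm : ∀ δ : Δ, Measurable (fun y : Y => δ • y)) (X₀ : Set (ℕ → Bool))
    (f : (ℕ → Bool) → (Idx → Bool) → Y) (hf : ∀ x ∈ X₀, Measurable (f x))
    (hfa : ∀ x ∈ X₀, ∀ᵐ z ∂(coin Idx), ∃ δ : Δ, f x (z ∘ pa) = δ • f x z)
    (hfb : ∀ x ∈ X₀, ∀ᵐ z ∂(coin Idx), ∃ δ : Δ, f x (z ∘ pb) = δ • f x z)
    (hfu : ∀ x ∈ X₀, ∀ᵐ z ∂(coin Idx), ∃ δ : Δ, f x (z ∘ pu) = δ • f x z)
    (hft : ∀ x ∈ X₀, ∀ᵐ z ∂(coin Idx), ∃ δ : Δ, f x (z ∘ pT) = δ • f x z)
    (hfr : ∀ x ∈ X₀, ∀ᵐ z ∂(coin Idx), ∃ δ : Δ, f x (z ∘ pr) = δ • f x z)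
    (hfs : ∀ x ∈ X₀, ∀ᵐ z ∂(coin Idx), ∃ δ : Δ, f x (z ∘ ps x) = δ • f x z)
    (hnc : ∀ x ∈ X₀, ¬ ∃ y : Y, ∀ᵐ z ∂(coin Idx), ∃ δ : Δ, f x z = δ • y) : X₀.Countable := by
  classical
  let _ : MeasurableSpace Δ := ⊤
  have : DiscreteMeasurableSpace Δ := ⟨fun _ => trivial⟩
  by_cases hne : X₀.Nonempty
  swap
  · rw [not_nonempty_iff_eq_empty.1 hne]
    exact countable_empty
  obtain ⟨x₀, hx₀⟩ := hne
  have : Nonempty Y := ⟨f x₀ (fun _ => false)⟩
  -- the invariants of each parameter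
  have key : ∀ x ∈ X₀, ∃ (a : (Idx → Bool) → Δ) (ρt ρs ρr : Δ), Measurable a ∧
      ActsBy (fun z => (a z)⁻¹ • f x z) pT ρt ∧ ActsBy (fun z => (a z)⁻¹ • f x z) (ps x) ρs ∧
      ActsBy (fun z => (a z)⁻¹ • f x z) pr ρr := by
    intro x hx
    obtain ⟨a, c, ham, hac⟩ := rigid hfree hsm gapData pu pu_injective (fun i => rfl)
      (fun i => rfl) (hf x hx) (hfa x hx) (hfb x hx) (hfu x hx)
    have hFm : Measurable (fun z => (a z)⁻¹ • f x z) := by
      have h1 : Measurable (fun p : Δ × Y => p.1⁻¹ • p.2) :=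
        measurable_from_prod_countable_right fun δ => hsm δ⁻¹
      exact h1.comp (ham.prodMk (hf x hx))
    have hF : ∀ (e : Equiv.Perm Idx), (∀ᵐ z ∂(coin Idx), ∃ δ : Δ, f x (z ∘ e) = δ • f x z) →
        (∀ i, pu (e i) = e (pu i)) → ∃ ρ : Δ, ActsBy (fun z => (a z)⁻¹ • f x z) e ρ := by
      intro e he hcomm
      refine rigid_comm hfree hsm pu pu_injective hFm hac (mp_perm e) ?_ ?_
      · intro z
        funext i
        exact congrArg z (hcomm i)
      · filter_upwards [he] with z hz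
        obtain ⟨δ, hδ⟩ := hz
        refine ⟨(a (z ∘ e))⁻¹ * δ * a z, ?_⟩
        simp only [hδ, ← mul_smul]
        congr 1
        group
    obtain ⟨ρt, hρt⟩ := hF pT (hft x hx) (fun i => rfl)
    obtain ⟨ρs, hρs⟩ := hF (ps x) (hfs x hx) (fun i => rfl)
    obtain ⟨ρr, hρr⟩ := hF pr (hfr x hx) (fun i => rfl)
    exact ⟨a, ρt, ρs, ρr, ham, hρt, hρs, hρr⟩
  choose! a ρt ρs ρr ham hρt hρs hρr using key
  -- the main point: injectivity
  have hmain : ∀ x ∈ X₀, ∀ x' ∈ X₀, ∀ p : ℕ, x p = true → x' p = false → ρt x = ρt x' →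
      ρs x = ρs x' → ρr x = ρr x' → False := by
    intro x hx x' hx' p hxp hx'p e1 e2 e3
    obtain ⟨n, hn⟩ := exists_zig_pow 0 p
    -- the word acts trivially for `x'`
    have h1 := actsBy_pwj (hρt x' hx') (hρs x' hx') (hρr x' hx') n
    rw [pw_eq_one x' n (by rw [hn]; exact hx'p)] at h1
    rw [← e1, ← e2, ← e3] at h1
    obtain ⟨z, hz⟩ := h1.exists
    have h2 := hfree _ _ hz.symm
    have h3 := actsBy_pwj (hρt x hx) (hρs x hx) (hρr x hx) n
    rw [h2] at h3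
    have h4 : ∀ j : ℤ, ∀ᵐ z ∂(coin Idx), (a x (z ∘ pwj x n j))⁻¹ • f x (z ∘ pwj x n j) =
        (a x z)⁻¹ • f x z := by
      intro j
      have h5 := (((hρt x hx).zpow j).inv.mul h3).mul ((hρt x hx).zpow j)
      have h6 : ρt x ^ j * (1 * (ρt x ^ j)⁻¹) = 1 := by group
      rw [h6] at h5
      filter_upwards [h5] with z hz
      rw [one_smul] at hz
      exact hz
    have hFm : Measurable (fun z => (a x z)⁻¹ • f x z) := by
      have h1 : Measurable (fun p : Δ × Y => p.1⁻¹ • p.2) :=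
        measurable_from_prod_countable_right fun δ => hsm δ⁻¹
      exact h1.comp ((ham x hx).prodMk (hf x hx))
    obtain ⟨y, hy⟩ := const_of_invariant hFm (by rw [hn]; exact hxp) h4
    apply hnc x hx
    refine ⟨y, ?_⟩
    filter_upwards [hy] with z hz
    refine ⟨a x z, ?_⟩
    rw [← hz, smul_inv_smul]
  have hinj : InjOn (fun x => (ρt x, ρs x, ρr x)) X₀ := by
    intro x hx x' hx' h
    simp only [Prod.mk.injEq] at h
    obtain ⟨e1, e2, e3⟩ := h
    by_contra hne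
    obtain ⟨p, hp⟩ := Function.ne_iff.1 hne
    cases hxp : x p <;> cases hx'p : x' p
    · exact hp (hxp.trans hx'p.symm)
    · exact hmain x' hx' x hx p hx'p hxp e1.symm e2.symm e3.symm
    · exact hmain x hx x' hx' p hxp hx'p e1 e2 e3
    · exact hp (hxp.trans hx'p.symm)
  have := MapsTo.countable_of_injOn (mapsTo_univ (fun x => (ρt x, ρs x, ρr x)) X₀) hinj
    (countable_univ)
  exact this

end Pool.Agent.Generics
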