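import Pool.Agent.Lib.MP_9214e0_lc.Coord
import Pool.Agent.Lib.MP_9214e0_lc.Params

/-!
The equivalence relation of random generics is not essentially free.
-/

set_option autoImplicit false
set_option linter.unusedSectionVars false
set_option linter.unusedVariables false

namespace Pool.Agent.Generics

open MeasureTheory Set ZFSet FirstOrder Language Filter
open scoped ENNReal Topology

/-! ### The coin-tossing measure has no atoms -/

theorem coin_singleton {ι : Type} [Infinite ι] (z : ι → Bool) : coin ι {z} = 0 := by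
  have h1 : ∀ n : ℕ, coin ι {z} ≤ 2⁻¹ ^ n := by
    intro n
    obtain ⟨s, hs⟩ := Infinite.exists_subset_card_eq ι n
    have h2 : ({z} : Set (ι → Bool)) ⊆ Set.pi (s : Set ι) (fun i => {z i}) := by
      intro x hx
      rw [Set.mem_singleton_iff] at hx
      rw [hx]
      intro i _
      rfl
    refine (measure_mono h2).trans ?_
    rw [coin_pi]
    simp only [fair_singleton, Finset.prod_const, hs]
    exact le_rfl
  by_contra h
  obtain ⟨k, hk⟩ := ENNReal.exists_inv_two_pow_lt h
  exact absurd hk (not_lt.2 (h1 k))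

theorem coin_countable {ι : Type} [Infinite ι] {s : Set (ι → Bool)} (hs : s.Countable) :
    coin ι s = 0 := by
  have : s = ⋃ z ∈ s, {z} := by simp
  rw [this, measure_biUnion_null_iff hs]
  exact fun z _ => coin_singleton z

variable {M : Set ZFSet.{0}} [hM : Fact (IsCTM M)]

/-! ### The map from reals to generic filters is Borel -/

theorem measurableSet_Gw (A : ZFSet.{0}) : MeasurableSet {w : ℕ → Bool | A ∈ Gw M w} := by
  by_cases hA : A ∈ rand M
  · have h1 : {w : ℕ → Bool | A ∈ Gw M w} =
        ⋃ v ∈ {v : Set ℕ | code v ∈ M ∧ Up v ∧ clR M v ⊆ A}, (opn v)ᶜ := by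
      ext w
      simp only [mem_ofPred_eq, Set.mem_iUnion, Set.mem_compl_iff, exists_prop]
      constructor
      · rintro ⟨-, v, hv, hvp, hwv, hvA⟩
        exact ⟨v, ⟨hv, hvp, hvA⟩, hwv⟩
      · rintro ⟨v, ⟨hv, hvp, hvA⟩, hwv⟩
        exact ⟨hA, v, hv, hvp, hwv, hvA⟩
    rw [h1]
    refine MeasurableSet.biUnion ?_ fun v _ => (measurableSet_opn v).compl
    exact countable_codes.mono fun v hv => hv.1
  · have h1 : {w : ℕ → Bool | A ∈ Gw M w} = ∅ := by
      ext w
      simp only [mem_ofPred_eq, Set.mem_empty_iff_false, iff_false]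
      exact fun h => hA h.1
    rw [h1]
    exact MeasurableSet.empty

theorem rand_countable : (rand M).Countable := hM.out.countable.mono fun A hA => hA.1.1

/-- The generic filter of a good real. -/
def toGen (M : Set ZFSet.{0}) (w : ℕ → Bool) (h : IsGenericFilter M (rand M) (Gw M w)) : Gen M :=
  ⟨Gw M w, h⟩

open Classical in
theorem measurable_toGen {X : Type*} [MeasurableSpace X] {g : X → ℕ → Bool} (hg : Measurable g)
    (h : ∀ x, IsGenericFilter M (rand M) (Gw M (g x))) :
    Measurable (fun x : X => toGen M (g x) (h x)) := by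
  have : Countable (rand M) := rand_countable.to_subtype
  have h1 : (borel (Gen M)) = MeasurableSpace.comap Gen.toCantor (borel (rand M → Bool)) :=
    borel_comap
  have h2 : @Measurable X (Gen M) _ (MeasurableSpace.comap Gen.toCantor (borel (rand M → Bool)))
      (fun x : X => toGen M (g x) (h x)) := by
    rw [measurable_comap_iff, ← BorelSpace.measurable_eq (α := rand M → Bool), measurable_pi_iff]
    intro A
    refine measurable_to_bool ?_
    have h3 : ((fun x => (Gen.toCantor ∘ fun x : X => toGen M (g x) (h x)) x A) ⁻¹' {true}) =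
        g ⁻¹' {w | A.1 ∈ Gw M w} := by
      ext x
      change decide (A.1 ∈ Gw M (g x)) = true ↔ A.1 ∈ Gw M (g x)
      exact decide_eq_true_iff
    rw [h3]
    exact hg (measurableSet_Gw A.1)
  rw [← h1] at h2
  exact h2

theorem not_essentiallyFree_aux : ¬ EssentiallyFree (genEquiv M) := by
  classical
  rintro ⟨Δ, hΔ1, hΔ2, Y, hY1, hY2, hY3, hsm, hfree, F, hF, hE⟩
  -- the good reals
  obtain ⟨W, hWsub, hWm, hW0⟩ : ∃ W : Set (ℕ → Bool), (∀ w ∈ W, RandomOver M w ∧
      IsGenericFilter M (rand M) (Gw M w)) ∧ MeasurableSet W ∧ ∀ᵐ w ∂(coin ℕ), w ∈ W := by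
    have h1 := ae_generic (M := M)
    rw [ae_iff] at h1
    obtain ⟨t, ht1, ht2, ht3⟩ := exists_measurable_superset_of_null h1
    refine ⟨tᶜ, ?_, ht2.compl, ?_⟩
    · intro w hw
      by_contra h
      exact hw (ht1 h)
    · rw [ae_iff]
      simpa using ht3
  obtain ⟨w₀, hw₀⟩ := hW0.exists
  let G : ∀ w, w ∈ W → Gen M := fun w hw => toGen M w (hWsub w hw).2
  let Fw : (ℕ → Bool) → Y := fun w => if h : w ∈ W then F (G w h) else F (G w₀ hw₀)
  have hFw : ∀ w (h : w ∈ W), Fw w = F (G w h) := by
    intro w h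
    simp only [Fw, dif_pos h]
  have hFm : Measurable Fw := by
    refine Measurable.dite (s := W) (f := fun w : W => F (G w.1 w.2))
      (g := fun _ => F (G w₀ hw₀)) ?_ measurable_const hWm
    exact hF.comp (measurable_toGen measurable_subtype_coe fun w => (hWsub w.1 w.2).2)
  let f : (ℕ → Bool) → (Idx → Bool) → Y := fun x z => Fw (jn x z)
  let X₀ : Set (ℕ → Bool) := {x | ∀ᵐ z ∂(coin Idx), jn x z ∈ W}
  have hX₀ : ∀ᵐ x ∂(coin ℕ), x ∈ X₀ := by
    have h1 : ∀ᵐ p ∂((coin ℕ).prod (coin Idx)), jn p.1 p.2 ∈ W :=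
      mp_jn.quasiMeasurePreserving.ae hW0
    exact Measure.ae_ae_of_ae_prod h1
  -- the action of an admissible pair
  have hact : ∀ π : (ℕ → Bool) → Equiv.Perm Idx, AdmPair M π → ∀ x ∈ X₀,
      ∀ᵐ z ∂(coin Idx), ∃ δ : Δ, f x (z ∘ π x) = δ • f x z := by
    intro π hπ x hx
    have h1 : ∀ᵐ z ∂(coin Idx), jn x (z ∘ π x) ∈ W := (mp_perm (π x)).quasiMeasurePreserving.ae hx
    have hx' : ∀ᵐ z ∂(coin Idx), jn x z ∈ W := hx
    filter_upwards [h1, hx'] with z hz1 hz2
    have h2 := hπ.extn_eq (jn x z)
    rw [TP_jn] at h2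
    obtain ⟨δ, hδ⟩ := (hE (G _ hz2) (G _ hz1)).1 h2.symm
    refine ⟨δ, ?_⟩
    change Fw _ = δ • Fw _
    rw [hFw _ hz1, hFw _ hz2, hδ]
  have hcount : X₀.Countable := by
    refine countable_params hfree hsm X₀ f ?_ (hact _ admPair_pa) (hact _ admPair_pb)
      (hact _ admPair_pu) (hact _ admPair_pT) (hact _ admPair_pr) (hact _ admPair_ps) ?_
    · intro x _
      have h1 : Measurable (fun z : Idx → Bool => jn x z) :=
        (mp_jn.measurable).comp (measurable_const.prodMk measurable_id)
      exact hFm.comp h1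
    · rintro x hx ⟨y, hy⟩
      have hx' : ∀ᵐ z ∂(coin Idx), jn x z ∈ W := hx
      obtain ⟨z₀, hz₀W, δ₀, hδ₀⟩ := (hx'.and hy).exists
      have h1 : ∀ᵐ z ∂(coin Idx), z ∈ {z | real (jn x z) ∈
          extn M (rand M) (Gw M (jn x z₀))} := by
        filter_upwards [hx', hy] with z hzW hz
        obtain ⟨δ, hδ⟩ := hz
        have h2 : genEquiv M (G _ hz₀W) (G _ hzW) := by
          rw [hE]
          refine ⟨δ * δ₀⁻¹, ?_⟩
          have h3 : Fw (jn x z) = δ • y := hδ
          have h4 : Fw (jn x z₀) = δ₀ • y := hδ₀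
          rw [hFw _ hzW] at h3
          rw [hFw _ hz₀W] at h4
          rw [h3, h4, mul_smul, inv_smul_smul]
        have h3 : extn M (rand M) (Gw M (jn x z₀)) = extn M (rand M) (Gw M (jn x z)) := h2
        change real (jn x z) ∈ extn M (rand M) (Gw M (jn x z₀))
        rw [h3]
        exact real_mem_extn (hWsub _ hzW).1
      have h2 : {z | real (jn x z) ∈ extn M (rand M) (Gw M (jn x z₀))}.Countable := by
        refine (extn_countable (rand M) (Gw M (jn x z₀))).preimage_of_injOn
          (f := fun z => real (jn x z)) ?_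
        intro z _ z' _ h
        have h3 : jn x z = jn x z' := real_inj.1 h
        rw [← fib_jn x z, h3, fib_jn]
      have h3 := coin_countable h2
      have h4 := h1.and (measure_eq_zero_iff_ae_notMem.1 h3)
      obtain ⟨z, hz1, hz2⟩ := h4.exists
      exact hz2 hz1
  have h1 := coin_countable hcount
  obtain ⟨x, hx1, hx2⟩ := (hX₀.and (measure_eq_zero_iff_ae_notMem.1 h1)).exists
  exact hx2 hx1

/-- For every countable transitive model `M` of `ZFC`, the equivalence relation `M[G] = M[H]`
on the generic filters of the random forcing of `M` is not essentially free. -/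
theorem not_essentiallyFree (M : Set ZFSet.{0}) (hM : IsCTM M) :
    ¬ EssentiallyFree (genEquiv M) := by
  have : Fact (IsCTM M) := ⟨hM⟩
  exact not_essentiallyFree_aux

end Pool.Agent.Generics
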