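import Pool.Agent.Lib.MP_9214e0_lc.Ergodic

/-!
Spectral gap.
-/

set_option autoImplicit false

namespace Pool.Agent.Generics

open MeasureTheory Set Function
open scoped ENNReal

variable {ι : Type}

theorem coef_sub {h g : (ι → Bool) → ℝ} (hh : MemLp h 2 (coin ι)) (hg : MemLp g 2 (coin ι))
    (S : Finset ι) : coef (fun w => h w - g w) S = coef h S - coef g S := by
  unfold coef
  rw [← integral_sub]
  · refine integral_congr_ae (Filter.Eventually.of_forall fun w => ?_)
    simp only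
    ring
  · exact (hh.integrable_mul (memLp_walsh S 2))
  · exact (hg.integrable_mul (memLp_walsh S 2))

theorem memLp_comp_perm {h : (ι → Bool) → ℝ} (hh : MemLp h 2 (coin ι)) (e : Equiv.Perm ι) :
    MemLp (fun w => h (w ∘ e)) 2 (coin ι) :=
  hh.comp_measurePreserving (mp_perm e)

/-- The measure on the set `L`, up to normalization, which corresponds to `h`. -/
noncomputable def massOn {L : Type} (pr : ι → L) (h : (ι → Bool) → ℝ) (A : Set L) : ℝ :=
  ∑' S : Finset ι, coef h S ^ 2 * frac pr A S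

theorem summable_mass [Countable ι] {L : Type} (pr : ι → L) {h : (ι → Bool) → ℝ}
    (hh : MemLp h 2 (coin ι)) (A : Set L) :
    Summable (fun S : Finset ι => coef h S ^ 2 * frac pr A S) := by
  refine Summable.of_nonneg_of_le (fun S => mul_nonneg (sq_nonneg _) (frac_nonneg _ _ _))
    (fun S => ?_) (hasSum_coef_sq hh).summable
  exact mul_le_of_le_one_right (sq_nonneg _) (frac_le_one _ _ _)

/-- Almost invariance of the measure on `L`. -/
theorem mass_almost_invariant [Countable ι] {L : Type} (pr : ι → L) (e : Equiv.Perm ι)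
    (eL : L → L) (he : ∀ i, pr (e i) = eL (pr i)) {h : (ι → Bool) → ℝ}
    (hh : MemLp h 2 (coin ι)) (A : Set L) :
    |massOn pr h A - massOn pr h (eL ⁻¹' A)| ≤
      18 * ∫ w, (h w - h (w ∘ e)) ^ 2 ∂(coin ι) + (1 / 18) * ∫ w, h w ^ 2 ∂(coin ι) := by
  classical
  have hg := memLp_comp_perm hh e
  set E : Finset ι ≃ Finset ι := Equiv.finsetCongr e with hE
  have hEmap : ∀ S, E S = S.map e.toEmbedding := fun S => rfl
  have hc' : ∀ S, coef h S = coef (fun w => h (w ∘ e)) (E S) := by
    intro S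
    rw [hEmap, coef_comp]
  have s1 : Summable (fun S => coef h (E S) ^ 2) :=
    (E.summable_iff (f := fun S => coef h S ^ 2)).2 (hasSum_coef_sq hh).summable
  have s2 := (hasSum_coef_sq hh).summable
  have s3 : Summable (fun S => (coef h (E S) - coef h S) ^ 2) := by
    have : (fun S => (coef h (E S) - coef h S) ^ 2) =
        (fun S => coef (fun w => h w - h (w ∘ e)) S ^ 2) ∘ E := by
      funext S
      simp only [comp_apply]
      rw [coef_sub hh hg, ← hc']
    rw [this]
    exact E.summable_iff.2 (hasSum_coef_sq (hh.sub hg)).summable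
  have t1 : ∑' S, coef h (E S) ^ 2 = ∫ w, h w ^ 2 ∂(coin ι) := by
    rw [← (hasSum_coef_sq hh).tsum_eq]
    exact E.tsum_eq (fun S => coef h S ^ 2)
  have hhs : MemLp (fun w => h w - h (w ∘ e)) 2 (coin ι) := hh.sub hg
  have t3 : ∑' S, (coef h (E S) - coef h S) ^ 2 = ∫ w, (h w - h (w ∘ e)) ^ 2 ∂(coin ι) := by
    rw [← (hasSum_coef_sq hhs).tsum_eq]
    rw [← E.tsum_eq (fun S => coef (fun w => h w - h (w ∘ e)) S ^ 2)]
    refine tsum_congr fun S => ?_
    rw [coef_sub hh hg, ← hc']
  have m1 : massOn pr h A = ∑' S, coef h (E S) ^ 2 * frac pr (eL ⁻¹' A) S := by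
    unfold massOn
    rw [← E.tsum_eq (fun S => coef h S ^ 2 * frac pr A S)]
    refine tsum_congr fun S => ?_
    rw [hEmap, frac_map pr e eL he]
  have s4 : Summable (fun S => coef h (E S) ^ 2 * frac pr (eL ⁻¹' A) S) := by
    refine Summable.of_nonneg_of_le (fun S => mul_nonneg (sq_nonneg _) (frac_nonneg _ _ _))
      (fun S => ?_) s1
    exact mul_le_of_le_one_right (sq_nonneg _) (frac_le_one _ _ _)
  rw [m1]
  unfold massOn
  rw [← s4.tsum_sub (summable_mass pr hh _)]
  have hb : ∀ S, |coef h (E S) ^ 2 * frac pr (eL ⁻¹' A) S -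
      coef h S ^ 2 * frac pr (eL ⁻¹' A) S| ≤ 18 * (coef h (E S) - coef h S) ^ 2 +
        (1 / 36) * (coef h (E S) ^ 2 + coef h S ^ 2) := by
    intro S
    rw [← sub_mul, abs_mul, abs_of_nonneg (frac_nonneg _ _ _)]
    refine (mul_le_of_le_one_right (abs_nonneg _) (frac_le_one _ _ _)).trans ?_
    set x := coef h (E S)
    set y := coef h S
    rw [abs_le]
    constructor
    · nlinarith [sq_nonneg (36 * (x - y) + (x + y)), sq_nonneg (x - y), sq_nonneg (x + y)]
    · nlinarith [sq_nonneg (36 * (x - y) - (x + y)), sq_nonneg (x - y), sq_nonneg (x + y)]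
  have sb : Summable (fun S => 18 * (coef h (E S) - coef h S) ^ 2 +
        (1 / 36) * (coef h (E S) ^ 2 + coef h S ^ 2)) :=
    (s3.mul_left 18).add ((s1.add s2).mul_left _)
  have sabs : Summable (fun S => |coef h (E S) ^ 2 * frac pr (eL ⁻¹' A) S -
      coef h S ^ 2 * frac pr (eL ⁻¹' A) S|) :=
    Summable.of_nonneg_of_le (fun S => abs_nonneg _) hb sb
  calc |∑' S, (coef h (E S) ^ 2 * frac pr (eL ⁻¹' A) S - coef h S ^ 2 * frac pr (eL ⁻¹' A) S)|
      ≤ ∑' S, |coef h (E S) ^ 2 * frac pr (eL ⁻¹' A) S - coef h S ^ 2 * frac pr (eL ⁻¹' A) S| := by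
        have := norm_tsum_le_tsum_norm (f := fun S => coef h (E S) ^ 2 * frac pr (eL ⁻¹' A) S -
          coef h S ^ 2 * frac pr (eL ⁻¹' A) S) (by simpa [Real.norm_eq_abs] using sabs)
        simpa [Real.norm_eq_abs] using this
    _ ≤ ∑' S, (18 * (coef h (E S) - coef h S) ^ 2 +
        (1 / 36) * (coef h (E S) ^ 2 + coef h S ^ 2)) := sabs.tsum_le_tsum hb sb
    _ = 18 * ∫ w, (h w - h (w ∘ e)) ^ 2 ∂(coin ι) + (1 / 18) * ∫ w, h w ^ 2 ∂(coin ι) := by
        rw [(s3.mul_left 18).tsum_add ((s1.add s2).mul_left _), tsum_mul_left, tsum_mul_left,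
          s1.tsum_add s2, t1, t3, (hasSum_coef_sq hh).tsum_eq]
        ring

/-- Spectral gap: a set which is almost invariant under `a` and `b` has measure close to `0` or
`1`. -/
theorem gap_set [Countable ι] {L : Type} (pr : ι → L) (a b : Equiv.Perm ι)
    (aL bL : L → L) (ha : ∀ i, pr (a i) = aL (pr i)) (hb : ∀ i, pr (b i) = bL (pr i))
    (B : Set L) (h1 : ∀ l, l ∈ B ∨ aL l ∈ B) (h2 : ∀ l, ¬ (l ∈ B ∧ bL l ∈ B))
    (h3 : ∀ l, ¬ (l ∈ B ∧ bL (bL l) ∈ B)) {D : Set (ι → Bool)} (hD : MeasurableSet D) {ρ : ℝ}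
    (hρa : (coin ι).real {w | ¬ (w ∘ a ∈ D ↔ w ∈ D)} ≤ ρ)
    (hρb : (coin ι).real {w | ¬ (w ∘ b ∈ D ↔ w ∈ D)} ≤ ρ) :
    (coin ι).real D * (1 - (coin ι).real D) ≤ 324 * ρ := by
  classical
  set p := (coin ι).real D with hp
  let f : (ι → Bool) → ℝ := D.indicator (fun _ => (1 : ℝ))
  have hf : MemLp f 2 (coin ι) := memLp_indicator hD
  have hh : MemLp (fun w => f w - p) 2 (coin ι) := hf.sub (memLp_const p)
  set h : (ι → Bool) → ℝ := fun w => f w - p with hhdef
  have hf2 : ∀ w, f w ^ 2 = f w := by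
    intro w
    by_cases hw : w ∈ D <;> simp [f, hw]
  have hfint : ∫ w, f w ∂(coin ι) = p := by
    simp only [f]
    rw [integral_indicator hD]
    simp [hp, Measure.real]
  have hfi : Integrable f (coin ι) := hf.integrable (by norm_num)
  have h0 : ∫ w, h w ∂(coin ι) = 0 := by
    rw [hhdef, integral_sub hfi (integrable_const _), hfint]
    simp
  have hV : ∫ w, h w ^ 2 ∂(coin ι) = p * (1 - p) := by
    have : ∀ w, h w ^ 2 = (1 - 2 * p) * f w + p ^ 2 := by
      intro w
      have := hf2 w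
      simp only [hhdef]
      nlinarith
    simp_rw [this]
    rw [integral_add (hfi.const_mul _) (integrable_const _), integral_const_mul, hfint]
    simp
    ring
  have hdiff : ∀ e : Equiv.Perm ι, (coin ι).real {w | ¬ (w ∘ e ∈ D ↔ w ∈ D)} ≤ ρ →
      ∫ w, (h w - h (w ∘ e)) ^ 2 ∂(coin ι) ≤ ρ := by
    intro e he
    have hm : MeasurableSet {w : ι → Bool | ¬ (w ∘ e ∈ D ↔ w ∈ D)} := by
      have m1 : MeasurableSet {w : ι → Bool | w ∘ e ∈ D} := (mp_perm e).measurable hD
      exact (MeasurableSet.iff m1 hD).compl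
    have : ∀ w, (h w - h (w ∘ e)) ^ 2 =
        ({w : ι → Bool | ¬ (w ∘ e ∈ D ↔ w ∈ D)}).indicator (fun _ => (1 : ℝ)) w := by
      intro w
      simp only [hhdef, f]
      by_cases hw : w ∈ D <;> by_cases hw' : w ∘ e ∈ D
      · simp [hw, hw']
      · simp [hw, hw']
      · simp only [hw, hw', indicator_of_mem, not_false_eq_true, indicator_of_notMem, mem_ofPred_eq,
          iff_false, not_true_eq_false]
        ring
      · simp [hw, hw']
    simp_rw [this]
    rw [integral_indicator hm]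
    simpa [Measure.real] using he
  have hda := hdiff a hρa
  have hdb := hdiff b hρb
  set V := p * (1 - p) with hVdef
  have key : ∀ (e : Equiv.Perm ι) (eL : L → L), (∀ i, pr (e i) = eL (pr i)) →
      ∫ w, (h w - h (w ∘ e)) ^ 2 ∂(coin ι) ≤ ρ → ∀ A : Set L,
      |massOn pr h A - massOn pr h (eL ⁻¹' A)| ≤ 18 * ρ + (1 / 18) * V := by
    intro e eL he hde A
    refine (mass_almost_invariant pr e eL he hh A).trans ?_
    rw [hV]
    linarith
  have ka := key a aL ha hda B
  have kb := key b bL hb hdb B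
  have kb2 := key b bL hb hdb (bL ⁻¹' B)
  rw [abs_le] at ka kb kb2
  -- B and its preimage under a cover everything
  have hcov : V ≤ massOn pr h B + massOn pr h (aL ⁻¹' B) := by
    rw [← hV, ← (hasSum_coef_sq hh).tsum_eq]
    unfold massOn
    rw [← (summable_mass pr hh _).tsum_add (summable_mass pr hh _)]
    refine (hasSum_coef_sq hh).summable.tsum_le_tsum (fun S => ?_)
      ((summable_mass pr hh _).add (summable_mass pr hh _))
    rw [← mul_add]
    rcases S.eq_empty_or_nonempty with rfl | hS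
    · rw [coef_empty, h0]
      simp
    · exact le_mul_of_one_le_right (sq_nonneg _) (frac_two pr B (aL ⁻¹' B) h1 S hS)
  have hdis : massOn pr h B + massOn pr h (bL ⁻¹' B) + massOn pr h (bL ⁻¹' (bL ⁻¹' B)) ≤ V := by
    rw [← hV, ← (hasSum_coef_sq hh).tsum_eq]
    unfold massOn
    rw [← (summable_mass pr hh _).tsum_add (summable_mass pr hh _),
      ← ((summable_mass pr hh _).add (summable_mass pr hh _)).tsum_add (summable_mass pr hh _)]
    refine (((summable_mass pr hh _).add (summable_mass pr hh _)).add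
      (summable_mass pr hh _)).tsum_le_tsum (fun S => ?_) (hasSum_coef_sq hh).summable
    rw [← mul_add, ← mul_add]
    exact mul_le_of_le_one_right (sq_nonneg _) (frac_three pr B (bL ⁻¹' B) (bL ⁻¹' (bL ⁻¹' B))
      h2 h3 (fun l => h2 (bL l)) S)
  linarith [ka.1, ka.2, kb.1, kb.2, kb2.1, kb2.2]

end Pool.Agent.Generics
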