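import Pool.Agent.Lib.MP_9214e0_lc.Filt

/-!
Almost every real gives a generic filter.
-/

set_option autoImplicit false
set_option linter.unusedSectionVars false
set_option linter.unusedVariables false

namespace Pool.Agent.Generics

open MeasureTheory Set ZFSet FirstOrder Language Filter
open scoped ENNReal Topology

variable {M : Set ZFSet.{0}} [hM : Fact (IsCTM M)]

/-- Codes of closed sets below a member of `D`. -/
noncomputable def Cz (M : Set ZFSet.{0}) (D : ZFSet.{0}) : ZFSet.{0} :=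
  ZFSet.sep (fun z => Up (dec z) ∧ ∃ A ∈ D, clR M (dec z) ⊆ A) (pwM M om)

theorem Cz_mem {D : ZFSet.{0}} (hD : D ∈ M) : Cz M D ∈ M :=
  (inferInstance : DF M (fun v => ZFSet.sep (fun z => Up (dec z) ∧ ∃ A ∈ v 0, clR M (dec z) ⊆ A)
    (pwM M om))).mem1 hD

/-- Finite intersections of members of `C`. -/
noncomputable def Vz (M : Set ZFSet.{0}) (C : ZFSet.{0}) : ZFSet.{0} :=
  ZFSet.sep (fun z => ∃ F ∈ M, F ⊆ C ∧ (F : Set ZFSet.{0}).Finite ∧
    ∀ c : ℕ, c ∈ dec z ↔ ∀ y ∈ F, c ∈ dec y) (pwM M om)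

theorem Vz_mem {C : ZFSet.{0}} (hC : C ∈ M) : Vz M C ∈ M :=
  (inferInstance : DF M (fun v => ZFSet.sep (fun z => ∃ F ∈ M, F ⊆ v 0 ∧
    (F : Set ZFSet.{0}).Finite ∧ ∀ c : ℕ, c ∈ dec z ↔ ∀ y ∈ F, c ∈ dec y) (pwM M om))).mem1 hC

theorem mem_Vz {C z : ZFSet.{0}} : z ∈ Vz M C ↔ (z ∈ M ∧ z ⊆ om) ∧ ∃ F ∈ M, F ⊆ C ∧
    (F : Set ZFSet.{0}).Finite ∧ ∀ c : ℕ, c ∈ dec z ↔ ∀ y ∈ F, c ∈ dec y := by
  rw [Vz, ZFSet.mem_sep, mem_pw]

theorem Vz_inter {C z z' : ZFSet.{0}} (hz : z ∈ Vz M C) (hz' : z' ∈ Vz M C) :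
    code (dec z ∩ dec z') ∈ Vz M C := by
  rw [mem_Vz] at hz hz' ⊢
  obtain ⟨⟨h1, h2⟩, F, hF, h3, h4, h5⟩ := hz
  obtain ⟨⟨h1', h2'⟩, F', hF', h3', h4', h5'⟩ := hz'
  refine ⟨⟨code_inter_mem (by rwa [code_dec h2]) (by rwa [code_dec h2']), code_subset _⟩,
    F ∪ F', (inferInstance : DF M (fun v => v 0 ∪ v 1)).mem2 hF hF', ?_, ?_, ?_⟩
  · intro y hy
    rcases ZFSet.mem_union.1 hy with h | h
    · exact h3 h
    · exact h3' h
  · rw [ZFSet.coe_union]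
    exact h4.union h4'
  · intro c
    rw [dec_code, Set.mem_inter_iff, h5, h5']
    constructor
    · rintro ⟨h6, h7⟩ y hy
      rcases ZFSet.mem_union.1 hy with h | h
      · exact h6 y h
      · exact h7 y h
    · intro h
      exact ⟨fun y hy => h y (ZFSet.mem_union.2 (Or.inl hy)),
        fun y hy => h y (ZFSet.mem_union.2 (Or.inr hy))⟩

theorem Vz_of_mem {C z : ZFSet.{0}} (hC : C ⊆ pwM M om) (hz : z ∈ C) : z ∈ Vz M C := by
  have h1 := mem_pw.1 (hC hz)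
  rw [mem_Vz]
  refine ⟨h1, {z}, (inferInstance : DF M (fun v => {v 0})).mem1 h1.1, ?_, ?_, ?_⟩
  · intro y hy
    rw [ZFSet.mem_singleton] at hy
    rwa [hy]
  · rw [ZFSet.coe_singleton]
    exact Set.finite_singleton z
  · intro c
    simp

theorem Vz_up {C z : ZFSet.{0}} (hC : ∀ y ∈ C, Up (dec y)) (hz : z ∈ Vz M C) : Up (dec z) := by
  rw [mem_Vz] at hz
  obtain ⟨-, F, -, h3, -, h5⟩ := hz
  intro c hc
  rw [h5] at hc
  refine ⟨(h5 _).2 fun y hy => (hC y (h3 hy) c (hc y hy)).1,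
    (h5 _).2 fun y hy => (hC y (h3 hy) c (hc y hy)).2⟩

theorem Vz_opn {C z : ZFSet.{0}} (hC : ∀ y ∈ C, Up (dec y)) (hz : z ∈ Vz M C) {w : ℕ → Bool}
    (hw : ∀ y ∈ C, w ∈ opn (dec y)) : w ∈ opn (dec z) := by
  rw [mem_Vz] at hz
  obtain ⟨-, F, -, h3, h4, h5⟩ := hz
  choose! n hn using hw
  refine ⟨h4.toFinset.sup n, (h5 _).2 fun y hy => ?_⟩
  refine (hC y (h3 hy)).pre_le (Finset.le_sup ?_) (hn y (h3 hy))
  rw [Set.Finite.mem_toFinset]
  exact hy

theorem Vz_nonempty {C : ZFSet.{0}} : code univ ∈ Vz M C := by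
  rw [mem_Vz]
  refine ⟨⟨?_, code_subset _⟩, ∅, (inferInstance : InM M ∅).out, ?_, ?_, ?_⟩
  · have h1 : code {c : ℕ | c = c} ∈ M := (inferInstance : DF M (fun _ => code {c | c = c})).mem0
    have h2 : {c : ℕ | c = c} = univ := by
      ext c
      simp
    rwa [h2] at h1
  · exact ZFSet.empty_subset _
  · rw [ZFSet.coe_empty]
    exact Set.finite_empty
  · intro c
    simp

/-- A sequence of codes in `M` which minimizes the measure. -/
theorem exists_min_seq {C : ZFSet.{0}} (hCM : C ∈ M) (hC : ∀ y ∈ C, Up (dec y)) :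
    ∃ V : ℕ → ZFSet.{0}, seqc V ∈ M ∧ ∀ k, V k ∈ Vz M C ∧ ∀ z ∈ Vz M C,
      coin ℕ (opn (dec (V k))) ≤ coin ℕ (opn (dec z)) + 2⁻¹ ^ k := by
  obtain ⟨V, hV, hV'⟩ := choose_seq (M := M) (R := fun k z v => ∀ z' ∈ v 0, ∀ n : ℕ, ∃ m : ℕ,
      lev (dec z) n * 2 ^ m * 2 ^ k ≤ lev (dec z') m * 2 ^ n * 2 ^ k + 2 ^ n * 2 ^ m)
    (v := fun _ => Vz M C) inferInstance (fun _ => Vz_mem hCM) (Vz_mem hCM) (by
      intro k
      have h1 : (⨅ z : Vz M C, coin ℕ (opn (dec z.1))) <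
          (⨅ z : Vz M C, coin ℕ (opn (dec z.1))) + 2⁻¹ ^ k := by
        refine ENNReal.lt_add_right ?_ (ENNReal.pow_pos (by norm_num) _).ne'
        exact ne_top_of_le_ne_top (measure_ne_top (coin ℕ) _)
          (iInf_le (fun z : Vz M C => coin ℕ (opn (dec z.1))) ⟨code univ, Vz_nonempty⟩)
      obtain ⟨z, hz⟩ := iInf_lt_iff.1 h1
      refine ⟨z, z.2, ?_⟩
      intro z' hz' n
      have h2 : coin ℕ (opn (dec z.1)) < coin ℕ (opn (dec z')) + 2⁻¹ ^ k :=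
        hz.trans_le (add_le_add (iInf_le (fun z : Vz M C => coin ℕ (opn (dec z.1))) ⟨z', hz'⟩)
          le_rfl)
      have h3 := ((coin_opn_le (Vz_up hC z.2) _).1 le_rfl n).trans_lt h2
      rw [coin_opn_iSup (Vz_up hC hz'), ENNReal.iSup_add] at h3
      obtain ⟨m, hm⟩ := lt_iSup_iff.1 h3
      exact ⟨m, (level_le_iff _ _ _ _ _).2 hm.le⟩)
  refine ⟨V, hV, fun k => ⟨(hV' k).1, fun z hz => ?_⟩⟩
  rw [coin_opn_le (Vz_up hC (hV' k).1)]
  intro n
  obtain ⟨m, hm⟩ := (hV' k).2 z hz n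
  refine ((level_le_iff _ _ _ _ _).1 hm).trans (add_le_add ?_ le_rfl)
  exact (coin_opn_le (Vz_up hC hz) _).1 le_rfl m

/-- Clopen approximations, chosen in `M`. -/
theorem exists_levels {V : ℕ → ZFSet.{0}} (hV : seqc V ∈ M) (hVup : ∀ k, Up (dec (V k))) (a : ℕ) :
    ∃ N : ℕ → ℕ, seqc (fun k => nat (N k)) ∈ M ∧ ∀ k, coin ℕ (opn (dec (V k))) ≤
      coin ℕ {x | pre x (N k) ∈ dec (V k)} + 2⁻¹ ^ (k + a) := by
  obtain ⟨s, hs, hs'⟩ := choose_seq (M := M) (R := fun k y v => ∀ m : ℕ,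
      lev (dec (app (v 0) (nat k))) m * 2 ^ nn y * 2 ^ (k + a) ≤
      lev (dec (app (v 0) (nat k))) (nn y) * 2 ^ m * 2 ^ (k + a) + 2 ^ m * 2 ^ nn y)
    (v := fun _ => seqc V) inferInstance (fun _ => hV) om_mem_M (by
      intro k
      have h1 : coin ℕ (opn (dec (V k))) < coin ℕ (opn (dec (V k))) + 2⁻¹ ^ (k + a) :=
        ENNReal.lt_add_right (measure_ne_top _ _) (ENNReal.pow_pos (by norm_num) _).ne'
      rw [coin_opn_iSup (hVup k), ENNReal.iSup_add] at h1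
      obtain ⟨n, hn⟩ := lt_iSup_iff.1 h1
      refine ⟨nat n, nat_mem_om n, fun m => ?_⟩
      rw [app_seqc, nn_nat, level_le_iff]
      exact (le_iSup (fun n => (lev (dec (V k)) n : ℝ≥0∞) * 2⁻¹ ^ n) m).trans hn.le)
  refine ⟨fun k => nn (s k), ?_, fun k => ?_⟩
  · have : (fun k => nat (nn (s k))) = s := by
      funext k
      exact nat_nn (hs' k).1
    rw [this]
    exact hs
  · rw [coin_lev, coin_opn_le (hVup k)]
    intro m
    have h1 := (hs' k).2 m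
    rw [app_seqc, level_le_iff] at h1
    exact h1

theorem generic_aux {D : ZFSet.{0}} (hD : D ∈ M) (hD' : ∀ A ∈ D, A ∈ rand M)
    (hdense : ∀ A ∈ rand M, ∃ B ∈ D, B ⊆ A) :
    coin ℕ {w | ∀ y ∈ Cz M D, w ∈ opn (dec y)} = 0 := by
  by_contra hpos
  have hCM := Cz_mem hD
  have hC : ∀ y ∈ Cz M D, Up (dec y) := fun y hy => (ZFSet.mem_sep.1 hy).2.1
  have hCp : Cz M D ⊆ pwM M om := ZFSet.sep_subset
  obtain ⟨V, hV, hV'⟩ := exists_min_seq hCM hC
  have hVup : ∀ k, Up (dec (V k)) := fun k => Vz_up hC (hV' k).1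
  obtain ⟨a, ha⟩ := ENNReal.exists_inv_two_pow_lt hpos
  obtain ⟨N, hN, hN'⟩ := exists_levels hV hVup (a + 1)
  -- the closed set
  set e : Set ℕ := {c | ∃ k : ℕ, ∃ j : ℕ, 2 ^ N k ≤ c / 2 ^ j ∧ c / 2 ^ j < 2 ^ (N k + 1) ∧
    c / 2 ^ j ∉ dec (V k)} with he
  have heM : code e ∈ M := by
    have h1 : code {c | ∃ k : ℕ, ∃ j : ℕ, 2 ^ nn (app (seqc fun k => nat (N k)) (nat k)) ≤ c / 2 ^ j ∧
        c / 2 ^ j < 2 ^ (nn (app (seqc fun k => nat (N k)) (nat k)) + 1) ∧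
        c / 2 ^ j ∉ dec (app (seqc V) (nat k))} ∈ M :=
      (inferInstance : DF M (fun v => code {c | ∃ k : ℕ, ∃ j : ℕ,
        2 ^ nn (app (v 0) (nat k)) ≤ c / 2 ^ j ∧ c / 2 ^ j < 2 ^ (nn (app (v 0) (nat k)) + 1) ∧
        c / 2 ^ j ∉ dec (app (v 1) (nat k))})).mem2 hN hV
    simpa only [app_seqc, nn_nat] using h1
  have heup : Up e := by
    rintro c ⟨k, j, h⟩
    have h1 : 2 * c / 2 ^ (j + 1) = c / 2 ^ j := by
      rw [pow_succ, mul_comm (2 ^ j), ← Nat.div_div_eq_div_mul]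
      congr 1
      omega
    have h2 : (2 * c + 1) / 2 ^ (j + 1) = c / 2 ^ j := by
      rw [pow_succ, mul_comm (2 ^ j), ← Nat.div_div_eq_div_mul]
      congr 1
      omega
    refine ⟨⟨k, j + 1, ?_⟩, ⟨k, j + 1, ?_⟩⟩
    · rwa [h1]
    · rwa [h2]
  have heo : ∀ x, x ∉ opn e ↔ ∀ k, pre x (N k) ∈ dec (V k) := by
    intro x
    constructor
    · intro h k
      by_contra h1
      apply h
      refine ⟨N k, k, 0, ?_⟩
      rw [pow_zero, Nat.div_one]
      exact ⟨(pre_bounds x _).1, (pre_bounds x _).2, h1⟩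
    · rintro h ⟨m, k, j, h1, h2, h3⟩
      by_cases hj : j ≤ m
      · obtain ⟨i, rfl⟩ := Nat.exists_eq_add_of_le' hj
        rw [pre_add_div] at h1 h2 h3
        have h4 : i = N k := by
          rw [← log_pre x i]
          exact (Nat.log_eq_iff (Or.inr ⟨by norm_num, pre_ne_zero x i⟩)).2 ⟨h1, h2⟩
        rw [h4] at h3
        exact h3 (h k)
      · have h4 : pre x m / 2 ^ j = 0 := by
          apply Nat.div_eq_of_lt
          exact (pre_bounds x m).2.trans_le (Nat.pow_le_pow_right (by norm_num) (by omega))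
        rw [h4] at h1
        have : 0 < 2 ^ N k := by positivity
        omega
  -- it has positive measure
  have hep : coin ℕ (opn e) < 1 := by
    by_contra hcon
    rw [not_lt] at hcon
    have h1 : coin ℕ (opn e)ᶜ = 0 := by
      rw [prob_compl_eq_zero_iff (measurableSet_opn e)]
      exact le_antisymm prob_le_one hcon
    have h2 : {w | ∀ y ∈ Cz M D, w ∈ opn (dec y)} ⊆ (opn e)ᶜ ∪
        ⋃ k, (opn (dec (V k)) \ {x | pre x (N k) ∈ dec (V k)}) := by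
      intro w hw
      by_cases hwe : w ∈ opn e
      · right
        have h3 := (heo w).not.1 (not_not.2 hwe)
        push Not at h3
        obtain ⟨k, hk⟩ := h3
        rw [Set.mem_iUnion]
        exact ⟨k, Vz_opn hC (hV' k).1 hw, hk⟩
      · exact Or.inl hwe
    have h3 : ∀ k, coin ℕ (opn (dec (V k)) \ {x | pre x (N k) ∈ dec (V k)}) ≤
        2⁻¹ ^ (k + (a + 1)) := by
      intro k
      have h4 : {x : ℕ → Bool | pre x (N k) ∈ dec (V k)} ⊆ opn (dec (V k)) := fun x hx => ⟨N k, hx⟩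
      rw [measure_sdiff h4 (measurableSet_pre _ _).nullMeasurableSet (measure_ne_top _ _)]
      exact tsub_le_iff_left.2 (hN' k)
    have h4 : coin ℕ {w | ∀ y ∈ Cz M D, w ∈ opn (dec y)} ≤ 2⁻¹ ^ a := by
      refine (measure_mono h2).trans ((measure_union_le _ _).trans ?_)
      rw [h1, zero_add]
      refine (measure_iUnion_le _).trans ((ENNReal.tsum_le_tsum h3).trans ?_)
      have h5 : ∀ k : ℕ, (2⁻¹ : ℝ≥0∞) ^ (k + (a + 1)) = 2⁻¹ ^ a * 2⁻¹ ^ (k + 1) := by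
        intro k
        rw [← pow_add]
        congr 1
        omega
      simp_rw [h5]
      rw [ENNReal.tsum_mul_left, ENNReal.tsum_geometric_add_one, ENNReal.one_sub_inv_two, inv_inv,
        ENNReal.inv_mul_cancel (by norm_num) (by norm_num), mul_one]
    exact absurd ha (not_lt.2 h4)
  -- take a condition in `D` below it
  obtain ⟨B, hBD, hBe⟩ := hdense _ (clR_mem_rand heM heup hep)
  obtain ⟨v, hv, hvup, hv1, hvB⟩ := rand_inner (hD' B hBD)
  have hvC : code v ∈ Cz M D := by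
    rw [Cz, ZFSet.mem_sep, mem_pw, dec_code]
    exact ⟨⟨hv, code_subset v⟩, hvup, B, hBD, hvB⟩
  have hvV : ∀ k, (opn v)ᶜ ⊆ opn (dec (V k)) := by
    intro k
    have hVk := (mem_Vz.1 (hV' k).1).1
    refine compl_subset (by rw [code_dec hVk.2]; exact hVk.1) (hVup k) hv hvup ?_
    intro x hx hxv
    have h1 : real x ∈ clR M e := hBe (hvB (real_mem_clR.2 ⟨hx, hxv⟩))
    rw [real_mem_clR, heo] at h1
    exact ⟨N k, h1.2 k⟩
  have hle : ∀ k : ℕ, coin ℕ (opn v)ᶜ ≤ 2⁻¹ ^ k := by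
    intro k
    have h1 := (hV' k).2 _ (Vz_inter (hV' k).1 (Vz_of_mem hCp hvC))
    rw [dec_code, dec_code, opn_inter (hVup k) hvup] at h1
    have h2 : coin ℕ (opn (dec (V k))) = coin ℕ (opn (dec (V k)) ∩ opn v) + coin ℕ (opn v)ᶜ := by
      rw [← measure_inter_add_sdiff (opn (dec (V k))) (measurableSet_opn v)]
      congr 2
      ext x
      constructor
      · exact fun h => h.2
      · exact fun h => ⟨hvV k h, h⟩
    rw [h2] at h1
    exact (ENNReal.add_le_add_iff_left (measure_ne_top _ _)).1 h1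
  have h0 : coin ℕ (opn v)ᶜ = 0 := by
    by_contra h
    obtain ⟨k, hk⟩ := ENNReal.exists_inv_two_pow_lt h
    exact absurd hk (not_lt.2 (hle k))
  rw [prob_compl_eq_zero_iff (measurableSet_opn v)] at h0
  exact absurd h0 hv1.ne

/-- Almost every real gives a generic filter. -/
theorem ae_generic : ∀ᵐ w ∂(coin ℕ), RandomOver M w ∧ IsGenericFilter M (rand M) (Gw M w) := by
  have h1 : ∀ᵐ w ∂(coin ℕ), ∀ D ∈ M, (∀ A ∈ D, A ∈ rand M) →
      (∀ A ∈ rand M, ∃ B ∈ D, B ⊆ A) → ∃ A ∈ D, A ∈ Gw M w := by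
    rw [ae_ball_iff hM.out.countable]
    intro D hD
    by_cases h : (∀ A ∈ D, A ∈ rand M) ∧ (∀ A ∈ rand M, ∃ B ∈ D, B ⊆ A)
    · have h2 : ∀ᵐ w ∂(coin ℕ), ¬ ∀ y ∈ Cz M D, w ∈ opn (dec y) := by
        rw [ae_iff]
        simp only [not_not]
        exact generic_aux hD h.1 h.2
      filter_upwards [h2] with w hw _ _
      push Not at hw
      obtain ⟨y, hy, hyw⟩ := hw
      rw [Cz, ZFSet.mem_sep, mem_pw] at hy
      obtain ⟨⟨hyM, hyo⟩, hyup, A, hA, hyA⟩ := hy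
      exact ⟨A, hA, h.1 A hA, dec y, by rwa [code_dec hyo], hyup, hyw, hyA⟩
    · exact Eventually.of_forall fun w h1 h2 => absurd ⟨h1, h2⟩ h
  filter_upwards [h1, ae_random (M := M)] with w hw hr
  refine ⟨hr, ?_⟩
  exact {
    sub := fun A hA => hA.1
    nonempty := ⟨_, reals_mem_Gw hr⟩
    up := by
      rintro A ⟨-, v, hv, hvp, hwv, hvA⟩ B hB hAB
      exact ⟨hB, v, hv, hvp, hwv, fun z hz => hAB (hvA hz)⟩
    dir := by
      rintro A ⟨-, v, hv, hvp, hwv, hvA⟩ B ⟨-, u, hu, hup, hwu, huB⟩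
      refine ⟨clR M (v ∪ u), clR_mem_Gw hr (code_union_mem hv hu) (hvp.union hup) ?_, ?_, ?_⟩
      · rw [opn_union]
        exact fun h => h.elim hwv hwu
      · intro z hz
        rw [mem_clR, opn_union] at hz
        exact hvA (mem_clR.2 ⟨hz.1, fun h => hz.2 (Or.inl h)⟩)
      · intro z hz
        rw [mem_clR, opn_union] at hz
        exact huB (mem_clR.2 ⟨hz.1, fun h => hz.2 (Or.inr h)⟩)
    meets := hw }

end Pool.Agent.Generics
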