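import Pool.Agent.Lib.MP_9214e0_lc.Invariant

/-!
Two cocycles with values in a countable group which are uniformly close are cohomologous.
-/

set_option autoImplicit false

namespace Pool.Agent.Generics

open MeasureTheory Set Function
open scoped ENNReal

/-- The iterates of a cocycle of a single map. -/
def cocIter {Ω Δ : Type} [Group Δ] (T : Ω → Ω) (α : Ω → Δ) : ℕ → Ω → Δ
  | 0, _ => 1
  | m + 1, w => α (T^[m] w) * cocIter T α m w

variable {Ω : Type} [MeasurableSpace Ω] {P : Measure Ω} [IsProbabilityMeasure P] {T : Ω → Ω}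
  {Δ : Type} [Group Δ] [Countable Δ] [MeasurableSpace Δ] [DiscreteMeasurableSpace Δ]

omit [IsProbabilityMeasure P] in
theorem measurable_cocIter (hT : MeasurePreserving T P P) {α : Ω → Δ} (hα : Measurable α) (m : ℕ) :
    Measurable (cocIter T α m) := by
  induction m with
  | zero => exact measurable_const
  | succ m ih =>
    have h1 : Measurable (fun w => (α (T^[m] w), cocIter T α m w)) :=
      (hα.comp (hT.measurable.iterate m)).prodMk ih
    exact (measurable_of_countable (fun p : Δ × Δ => p.1 * p.2)).comp h1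

/-- The skew product. -/
def skew (T : Ω → Ω) (α₁ α₂ : Ω → Δ) (p : Ω × Δ) : Ω × Δ := (T p.1, α₁ p.1 * p.2 * (α₂ p.1)⁻¹)

omit [MeasurableSpace Ω] [Countable Δ] [MeasurableSpace Δ] [DiscreteMeasurableSpace Δ] in
theorem skew_iterate (T : Ω → Ω) (α₁ α₂ : Ω → Δ) (m : ℕ) (p : Ω × Δ) :
    (skew T α₁ α₂)^[m] p = (T^[m] p.1, cocIter T α₁ m p.1 * p.2 * (cocIter T α₂ m p.1)⁻¹) := by
  induction m with
  | zero => simp [cocIter]
  | succ m ih =>
    rw [iterate_succ', comp_apply, ih]
    simp only [skew, cocIter, iterate_succ', comp_apply, mul_inv_rev]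
    ext
    · rfl
    · group

theorem mp_skew (hT : MeasurePreserving T P P) {α₁ α₂ : Ω → Δ} (h₁ : Measurable α₁)
    (h₂ : Measurable α₂) : MeasurePreserving (skew T α₁ α₂) (P.prod Measure.count)
      (P.prod Measure.count) := by
  refine hT.skew_product (g := fun w δ => α₁ w * δ * (α₂ w)⁻¹) ?_ ?_
  · have h3 : Measurable (fun p : Ω × Δ => (α₁ p.1, p.2, α₂ p.1)) :=
      (h₁.comp measurable_fst).prodMk (measurable_snd.prodMk (h₂.comp measurable_fst))
    exact (measurable_of_countable (fun p : Δ × Δ × Δ => p.1 * p.2.1 * p.2.2⁻¹)).comp h3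
  · refine Filter.Eventually.of_forall fun w => ?_
    ext s _
    rw [Measure.map_apply (measurable_of_countable _) (MeasurableSet.of_discrete)]
    have : (fun δ => α₁ w * δ * (α₂ w)⁻¹) ⁻¹' s = (fun δ => (α₁ w)⁻¹ * δ * α₂ w) '' s := by
      ext δ
      simp only [mem_preimage, mem_image]
      constructor
      · intro h
        exact ⟨_, h, by group⟩
      · rintro ⟨a, ha, rfl⟩
        have : α₁ w * ((α₁ w)⁻¹ * a * α₂ w) * (α₂ w)⁻¹ = a := by group
        rwa [this]
    rw [this]
    refine Measure.count_injective_image ?_ s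
    intro a b h
    exact mul_left_cancel (mul_right_cancel h)

omit [Group Δ] [Countable Δ] [DiscreteMeasurableSpace Δ] in
theorem ae_count {p : Δ → Prop} (h : ∀ᵐ δ ∂(Measure.count : Measure Δ), p δ) : ∀ δ, p δ := by
  intro δ
  by_contra hδ
  rw [ae_iff] at h
  have := Measure.count_eq_zero_iff.1 h
  have h2 : δ ∈ {a | ¬ p a} := hδ
  rw [this] at h2
  exact h2

/-- Uniformly close cocycles of an ergodic map are cohomologous. -/
theorem exists_intertwiner (hT : MeasurePreserving T P P)
    (herg : ∀ A : Set Ω, MeasurableSet A → (∀ᵐ w ∂P, T w ∈ A ↔ w ∈ A) →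
      (∀ᵐ w ∂P, w ∈ A) ∨ ∀ᵐ w ∂P, w ∉ A)
    {α₁ α₂ : Ω → Δ} (h₁ : Measurable α₁) (h₂ : Measurable α₂) {c : ℝ} (hc : c < 1 / 4)
    (h : ∀ m : ℕ, P.real {w | cocIter T α₁ m w ≠ cocIter T α₂ m w} ≤ c) :
    ∃ φ : Ω → Δ, Measurable φ ∧ ∀ᵐ w ∂P, φ (T w) = α₁ w * φ w * (α₂ w)⁻¹ := by
  classical
  have hS := mp_skew hT h₁ h₂
  have hEeq : {p : Ω × Δ | p.2 = 1} = univ ×ˢ {1} := by
    ext p
    simp
  have hE : MeasurableSet {p : Ω × Δ | p.2 = 1} := measurable_snd (measurableSet_singleton 1)
  have hE1 : (P.prod Measure.count) {p : Ω × Δ | p.2 = 1} = 1 := by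
    rw [hEeq, Measure.prod_prod]
    simp
  have hclose : ∀ m : ℕ, 1 - c ≤ (P.prod Measure.count).real ({p : Ω × Δ | p.2 = 1} ∩
      (skew T α₁ α₂)^[m] ⁻¹' {p : Ω × Δ | p.2 = 1}) := by
    intro m
    have e1 : {p : Ω × Δ | p.2 = 1} ∩ (skew T α₁ α₂)^[m] ⁻¹' {p : Ω × Δ | p.2 = 1} =
        {w | cocIter T α₁ m w = cocIter T α₂ m w} ×ˢ {1} := by
      ext p
      simp only [mem_inter_iff, mem_ofPred_eq, mem_preimage, skew_iterate, mem_prod,
        mem_singleton_iff]
      constructor
      · rintro ⟨h1, h2⟩
        rw [h1, mul_one, mul_inv_eq_one] at h2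
        exact ⟨h2, h1⟩
      · rintro ⟨h1, h2⟩
        rw [h2, mul_one, mul_inv_eq_one]
        exact ⟨rfl, h1⟩
    have hm : MeasurableSet {w | cocIter T α₁ m w = cocIter T α₂ m w} :=
      measurableSet_eq_fun (measurable_cocIter hT h₁ m) (measurable_cocIter hT h₂ m)
    rw [e1]
    unfold Measure.real
    rw [Measure.prod_prod, Measure.count_singleton, mul_one]
    have e2 := h m
    have e3 : {w | cocIter T α₁ m w ≠ cocIter T α₂ m w} =
        {w | cocIter T α₁ m w = cocIter T α₂ m w}ᶜ := rfl
    rw [e3, probReal_compl_eq_one_sub hm] at e2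
    unfold Measure.real at e2
    linarith
  obtain ⟨η, hηm, hη2, hηS, hηE⟩ := exists_invariant hS hE hE1 hclose
  have hinv : ∀ᵐ w ∂P, ∀ δ : Δ, η (T w, α₁ w * δ * (α₂ w)⁻¹) = η (w, δ) := by
    have := Measure.ae_ae_of_ae_prod hηS
    filter_upwards [this] with w hw
    exact ae_count hw
  have hηδ : ∀ δ : Δ, MeasurableSet {w | 1 / 2 < η (w, δ)} := by
    intro δ
    have : Measurable (fun w : Ω => η (w, δ)) := hηm.comp (measurable_id.prodMk measurable_const)
    exact measurableSet_lt measurable_const this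
  set A : Set Ω := {w | ∃ δ : Δ, 1 / 2 < η (w, δ) ∧ ∀ δ', 1 / 2 < η (w, δ') → δ' = δ} with hA
  have hAm : MeasurableSet A := by
    have : A = ⋃ δ : Δ, ({w | 1 / 2 < η (w, δ)} ∩ ⋂ δ' : Δ, {w | 1 / 2 < η (w, δ') → δ' = δ}) := by
      ext w
      simp [hA]
    rw [this]
    refine MeasurableSet.iUnion fun δ => (hηδ δ).inter (MeasurableSet.iInter fun δ' => ?_)
    by_cases hd : δ' = δ
    · simp [hd]
    · have : {w | 1 / 2 < η (w, δ') → δ' = δ} = {w | 1 / 2 < η (w, δ')}ᶜ := by
        ext w
        simp [hd]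
      rw [this]
      exact (hηδ δ').compl
  have hAinv : ∀ᵐ w ∂P, T w ∈ A ↔ w ∈ A := by
    filter_upwards [hinv] with w hw
    have hw' : ∀ δ, η (T w, δ) = η (w, (α₁ w)⁻¹ * δ * α₂ w) := by
      intro δ
      rw [← hw]
      congr 2
      group
    constructor
    · rintro ⟨δ, h1, h2⟩
      refine ⟨(α₁ w)⁻¹ * δ * α₂ w, ?_, ?_⟩
      · rw [← hw']
        exact h1
      · intro δ' h3
        rw [← hw] at h3
        rw [← h2 _ h3]
        group
    · rintro ⟨δ, h1, h2⟩
      refine ⟨α₁ w * δ * (α₂ w)⁻¹, ?_, ?_⟩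
      · rw [hw]
        exact h1
      · intro δ' h3
        rw [hw'] at h3
        rw [← h2 _ h3]
        group
  have hAall : ∀ᵐ w ∂P, w ∈ A := by
    rcases herg A hAm hAinv with h3 | h3
    · exact h3
    · exfalso
      -- the integral of the square of the distance would be too large
      set g : Ω × Δ → ℝ := fun p => (({p : Ω × Δ | p.2 = 1}).indicator (fun _ => (1 : ℝ)) p -
        η p) ^ 2 with hg
      have hgm : Measurable g := by
        have : Measurable (({p : Ω × Δ | p.2 = 1}).indicator (fun _ => (1 : ℝ))) :=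
          measurable_const.indicator hE
        exact (this.sub hηm).pow_const 2
      have hgi : Integrable g (P.prod Measure.count) := by
        have h4 : MemLp (({p : Ω × Δ | p.2 = 1}).indicator (fun _ => (1 : ℝ))) 2
            (P.prod Measure.count) :=
          memLp_indicator_const 2 hE 1 (Or.inr (by rw [hE1]; exact ENNReal.one_ne_top))
        exact (h4.sub hη2).integrable_sq
      have h5 : ∫⁻ p, ENNReal.ofReal (g p) ∂(P.prod Measure.count) =
          ENNReal.ofReal (∫ p, g p ∂(P.prod Measure.count)) :=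
        (ofReal_integral_eq_lintegral_ofReal hgi
          (Filter.Eventually.of_forall fun p => sq_nonneg _)).symm
      have h6 : ENNReal.ofReal (1 / 4) ≤ ∫⁻ p, ENNReal.ofReal (g p) ∂(P.prod Measure.count) := by
        rw [lintegral_prod _ (hgm.ennreal_ofReal).aemeasurable]
        calc ENNReal.ofReal (1 / 4) = ∫⁻ _w, ENNReal.ofReal (1 / 4) ∂P := by simp
          _ ≤ _ := by
            refine lintegral_mono_ae ?_
            filter_upwards [h3] with w hw
            rw [lintegral_count]
            by_cases h7 : 1 / 2 < η (w, 1)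
            · -- there is another one
              have : ∃ δ', 1 / 2 < η (w, δ') ∧ δ' ≠ 1 := by
                by_contra hcon
                push Not at hcon
                exact hw ⟨1, h7, fun δ' hδ' => hcon δ' hδ'⟩
              obtain ⟨δ', h8, h9⟩ := this
              refine le_trans ?_ (ENNReal.le_tsum δ')
              apply ENNReal.ofReal_le_ofReal
              simp only [hg]
              rw [indicator_of_notMem (by simpa using h9)]
              nlinarith
            · refine le_trans ?_ (ENNReal.le_tsum 1)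
              apply ENNReal.ofReal_le_ofReal
              simp only [hg]
              rw [indicator_of_mem (by simp)]
              push Not at h7
              nlinarith
      rw [h5] at h6
      have hnn : 0 ≤ ∫ p, g p ∂(P.prod Measure.count) :=
        integral_nonneg fun p => sq_nonneg _
      have h7 := (ENNReal.ofReal_le_ofReal_iff hnn).1 h6
      linarith
  let φ : Ω → Δ := fun w => if hw : w ∈ A then hw.choose else 1
  have hφ : ∀ w ∈ A, 1 / 2 < η (w, φ w) ∧ ∀ δ', 1 / 2 < η (w, δ') → δ' = φ w := by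
    intro w hw
    have : φ w = Exists.choose hw := by
      simp only [φ]
      rw [dif_pos hw]
    rw [this]
    exact Exists.choose_spec hw
  have hφm : Measurable φ := by
    refine measurable_to_countable' fun δ => ?_
    have : φ ⁻¹' {δ} = (A ∩ {w | 1 / 2 < η (w, δ)}) ∪ (if δ = 1 then Aᶜ else ∅) := by
      ext w
      simp only [mem_preimage, mem_singleton_iff, mem_union, mem_inter_iff, mem_ofPred_eq]
      by_cases hw : w ∈ A
      · have h4 := hφ w hw
        constructor
        · intro h5
          rw [← h5]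
          exact Or.inl ⟨hw, h4.1⟩
        · rintro (h5 | h5)
          · exact (h4.2 δ h5.2).symm
          · split_ifs at h5 with h6
            · exact absurd hw h5
            · exact absurd h5 (notMem_empty _)
      · have h4 : φ w = 1 := by
          simp only [φ]
          rw [dif_neg hw]
        rw [h4]
        constructor
        · intro h5
          right
          rw [if_pos h5.symm]
          exact hw
        · rintro (h5 | h5)
          · exact absurd h5.1 hw
          · split_ifs at h5 with h6
            · exact h6.symm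
            · exact absurd h5 (notMem_empty _)
    rw [this]
    refine (hAm.inter (hηδ δ)).union ?_
    split_ifs
    · exact hAm.compl
    · exact MeasurableSet.empty
  refine ⟨φ, hφm, ?_⟩
  filter_upwards [hAall, hAinv, hinv] with w h3 h4 h5
  have h6 := hφ w h3
  have h7 := hφ (T w) (h4.2 h3)
  refine (h7.2 _ ?_).symm
  rw [h5]
  exact h6.1

end Pool.Agent.Generics
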