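import Mathlib

/-!
An almost invariant set is close to an invariant function.
-/

set_option autoImplicit false

namespace Pool.Agent.Generics

open MeasureTheory Set Function
open scoped ENNReal

theorem exists_invariant_vector {H : Type} [NormedAddCommGroup H] [InnerProductSpace ℝ H]
    [CompleteSpace H] (U : H →L[ℝ] H) (hU : ‖U‖ ≤ 1) (ξ : H) (hξ : ‖ξ‖ ^ 2 = 1) {c : ℝ}
    (h : ∀ m : ℕ, 1 - c ≤ inner ℝ ξ (U^[m] ξ)) : ∃ η : H, U η = η ∧ ‖ξ - η‖ ^ 2 ≤ c := by
  have hmean := U.tendsto_birkhoffAverage_orthogonalProjection hU ξ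
  set V := U.eqLocus (1 : H →L[ℝ] H) with hV
  set η : V := V.orthogonalProjectionOnto ξ with hη
  have hge : 1 - c ≤ inner ℝ ξ (η : H) := by
    have h1 : Filter.Tendsto (fun n => inner ℝ ξ (birkhoffAverage ℝ U _root_.id n ξ))
        Filter.atTop (nhds (inner ℝ ξ (η : H))) :=
      (continuous_const.inner continuous_id).continuousAt.tendsto.comp hmean
    refine ge_of_tendsto h1 ?_
    filter_upwards [Filter.eventually_ge_atTop 1] with n hn
    rw [birkhoffAverage, birkhoffSum, real_inner_smul_right, inner_sum]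
    have h2 : (n : ℝ) * (1 - c) ≤ ∑ i ∈ Finset.range n, inner ℝ ξ (_root_.id (U^[i] ξ)) := by
      have := Finset.card_nsmul_le_sum (Finset.range n)
        (fun i => inner ℝ ξ (_root_.id (U^[i] ξ))) (1 - c) (fun i _ => h i)
      rwa [Finset.card_range, nsmul_eq_mul] at this
    have hn' : (0 : ℝ) < n := by exact_mod_cast hn
    rw [← div_eq_inv_mul, le_div_iff₀ hn']
    linarith
  have hproj : inner ℝ ξ (η : H) = ‖(η : H)‖ ^ 2 := by
    have h1 : inner ℝ (ξ - (η : H)) (η : H) = 0 :=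
      V.starProjection_inner_eq_zero ξ (η : H) η.2
    rw [inner_sub_left, sub_eq_zero, real_inner_self_eq_norm_sq] at h1
    exact h1
  refine ⟨(η : H), ?_, ?_⟩
  · have := LinearMap.mem_eqLocus.1 η.2
    exact this
  · rw [norm_sub_sq_real, hξ, ← hproj]
    linarith

section L2

variable {α : Type} [MeasurableSpace α] {ν : Measure α}

theorem coeFn_iterate {S : α → α} (hS : MeasurePreserving S ν ν) (g : Lp ℝ 2 ν) {g' : α → ℝ}
    (hg : g =ᵐ[ν] g') (m : ℕ) :
    ((Lp.compMeasurePreserving S hS)^[m] g : Lp ℝ 2 ν) =ᵐ[ν] g' ∘ S^[m] := by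
  rw [Lp.compMeasurePreserving_iterate]
  exact (Lp.coeFn_compMeasurePreserving g (hS.iterate m)).trans
    ((hS.iterate m).quasiMeasurePreserving.ae_eq_comp hg)

theorem inner_eq_integral (f g : Lp ℝ 2 ν) {f' g' : α → ℝ} (hf : f =ᵐ[ν] f') (hg : g =ᵐ[ν] g') :
    inner ℝ f g = ∫ x, f' x * g' x ∂ν := by
  rw [L2.inner_def]
  refine integral_congr_ae ?_
  filter_upwards [hf, hg] with x h1 h2
  rw [h1, h2]
  simp only [RCLike.inner_apply, conj_trivial]
  ring

/-- If all iterates of a measure-preserving map move a set of measure one only a little, then there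
is an invariant function close to its indicator function. -/
theorem exists_invariant {S : α → α}
    (hS : MeasurePreserving S ν ν) {E : Set α} (hE : MeasurableSet E) (hνE : ν E = 1) {c : ℝ}
    (h : ∀ m : ℕ, 1 - c ≤ ν.real (E ∩ S^[m] ⁻¹' E)) :
    ∃ η : α → ℝ, Measurable η ∧ MemLp η 2 ν ∧ (∀ᵐ x ∂ν, η (S x) = η x) ∧
      ∫ x, (E.indicator (fun _ => (1 : ℝ)) x - η x) ^ 2 ∂ν ≤ c := by
  have hνE' : ν E ≠ ∞ := by rw [hνE]; exact ENNReal.one_ne_top
  have hmem1 : MemLp (E.indicator (fun _ => (1 : ℝ))) 2 ν :=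
    memLp_indicator_const 2 hE 1 (Or.inr hνE')
  set ξ : Lp ℝ 2 ν := hmem1.toLp with hξ
  have hξc : ξ =ᵐ[ν] E.indicator (fun _ => (1 : ℝ)) := hmem1.coeFn_toLp
  have hU : ∀ g : Lp ℝ 2 ν, (Lp.compMeasurePreservingₗᵢ ℝ S hS).toContinuousLinearMap g =
    Lp.compMeasurePreserving S hS g := fun g => rfl
  have hU' : ⇑((Lp.compMeasurePreservingₗᵢ ℝ S hS).toContinuousLinearMap) =
    ⇑(Lp.compMeasurePreserving (E := ℝ) (p := 2) S hS) := funext hU
  have hξnorm : ‖ξ‖ ^ 2 = 1 := by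
    rw [← real_inner_self_eq_norm_sq, inner_eq_integral ξ ξ hξc hξc]
    have h2 : (fun x => E.indicator (fun _ => (1 : ℝ)) x * E.indicator (fun _ => (1 : ℝ)) x) =
        E.indicator (fun _ => (1 : ℝ)) := by
      funext x
      by_cases hx : x ∈ E <;> simp [hx]
    rw [h2, integral_indicator hE]
    simp [Measure.real, hνE]
  have hinner : ∀ m : ℕ, 1 - c ≤
      inner ℝ ξ (((Lp.compMeasurePreservingₗᵢ ℝ S hS).toContinuousLinearMap)^[m] ξ) := by
    intro m
    rw [hU', inner_eq_integral ξ _ hξc (coeFn_iterate hS ξ hξc m)]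
    have h2 : (fun x => E.indicator (fun _ => (1 : ℝ)) x *
        (E.indicator (fun _ => (1 : ℝ)) ∘ S^[m]) x) =
        (E ∩ S^[m] ⁻¹' E).indicator (fun _ => (1 : ℝ)) := by
      funext x
      by_cases hx : x ∈ E <;> by_cases hx' : S^[m] x ∈ E <;> simp [hx, hx']
    rw [h2, integral_indicator (hE.inter ((hS.iterate m).measurable hE))]
    simp only [integral_const, MeasurableSet.univ, measureReal_restrict_apply, univ_inter,
      smul_eq_mul, mul_one]
    exact h m
  have hnorm : ‖(Lp.compMeasurePreservingₗᵢ ℝ S hS : Lp ℝ 2 ν →ₗᵢ[ℝ]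
      Lp ℝ 2 ν).toContinuousLinearMap‖ ≤ 1 := by
    refine ContinuousLinearMap.opNorm_le_bound _ zero_le_one fun g => ?_
    rw [hU, Lp.norm_compMeasurePreserving, one_mul]
  obtain ⟨η, hη1, hη2⟩ := exists_invariant_vector _ hnorm ξ hξnorm hinner
  rw [hU] at hη1
  obtain ⟨η', hη'm, hη'⟩ := Lp.aestronglyMeasurable η
  refine ⟨η', hη'm.measurable, (memLp_congr_ae hη').1 (Lp.memLp η), ?_, ?_⟩
  · have h1 := Lp.coeFn_compMeasurePreserving η hS
    rw [hη1] at h1
    have h2 := hS.quasiMeasurePreserving.ae_eq_comp hη'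
    filter_upwards [h1, h2, hη'] with x e1 e2 e3
    simp only [comp_apply] at e1 e2
    rw [← e2, ← e1, e3]
  · have h1 : ‖ξ - η‖ ^ 2 = ∫ x, (E.indicator (fun _ => (1 : ℝ)) x - η' x) ^ 2 ∂ν := by
      have h3 : (ξ - η : Lp ℝ 2 ν) =ᵐ[ν] fun x => E.indicator (fun _ => (1 : ℝ)) x - η' x := by
        filter_upwards [Lp.coeFn_sub ξ η, hξc, hη'] with x e1 e2 e3
        rw [e1, Pi.sub_apply, e2, e3]
      rw [← real_inner_self_eq_norm_sq, inner_eq_integral _ _ h3 h3]
      refine integral_congr_ae (Filter.Eventually.of_forall fun x => ?_)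
      simp only
      ring
    rw [← h1]
    exact hη2

end L2

end Pool.Agent.Generics
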