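import Pool.Agent.Lib.MP_9214e0_lc.Approx

/-!
A path of configurations from one configuration to an independent one.
-/

set_option autoImplicit false

namespace Pool.Agent.Generics

open MeasureTheory Set Function
open scoped ENNReal symmDiff

/-- the integer with the first `K` binary digits of `u` -/
def lab : ℕ → (ℕ → Bool) → ℕ
  | 0, _ => 0
  | K + 1, u => 2 * lab K u + (u K).toNat

theorem lab_lt (K : ℕ) (u : ℕ → Bool) : lab K u < 2 ^ K := by
  induction K with
  | zero => simp [lab]
  | succ K ih =>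
    have := Bool.toNat_lt (u K)
    rw [lab, pow_succ]
    omega

theorem lab_refine (K r j : ℕ) (u : ℕ → Bool) : lab K u < j ↔ lab (K + r) u < 2 ^ r * j := by
  induction r with
  | zero => simp
  | succ r ih =>
    rw [ih, ← add_assoc, lab, pow_succ]
    have h1 := Bool.toNat_lt (u (K + r))
    have h2 : 2 ^ r * 2 * j = 2 * (2 ^ r * j) := by ring
    rw [h2]
    omega

theorem lab_inj (K : ℕ) {u u' : ℕ → Bool} (h : lab K u = lab K u') : ∀ k < K, u k = u' k := by
  induction K with
  | zero => intro k hk; omega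
  | succ K ih =>
    rw [lab, lab] at h
    have h1 := Bool.toNat_lt (u K)
    have h2 := Bool.toNat_lt (u' K)
    have h3 : lab K u = lab K u' := by omega
    have h4 : (u K).toNat = (u' K).toNat := by omega
    intro k hk
    rcases Nat.lt_succ_iff_lt_or_eq.1 hk with hk | rfl
    · exact ih h3 k hk
    · cases h5 : u k <;> cases h6 : u' k <;> simp [h5, h6] at h4 ⊢

theorem lab_dep (K : ℕ) : DepOn (Finset.range K) (lab K) := by
  induction K with
  | zero => intro w w' _; rfl
  | succ K ih =>
    intro w w' h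
    rw [lab, lab, ih w w' (fun i hi => h i (Finset.mem_range.2 (by
      have := Finset.mem_range.1 hi; omega))), h K (Finset.self_mem_range_succ K)]

theorem measurable_lab (K : ℕ) : Measurable (lab K) := (lab_dep K).measurable

theorem coin_lab (K m : ℕ) : (coin ℕ).real {u | lab K u = m} ≤ 1 / 2 ^ K := by
  by_cases hne : ∃ u0, lab K u0 = m
  · obtain ⟨u0, hu0⟩ := hne
    have h1 : {u | lab K u = m} ⊆ Set.pi (Finset.range K : Set ℕ) (fun k => {u0 k}) := by
      intro u hu k hk
      have hk' := Finset.mem_range.1 (Finset.mem_coe.1 hk)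
      exact lab_inj K (show lab K u = lab K u0 by rw [hu0]; exact hu) k hk'
    refine (measureReal_mono h1).trans ?_
    unfold Measure.real
    rw [coin_pi]
    simp_rw [fair_singleton]
    rw [Finset.prod_const, Finset.card_range, ENNReal.toReal_pow, ENNReal.toReal_inv]
    apply le_of_eq
    rw [one_div, ← inv_pow]
    norm_num
  · have h1 : {u | lab K u = m} = ∅ := by
      ext u
      simp only [mem_ofPred_eq, mem_empty_iff_false, iff_false]
      intro h
      exact hne ⟨u, h⟩
    rw [h1]
    simp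

variable {I : Type}

/-- the configuration number `j` on the path of length `2 ^ K` -/
def pt (K j : ℕ) (w : (I × ℕ) → Bool) (i : I) : Bool :=
  if lab K (fun k => w (i, k + 2)) < j then w (i, 1) else w (i, 0)

theorem pt_zero (K : ℕ) (w : (I × ℕ) → Bool) (i : I) : pt K 0 w i = w (i, 0) := by
  simp [pt]

theorem pt_last (K : ℕ) (w : (I × ℕ) → Bool) (i : I) : pt K (2 ^ K) w i = w (i, 1) := by
  simp [pt, lab_lt]

theorem pt_refine (K r j : ℕ) (w : (I × ℕ) → Bool) : pt (K + r) (2 ^ r * j) w = pt K j w := by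
  funext i
  simp only [pt, ← lab_refine K r j]

/-- a permutation of `I` acting on `I × ℕ` -/
def prodPerm (e : Equiv.Perm I) : Equiv.Perm (I × ℕ) := Equiv.prodCongr e (Equiv.refl ℕ)

@[simp]
theorem prodPerm_apply (e : Equiv.Perm I) (i : I) (n : ℕ) : prodPerm e (i, n) = (e i, n) := rfl

theorem pt_comp (K j : ℕ) (e : Equiv.Perm I) (w : (I × ℕ) → Bool) :
    pt K j (w ∘ prodPerm e) = pt K j w ∘ e := rfl

theorem inj_pair (i : I) (s : ℕ) : Injective (fun k : ℕ => ((i, k + s) : I × ℕ)) := by
  intro k k' h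
  simpa using h

/-- the map which computes one coordinate -/
def ptOne (K j : ℕ) (v : ℕ → Bool) : Bool := if lab K (fun k => v (k + 2)) < j then v 1 else v 0

theorem measurable_ptOne (K j : ℕ) : Measurable (ptOne K j) := by
  have h : DepOn (Finset.range (K + 2)) (ptOne K j) := by
    intro w w' h
    simp only [ptOne]
    rw [lab_dep K (fun k => w (k + 2)) (fun k => w' (k + 2)) (fun k hk => h _
      (Finset.mem_range.2 (by have := Finset.mem_range.1 hk; omega))),
      h 1 (Finset.mem_range.2 (by omega)), h 0 (Finset.mem_range.2 (by omega))]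
  exact h.measurable

theorem map_ptOne (K j : ℕ) : (coin ℕ).map (ptOne K j) = fair := by
  classical
  -- flipping the coordinates `0` and `1`
  have hflip := ((mp_flip (0 : ℕ)).comp (mp_flip (1 : ℕ)))
  set F : (ℕ → Bool) → (ℕ → Bool) := (fun (w : ℕ → Bool) j => if j = 0 then !(w j) else w j) ∘
    (fun (w : ℕ → Bool) j => if j = 1 then !(w j) else w j) with hF
  have h1 : ∀ v, ptOne K j (F v) = !(ptOne K j v) := by
    intro v
    have e0 : F v 0 = !(v 0) := by simp [hF]
    have e1 : F v 1 = !(v 1) := by simp [hF]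
    have e2 : (fun k => F v (k + 2)) = fun k => v (k + 2) := by
      funext k
      simp [hF]
    simp only [ptOne, e2, e0, e1]
    split_ifs <;> rfl
  have hm := measurable_ptOne K j
  have h2 : (coin ℕ).map (ptOne K j) {false} = (coin ℕ).map (ptOne K j) {true} := by
    rw [Measure.map_apply hm (measurableSet_singleton _),
      Measure.map_apply hm (measurableSet_singleton _),
      ← hflip.measure_preimage (hm (measurableSet_singleton _)).nullMeasurableSet]
    congr 1
    ext v
    simp only [mem_preimage, mem_singleton_iff]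
    rw [h1]
    simp
  have h3 : (coin ℕ).map (ptOne K j) {true} + (coin ℕ).map (ptOne K j) {false} = 1 := by
    rw [← measure_union (by simp) (measurableSet_singleton _)]
    have h : ({true} ∪ {false} : Set Bool) = univ := by
      ext b
      cases b <;> simp
    rw [h, Measure.map_apply hm MeasurableSet.univ, preimage_univ, measure_univ]
  have h4 : (coin ℕ).map (ptOne K j) {true} = 2⁻¹ := by
    rw [h2, ← two_mul] at h3
    exact ENNReal.eq_inv_of_mul_eq_one_left (by rw [mul_comm]; exact h3)
  refine Measure.ext_of_singleton ?_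
  intro b
  rw [fair_singleton]
  cases b
  · rw [h2, h4]
  · exact h4

theorem mp_pt (K j : ℕ) : MeasurePreserving (pt (I := I) K j) (coin (I × ℕ)) (coin I) := by
  have h1 := Measure.infinitePi_map_curry (ι := I) (κ := ℕ) (X := Bool) (fun _ _ => fair)
  have h2 := Measure.infinitePi_map_pi (μ := fun _ : I => coin ℕ) (f := fun _ => ptOne K j)
    (fun _ => measurable_ptOne K j)
  have h3 : (fun _ : I => (coin ℕ).map (ptOne K j)) = fun _ => fair := by
    funext i
    exact map_ptOne K j
  rw [h3] at h2
  have hm1 : Measurable (curry : ((I × ℕ) → Bool) → (I → ℕ → Bool)) := by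
    refine measurable_pi_lambda _ fun i => measurable_pi_lambda _ fun n => ?_
    exact measurable_pi_apply (i, n)
  have hm2 : Measurable (fun (x : I → ℕ → Bool) (i : I) => ptOne K j (x i)) :=
    measurable_pi_lambda _ fun i => (measurable_ptOne K j).comp (measurable_pi_apply i)
  have h4 : pt (I := I) K j = (fun (x : I → ℕ → Bool) (i : I) => ptOne K j (x i)) ∘
      (curry : ((I × ℕ) → Bool) → (I → ℕ → Bool)) := rfl
  refine ⟨by rw [h4]; exact hm2.comp hm1, ?_⟩
  rw [h4, ← Measure.map_map hm2 hm1]
  have h5 : (coin (I × ℕ)).map (curry : ((I × ℕ) → Bool) → (I → ℕ → Bool)) =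
      Measure.infinitePi fun _ : I => coin ℕ := h1
  rw [h5, h2]
  rfl

theorem diff_pt {K j j' : ℕ} (hjj : j ≤ j') (i : I) :
    (coin (I × ℕ)).real {w | pt K j w i ≠ pt K j' w i} ≤ ((j' : ℝ) - j) / 2 ^ K := by
  classical
  have hmp := mp_comp (inj_pair i 2)
  have h1 : {w : (I × ℕ) → Bool | pt K j w i ≠ pt K j' w i} ⊆
      ⋃ m ∈ Finset.Ico j j', (fun w : (I × ℕ) → Bool => w ∘ fun k : ℕ => (i, k + 2)) ⁻¹'
        {u | lab K u = m} := by
    intro w hw
    simp only [mem_iUnion, Finset.mem_Ico, mem_preimage, mem_ofPred_eq, exists_prop]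
    refine ⟨_, ?_, rfl⟩
    by_contra hcon
    apply hw
    simp only [pt]
    have e : lab K (fun k => w (i, k + 2)) =
        lab K (w ∘ fun k : ℕ => ((i, k + 2) : I × ℕ)) := rfl
    rw [e]
    have : (lab K (w ∘ fun k : ℕ => ((i, k + 2) : I × ℕ)) < j) ↔
        (lab K (w ∘ fun k : ℕ => ((i, k + 2) : I × ℕ)) < j') := by omega
    simp only [this]
  refine (measureReal_mono h1 (measure_ne_top _ _)).trans
    ((measureReal_biUnion_finset_le _ _).trans ?_)
  have h2 : ∀ m ∈ Finset.Ico j j', (coin (I × ℕ)).real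
      ((fun w : (I × ℕ) → Bool => w ∘ fun k : ℕ => (i, k + 2)) ⁻¹' {u | lab K u = m}) ≤
        1 / 2 ^ K := by
    intro m _
    have := hmp.measure_preimage (measurable_lab K (measurableSet_singleton m)).nullMeasurableSet
    unfold Measure.real
    have e : lab K ⁻¹' {m} = {u | lab K u = m} := rfl
    rw [e] at this
    rw [this]
    exact coin_lab K m
  refine (Finset.sum_le_sum h2).trans ?_
  rw [Finset.sum_const, Nat.card_Ico, nsmul_eq_mul, Nat.cast_sub hjj]
  apply le_of_eq
  ring

/-- Continuity: a measurable function takes with high probability the same value at nearby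
configurations of the path. -/
theorem close_pt {Δ : Type} [Countable Δ] [MeasurableSpace Δ] [DiscreteMeasurableSpace Δ]
    {F : (I → Bool) → Δ} (hF : Measurable F) {ε : ℝ} (hε : 0 < ε) :
    ∃ K0 : ℕ, ∀ K j j' : ℕ, j ≤ j' → (j' - j) * 2 ^ K0 ≤ 2 ^ K →
      (coin (I × ℕ)).real {w | F (pt K j w) ≠ F (pt K j' w)} ≤ ε := by
  classical
  obtain ⟨S, A, hdep, hA⟩ := approx_fun hF (show (0 : ℝ) < ε / 3 by positivity)
  have hAm := hdep.measurable
  obtain ⟨K0, hK0⟩ := exists_nat_gt (3 * (S.card : ℝ) / ε)
  have hK0' : (3 * (S.card : ℝ) / ε) < 2 ^ K0 := by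
    refine hK0.trans_le ?_
    exact_mod_cast Nat.lt_two_pow_self.le
  refine ⟨K0, fun K j j' hjj hK => ?_⟩
  have hmeas : MeasurableSet {z | F z ≠ A z} := by
    have : MeasurableSet {z | F z = A z} := measurableSet_eq_fun hF hAm
    exact this.compl
  have h1 : ∀ j'', (coin (I × ℕ)).real {w | F (pt K j'' w) ≠ A (pt K j'' w)} ≤ ε / 3 := by
    intro j''
    have := (mp_pt (I := I) K j'').measure_preimage hmeas.nullMeasurableSet
    have e : (pt K j'') ⁻¹' {z | F z ≠ A z} = {w | F (pt K j'' w) ≠ A (pt K j'' w)} := rfl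
    rw [e] at this
    unfold Measure.real at hA ⊢
    rw [this]
    exact hA
  have h2 : (coin (I × ℕ)).real (⋃ i ∈ S, {w | pt K j w i ≠ pt K j' w i}) ≤ ε / 3 := by
    refine (measureReal_biUnion_finset_le _ _).trans ?_
    refine (Finset.sum_le_sum fun i _ => diff_pt (K := K) hjj i).trans ?_
    rw [Finset.sum_const, nsmul_eq_mul]
    have h3 : ((j' : ℝ) - j) / 2 ^ K ≤ 1 / 2 ^ K0 := by
      rw [div_le_div_iff₀ (by positivity) (by positivity), one_mul]
      have : (((j' - j) * 2 ^ K0 : ℕ) : ℝ) ≤ ((2 ^ K : ℕ) : ℝ) := by exact_mod_cast hK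
      push_cast [Nat.cast_sub hjj] at this
      exact this
    have h4 : (S.card : ℝ) * (1 / 2 ^ K0) ≤ ε / 3 := by
      rw [mul_one_div, div_le_div_iff₀ (by positivity) (by positivity)]
      rw [div_lt_iff₀ hε] at hK0'
      linarith
    exact (mul_le_mul_of_nonneg_left h3 (by positivity)).trans h4
  have hsub : {w : (I × ℕ) → Bool | F (pt K j w) ≠ F (pt K j' w)} ⊆
      {w | F (pt K j w) ≠ A (pt K j w)} ∪ ({w | F (pt K j' w) ≠ A (pt K j' w)} ∪
        ⋃ i ∈ S, {w | pt K j w i ≠ pt K j' w i}) := by
    intro w hw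
    by_contra hcon
    simp only [mem_union, mem_ofPred_eq, mem_iUnion, not_or, not_not, not_exists] at hcon
    obtain ⟨e1, e2, e3⟩ := hcon
    apply hw
    rw [e1, e2]
    exact hdep _ _ fun i hi => e3 i hi
  refine (measureReal_mono hsub).trans ((measureReal_union_le _ _).trans ?_)
  have := measureReal_union_le (μ := coin (I × ℕ)) {w : (I × ℕ) → Bool | F (pt K j' w) ≠
    A (pt K j' w)} (⋃ i ∈ S, {w | pt K j w i ≠ pt K j' w i})
  linarith [h1 j, h1 j']

end Pool.Agent.Generics
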