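import Pool.Agent.Lib.MP_9214e0_lc.Cyl
import Pool.Agent.Lib.MP_9214e0_lc.Arith

/-!
Open sets and Borel sets of reals inside a countable transitive model.
-/

set_option autoImplicit false
set_option linter.unusedSectionVars false
set_option linter.unusedVariables false

namespace Pool.Agent.Generics

open MeasureTheory Set ZFSet FirstOrder Language Filter
open scoped ENNReal Topology

variable {M : Set ZFSet.{0}} [hM : Fact (IsCTM M)]

/-! ### Membership in `M` from definability -/

theorem DF.mem0 {t : (ℕ → ZFSet.{0}) → ZFSet.{0}} (h : DF M t) : t (fun _ => ∅) ∈ M :=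
  h.mem _ (fun _ => (inferInstance : InM M ∅).out)

theorem DF.mem1 {t : (ℕ → ZFSet.{0}) → ZFSet.{0}} (h : DF M t) {a : ZFSet.{0}} (ha : a ∈ M) :
    t (fun _ => a) ∈ M := h.mem _ (fun _ => ha)

theorem DF.mem2 {t : (ℕ → ZFSet.{0}) → ZFSet.{0}} (h : DF M t) {a b : ZFSet.{0}} (ha : a ∈ M)
    (hb : b ∈ M) : t (vcons a (fun _ => b)) ∈ M := h.mem _ (vcons_mem ha (fun _ => hb))

theorem reals_eq : reals M = pwM M om := rfl

instance : InM M (reals M) := ⟨pw_mem om_mem_M⟩

theorem mem_reals {z : ZFSet.{0}} : z ∈ reals M ↔ z ∈ M ∧ z ⊆ om := mem_pw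

theorem real_mem_reals {x : ℕ → Bool} : real x ∈ reals M ↔ real x ∈ M := by
  rw [mem_reals, and_iff_left (real_subset x)]

theorem real_ofz' {z : ZFSet.{0}} (h : z ∈ reals M) : real (ofz z) = z :=
  real_ofz (mem_reals.1 h).2

theorem code_fin_mem {u : Set ℕ} (hu : u.Finite) : code u ∈ M := by
  obtain ⟨z, hz, h⟩ := finite_mem (M := M) (s := nat '' u) (hu.image _) (by
    rintro _ ⟨n, -, rfl⟩
    exact nat_mem_M n)
  have : code u = z := by
    ext x
    rw [h, mem_code]
    rfl
  rw [this]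
  exact hz

theorem real_fin_mem {x : ℕ → Bool} {n : ℕ} (hx : ∀ i, n ≤ i → x i = false) : real x ∈ M := by
  refine code_fin_mem ((Set.finite_lt_nat n).subset ?_)
  intro i hi
  by_contra h
  rw [mem_ofPred_eq, not_lt] at h
  rw [mem_ofPred_eq, hx i h] at hi
  exact Bool.noConfusion hi

/-- every basic clopen set contains a real of `M` -/
theorem exists_real_pre (c : ℕ) (h : c ≠ 0) : ∃ x n, real x ∈ M ∧ pre x n = c := by
  obtain ⟨x, n, h1, h2⟩ := exists_pre' c h
  exact ⟨x, n, real_fin_mem h2, h1⟩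

/-! ### Nonempty closed sets with a code in `M` have an element in `M` -/

/-- `c` has extensions outside of `u` on all levels. -/
def alive (u : Set ℕ) (c : ℕ) : Prop := ∀ k : ℕ, ∃ i : ℕ, i < 2 ^ k ∧ c * 2 ^ k + i ∉ u

open Classical in
/-- the leftmost branch -/
noncomputable def lmb (u : Set ℕ) : ℕ → ℕ
  | 0 => 1
  | n + 1 => if alive u (2 * lmb u n) then 2 * lmb u n else 2 * lmb u n + 1

instance instDfnalive {u : (ℕ → ZFSet.{0}) → Set ℕ} {c : (ℕ → ZFSet.{0}) → ℕ} [hu : DS M u]
    [hc : DN M c] : Dfn M (fun v => alive (u v) (c v)) := by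
  have h1 := hu.shift.shift
  have h2 := hc.shift.shift
  exact (inferInstance : Dfn M (fun v => ∀ k : ℕ, ∃ i : ℕ, i < 2 ^ k ∧ c v * 2 ^ k + i ∉ u v))

open Classical in
instance instDNlmb {u : (ℕ → ZFSet.{0}) → Set ℕ} {c : (ℕ → ZFSet.{0}) → ℕ} [hu : DS M u]
    [hc : DN M c] : DN M (fun v => lmb (u v) (c v)) := by
  have h1 : DS M (fun v => u (fun i => v (i + 2))) := hu.reindex (· + 2)
  exact DN.recur (fun k v => lmb (u v) k)
    (fun k y v => if alive (u v) (2 * y) then 2 * y else 2 * y + 1)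
    (inferInstance : DN M (fun v => 1))
    (inferInstance : DN M (fun v => if alive (u (fun i => v (i + 2))) (2 * nn (v 1)) then
      2 * nn (v 1) else 2 * nn (v 1) + 1)) (fun k v => rfl) hc

theorem Up.mul_pow {u : Set ℕ} (hu : Up u) {c : ℕ} (hc : c ∈ u) (k : ℕ) :
    ∀ i < 2 ^ k, c * 2 ^ k + i ∈ u := by
  induction k with
  | zero =>
    intro i hi
    have : i = 0 := by simpa using hi
    rw [this]
    simpa using hc
  | succ k ih =>
    intro i hi
    rw [pow_succ] at hi ⊢
    have h1 := ih (i / 2) (by omega)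
    have h2 := hu _ h1
    rcases Nat.mod_two_eq_zero_or_one i with h3 | h3
    · have : c * (2 ^ k * 2) + i = 2 * (c * 2 ^ k + i / 2) := by
        have : i = 2 * (i / 2) := by omega
        nlinarith
      rw [this]
      exact h2.1
    · have : c * (2 ^ k * 2) + i = 2 * (c * 2 ^ k + i / 2) + 1 := by
        have : i = 2 * (i / 2) + 1 := by omega
        nlinarith
      rw [this]
      exact h2.2

theorem alive_step {u : Set ℕ} (hu : Up u) {c : ℕ} (hc : alive u c) (h : ¬ alive u (2 * c)) :
    alive u (2 * c + 1) := by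
  by_contra h'
  unfold alive at h h'
  push Not at h h'
  obtain ⟨k, hk⟩ := h
  obtain ⟨l, hl⟩ := h'
  obtain ⟨i, hi, hi'⟩ := hc (k + l + 1)
  apply hi'
  have key : ∀ (c' m n : ℕ), (∀ i < 2 ^ m, c' * 2 ^ m + i ∈ u) →
      ∀ i < 2 ^ (m + n), c' * 2 ^ (m + n) + i ∈ u := by
    intro c' m n hm i hi
    have h1 := hm (i / 2 ^ n) ((Nat.div_lt_iff_lt_mul (by positivity)).2 (by rwa [← pow_add]))
    have h2 := hu.mul_pow h1 n (i % 2 ^ n) (Nat.mod_lt _ (by positivity))
    have h3 : (c' * 2 ^ m + i / 2 ^ n) * 2 ^ n + i % 2 ^ n = c' * 2 ^ (m + n) + i := by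
      rw [add_mul, mul_assoc, ← pow_add, add_assoc, Nat.div_add_mod']
    rwa [h3] at h2
  rw [pow_succ] at hi ⊢
  by_cases h1 : i < 2 ^ (k + l)
  · have h2 := key (2 * c) k l hk i h1
    have h3 : c * (2 ^ (k + l) * 2) + i = 2 * c * 2 ^ (k + l) + i := by ring
    rw [h3]
    exact h2
  · have h2 := key (2 * c + 1) l k hl (i - 2 ^ (k + l)) (by rw [add_comm l k]; omega)
    rw [add_comm l k] at h2
    have h3 : c * (2 ^ (k + l) * 2) + i = (2 * c + 1) * 2 ^ (k + l) + (i - 2 ^ (k + l)) := by
      have : i = (i - 2 ^ (k + l)) + 2 ^ (k + l) := by omega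
      nlinarith
    rw [h3]
    exact h2

theorem exists_real_notMem {u : Set ℕ} (hu : code u ∈ M) (hup : Up u) (h : opn u ≠ univ) :
    ∃ x, real x ∈ M ∧ x ∉ opn u := by
  classical
  obtain ⟨y, hy⟩ := (Set.ne_univ_iff_exists_notMem _).1 h
  have halive : ∀ n, alive u (lmb u n) := by
    intro n
    induction n with
    | zero =>
      intro k
      have h1 := pre_bounds y k
      rw [pow_succ] at h1
      refine ⟨pre y k - 2 ^ k, by omega, ?_⟩
      rw [lmb, one_mul, Nat.add_sub_cancel' h1.1]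
      exact fun h2 => hy ⟨k, h2⟩
    | succ n ih =>
      rw [lmb]
      split_ifs with h1
      · exact h1
      · exact alive_step hup ih h1
  set x : ℕ → Bool := fun n => decide (¬ alive u (2 * lmb u n)) with hx
  have hpre : ∀ n, pre x n = lmb u n := by
    intro n
    induction n with
    | zero => rfl
    | succ n ih =>
      rw [pre, lmb, ih, hx]
      simp only [decide_eq_true_eq]
      by_cases h1 : alive u (2 * lmb u n)
      · rw [if_neg (not_not.2 h1), if_pos h1, add_zero]
      · rw [if_pos h1, if_neg h1]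
  refine ⟨x, ?_, ?_⟩
  · have h1 := (inferInstance : DF M (fun v => real (fun n => decide (¬ alive (dec (v 0))
      (2 * lmb (dec (v 0)) n))))).mem1 hu
    simp only [dec_code] at h1
    exact h1
  · rintro ⟨n, hn⟩
    rw [hpre] at hn
    obtain ⟨i, hi, hi'⟩ := halive n 0
    have : i = 0 := by simpa using hi
    apply hi'
    rw [this]
    simpa using hn

theorem code_union_mem {u v : Set ℕ} (hu : code u ∈ M) (hv : code v ∈ M) : code (u ∪ v) ∈ M := by
  have h1 : code {n | n ∈ dec (code u) ∨ n ∈ dec (code v)} ∈ M :=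
    (inferInstance : DF M (fun v => code {n | n ∈ dec (v 0) ∨ n ∈ dec (v 1)})).mem2 hu hv
  simp only [dec_code] at h1
  exact h1

theorem code_inter_mem {u v : Set ℕ} (hu : code u ∈ M) (hv : code v ∈ M) : code (u ∩ v) ∈ M := by
  have h1 : code {n | n ∈ dec (code u) ∧ n ∈ dec (code v)} ∈ M :=
    (inferInstance : DF M (fun v => code {n | n ∈ dec (v 0) ∧ n ∈ dec (v 1)})).mem2 hu hv
  simp only [dec_code] at h1
  exact h1

/-- Inclusions between closed sets and open sets are absolute. -/
theorem compl_subset {u v : Set ℕ} (hu : code u ∈ M) (hup : Up u) (hv : code v ∈ M) (hvp : Up v)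
    (h : ∀ x, real x ∈ M → x ∉ opn v → x ∈ opn u) : (opn v)ᶜ ⊆ opn u := by
  intro y hy
  by_contra hyu
  obtain ⟨x, hx, hx'⟩ := exists_real_notMem (code_union_mem hu hv) (hup.union hvp) (by
    rw [opn_union]
    intro h1
    have : y ∈ opn u ∪ opn v := by rw [h1]; trivial
    rcases this with h2 | h2
    · exact hyu h2
    · exact hy h2)
  rw [opn_union, Set.mem_union, not_or] at hx'
  exact hx'.1 (h x hx hx'.2)

theorem code_upc_mem {u : Set ℕ} (hu : code u ∈ M) : code (upc u) ∈ M := by
  have h1 := (inferInstance : DF M (fun v => code {c | ∃ k : ℕ, c / 2 ^ k ∈ dec (v 0) ∧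
    c / 2 ^ k ≠ 0})).mem1 hu
  simp only [dec_code] at h1
  exact h1

theorem code_mnl_mem {u : Set ℕ} (hu : code u ∈ M) : code (mnl u) ∈ M := by
  have h1 := (inferInstance : DF M (fun v => code {c | c ∈ dec (v 0) ∧ c ≠ 0 ∧
    (c = 1 ∨ c / 2 ∉ dec (v 0))})).mem1 hu
  simp only [dec_code] at h1
  exact h1

/-- The open set with code `u`, in `M`. -/
noncomputable def opR (M : Set ZFSet.{0}) (u : Set ℕ) : ZFSet.{0} :=
  ZFSet.sep (fun z => ofz z ∈ opn u) (reals M)

theorem mem_opR {u : Set ℕ} {z : ZFSet.{0}} : z ∈ opR M u ↔ z ∈ reals M ∧ ofz z ∈ opn u :=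
  ZFSet.mem_sep

theorem real_mem_opR {u : Set ℕ} {x : ℕ → Bool} : real x ∈ opR M u ↔ real x ∈ M ∧ x ∈ opn u := by
  rw [mem_opR, real_mem_reals, ofz_real]

instance instDFopR {u : (ℕ → ZFSet.{0}) → Set ℕ} [hu : DS M u] : DF M (fun v => opR M (u v)) := by
  have h1 := hu.shift
  exact (inferInstance : DF M (fun v => ZFSet.sep (fun z => ofz z ∈ opn (u v)) (reals M)))

theorem opR_mem {u : Set ℕ} (hu : code u ∈ M) : opR M u ∈ M := by
  have h1 := (inferInstance : DF M (fun v => opR M (dec (v 0)))).mem1 hu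
  simp only [dec_code] at h1
  exact h1

/-! ### The `σ`-algebras of `M` -/

theorem IsSigma.union2 {S A B : ZFSet.{0}} (hS : IsSigma M S) (hA : A ∈ S) (hB : B ∈ S) :
    A ∪ B ∈ S := by
  classical
  have h1 := hS.union (fun n => if n = 0 then A else B) (by
    exact (inferInstance : DF M (fun v => seqc (fun n => if n = 0 then v 0 else v 1))).mem2
      (tr hS.mem hA) (tr hS.mem hB)) (fun n => by
    by_cases h : n = 0 <;> simp [h, hA, hB])
  have h2 : ZFSet.iUnion (fun n : ℕ => if n = 0 then A else B) = A ∪ B := by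
    ext z
    rw [ZFSet.mem_iUnion, ZFSet.mem_union]
    constructor
    · rintro ⟨n, hn⟩
      by_cases h : n = 0
      · simp only [h, if_true] at hn
        exact Or.inl hn
      · simp only [h, if_false] at hn
        exact Or.inr hn
    · rintro (h | h)
      · exact ⟨0, by simpa using h⟩
      · exact ⟨1, by simpa using h⟩
  rwa [h2] at h1

theorem IsSigma.univ_mem {S : ZFSet.{0}} (hS : IsSigma M S) : reals M ∈ S := by
  have h1 := hS.union2 (hS.basic 0) (hS.compl _ (hS.basic 0))
  convert h1 using 1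
  ext z
  rw [ZFSet.mem_union, ZFSet.mem_sdiff, ZFSet.mem_sep]
  tauto

theorem IsSigma.empty_mem {S : ZFSet.{0}} (hS : IsSigma M S) : ∅ ∈ S := by
  have h1 := hS.compl _ hS.univ_mem
  convert h1 using 1
  ext z
  rw [ZFSet.mem_sdiff]
  simp

theorem IsSigma.inter2 {S A B : ZFSet.{0}} (hS : IsSigma M S) (hA : A ∈ S) (hB : B ∈ S) :
    A ∩ B ∈ S := by
  have h1 := hS.compl _ (hS.union2 (hS.compl _ hA) (hS.compl _ hB))
  convert h1 using 1
  ext z
  rw [ZFSet.mem_inter, ZFSet.mem_sdiff, ZFSet.mem_union, ZFSet.mem_sdiff, ZFSet.mem_sdiff]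
  have h2 : z ∈ A → z ∈ reals M := fun h => hS.sub A hA h
  tauto

/-- A basic clopen set, in `M`. -/
noncomputable def cyR (M : Set ZFSet.{0}) (c : ℕ) : ZFSet.{0} :=
  ZFSet.sep (fun z => ∃ n : ℕ, pre (ofz z) n = c) (reals M)

instance instDFcyR {c : (ℕ → ZFSet.{0}) → ℕ} [hc : DN M c] : DF M (fun v => cyR M (c v)) := by
  have h1 := hc.shift.shift
  exact (inferInstance : DF M (fun v => ZFSet.sep (fun z => ∃ n : ℕ, pre (ofz z) n = c v) (reals M)))

theorem IsSigma.cyR_mem {S : ZFSet.{0}} (hS : IsSigma M S) (c : ℕ) : cyR M c ∈ S := by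
  induction c using Nat.strong_induction_on with
  | _ c ih =>
    rcases Nat.lt_or_ge c 2 with h | h
    · interval_cases c
      · convert hS.empty_mem using 1
        ext z
        rw [cyR, ZFSet.mem_sep]
        simp only [ZFSet.notMem_empty, iff_false, not_and, not_exists]
        intro _ n
        exact pre_ne_zero _ n
      · convert hS.univ_mem using 1
        ext z
        rw [cyR, ZFSet.mem_sep]
        exact ⟨fun h => h.1, fun h => ⟨h, 0, rfl⟩⟩
    · have h1 := ih (c / 2) (by omega)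
      obtain ⟨n, hn⟩ : ∃ n, Nat.log 2 c = n + 1 := by
        have := Nat.log_pos (by norm_num : 1 < 2) h
        exact ⟨Nat.log 2 c - 1, by omega⟩
      have h3 : ∀ x : ℕ → Bool, (∃ m, pre x m = c) ↔ (∃ m, pre x m = c / 2) ∧
          x n = decide (c % 2 = 1) := by
        intro x
        constructor
        · rintro ⟨m, hm⟩
          have h4 : m = n + 1 := by rw [← hn, ← hm, log_pre]
          subst h4
          refine ⟨⟨n, by rw [← hm, pre_succ_div]⟩, ?_⟩
          rw [pre_succ_mod x, hm]
        · rintro ⟨⟨m, hm⟩, h5⟩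
          have h4 : m = n := by
            rw [← log_pre x m, hm, Nat.log_div_base, hn]
            rfl
          subst h4
          refine ⟨m + 1, ?_⟩
          rw [pre, hm, h5]
          simp only [decide_eq_true_eq]
          split_ifs <;> omega
      have h2 : ∀ z ∈ reals M, (z ∈ cyR M c ↔ z ∈ cyR M (c / 2) ∧
          (nat n ∈ z ↔ c % 2 = 1)) := by
        intro z hz
        rw [cyR, cyR, ZFSet.mem_sep, ZFSet.mem_sep, and_iff_right hz, and_iff_right hz, h3,
          Bool.eq_iff_iff, ofz_true, decide_eq_true_eq]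
      rcases Nat.mod_two_eq_zero_or_one c with h6 | h6
      · convert hS.inter2 h1 (hS.compl _ (hS.basic n)) using 1
        ext z
        rw [ZFSet.mem_inter, ZFSet.mem_sdiff, ZFSet.mem_sep]
        constructor
        · intro hz
          have hz' := (ZFSet.mem_sep.1 hz).1
          have := (h2 z hz').1 hz
          rw [h6] at this
          simp only [zero_ne_one, iff_false] at this
          exact ⟨this.1, hz', fun h => this.2 h.2⟩
        · rintro ⟨h7, h8, h9⟩
          refine (h2 z h8).2 ⟨h7, ?_⟩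
          rw [h6]
          simp only [zero_ne_one, iff_false]
          exact fun h => h9 ⟨h8, h⟩
      · convert hS.inter2 h1 (hS.basic n) using 1
        ext z
        rw [ZFSet.mem_inter, ZFSet.mem_sep]
        constructor
        · intro hz
          have hz' := (ZFSet.mem_sep.1 hz).1
          have := (h2 z hz').1 hz
          exact ⟨this.1, hz', this.2.2 h6⟩
        · rintro ⟨h7, h8, h9⟩
          exact (h2 z h8).2 ⟨h7, fun _ => h6, fun _ => h9⟩

theorem IsSigma.opR_mem {S : ZFSet.{0}} (hS : IsSigma M S) {u : Set ℕ} (hu : code u ∈ M) :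
    opR M u ∈ S := by
  classical
  have h1 := hS.union (fun n => if n ∈ u then cyR M n else ∅) (by
    have h2 := (inferInstance : DF M (fun v => seqc (fun n => if n ∈ dec (v 0) then cyR M n
      else ∅))).mem1 hu
    simp only [dec_code] at h2
    exact h2) (fun n => by
    by_cases h : n ∈ u
    · simp only [h, if_true]
      exact hS.cyR_mem n
    · simp only [h, if_false]
      exact hS.empty_mem)
  convert h1 using 1
  ext z
  rw [mem_opR, ZFSet.mem_iUnion]
  constructor
  · rintro ⟨hz, n, hn⟩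
    refine ⟨pre (ofz z) n, ?_⟩
    rw [if_pos hn, cyR, ZFSet.mem_sep]
    exact ⟨hz, n, rfl⟩
  · rintro ⟨n, hn⟩
    by_cases h : n ∈ u
    · rw [if_pos h, cyR, ZFSet.mem_sep] at hn
      obtain ⟨hz, m, hm⟩ := hn
      exact ⟨hz, m, by rwa [hm]⟩
    · rw [if_neg h] at hn
      exact absurd hn (ZFSet.notMem_empty _)

end Pool.Agent.Generics
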