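import Pool.Agent.Lib.MP_9214e0_lc.Clos

/-!
Recursion on natural numbers inside countable transitive models; arithmetic.
-/

set_option autoImplicit false
set_option linter.unusedSectionVars false
set_option linter.unusedVariables false

namespace Pool.Agent.Generics

open Set ZFSet FirstOrder Language

/-- A definable function with values in the natural numbers. -/
class DN (M : Set ZFSet.{0}) (t : (ℕ → ZFSet.{0}) → ℕ) : Prop where
  out : DF M (fun v => nat (t v))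

/-- A definable function with values in the sets of natural numbers. -/
class DS (M : Set ZFSet.{0}) (t : (ℕ → ZFSet.{0}) → Set ℕ) : Prop where
  out : DF M (fun v => code (t v))

/-- A definable function with values in the reals. -/
class DR (M : Set ZFSet.{0}) (t : (ℕ → ZFSet.{0}) → (ℕ → Bool)) : Prop where
  out : DF M (fun v => real (t v))

variable {M : Set ZFSet.{0}}

instance instDFnat {t : (ℕ → ZFSet.{0}) → ℕ} [h : DN M t] : DF M (fun v => nat (t v)) := h.out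

instance instDFcode {t : (ℕ → ZFSet.{0}) → Set ℕ} [h : DS M t] : DF M (fun v => code (t v)) := h.out

instance instDFreal {t : (ℕ → ZFSet.{0}) → (ℕ → Bool)} [h : DR M t] : DF M (fun v => real (t v)) :=
  h.out

variable [hM : Fact (IsCTM M)]

open Classical in
theorem nat_nn_eq (x : ZFSet.{0}) : nat (nn x) = if x ∈ om then x else ∅ := by
  split_ifs with h
  · exact nat_nn h
  · rw [nn_of_notMem h]
    rfl

open Classical in
instance instDNnn {t : (ℕ → ZFSet.{0}) → ZFSet.{0}} [h : DF M t] : DN M (fun v => nn (t v)) :=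
  ⟨DF.congr (inferInstance : DF M (fun v => if t v ∈ om then t v else ∅))
    (fun v _ => (nat_nn_eq (t v)).symm)⟩

instance instDNconst (n : ℕ) : DN M (fun _ => n) := ⟨inferInstance⟩

theorem DN.reindex {t : (ℕ → ZFSet.{0}) → ℕ} (f : ℕ → ℕ) (h : DN M t) :
    DN M (fun v => t (fun i => v (f i))) := ⟨h.out.reindex f⟩

theorem DN.shift {t : (ℕ → ZFSet.{0}) → ℕ} (h : DN M t) :
    DN M (fun v => t (fun i => v (i + 1))) := h.reindex (· + 1)

theorem DS.reindex {t : (ℕ → ZFSet.{0}) → Set ℕ} (f : ℕ → ℕ) (h : DS M t) :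
    DS M (fun v => t (fun i => v (f i))) := ⟨h.out.reindex f⟩

theorem DS.shift {t : (ℕ → ZFSet.{0}) → Set ℕ} (h : DS M t) :
    DS M (fun v => t (fun i => v (i + 1))) := h.reindex (· + 1)

theorem DR.reindex {t : (ℕ → ZFSet.{0}) → (ℕ → Bool)} (f : ℕ → ℕ) (h : DR M t) :
    DR M (fun v => t (fun i => v (f i))) := ⟨h.out.reindex f⟩

theorem DR.shift {t : (ℕ → ZFSet.{0}) → (ℕ → Bool)} (h : DR M t) :
    DR M (fun v => t (fun i => v (i + 1))) := h.reindex (· + 1)

theorem DN.congr {s t : (ℕ → ZFSet.{0}) → ℕ} (h : DN M s)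
    (h' : ∀ v : ℕ → ZFSet.{0}, (∀ i, v i ∈ M) → s v = t v) : DN M t :=
  ⟨h.out.congr (fun v hv => by rw [h' v hv])⟩

theorem DS.congr {s t : (ℕ → ZFSet.{0}) → Set ℕ} (h : DS M s)
    (h' : ∀ v : ℕ → ZFSet.{0}, (∀ i, v i ∈ M) → s v = t v) : DS M t :=
  ⟨h.out.congr (fun v hv => by rw [h' v hv])⟩

theorem DR.congr {s t : (ℕ → ZFSet.{0}) → (ℕ → Bool)} (h : DR M s)
    (h' : ∀ v : ℕ → ZFSet.{0}, (∀ i, v i ∈ M) → s v = t v) : DR M t :=
  ⟨h.out.congr (fun v hv => by rw [h' v hv])⟩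

/-! ### Quantifiers over natural numbers, sets of natural numbers, and reals -/

instance instDfnexN {φ : ℕ → (ℕ → ZFSet.{0}) → Prop}
    [h : Dfn M (fun v => φ (nn (v 0)) (fun i => v (i + 1)))] : Dfn M (fun v => ∃ n : ℕ, φ n v) :=
  Dfn.congr (inferInstance : Dfn M (fun v => ∃ x ∈ om, φ (nn x) v)) (fun v _ => by
    constructor
    · rintro ⟨x, -, h⟩
      exact ⟨_, h⟩
    · rintro ⟨n, h⟩
      exact ⟨nat n, nat_mem_om n, by rwa [nn_nat]⟩)

instance instDfnallN {φ : ℕ → (ℕ → ZFSet.{0}) → Prop}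
    [h : Dfn M (fun v => φ (nn (v 0)) (fun i => v (i + 1)))] : Dfn M (fun v => ∀ n : ℕ, φ n v) :=
  Dfn.congr (inferInstance : Dfn M (fun v => ¬ ∃ n : ℕ, ¬ φ n v)) (fun v _ => by
    push Not
    rfl)

theorem Dfn.subN {φ : ℕ → (ℕ → ZFSet.{0}) → Prop} {t : (ℕ → ZFSet.{0}) → ℕ}
    (h : Dfn M (fun v => φ (nn (v 0)) (fun i => v (i + 1)))) (ht : DN M t) :
    Dfn M (fun v => φ (t v) v) :=
  Dfn.congr (Dfn.sub (φ := fun x v => φ (nn x) v) h ht.out) (fun v _ => by
    rw [nn_nat])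

theorem DF.subN {s : ℕ → (ℕ → ZFSet.{0}) → ZFSet.{0}} {t : (ℕ → ZFSet.{0}) → ℕ}
    (h : DF M (fun v => s (nn (v 0)) (fun i => v (i + 1)))) (ht : DN M t) :
    DF M (fun v => s (t v) v) :=
  DF.congr (DF.sub (s := fun x v => s (nn x) v) h ht.out) (fun v _ => by
    rw [nn_nat])

theorem DN.subN {s : ℕ → (ℕ → ZFSet.{0}) → ℕ} {t : (ℕ → ZFSet.{0}) → ℕ}
    (h : DN M (fun v => s (nn (v 0)) (fun i => v (i + 1)))) (ht : DN M t) :
    DN M (fun v => s (t v) v) :=
  ⟨DF.subN (s := fun n v => nat (s n v)) h.out ht⟩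

theorem Dfn.comp1N (R : ℕ → Prop) (h : Dfn M (fun v => R (nn (v 0))))
    {s : (ℕ → ZFSet.{0}) → ℕ} (hs : DN M s) : Dfn M (fun v => R (s v)) :=
  Dfn.subN (φ := fun x _ => R x) h hs

theorem Dfn.comp2N (R : ℕ → ℕ → Prop) (h : Dfn M (fun v => R (nn (v 0)) (nn (v 1))))
    {s t : (ℕ → ZFSet.{0}) → ℕ} (hs : DN M s) (ht : DN M t) :
    Dfn M (fun v => R (s v) (t v)) :=
  Dfn.congr (Dfn.comp2 (fun x y => R (nn x) (nn y)) h
    hs.out ht.out) (fun v _ => by simp only [nn_nat])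

theorem DN.comp1 (f : ℕ → ℕ) (h : DN M (fun v => f (nn (v 0))))
    {s : (ℕ → ZFSet.{0}) → ℕ} (hs : DN M s) : DN M (fun v => f (s v)) :=
  DN.subN (s := fun x _ => f x) h hs

theorem DN.comp2 (f : ℕ → ℕ → ℕ) (h : DN M (fun v => f (nn (v 0)) (nn (v 1))))
    {s t : (ℕ → ZFSet.{0}) → ℕ} (hs : DN M s) (ht : DN M t) :
    DN M (fun v => f (s v) (t v)) :=
  ⟨DF.congr (DF.comp2 (fun x y => nat (f (nn x)
    (nn y))) h.out hs.out ht.out) (fun v _ => by simp only [nn_nat])⟩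

instance instDfneqN {s t : (ℕ → ZFSet.{0}) → ℕ} [hs : DN M s] [ht : DN M t] :
    Dfn M (fun v => s v = t v) :=
  Dfn.congr (inferInstance : Dfn M (fun v => nat (s v) = nat (t v))) (fun v _ => nat_inj)

instance instDfnltN {s t : (ℕ → ZFSet.{0}) → ℕ} [hs : DN M s] [ht : DN M t] :
    Dfn M (fun v => s v < t v) :=
  Dfn.congr (inferInstance : Dfn M (fun v => nat (s v) ∈ nat (t v))) (fun v _ => nat_mem_nat)

instance instDfnleN {s t : (ℕ → ZFSet.{0}) → ℕ} [hs : DN M s] [ht : DN M t] :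
    Dfn M (fun v => s v ≤ t v) :=
  Dfn.congr (inferInstance : Dfn M (fun v => ¬ (t v < s v))) (fun v _ => not_lt)

instance instDSdec {t : (ℕ → ZFSet.{0}) → ZFSet.{0}} [h : DF M t] : DS M (fun v => dec (t v)) :=
  ⟨DF.congr (inferInstance : DF M (fun v => ZFSet.sep (fun x => x ∈ om) (t v)))
    (fun v _ => (code_dec' (t v)).symm)⟩

instance instDfnmemS {s : (ℕ → ZFSet.{0}) → ℕ} {t : (ℕ → ZFSet.{0}) → Set ℕ} [hs : DN M s]
    [ht : DS M t] : Dfn M (fun v => s v ∈ t v) :=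
  Dfn.congr (inferInstance : Dfn M (fun v => nat (s v) ∈ code (t v))) (fun v _ => nat_mem_code)

instance instDRofz {t : (ℕ → ZFSet.{0}) → ZFSet.{0}} [h : DF M t] : DR M (fun v => ofz (t v)) :=
  ⟨DF.congr (inferInstance : DF M (fun v => ZFSet.sep (fun x => x ∈ om) (t v)))
    (fun v _ => by
      rw [← code_dec', real]
      simp only [ofz_true]
      rfl)⟩

instance instDfnbit {s : (ℕ → ZFSet.{0}) → ℕ} {t : (ℕ → ZFSet.{0}) → (ℕ → Bool)} [hs : DN M s]
    [ht : DR M t] : Dfn M (fun v => t v (s v) = true) :=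
  Dfn.congr (inferInstance : Dfn M (fun v => nat (s v) ∈ real (t v))) (fun v _ => nat_mem_real)

instance instDSset {φ : ℕ → (ℕ → ZFSet.{0}) → Prop}
    [h : Dfn M (fun v => φ (nn (v 0)) (fun i => v (i + 1)))] : DS M (fun v => {n | φ n v}) :=
  ⟨DF.congr (inferInstance : DF M (fun v => ZFSet.sep (fun x => φ (nn x) v) om))
    (fun v _ => by
      ext x
      rw [ZFSet.mem_sep, mem_code]
      constructor
      · rintro ⟨h1, h2⟩
        exact ⟨_, h2, nat_nn h1⟩
      · rintro ⟨n, hn, rfl⟩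
        rw [nn_nat]
        exact ⟨nat_mem_om n, hn⟩)⟩

instance instDRfn {φ : ℕ → (ℕ → ZFSet.{0}) → Prop} {d : ∀ n v, Decidable (φ n v)}
    [h : Dfn M (fun v => φ (nn (v 0)) (fun i => v (i + 1)))] :
    DR M (fun v n => decide (φ n v)) :=
  ⟨DF.congr (inferInstance : DF M (fun v => code {n | φ n v})) (fun v _ => by
    simp only [real, decide_eq_true_eq])⟩

instance instDfnexS {φ : Set ℕ → (ℕ → ZFSet.{0}) → Prop}
    [h : Dfn M (fun v => φ (dec (v 0)) (fun i => v (i + 1)))] :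
    Dfn M (fun v => ∃ u : Set ℕ, code u ∈ M ∧ φ u v) :=
  Dfn.congr (inferInstance : Dfn M (fun v => ∃ x ∈ M, φ (dec x) v)) (fun v _ => by
    constructor
    · rintro ⟨x, hx, h⟩
      refine ⟨_, ?_, h⟩
      exact (inferInstance : DF M (fun v => code
        (dec (v 0)))).mem (fun _ => x) (fun _ => hx)
    · rintro ⟨n, hn, h⟩
      exact ⟨_, hn, by rwa [dec_code]⟩)

instance instDfnallS {φ : Set ℕ → (ℕ → ZFSet.{0}) → Prop}
    [h : Dfn M (fun v => φ (dec (v 0)) (fun i => v (i + 1)))] :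
    Dfn M (fun v => ∀ u : Set ℕ, code u ∈ M → φ u v) :=
  Dfn.congr (inferInstance : Dfn M (fun v => ¬ ∃ u : Set ℕ, code u ∈ M ∧ ¬ φ u v)) (fun v _ => by
    push Not
    rfl)

instance instDfnexR {φ : (ℕ → Bool) → (ℕ → ZFSet.{0}) → Prop}
    [h : Dfn M (fun v => φ (ofz (v 0)) (fun i => v (i + 1)))] :
    Dfn M (fun v => ∃ u : ℕ → Bool, real u ∈ M ∧ φ u v) :=
  Dfn.congr (inferInstance : Dfn M (fun v => ∃ x ∈ M, φ (ofz x) v)) (fun v _ => by
    constructor
    · rintro ⟨x, hx, h⟩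
      refine ⟨_, ?_, h⟩
      exact (inferInstance : DF M (fun v => real
        (ofz (v 0)))).mem (fun _ => x) (fun _ => hx)
    · rintro ⟨n, hn, h⟩
      exact ⟨_, hn, by rwa [ofz_real]⟩)

instance instDfnallR {φ : (ℕ → Bool) → (ℕ → ZFSet.{0}) → Prop}
    [h : Dfn M (fun v => φ (ofz (v 0)) (fun i => v (i + 1)))] :
    Dfn M (fun v => ∀ u : ℕ → Bool, real u ∈ M → φ u v) :=
  Dfn.congr (inferInstance : Dfn M (fun v => ¬ ∃ u : ℕ → Bool, real u ∈ M ∧ ¬ φ u v))
    (fun v _ => by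
    push Not
    rfl)

theorem DN.of_graph {t : (ℕ → ZFSet.{0}) → ℕ}
    (h : Dfn M (fun v => nn (v 0) = t (fun i => v (i + 1)))) : DN M t := by
  refine ⟨⟨fun v _ => nat_mem_M _, ?_⟩⟩
  refine Dfn.congr (inferInstance : Dfn M (fun v => v 0 ∈ om ∧
    nn (v 0) = t (fun i => v (i + 1)))) (fun v _ => ?_)
  constructor
  · rintro ⟨h1, h2⟩
    rw [← h2, nat_nn h1]
  · intro h
    rw [h, nn_nat]
    exact ⟨nat_mem_om _, rfl⟩

instance instDNite {φ : (ℕ → ZFSet.{0}) → Prop} {s t : (ℕ → ZFSet.{0}) → ℕ}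
    {d : ∀ v, Decidable (φ v)} [h : Dfn M φ] [hs : DN M s] [ht : DN M t] :
    DN M (fun v => if φ v then s v else t v) :=
  ⟨DF.congr (inferInstance : DF M (fun v => if φ v then nat (s v) else nat (t v)))
    (fun v _ => by split_ifs <;> rfl)⟩

/-! ### Recursion -/

/-- Iteration along the natural numbers. -/
noncomputable def rcs (a : ZFSet.{0}) (h : ZFSet.{0} → ZFSet.{0} → ZFSet.{0}) : ℕ → ZFSet.{0}
  | 0 => a
  | n + 1 => h (nat n) (rcs a h n)

theorem rcs_good {a : ZFSet.{0}} {h : ZFSet.{0} → ZFSet.{0} → ZFSet.{0}} {s : ZFSet.{0}}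
    (hs : ∀ p ∈ s, p = ZFSet.pair ∅ a ∨ ∃ k ∈ M, ∃ z ∈ M, ZFSet.pair k z ∈ s ∧
      p = ZFSet.pair (insert k k) (h k z)) (n : ℕ) :
    ∀ y, ZFSet.pair (nat n) y ∈ s → y = rcs a h n := by
  induction n with
  | zero =>
    intro y hy
    rcases hs _ hy with h1 | ⟨k, -, z, -, -, h2⟩
    · rw [ZFSet.pair_inj] at h1
      exact h1.2
    · rw [ZFSet.pair_inj] at h2
      exact absurd h2.1.symm (succ_ne_empty k)
  | succ n ih =>
    intro y hy
    rcases hs _ hy with h1 | ⟨k, -, z, -, h1, h2⟩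
    · rw [ZFSet.pair_inj] at h1
      exact absurd h1.1 (succ_ne_empty (nat n))
    · rw [ZFSet.pair_inj] at h2
      have h3 := succ_inj (x := nat n) (y := k) h2.1
      subst h3
      rw [h2.2, ih z h1]
      rfl

/-- the approximations to a recursion -/
noncomputable def rcsA (a : ZFSet.{0}) (h : ZFSet.{0} → ZFSet.{0} → ZFSet.{0}) : ℕ → ZFSet.{0}
  | 0 => {ZFSet.pair ∅ a}
  | n + 1 => insert (ZFSet.pair (nat (n + 1)) (rcs a h (n + 1))) (rcsA a h n)

theorem pair_mem_rcsA (a : ZFSet.{0}) (h : ZFSet.{0} → ZFSet.{0} → ZFSet.{0}) (n : ℕ) :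
    ∀ k ≤ n, ZFSet.pair (nat k) (rcs a h k) ∈ rcsA a h n := by
  induction n with
  | zero =>
    intro k hk
    rw [Nat.le_zero.1 hk]
    simp [rcsA, rcs, nat]
  | succ n ih =>
    intro k hk
    rw [rcsA, ZFSet.mem_insert_iff]
    rcases Nat.le_succ_iff.1 hk with h1 | h1
    · exact Or.inr (ih k h1)
    · left
      rw [h1]

theorem rcsA_sub (a : ZFSet.{0}) (h : ZFSet.{0} → ZFSet.{0} → ZFSet.{0}) (n : ℕ) :
    ∀ p ∈ rcsA a h n, ∃ k ≤ n, p = ZFSet.pair (nat k) (rcs a h k) := by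
  induction n with
  | zero =>
    intro p hp
    rw [rcsA, ZFSet.mem_singleton] at hp
    exact ⟨0, le_refl _, hp⟩
  | succ n ih =>
    intro p hp
    rw [rcsA, ZFSet.mem_insert_iff] at hp
    rcases hp with hp | hp
    · exact ⟨n + 1, le_refl _, hp⟩
    · obtain ⟨k, hk, h1⟩ := ih p hp
      exact ⟨k, by omega, h1⟩

theorem df_rcs {g : (ℕ → ZFSet.{0}) → ZFSet.{0}}
    {h : ZFSet.{0} → ZFSet.{0} → (ℕ → ZFSet.{0}) → ZFSet.{0}} (hg : DF M g)
    (hh : DF M (fun v => h (v 0) (v 1) (fun i => v (i + 2)))) :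
    DF M (fun v => rcs (g (fun i => v (i + 1))) (fun k y => h k y (fun i => v (i + 1))) (nn (v 0))) := by
  have hclos : ∀ v : ℕ → ZFSet.{0}, (∀ i, v i ∈ M) → ∀ n,
      rcs (g v) (fun k y => h k y v) n ∈ M := by
    intro v hv n
    induction n with
    | zero => exact hg.mem v hv
    | succ n ih =>
      have := hh.mem (vcons (nat n) (vcons (rcs (g v) (fun k y => h k y v) n) v))
        (vcons_mem (nat_mem_M n) (vcons_mem ih hv))
      exact this
  have hclosA : ∀ v : ℕ → ZFSet.{0}, (∀ i, v i ∈ M) → ∀ n,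
      rcsA (g v) (fun k y => h k y v) n ∈ M := by
    intro v hv n
    induction n with
    | zero =>
      exact (inferInstance : DF M (fun v => {ZFSet.pair ∅ (v 0)})).mem (fun _ => g v)
        (fun _ => hg.mem v hv)
    | succ n ih =>
      exact (inferInstance : DF M (fun v => insert (ZFSet.pair (nat (n + 1)) (v 0)) (v 1))).mem
        (vcons _ (fun _ => _)) (vcons_mem (hclos v hv (n + 1)) (fun _ => ih))
  refine ⟨fun v hv => hclos _ (fun i => hv (i + 1)) _, ?_⟩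
  have hg' : DF M (fun v => g (fun i => v (i + 4))) := hg.reindex (· + 4)
  have hh' : DF M (fun v => h (v 1) (v 0) (fun i => v (i + 6))) :=
    hh.reindex (fun i => match i with | 0 => 1 | 1 => 0 | (j + 2) => j + 6)
  refine Dfn.congr (inferInstance : Dfn M (fun v => ∃ s ∈ M, (∀ p ∈ s,
    p = ZFSet.pair ∅ (g (fun i => v (i + 2))) ∨ ∃ k ∈ M, ∃ z ∈ M, ZFSet.pair k z ∈ s ∧
      p = ZFSet.pair (insert k k) (h k z (fun i => v (i + 2)))) ∧
      ZFSet.pair (nat (nn (v 1))) (v 0) ∈ s)) (fun v hv => ?_)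
  constructor
  · rintro ⟨s, -, hs, hp⟩
    exact rcs_good (h := fun k y => h k y (fun i => v (i + 2))) hs _ _ hp
  · intro hv0
    refine ⟨rcsA (g (fun i => v (i + 2))) (fun k y => h k y (fun i => v (i + 2))) (nn (v 1)),
      hclosA _ (fun i => hv (i + 2)) _, ?_, ?_⟩
    · intro p hp
      obtain ⟨k, hk, rfl⟩ := rcsA_sub _ _ _ p hp
      cases k with
      | zero => exact Or.inl rfl
      | succ k =>
        refine Or.inr ⟨nat k, nat_mem_M k, _, hclos _ (fun i => hv (i + 2)) k,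
          pair_mem_rcsA _ _ _ k (by omega), rfl⟩
    · have h1 := pair_mem_rcsA (g (fun i => v (i + 2))) (fun k y => h k y (fun i => v (i + 2)))
        (nn (v 1)) (nn (v 1)) le_rfl
      have h2 : v 0 = rcs (g (fun i => v (i + 2)))
        (fun k y => h k y (fun i => v (i + 2))) (nn (v 1)) := hv0
      rwa [← h2] at h1

/-- Recursion with values in sets. -/
theorem DF.recur (f : ℕ → (ℕ → ZFSet.{0}) → ZFSet.{0})
    (H : ℕ → ZFSet.{0} → (ℕ → ZFSet.{0}) → ZFSet.{0}) (h0 : DF M (fun v => f 0 v))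
    (hH : DF M (fun v => H (nn (v 0)) (v 1) (fun i => v (i + 2))))
    (hf : ∀ k v, f (k + 1) v = H k (f k v) v) {t : (ℕ → ZFSet.{0}) → ℕ} (ht : DN M t) :
    DF M (fun v => f (t v) v) := by
  have h1 := df_rcs (h := fun x y v => H (nn x) y v) h0 hH
  have h2 : ∀ (v : ℕ → ZFSet.{0}) (n : ℕ), rcs (f 0 v)
      (fun k y => H (nn k) y v) n = f n v := by
    intro v n
    induction n with
    | zero => rfl
    | succ n ih => rw [rcs, ih, nn_nat, hf]
  refine DF.subN (s := fun n v => f n v) (DF.congr h1 (fun v _ => ?_)) ht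
  exact h2 _ _

/-- Recursion with values in natural numbers. -/
theorem DN.recur (f : ℕ → (ℕ → ZFSet.{0}) → ℕ)
    (H : ℕ → ℕ → (ℕ → ZFSet.{0}) → ℕ) (h0 : DN M (fun v => f 0 v))
    (hH : DN M (fun v => H (nn (v 0)) (nn (v 1)) (fun i => v (i + 2))))
    (hf : ∀ k v, f (k + 1) v = H k (f k v) v) {t : (ℕ → ZFSet.{0}) → ℕ} (ht : DN M t) :
    DN M (fun v => f (t v) v) :=
  ⟨DF.recur (fun k v => nat (f k v)) (fun k y v => nat
    (H k (nn y) v)) h0.out hH.out (fun k v => by rw [nn_nat, hf]) ht⟩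

end Pool.Agent.Generics
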