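import Pool.Agent.Lib.MP_9214e0_lc.Superrigid

/-!
Maps to a free action of a countable group.
-/

set_option autoImplicit false

namespace Pool.Agent.Generics

open MeasureTheory Set Function
open scoped ENNReal

section Coc

variable {Ω : Type} [MeasurableSpace Ω] {Δ : Type} [Group Δ] [Countable Δ] [MeasurableSpace Δ]
  [DiscreteMeasurableSpace Δ] {Y : Type} [MeasurableSpace Y] [MeasurableEq Y] [MulAction Δ Y]

/-- The cocycle: `f (T w) = coc f T w • f w`. -/
noncomputable def coc (Δ : Type) [Group Δ] [MulAction Δ Y] (f : Ω → Y) (T : Ω → Ω) (w : Ω) : Δ := by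
  classical
  exact if h : ∃ δ : Δ, f (T w) = δ • f w then h.choose else 1

omit [MeasurableSpace Ω] [Countable Δ] [MeasurableSpace Δ] [DiscreteMeasurableSpace Δ]
  [MeasurableSpace Y] [MeasurableEq Y] in
theorem coc_spec {f : Ω → Y} {T : Ω → Ω} {w : Ω} (h : ∃ δ : Δ, f (T w) = δ • f w) :
    f (T w) = coc Δ f T w • f w := by
  unfold coc
  rw [dif_pos h]
  exact h.choose_spec

omit [Countable Δ] [MeasurableSpace Δ] [DiscreteMeasurableSpace Δ]
  [MeasurableSpace Y] [MeasurableEq Y] in
theorem smul_cancel (hfree : ∀ (δ : Δ) (y : Y), δ • y = y → δ = 1) {δ δ' : Δ} {y : Y}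
    (h : δ • y = δ' • y) : δ = δ' := by
  have h1 : (δ'⁻¹ * δ) • y = y := by
    rw [mul_smul, h, ← mul_smul]
    simp
  have h2 := hfree _ _ h1
  rw [inv_mul_eq_one] at h2
  exact h2.symm

omit [DiscreteMeasurableSpace Δ] in
theorem measurable_coc (hfree : ∀ (δ : Δ) (y : Y), δ • y = y → δ = 1)
    (hsm : ∀ δ : Δ, Measurable (fun y : Y => δ • y)) {f : Ω → Y} (hf : Measurable f) {T : Ω → Ω}
    (hT : Measurable T) : Measurable (coc Δ f T) := by
  classical
  have hset : ∀ δ : Δ, MeasurableSet {w | f (T w) = δ • f w} := fun δ =>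
    measurableSet_eq_fun (hf.comp hT) ((hsm δ).comp hf)
  refine measurable_to_countable' fun δ => ?_
  have : coc Δ f T ⁻¹' {δ} = {w | f (T w) = δ • f w} ∪
      (if δ = 1 then (⋃ δ' : Δ, {w | f (T w) = δ' • f w})ᶜ else ∅) := by
    ext w
    simp only [mem_preimage, mem_singleton_iff, mem_union, mem_ofPred_eq]
    by_cases h : ∃ δ : Δ, f (T w) = δ • f w
    · have h1 := coc_spec h
      constructor
      · intro h2
        left
        rw [← h2]
        exact h1
      · rintro (h2 | h2)
        · rw [h1] at h2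
          exact smul_cancel hfree h2
        · split_ifs at h2 with h3
          · exfalso
            apply h2
            obtain ⟨δ', hδ'⟩ := h
            exact mem_iUnion.2 ⟨δ', hδ'⟩
          · exact absurd h2 (notMem_empty _)
    · have h1 : coc Δ f T w = 1 := by
        unfold coc
        rw [dif_neg h]
      rw [h1]
      constructor
      · intro h2
        right
        rw [if_pos h2.symm]
        intro h3
        obtain ⟨δ', hδ'⟩ := mem_iUnion.1 h3
        exact h ⟨δ', hδ'⟩
      · rintro (h2 | h2)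
        · exact absurd ⟨δ, h2⟩ h
        · split_ifs at h2 with h3
          · exact h3.symm
          · exact absurd h2 (notMem_empty _)
  rw [this]
  refine (hset δ).union ?_
  split_ifs
  · exact (MeasurableSet.iUnion hset).compl
  · exact MeasurableSet.empty

end Coc

section Rigid

variable {I : Type} [Countable I] {Δ : Type} [Group Δ] [Countable Δ] [MeasurableSpace Δ]
  [DiscreteMeasurableSpace Δ] {Y : Type} [MeasurableSpace Y] [MeasurableEq Y] [MulAction Δ Y]

/-- Cocycle superrigidity. -/
theorem rigid (hfree : ∀ (δ : Δ) (y : Y), δ • y = y → δ = 1)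
    (hsm : ∀ δ : Δ, Measurable (fun y : Y => δ • y)) (G : GapData I) (u : Equiv.Perm I)
    (hu : ∀ i, Injective (fun n : ℕ => (u ^ n) i))
    (hua : ∀ i, u (G.a i) = G.a (u i)) (hub : ∀ i, u (G.b i) = G.b (u i))
    {f : (I → Bool) → Y} (hf : Measurable f)
    (hfa : ∀ᵐ z ∂(coin I), ∃ δ : Δ, f (z ∘ G.a) = δ • f z)
    (hfb : ∀ᵐ z ∂(coin I), ∃ δ : Δ, f (z ∘ G.b) = δ • f z)
    (hfu : ∀ᵐ z ∂(coin I), ∃ δ : Δ, f (z ∘ u) = δ • f z) :
    ∃ (a : (I → Bool) → Δ) (c : Δ), Measurable a ∧
      ∀ᵐ z ∂(coin I), (a (z ∘ u))⁻¹ • f (z ∘ u) = c • (a z)⁻¹ • f z := by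
  have hma := mp_perm G.a
  have hmb := mp_perm G.b
  have hmu := mp_perm u
  have hα : Measurable (coc Δ f (fun z => z ∘ u)) := measurable_coc hfree hsm hf hmu.measurable
  obtain ⟨K, hK⟩ := uniform_close G (measurable_coc hfree hsm hf hma.measurable)
    (measurable_coc hfree hsm hf hmb.measurable) (c := 1 / 8) (by norm_num) (by norm_num)
  -- all iterates
  have hpow : ∀ m : ℕ, ∀ z : I → Bool, (fun z : I → Bool => z ∘ u)^[m] z = z ∘ (u ^ m) := by
    intro m
    induction m with
    | zero => intro z; rfl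
    | succ m ih =>
      intro z
      rw [iterate_succ', comp_apply, ih, pow_succ]
      rfl
  have hiter : ∀ m : ℕ, ∀ᵐ z ∂(coin I), f (z ∘ (u ^ m)) =
      cocIter (fun z => z ∘ u) (coc Δ f (fun z => z ∘ u)) m z • f z := by
    intro m
    induction m with
    | zero =>
      refine Filter.Eventually.of_forall fun z => ?_
      simp [cocIter]
    | succ m ih =>
      have h1 := (mp_perm (u ^ m)).quasiMeasurePreserving.ae hfu
      filter_upwards [ih, h1] with z h2 h3
      rw [cocIter, hpow, mul_smul, ← h2]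
      have h4 := coc_spec (T := fun z : I → Bool => z ∘ u) h3
      rw [pow_succ]
      exact h4
  obtain ⟨Φ, hΦm, hΦ⟩ := exists_transfer u hu hα (K := K) (c := 1 / 8) (by norm_num) (by
    intro m j
    refine hK (u ^ m) _ (measurable_cocIter hmu hα m) ?_ ?_ ?_ ?_ j
    · intro i
      have : Commute u G.a := by
        ext i
        simp [hua]
      have := (this.pow_left m).eq
      calc (u ^ m) (G.a i) = (u ^ m * G.a) i := rfl
        _ = (G.a * u ^ m) i := by rw [this]
        _ = G.a ((u ^ m) i) := rfl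
    · intro i
      have : Commute u G.b := by
        ext i
        simp [hub]
      have := (this.pow_left m).eq
      calc (u ^ m) (G.b i) = (u ^ m * G.b) i := rfl
        _ = (G.b * u ^ m) i := by rw [this]
        _ = G.b ((u ^ m) i) := rfl
    · have hcomm : ∀ z : I → Bool, (z ∘ G.a) ∘ (u ^ m) = (z ∘ (u ^ m)) ∘ G.a := by
        intro z
        funext i
        have : Commute u G.a := by
          ext i
          simp [hua]
        have h := congrArg (fun e : Equiv.Perm I => z (e i)) (this.pow_left m).eq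
        exact h.symm
      filter_upwards [hfa, hiter m, (mp_perm (u ^ m)).quasiMeasurePreserving.ae hfa,
        hma.quasiMeasurePreserving.ae (hiter m)] with z h1 h2 h3 h4
      refine smul_cancel hfree (y := f z) ?_
      rw [mul_smul, mul_smul, ← coc_spec (T := fun z : I → Bool => z ∘ G.a) h1, ← h2, ← h4, hcomm]
      exact coc_spec (T := fun z : I → Bool => z ∘ G.a) h3
    · have hcomm : ∀ z : I → Bool, (z ∘ G.b) ∘ (u ^ m) = (z ∘ (u ^ m)) ∘ G.b := by
        intro z
        funext i
        have : Commute u G.b := by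
          ext i
          simp [hub]
        have h := congrArg (fun e : Equiv.Perm I => z (e i)) (this.pow_left m).eq
        exact h.symm
      filter_upwards [hfb, hiter m, (mp_perm (u ^ m)).quasiMeasurePreserving.ae hfb,
        hmb.quasiMeasurePreserving.ae (hiter m)] with z h1 h2 h3 h4
      refine smul_cancel hfree (y := f z) ?_
      rw [mul_smul, mul_smul, ← coc_spec (T := fun z : I → Bool => z ∘ G.b) h1, ← h2, ← h4, hcomm]
      exact coc_spec (T := fun z : I → Bool => z ∘ G.b) h3)
  obtain ⟨Ψ, hΨm, hΨ⟩ := exists_transfer' u hu hΦm hΦ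
  obtain ⟨a, c, ham, hac⟩ := exists_split u hu hΨm hΨ
  refine ⟨a, c, ham, ?_⟩
  filter_upwards [hac, hfu] with z h1 h2
  rw [← h1, coc_spec (T := fun z : I → Bool => z ∘ u) h2]
  simp only [← mul_smul]
  congr 1
  group

/-- Maps commuting with `u` act by constants. -/
theorem rigid_comm (hfree : ∀ (δ : Δ) (y : Y), δ • y = y → δ = 1)
    (hsm : ∀ δ : Δ, Measurable (fun y : Y => δ • y)) (u : Equiv.Perm I)
    (hu : ∀ i, Injective (fun n : ℕ => (u ^ n) i))
    {F : (I → Bool) → Y} (hF : Measurable F) {c : Δ}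
    (hc : ∀ᵐ z ∂(coin I), F (z ∘ u) = c • F z)
    {τ : (I → Bool) → (I → Bool)} (hτ : MeasurePreserving τ (coin I) (coin I))
    (hτu : ∀ z, τ (z ∘ u) = τ z ∘ u) (hFτ : ∀ᵐ z ∂(coin I), ∃ δ : Δ, F (τ z) = δ • F z) :
    ∃ ρ : Δ, ∀ᵐ z ∂(coin I), F (τ z) = ρ • F z := by
  have hβ : Measurable (coc Δ F τ) := measurable_coc hfree hsm hF hτ.measurable
  have hmu := mp_perm u
  have hrel : ∀ᵐ z ∂(coin I), coc Δ F τ (z ∘ u) = c * coc Δ F τ z * c⁻¹ := by
    filter_upwards [hc, hFτ, hτ.quasiMeasurePreserving.ae hc,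
      hmu.quasiMeasurePreserving.ae hFτ] with z h1 h2 h3 h4
    have h5 := coc_spec h2
    have h6 := coc_spec h4
    rw [hτu, h3, h5, h1, ← mul_smul, ← mul_smul] at h6
    have h7 := smul_cancel hfree h6
    rw [h7]
    group
  have hFm : Measurable (fun p : ((I → Bool) × (I → Bool)) × (I → Bool) => coc Δ F τ p.2) :=
    hβ.comp measurable_snd
  have hq1 : MeasurePreserving
      (fun p : ((I → Bool) × (I → Bool)) × ((I → Bool) × (I → Bool)) => p.2.1)
      (((coin I).prod (coin I)).prod ((coin I).prod (coin I))) (coin I) :=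
    measurePreserving_fst.comp measurePreserving_snd
  have hq2 : MeasurePreserving
      (fun p : ((I → Bool) × (I → Bool)) × ((I → Bool) × (I → Bool)) => p.2.2)
      (((coin I).prod (coin I)).prod ((coin I).prod (coin I))) (coin I) :=
    measurePreserving_snd.comp measurePreserving_snd
  have hz := zero_one (erg_four u u hu hu) hFm (by
    filter_upwards [hq1.quasiMeasurePreserving.ae hrel,
      hq2.quasiMeasurePreserving.ae hrel] with p h1 h2
    rw [h1, h2]
    constructor
    · intro h3
      exact mul_left_cancel (mul_right_cancel h3)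
    · intro h3
      rw [h3])
  obtain ⟨w', hw'⟩ := hz.exists
  obtain ⟨q, hq⟩ := (Measure.ae_ae_of_ae_prod hw').exists
  refine ⟨coc Δ F τ w', ?_⟩
  filter_upwards [hq, hFτ] with z h1 h2
  rw [coc_spec h2]
  congr 1

end Rigid

end Pool.Agent.Generics
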