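import Pool.Agent.Lib.MP_9214e0_lc.RandM

/-!
Regularity of Borel sets inside a countable transitive model, and the conditions of random forcing.
-/

set_option autoImplicit false
set_option linter.unusedSectionVars false
set_option linter.unusedVariables false

namespace Pool.Agent.Generics

open MeasureTheory Set ZFSet FirstOrder Language Filter
open scoped ENNReal Topology

variable {M : Set ZFSet.{0}} [hM : Fact (IsCTM M)]

instance instDfnUp {u : (ℕ → ZFSet.{0}) → Set ℕ} [hu : DS M u] : Dfn M (fun v => Up (u v)) := by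
  have h1 := hu.shift
  exact (inferInstance : Dfn M (fun v => ∀ c : ℕ, c ∈ u v → 2 * c ∈ u v ∧ 2 * c + 1 ∈ u v))

open Classical in
instance instDNlev {u : (ℕ → ZFSet.{0}) → Set ℕ} {n : (ℕ → ZFSet.{0}) → ℕ} [hu : DS M u]
    [hn : DN M n] : DN M (fun v => lev (u v) (n v)) := by
  have h1 := hu.shift
  have h2 := hn.shift
  exact (inferInstance : DN M (fun v => Nat.count (fun i => 2 ^ n v + i ∈ u v) (2 ^ n v)))

/-- `u` is an open set containing `A`, `v` is an open set containing the complement of `A`, and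
the measure of their intersection is at most `2 ^ (- k)`. -/
def rg (M : Set ZFSet.{0}) (A : ZFSet.{0}) (u v : Set ℕ) (k : ℕ) : Prop :=
  Up u ∧ Up v ∧ (∀ x : ℕ → Bool, real x ∈ M → real x ∈ A → x ∈ opn u) ∧
    (∀ x : ℕ → Bool, real x ∈ M → real x ∉ A → x ∈ opn v) ∧
    ∀ n : ℕ, lev {c | c ∈ u ∧ c ∈ v} n * 2 ^ k ≤ 2 ^ n

instance instDfnrg {A : (ℕ → ZFSet.{0}) → ZFSet.{0}} {u v : (ℕ → ZFSet.{0}) → Set ℕ}
    {k : (ℕ → ZFSet.{0}) → ℕ} [hA : DF M A] [hu : DS M u] [hv : DS M v] [hk : DN M k] :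
    Dfn M (fun w => rg M (A w) (u w) (v w) (k w)) := by
  have h1 := hu.shift
  have h2 := hv.shift
  have h1' := h1.shift
  have h2' := h2.shift
  have h3 := hk.shift
  have h4 := hA.shift
  unfold rg
  infer_instance

theorem lev_le_iff {u : Set ℕ} (hu : Up u) (k : ℕ) :
    (∀ n : ℕ, lev u n * 2 ^ k ≤ 2 ^ n) ↔ coin ℕ (opn u) ≤ 2⁻¹ ^ k := by
  rw [coin_opn_le hu]
  refine forall_congr' fun n => ?_
  rw [← Nat.cast_le (α := ℝ≥0∞)]
  push_cast
  rw [← ENNReal.inv_pow, ← ENNReal.inv_pow, ← div_eq_mul_inv,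
    ENNReal.div_le_iff (by positivity) (by simp), ← ENNReal.div_eq_inv_mul,
    ENNReal.le_div_iff_mul_le (Or.inl (by positivity)) (Or.inl (by simp))]

theorem rg_iff {A : ZFSet.{0}} {u v : Set ℕ} {k : ℕ} : rg M A u v k ↔
    Up u ∧ Up v ∧ (∀ x : ℕ → Bool, real x ∈ M → real x ∈ A → x ∈ opn u) ∧
    (∀ x : ℕ → Bool, real x ∈ M → real x ∉ A → x ∈ opn v) ∧ coin ℕ (opn u ∩ opn v) ≤ 2⁻¹ ^ k := by
  constructor
  · rintro ⟨h1, h2, h3, h4, h5⟩
    refine ⟨h1, h2, h3, h4, ?_⟩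
    rw [← opn_inter h1 h2]
    exact (lev_le_iff (h1.inter h2) k).1 h5
  · rintro ⟨h1, h2, h3, h4, h5⟩
    refine ⟨h1, h2, h3, h4, ?_⟩
    rw [← opn_inter h1 h2] at h5
    exact (lev_le_iff (h1.inter h2) k).2 h5

/-- The regular sets of `M`. -/
noncomputable def Reg (M : Set ZFSet.{0}) : ZFSet.{0} :=
  ZFSet.sep (fun A => ∀ k : ℕ, ∃ u : Set ℕ, code u ∈ M ∧ ∃ v : Set ℕ, code v ∈ M ∧ rg M A u v k)
    (pwM M (reals M))

theorem Reg_mem : Reg M ∈ M :=
  (inferInstance : DF M (fun _ => ZFSet.sep (fun A => ∀ k : ℕ, ∃ u : Set ℕ, code u ∈ M ∧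
    ∃ v : Set ℕ, code v ∈ M ∧ rg M A u v k) (pwM M (reals M)))).mem0

theorem mem_Reg {A : ZFSet.{0}} : A ∈ Reg M ↔ (A ∈ M ∧ A ⊆ reals M) ∧
    ∀ k : ℕ, ∃ u : Set ℕ, code u ∈ M ∧ ∃ v : Set ℕ, code v ∈ M ∧ rg M A u v k := by
  rw [Reg, ZFSet.mem_sep, mem_pw]

theorem up_cyl {P : (ℕ → Bool) → Prop} :
    Up {c | c ≠ 0 ∧ ∀ x : ℕ → Bool, real x ∈ M → (∃ m, pre x m = c) → P x} := by
  have key : ∀ c c' : ℕ, c ≠ 0 → c' / 2 = c → ∀ x : ℕ → Bool, (∃ m, pre x m = c') →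
      ∃ m, pre x m = c := by
    rintro c c' hc hcc' x ⟨m, hm⟩
    cases m with
    | zero =>
      exfalso
      rw [pre] at hm
      rw [← hm] at hcc'
      apply hc
      rw [← hcc']
    | succ m =>
      exact ⟨m, by rw [← pre_succ_div, hm, hcc']⟩
  rintro c ⟨hc, h⟩
  refine ⟨⟨by omega, fun x hx hm => h x hx (key c _ hc (by omega) x hm)⟩,
    ⟨by omega, fun x hx hm => h x hx (key c _ hc (by omega) x hm)⟩⟩

theorem basic_mem_Reg (n : ℕ) : ZFSet.sep (fun x => nat n ∈ x) (reals M) ∈ Reg M := by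
  rw [mem_Reg]
  refine ⟨⟨?_, ZFSet.sep_subset⟩, ?_⟩
  · exact (inferInstance : DF M (fun _ => ZFSet.sep (fun x => nat n ∈ x) (reals M))).mem0
  · intro k
    refine ⟨{c | c ≠ 0 ∧ ∀ x : ℕ → Bool, real x ∈ M → (∃ m, pre x m = c) → x n = true},
      (inferInstance : DF M (fun _ => code {c | c ≠ 0 ∧ ∀ x : ℕ → Bool, real x ∈ M →
        (∃ m, pre x m = c) → x n = true})).mem0,
      {c | c ≠ 0 ∧ ∀ x : ℕ → Bool, real x ∈ M → (∃ m, pre x m = c) → ¬ x n = true},
      (inferInstance : DF M (fun _ => code {c | c ≠ 0 ∧ ∀ x : ℕ → Bool, real x ∈ M →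
        (∃ m, pre x m = c) → ¬ x n = true})).mem0, up_cyl, up_cyl, ?_, ?_, ?_⟩
    · intro x hx hxn
      rw [ZFSet.mem_sep, nat_mem_real] at hxn
      refine ⟨n + 1, pre_ne_zero _ _, fun y hy hyx => ?_⟩
      obtain ⟨m, hm⟩ := hyx
      have h1 : m = n + 1 := by rw [← log_pre y m, hm, log_pre]
      subst h1
      rw [← (pre_eq_iff _ _ _).1 hm.symm n (by omega)]
      exact hxn.2
    · intro x hx hxn
      rw [ZFSet.mem_sep, nat_mem_real, real_mem_reals] at hxn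
      refine ⟨n + 1, pre_ne_zero _ _, fun y hy hyx => ?_⟩
      obtain ⟨m, hm⟩ := hyx
      have h1 : m = n + 1 := by rw [← log_pre y m, hm, log_pre]
      subst h1
      rw [← (pre_eq_iff _ _ _).1 hm.symm n (by omega)]
      exact fun h => hxn ⟨hx, h⟩
    · intro j
      have h1 : lev {c | c ∈ {c | c ≠ 0 ∧ ∀ x : ℕ → Bool, real x ∈ M →
          (∃ m, pre x m = c) → x n = true} ∧ c ∈ {c | c ≠ 0 ∧ ∀ x : ℕ → Bool, real x ∈ M →
          (∃ m, pre x m = c) → ¬ x n = true}} j = 0 := by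
        apply lev_eq_zero
        rintro i ⟨⟨h1, h2⟩, ⟨-, h3⟩⟩
        obtain ⟨x, m, hx, hm⟩ := exists_real_pre (M := M) _ h1
        exact h3 x hx ⟨m, hm⟩ (h2 x hx ⟨m, hm⟩)
      rw [h1]
      simp

theorem compl_mem_Reg {A : ZFSet.{0}} (hA : A ∈ Reg M) : reals M \ A ∈ Reg M := by
  rw [mem_Reg] at hA ⊢
  obtain ⟨⟨h1, h2⟩, h3⟩ := hA
  refine ⟨⟨?_, ?_⟩, ?_⟩
  · exact (inferInstance : DF M (fun v => reals M \ v 0)).mem1 h1
  · intro z hz
    exact (ZFSet.mem_sdiff.1 hz).1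
  · intro k
    obtain ⟨u, hu, v, hv, h⟩ := h3 k
    rw [rg_iff] at h
    obtain ⟨h4, h5, h6, h7, h8⟩ := h
    refine ⟨v, hv, u, hu, rg_iff.2 ⟨h5, h4, ?_, ?_, ?_⟩⟩
    · intro x hx hx'
      exact h7 x hx (ZFSet.mem_sdiff.1 hx').2
    · intro x hx hx'
      rw [ZFSet.mem_sdiff, real_mem_reals] at hx'
      apply h6 x hx
      by_contra h
      exact hx' ⟨hx, h⟩
    · rwa [inter_comm]

theorem iUnion_mem_Reg {s : ℕ → ZFSet.{0}} (hs : seqc s ∈ M) (hsR : ∀ n, s n ∈ Reg M) :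
    ZFSet.iUnion s ∈ Reg M := by
  have hsR' : ∀ n, (s n ∈ M ∧ s n ⊆ reals M) ∧ ∀ k : ℕ, ∃ u : Set ℕ, code u ∈ M ∧ ∃ v : Set ℕ,
    code v ∈ M ∧ rg M (s n) u v k := fun n => mem_Reg.1 (hsR n)
  rw [mem_Reg]
  refine ⟨⟨?_, ?_⟩, ?_⟩
  · have h1 : ZFSet.iUnion (fun n => app (seqc s) (nat n)) ∈ M :=
      (inferInstance : DF M (fun v => ZFSet.iUnion (fun n => app (v 0) (nat n)))).mem1 hs
    simpa only [app_seqc] using h1
  · intro z hz
    rw [ZFSet.mem_iUnion] at hz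
    obtain ⟨n, hn⟩ := hz
    exact (hsR' n).1.2 hn
  intro k
  -- choose the open sets inside `M`
  obtain ⟨U, hU, hU'⟩ := choose_seq (M := M) (R := fun n y v => ∃ w : Set ℕ, code w ∈ M ∧
      rg M (app (v 0) (nat n)) (dec y) w (k + n + 2)) (v := fun _ => seqc s)
    inferInstance (fun _ => hs) (pw_mem om_mem_M) (by
      intro n
      obtain ⟨u, hu, v, hv, h⟩ := (hsR' n).2 (k + n + 2)
      refine ⟨code u, mem_pw.2 ⟨hu, code_subset u⟩, v, hv, ?_⟩
      rw [dec_code, app_seqc]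
      exact h)
  obtain ⟨V, hV, hV'⟩ := choose_seq (M := M) (R := fun n y v =>
      rg M (app (v 0) (nat n)) (dec (app (v 1) (nat n))) (dec y) (k + n + 2))
    (v := vcons (seqc s) (fun _ => seqc U))
    inferInstance (vcons_mem hs (fun _ => hU)) (pw_mem om_mem_M) (by
      intro n
      obtain ⟨v, hv, h⟩ := (hU' n).2
      refine ⟨code v, mem_pw.2 ⟨hv, code_subset v⟩, ?_⟩
      change rg M (app (seqc s) (nat n)) (dec (app (seqc U) (nat n))) (dec (code v)) (k + n + 2)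
      rw [dec_code, app_seqc, app_seqc]
      rwa [app_seqc] at h)
  have hR : ∀ n, rg M (s n) (dec (U n)) (dec (V n)) (k + n + 2) := by
    intro n
    have h : rg M (app (seqc s) (nat n)) (dec (app (seqc U) (nat n))) (dec (V n)) (k + n + 2) :=
      (hV' n).2
    rwa [app_seqc, app_seqc] at h
  have hR' := fun n => rg_iff.1 (hR n)
  -- the union and the finite intersections
  have hUU : code {c | ∃ n : ℕ, c ∈ dec (U n)} ∈ M := by
    have h1 : code {c | ∃ n : ℕ, c ∈ dec (app (seqc U) (nat n))} ∈ M :=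
      (inferInstance : DF M (fun v => code {c | ∃ n : ℕ, c ∈ dec (app (v 0) (nat n))})).mem1 hU
    simpa only [app_seqc] using h1
  have hVV : ∀ N : ℕ, code {c | ∀ n : ℕ, n < N → c ∈ dec (V n)} ∈ M := by
    intro N
    have h1 : code {c | ∀ n : ℕ, n < N → c ∈ dec (app (seqc V) (nat n))} ∈ M :=
      (inferInstance : DF M (fun v => code {c | ∀ n : ℕ, n < N →
        c ∈ dec (app (v 0) (nat n))})).mem1 hV
    simpa only [app_seqc] using h1
  have hUup : Up {c | ∃ n : ℕ, c ∈ dec (U n)} := by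
    rintro c ⟨n, hn⟩
    exact ⟨⟨n, ((hR' n).1 c hn).1⟩, ⟨n, ((hR' n).1 c hn).2⟩⟩
  have hVup : ∀ N : ℕ, Up {c | ∀ n : ℕ, n < N → c ∈ dec (V n)} := by
    intro N c hc
    exact ⟨fun n hn => ((hR' n).2.1 c (hc n hn)).1, fun n hn => ((hR' n).2.1 c (hc n hn)).2⟩
  have hUo : opn {c | ∃ n : ℕ, c ∈ dec (U n)} = ⋃ n, opn (dec (U n)) := by
    ext x
    rw [Set.mem_iUnion]
    constructor
    · rintro ⟨m, n, hn⟩
      exact ⟨n, m, hn⟩
    · rintro ⟨n, m, hn⟩
      exact ⟨m, n, hn⟩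
  have hVo : ∀ N : ℕ, opn {c | ∀ n : ℕ, n < N → c ∈ dec (V n)} =
      {x | ∀ n < N, x ∈ opn (dec (V n))} := by
    intro N
    induction N with
    | zero =>
      ext x
      exact ⟨fun _ n hn => absurd hn (Nat.not_lt_zero n),
        fun _ => ⟨0, fun n hn => absurd hn (Nat.not_lt_zero n)⟩⟩
    | succ N ih =>
      have h1 : {c | ∀ n : ℕ, n < N + 1 → c ∈ dec (V n)} =
          {c | ∀ n : ℕ, n < N → c ∈ dec (V n)} ∩ dec (V N) := by
        ext c
        constructor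
        · intro h
          exact ⟨fun n hn => h n (by omega), h N (by omega)⟩
        · rintro ⟨h2, h3⟩ n hn
          rcases Nat.lt_succ_iff_lt_or_eq.1 hn with h4 | h4
          · exact h2 n h4
          · rw [h4]
            exact h3
      rw [h1, opn_inter (hVup N) (hR' N).2.1, ih]
      ext x
      constructor
      · rintro ⟨h2, h3⟩ n hn
        rcases Nat.lt_succ_iff_lt_or_eq.1 hn with h4 | h4
        · exact h2 n h4
        · rw [h4]
          exact h3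
      · intro h
        exact ⟨fun n hn => h n (by omega), h N (by omega)⟩
  -- the measure estimate
  have hmeas : ∃ N : ℕ, coin ℕ ({x | ∀ n < N, x ∈ opn (dec (V n))} \ ⋂ n, opn (dec (V n))) ≤ 2⁻¹ ^ (k + 1) := by
    have h1 : Tendsto (fun N : ℕ => coin ℕ ({x | ∀ n < N, x ∈ opn (dec (V n))} \
        ⋂ n, opn (dec (V n)))) atTop (𝓝 (coin ℕ (⋂ N : ℕ,
        ({x | ∀ n < N, x ∈ opn (dec (V n))} \ ⋂ n, opn (dec (V n)))))) := by
      refine tendsto_measure_iInter_atTop (fun N => ?_) ?_ ⟨0, measure_ne_top _ _⟩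
      · refine MeasurableSet.nullMeasurableSet (MeasurableSet.diff ?_
          (MeasurableSet.iInter fun n => measurableSet_opn _))
        rw [← hVo]
        exact measurableSet_opn _
      · intro N N' hNN'
        refine sdiff_subset_sdiff_left ?_
        intro x hx n hn
        exact hx n (by omega)
    have h2 : (⋂ N : ℕ, ({x | ∀ n < N, x ∈ opn (dec (V n))} \ ⋂ n, opn (dec (V n)))) = ∅ := by
      ext x
      simp only [Set.mem_iInter, Set.mem_sdiff, mem_ofPred_eq, Set.mem_empty_iff_false, iff_false]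
      intro h
      exact (h 0).2 (fun n => (h (n + 1)).1 n (by omega))
    rw [h2, measure_empty] at h1
    obtain ⟨N, hN⟩ := (h1.eventually_le_const (show (0 : ℝ≥0∞) < 2⁻¹ ^ (k + 1) from
      ENNReal.pow_pos (by norm_num) _)).exists
    exact ⟨N, hN⟩
  obtain ⟨N, hN⟩ := hmeas
  refine ⟨_, hUU, _, hVV N, rg_iff.2 ⟨hUup, hVup N, ?_, ?_, ?_⟩⟩
  · intro x hx hxs
    rw [ZFSet.mem_iUnion] at hxs
    obtain ⟨n, hn⟩ := hxs
    rw [hUo, Set.mem_iUnion]
    exact ⟨n, (hR' n).2.2.1 x hx hn⟩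
  · intro x hx hxs
    rw [hVo]
    intro n _
    refine (hR' n).2.2.2.1 x hx (fun h => hxs ?_)
    rw [ZFSet.mem_iUnion]
    exact ⟨n, h⟩
  · rw [hUo, hVo]
    have h1 : (⋃ n, opn (dec (U n))) ∩ {x | ∀ n < N, x ∈ opn (dec (V n))} ⊆
        (⋃ n, (opn (dec (U n)) ∩ opn (dec (V n)))) ∪ ({x | ∀ n < N, x ∈ opn (dec (V n))} \ ⋂ n, opn (dec (V n))) := by
      rintro x ⟨hxU, hxV⟩
      rw [Set.mem_iUnion] at hxU
      obtain ⟨n, hn⟩ := hxU
      by_cases h : x ∈ opn (dec (V n))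
      · left
        rw [Set.mem_iUnion]
        exact ⟨n, hn, h⟩
      · right
        refine ⟨hxV, fun h' => h ?_⟩
        rw [Set.mem_iInter] at h'
        exact h' n
    have h2 : coin ℕ (⋃ n, (opn (dec (U n)) ∩ opn (dec (V n)))) ≤ 2⁻¹ ^ (k + 1) := by
      refine (measure_iUnion_le _).trans ((ENNReal.tsum_le_tsum
        (fun n => (hR' n).2.2.2.2)).trans ?_)
      have h3 : ∀ n : ℕ, (2⁻¹ : ℝ≥0∞) ^ (k + n + 2) = 2⁻¹ ^ (k + 1) * 2⁻¹ ^ (n + 1) := by
        intro n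
        rw [← pow_add]
        congr 1
        omega
      simp_rw [h3]
      rw [ENNReal.tsum_mul_left, ENNReal.tsum_geometric_add_one]
      rw [ENNReal.one_sub_inv_two, inv_inv, ENNReal.inv_mul_cancel (by norm_num) (by norm_num),
        mul_one]
    refine (measure_mono h1).trans ((measure_union_le _ _).trans ((add_le_add h2 hN).trans ?_))
    rw [pow_succ, ← mul_add, ENNReal.inv_two_add_inv_two, mul_one]

theorem Reg_sigma : IsSigma M (Reg M) where
  mem := Reg_mem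
  sub A hA := (mem_Reg.1 hA).1.2
  basic n := basic_mem_Reg n
  compl A hA := compl_mem_Reg hA
  union s hs hs' := iUnion_mem_Reg hs hs'

end Pool.Agent.Generics
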