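import Pool.Agent.Lib.MP_9214e0_lc.ZeroOne

/-!
Cocycle superrigidity for a commuting pair: a group with spectral gap and a single map.
-/

set_option autoImplicit false

namespace Pool.Agent.Generics

open MeasureTheory Set Function
open scoped ENNReal

section Path

variable {I : Type} [Countable I] {Δ : Type} [Group Δ] [Countable Δ] [MeasurableSpace Δ]
  [DiscreteMeasurableSpace Δ]

omit [Countable I] in
theorem prodPerm_inj (u : Equiv.Perm I) (hu : ∀ i, Injective (fun n : ℕ => (u ^ n) i)) :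
    ∀ i, Injective (fun n : ℕ => ((prodPerm u) ^ n) i) := by
  have h : ∀ (n : ℕ) (i : I) (k : ℕ), ((prodPerm u) ^ n) (i, k) = ((u ^ n) i, k) := by
    intro n
    induction n with
    | zero => intro i k; rfl
    | succ n ih =>
      intro i k
      rw [pow_succ, pow_succ, Equiv.Perm.mul_apply, prodPerm_apply, ih, Equiv.Perm.mul_apply]
  rintro ⟨i, k⟩ n m hnm
  simp only [h, Prod.mk.injEq, and_true] at hnm
  exact hu i hnm

omit [Countable I] [Countable Δ] [MeasurableSpace Δ] [DiscreteMeasurableSpace Δ] in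
theorem cocIter_pt (u : Equiv.Perm I) (α : (I → Bool) → Δ) (K j m : ℕ) (w : (I × ℕ) → Bool) :
    cocIter (fun w => w ∘ prodPerm u) (fun w => α (pt K j w)) m w =
      cocIter (fun z => z ∘ u) α m (pt K j w) := by
  have h : ∀ m : ℕ, pt K j ((fun w : (I × ℕ) → Bool => w ∘ prodPerm u)^[m] w) =
      (fun z : I → Bool => z ∘ u)^[m] (pt K j w) := by
    intro m
    induction m with
    | zero => rfl
    | succ m ih =>
      rw [iterate_succ', iterate_succ', comp_apply, comp_apply, pt_comp, ih]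
  induction m with
  | zero => rfl
  | succ m ih => rw [cocIter, cocIter, ih, h]

/-- A transfer function between the first and the last configuration of the path. -/
theorem exists_transfer (u : Equiv.Perm I) (hu : ∀ i, Injective (fun n : ℕ => (u ^ n) i))
    {α : (I → Bool) → Δ} (hα : Measurable α) {K : ℕ} {c : ℝ} (hc : c < 1 / 4)
    (h : ∀ m j : ℕ, (coin (I × ℕ)).real {w | cocIter (fun z => z ∘ u) α m (pt K j w) ≠
      cocIter (fun z => z ∘ u) α m (pt K (j + 1) w)} ≤ c) :
    ∃ Φ : ((I × ℕ) → Bool) → Δ, Measurable Φ ∧ ∀ᵐ w ∂(coin (I × ℕ)),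
      Φ (w ∘ prodPerm u) = α (fun i => w (i, 0)) * Φ w * (α (fun i => w (i, 1)))⁻¹ := by
  have hT := mp_perm (prodPerm u)
  have herg := erg_perm (prodPerm u) (prodPerm_inj u hu)
  have hαm : ∀ j, Measurable (fun w : (I × ℕ) → Bool => α (pt K j w)) := fun j =>
    hα.comp (mp_pt K j).measurable
  have key : ∀ j : ℕ, ∃ Φ : ((I × ℕ) → Bool) → Δ, Measurable Φ ∧ ∀ᵐ w ∂(coin (I × ℕ)),
      Φ (w ∘ prodPerm u) = α (pt K 0 w) * Φ w * (α (pt K j w))⁻¹ := by
    intro j
    induction j with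
    | zero =>
      refine ⟨fun w => 1, measurable_const, Filter.Eventually.of_forall fun w => ?_⟩
      simp
    | succ j ih =>
      obtain ⟨Φ, hΦm, hΦ⟩ := ih
      obtain ⟨φ, hφm, hφ⟩ := exists_intertwiner hT herg (hαm j) (hαm (j + 1)) hc (by
        intro m
        simp only [cocIter_pt]
        exact h m j)
      refine ⟨fun w => Φ w * φ w, ?_, ?_⟩
      · exact (measurable_of_countable (fun p : Δ × Δ => p.1 * p.2)).comp (hΦm.prodMk hφm)
      · filter_upwards [hΦ, hφ] with w h1 h2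
        rw [h1, h2]
        group
  obtain ⟨Φ, hΦm, hΦ⟩ := key (2 ^ K)
  refine ⟨Φ, hΦm, ?_⟩
  filter_upwards [hΦ] with w hw
  have e0 : pt K 0 w = fun i => w (i, 0) := funext (pt_zero K w)
  have e1 : pt K (2 ^ K) w = fun i => w (i, 1) := funext (pt_last K w)
  rw [hw, e0, e1]

/-- the reindexing of the coordinates -/
def splitIdx (p : I × ℕ) : (I ⊕ I) ⊕ (I × ℕ) :=
  match p with
  | (i, 0) => Sum.inl (Sum.inl i)
  | (i, 1) => Sum.inl (Sum.inr i)
  | (i, n + 2) => Sum.inr (i, n)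

omit [Countable I] in
theorem splitIdx_injective : Injective (splitIdx (I := I)) := by
  rintro ⟨i, n⟩ ⟨i', n'⟩ h
  match n, n' with
  | 0, 0 => simp [splitIdx] at h; simp [h]
  | 0, 1 => simp [splitIdx] at h
  | 0, n' + 2 => simp [splitIdx] at h
  | 1, 0 => simp [splitIdx] at h
  | 1, 1 => simp [splitIdx] at h; simp [h]
  | 1, n' + 2 => simp [splitIdx] at h
  | n + 2, 0 => simp [splitIdx] at h
  | n + 2, 1 => simp [splitIdx] at h
  | n + 2, n' + 2 => simp [splitIdx] at h; simp [h]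

/-- The map which glues two configurations and the labels. -/
def glue (p : ((I → Bool) × (I → Bool)) × ((I × ℕ) → Bool)) : (I × ℕ) → Bool :=
  (Sum.elim (Sum.elim p.1.1 p.1.2) p.2 : (I ⊕ I) ⊕ (I × ℕ) → Bool) ∘ splitIdx

omit [Countable I] in
theorem mp_glue : MeasurePreserving (glue (I := I))
    (((coin I).prod (coin I)).prod (coin (I × ℕ))) (coin (I × ℕ)) := by
  have h1 : MeasurePreserving (fun p : ((I → Bool) × (I → Bool)) × ((I × ℕ) → Bool) =>
      ((Sum.elim p.1.1 p.1.2 : I ⊕ I → Bool), p.2))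
      (((coin I).prod (coin I)).prod (coin (I × ℕ))) ((coin (I ⊕ I)).prod (coin (I × ℕ))) :=
    mp_elim.prod (MeasurePreserving.id _)
  exact (mp_comp splitIdx_injective).comp (mp_elim.comp h1)

omit [Countable I] in
theorem glue_comp (u : Equiv.Perm I) (p : ((I → Bool) × (I → Bool)) × ((I × ℕ) → Bool)) :
    glue ((p.1.1 ∘ u, p.1.2 ∘ u), p.2 ∘ prodPerm u) = glue p ∘ prodPerm u := by
  funext q
  obtain ⟨i, n⟩ := q
  match n with
  | 0 => rfl
  | 1 => rfl
  | n + 2 => rfl

/-- A transfer function between independent configurations. -/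
theorem exists_transfer' (u : Equiv.Perm I) (hu : ∀ i, Injective (fun n : ℕ => (u ^ n) i))
    {α : (I → Bool) → Δ} {Φ : ((I × ℕ) → Bool) → Δ} (hΦm : Measurable Φ)
    (hΦ : ∀ᵐ w ∂(coin (I × ℕ)),
      Φ (w ∘ prodPerm u) = α (fun i => w (i, 0)) * Φ w * (α (fun i => w (i, 1)))⁻¹) :
    ∃ Ψ : (I → Bool) × (I → Bool) → Δ, Measurable Ψ ∧ ∀ᵐ p ∂((coin I).prod (coin I)),
      Ψ (p.1 ∘ u, p.2 ∘ u) = α p.1 * Ψ p * (α p.2)⁻¹ := by
  have hFm : Measurable (fun p => Φ (glue (I := I) p)) := hΦm.comp mp_glue.measurable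
  have hglue := mp_glue.quasiMeasurePreserving.ae hΦ
  have hrel : ∀ᵐ p ∂(((coin I).prod (coin I)).prod (coin (I × ℕ))),
      Φ (glue ((p.1.1 ∘ u, p.1.2 ∘ u), p.2 ∘ prodPerm u)) =
        α p.1.1 * Φ (glue p) * (α p.1.2)⁻¹ := by
    filter_upwards [hglue] with p hp
    rw [glue_comp, hp]
    rfl
  have herg := erg_four u (prodPerm u) hu (prodPerm_inj u hu)
  have hproj1 : MeasurePreserving
      (fun p : ((I → Bool) × (I → Bool)) × (((I × ℕ) → Bool) × ((I × ℕ) → Bool)) => (p.1, p.2.1))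
      (((coin I).prod (coin I)).prod ((coin (I × ℕ)).prod (coin (I × ℕ))))
      (((coin I).prod (coin I)).prod (coin (I × ℕ))) :=
    (MeasurePreserving.id _).prod measurePreserving_fst
  have hproj2 : MeasurePreserving
      (fun p : ((I → Bool) × (I → Bool)) × (((I × ℕ) → Bool) × ((I × ℕ) → Bool)) => (p.1, p.2.2))
      (((coin I).prod (coin I)).prod ((coin (I × ℕ)).prod (coin (I × ℕ))))
      (((coin I).prod (coin I)).prod (coin (I × ℕ))) :=
    (MeasurePreserving.id _).prod measurePreserving_snd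
  have hz := zero_one herg hFm (by
    filter_upwards [hproj1.quasiMeasurePreserving.ae hrel,
      hproj2.quasiMeasurePreserving.ae hrel] with p h1 h2
    try dsimp only [pm] at h1 h2 ⊢
    rw [h1, h2]
    constructor
    · intro h3
      exact mul_left_cancel (mul_right_cancel h3)
    · intro h3
      rw [h3])
  obtain ⟨w', hw'⟩ := hz.exists
  have hΨm : Measurable (fun q : (I → Bool) × (I → Bool) => Φ (glue (q, w'))) :=
    hFm.comp (measurable_id.prodMk measurable_const)
  refine ⟨fun q => Φ (glue (q, w')), hΨm, ?_⟩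
  -- invariance
  have hR : MeasurePreserving
      (fun p : ((I → Bool) × (I → Bool)) × ((I × ℕ) → Bool) =>
        ((p.1.1 ∘ u, p.1.2 ∘ u), p.2 ∘ prodPerm u))
      (((coin I).prod (coin I)).prod (coin (I × ℕ)))
      (((coin I).prod (coin I)).prod (coin (I × ℕ))) :=
    ((mp_perm u).prod (mp_perm u)).prod (mp_perm (prodPerm u))
  have h4 := hR.quasiMeasurePreserving.ae hw'
  have h5 : ∀ᵐ p ∂(((coin I).prod (coin I)).prod (coin (I × ℕ))),
      Φ (glue ((p.1.1 ∘ u, p.1.2 ∘ u), w')) = α p.1.1 * Φ (glue (p.1, w')) * (α p.1.2)⁻¹ := by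
    filter_upwards [h4, hw', hrel] with p e1 e2 e3
    rw [← e1, e3, e2]
  have h6 := Measure.ae_ae_of_ae_prod h5
  filter_upwards [h6] with q hq
  obtain ⟨w, hw⟩ := hq.exists
  exact hw

/-- The transfer function splits. -/
theorem exists_split (u : Equiv.Perm I) (hu : ∀ i, Injective (fun n : ℕ => (u ^ n) i))
    {α : (I → Bool) → Δ} {Ψ : (I → Bool) × (I → Bool) → Δ} (hΨm : Measurable Ψ)
    (hΨ : ∀ᵐ p ∂((coin I).prod (coin I)),
      Ψ (p.1 ∘ u, p.2 ∘ u) = α p.1 * Ψ p * (α p.2)⁻¹) :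
    ∃ (a : (I → Bool) → Δ) (c : Δ), Measurable a ∧
      ∀ᵐ z ∂(coin I), (a (z ∘ u))⁻¹ * α z * a z = c := by
  have hFm : Measurable (fun p : ((I → Bool) × (I → Bool)) × (I → Bool) =>
      Ψ (p.1.1, p.2) * (Ψ (p.1.2, p.2))⁻¹) := by
    have h1 : Measurable (fun p : ((I → Bool) × (I → Bool)) × (I → Bool) =>
        (Ψ (p.1.1, p.2), Ψ (p.1.2, p.2))) := by
      refine (hΨm.comp ?_).prodMk (hΨm.comp ?_)
      · exact (measurable_fst.comp measurable_fst).prodMk measurable_snd
      · exact (measurable_snd.comp measurable_fst).prodMk measurable_snd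
    exact (measurable_of_countable (fun p : Δ × Δ => p.1 * p.2⁻¹)).comp h1
  have hproj1 : MeasurePreserving (fun p : ((I → Bool) × (I → Bool)) × (I → Bool) =>
      (p.1.1, p.2)) (((coin I).prod (coin I)).prod (coin I)) ((coin I).prod (coin I)) :=
    measurePreserving_fst.prod (MeasurePreserving.id _)
  have hproj2 : MeasurePreserving (fun p : ((I → Bool) × (I → Bool)) × (I → Bool) =>
      (p.1.2, p.2)) (((coin I).prod (coin I)).prod (coin I)) ((coin I).prod (coin I)) :=
    measurePreserving_snd.prod (MeasurePreserving.id _)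
  have hrel : ∀ᵐ p ∂(((coin I).prod (coin I)).prod (coin I)),
      Ψ (p.1.1 ∘ u, p.2 ∘ u) * (Ψ (p.1.2 ∘ u, p.2 ∘ u))⁻¹ =
        α p.1.1 * (Ψ (p.1.1, p.2) * (Ψ (p.1.2, p.2))⁻¹) * (α p.1.2)⁻¹ := by
    filter_upwards [hproj1.quasiMeasurePreserving.ae hΨ,
      hproj2.quasiMeasurePreserving.ae hΨ] with p h1 h2
    try dsimp only [pm] at h1 h2 ⊢
    rw [h1, h2]
    group
  have herg := erg_four u u hu hu
  have hq1 : MeasurePreserving
      (fun p : ((I → Bool) × (I → Bool)) × ((I → Bool) × (I → Bool)) => (p.1, p.2.1))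
      (((coin I).prod (coin I)).prod ((coin I).prod (coin I)))
      (((coin I).prod (coin I)).prod (coin I)) :=
    (MeasurePreserving.id _).prod measurePreserving_fst
  have hq2 : MeasurePreserving
      (fun p : ((I → Bool) × (I → Bool)) × ((I → Bool) × (I → Bool)) => (p.1, p.2.2))
      (((coin I).prod (coin I)).prod ((coin I).prod (coin I)))
      (((coin I).prod (coin I)).prod (coin I)) :=
    (MeasurePreserving.id _).prod measurePreserving_snd
  have hz := zero_one herg hFm (by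
    filter_upwards [hq1.quasiMeasurePreserving.ae hrel,
      hq2.quasiMeasurePreserving.ae hrel] with p h1 h2
    try dsimp only [pm] at h1 h2 ⊢
    rw [h1, h2]
    constructor
    · intro h3
      exact mul_left_cancel (mul_right_cancel h3)
    · intro h3
      rw [h3])
  obtain ⟨y₀, hy₀⟩ := hz.exists
  -- choose the second configuration
  have hswap : MeasurePreserving
      (fun p : (I → Bool) × ((I → Bool) × (I → Bool)) => ((p.2.1, p.1), p.2.2))
      ((coin I).prod ((coin I).prod (coin I))) (((coin I).prod (coin I)).prod (coin I)) := by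
    have e1 : MeasurePreserving
        (MeasurableEquiv.prodAssoc : ((I → Bool) × (I → Bool)) × (I → Bool) ≃ᵐ
          (I → Bool) × ((I → Bool) × (I → Bool))).symm
        ((coin I).prod ((coin I).prod (coin I))) (((coin I).prod (coin I)).prod (coin I)) :=
      (measurePreserving_prodAssoc _ _ _).symm _
    have e2 : MeasurePreserving (Prod.map (Prod.swap : (I → Bool) × (I → Bool) → _) id)
        (((coin I).prod (coin I)).prod (coin I)) (((coin I).prod (coin I)).prod (coin I)) :=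
      Measure.measurePreserving_swap.prod (MeasurePreserving.id _)
    exact e2.comp e1
  have h1 := Measure.ae_ae_of_ae_prod (hswap.quasiMeasurePreserving.ae hy₀)
  obtain ⟨x₀, hx₀⟩ := h1.exists
  -- the two factors
  have hsplit : ∀ᵐ p ∂((coin I).prod (coin I)),
      Ψ p = Ψ (p.1, y₀) * ((Ψ (x₀, y₀))⁻¹ * Ψ (x₀, p.2)) := by
    filter_upwards [hx₀] with p hp
    have : Ψ p = Ψ (p.1, p.2) * (Ψ (x₀, p.2))⁻¹ * Ψ (x₀, p.2) := by group
    rw [this, hp]
    group
  let a : (I → Bool) → Δ := fun x => Ψ (x, y₀)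
  let b : (I → Bool) → Δ := fun y => (Ψ (x₀, y₀))⁻¹ * Ψ (x₀, y)
  have ham : Measurable a := hΨm.comp (measurable_id.prodMk measurable_const)
  have hR : MeasurePreserving (fun p : (I → Bool) × (I → Bool) => (p.1 ∘ u, p.2 ∘ u))
      ((coin I).prod (coin I)) ((coin I).prod (coin I)) := (mp_perm u).prod (mp_perm u)
  have h2 : ∀ᵐ p ∂((coin I).prod (coin I)), (a (p.1 ∘ u))⁻¹ * α p.1 * a p.1 =
      b (p.2 ∘ u) * α p.2 * (b p.2)⁻¹ := by
    filter_upwards [hsplit, hR.quasiMeasurePreserving.ae hsplit, hΨ] with p e1 e2 e3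
    change Ψ (p.1 ∘ u, p.2 ∘ u) = a (p.1 ∘ u) * b (p.2 ∘ u) at e2
    change Ψ p = a p.1 * b p.2 at e1
    rw [e2, e1] at e3
    have e4 : b (p.2 ∘ u) = (a (p.1 ∘ u))⁻¹ * (α p.1 * (a p.1 * b p.2) * (α p.2)⁻¹) := by
      rw [← e3]
      group
    rw [e4]
    group
  have h3 : ∀ᵐ p ∂((coin I).prod (coin I)), (a (p.2 ∘ u))⁻¹ * α p.2 * a p.2 =
      b (p.1 ∘ u) * α p.1 * (b p.1)⁻¹ := by
    have := Measure.measurePreserving_swap (μ := coin I) (ν := coin I)
    exact this.quasiMeasurePreserving.ae h2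
  obtain ⟨y₁, hy₁⟩ := (Measure.ae_ae_of_ae_prod h3).exists
  exact ⟨a, b (y₁ ∘ u) * α y₁ * (b y₁)⁻¹, ham, hy₁⟩

end Path

end Pool.Agent.Generics
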