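import Pool.Agent.Lib.MP_9214e0_lc.Joining

/-!
Uniform closeness of a cocycle at nearby configurations, from the spectral gap.
-/

set_option autoImplicit false

namespace Pool.Agent.Generics

open MeasureTheory Set Function
open scoped ENNReal symmDiff

variable {I : Type}

/-- The data for the spectral gap: two permutations `a`, `b` of `I`, a map `pr` from `I` to a set
`L` on which they act, and a set `B` which is too large for `a` and too small for `b`. -/
structure GapData (I : Type) where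
  L : Type
  pr : I → L
  a : Equiv.Perm I
  b : Equiv.Perm I
  aL : L → L
  bL : L → L
  ha : ∀ i, pr (a i) = aL (pr i)
  hb : ∀ i, pr (b i) = bL (pr i)
  B : Set L
  h1 : ∀ l, l ∈ B ∨ aL l ∈ B
  h2 : ∀ l, ¬ (l ∈ B ∧ bL l ∈ B)
  h3 : ∀ l, ¬ (l ∈ B ∧ bL (bL l) ∈ B)

theorem GapData.gap [Countable I] (G : GapData I) {D : Set ((I × ℕ) → Bool)}
    (hD : MeasurableSet D) {ρ : ℝ}
    (hρa : (coin (I × ℕ)).real {w | ¬ (w ∘ prodPerm G.a ∈ D ↔ w ∈ D)} ≤ ρ)
    (hρb : (coin (I × ℕ)).real {w | ¬ (w ∘ prodPerm G.b ∈ D ↔ w ∈ D)} ≤ ρ) :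
    (coin (I × ℕ)).real D * (1 - (coin (I × ℕ)).real D) ≤ 324 * ρ :=
  gap_set (fun i : I × ℕ => G.pr i.1) (prodPerm G.a) (prodPerm G.b) G.aL G.bL
    (fun i => G.ha i.1) (fun i => G.hb i.1) G.B G.h1 G.h2 G.h3 hD hρa hρb

variable {Δ : Type} [Group Δ] [Countable Δ] [MeasurableSpace Δ] [DiscreteMeasurableSpace Δ]

/-- Almost invariance of the event that a cocycle has different values at two configurations. -/
theorem almost_invariant (K J J' : ℕ) (a g : Equiv.Perm I) (hga : ∀ i, g (a i) = a (g i))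
    {αa αg : (I → Bool) → Δ} (hαa : Measurable αa)
    (hrel : ∀ᵐ z ∂(coin I), αg (z ∘ a) * αa z = αa (z ∘ g) * αg z) {ε : ℝ}
    (hε : (coin (I × ℕ)).real {w | αa (pt K J w) ≠ αa (pt K J' w)} ≤ ε) :
    (coin (I × ℕ)).real {w | ¬ (w ∘ prodPerm a ∈ {w | αg (pt K J w) ≠ αg (pt K J' w)} ↔
      w ∈ {w | αg (pt K J w) ≠ αg (pt K J' w)})} ≤ 2 * ε := by
  classical
  set Bad : Set ((I × ℕ) → Bool) := {w | αa (pt K J w) ≠ αa (pt K J' w)} with hBad
  have hBadm : MeasurableSet Bad := by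
    have : MeasurableSet {w : (I × ℕ) → Bool | αa (pt K J w) = αa (pt K J' w)} :=
      measurableSet_eq_fun (hαa.comp (mp_pt K J).measurable) (hαa.comp (mp_pt K J').measurable)
    exact this.compl
  have h1 : (coin (I × ℕ)).real {w | w ∘ prodPerm g ∈ Bad} ≤ ε := by
    have := (mp_perm (prodPerm g)).measure_preimage hBadm.nullMeasurableSet
    unfold Measure.real at hε ⊢
    have e : (fun w : (I × ℕ) → Bool => w ∘ prodPerm g) ⁻¹' Bad = {w | w ∘ prodPerm g ∈ Bad} := rfl
    rw [e] at this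
    rw [this]
    exact hε
  have hn1 := (mp_pt (I := I) K J).quasiMeasurePreserving.ae hrel
  have hn2 := (mp_pt (I := I) K J').quasiMeasurePreserving.ae hrel
  have hnull : (coin (I × ℕ)).real {w : (I × ℕ) → Bool | ¬
      (αg (pt K J w ∘ a) * αa (pt K J w) = αa (pt K J w ∘ g) * αg (pt K J w) ∧
       αg (pt K J' w ∘ a) * αa (pt K J' w) = αa (pt K J' w ∘ g) * αg (pt K J' w))} = 0 := by
    have := ae_iff.1 (hn1.and hn2)
    unfold Measure.real
    rw [this]
    rfl
  have hsub : {w : (I × ℕ) → Bool | ¬ (w ∘ prodPerm a ∈ {w | αg (pt K J w) ≠ αg (pt K J' w)} ↔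
      w ∈ {w | αg (pt K J w) ≠ αg (pt K J' w)})} ⊆ (Bad ∪ {w | w ∘ prodPerm g ∈ Bad}) ∪
      {w : (I × ℕ) → Bool | ¬
      (αg (pt K J w ∘ a) * αa (pt K J w) = αa (pt K J w ∘ g) * αg (pt K J w) ∧
       αg (pt K J' w ∘ a) * αa (pt K J' w) = αa (pt K J' w ∘ g) * αg (pt K J' w))} := by
    intro w hw
    by_contra hcon
    simp only [mem_union, mem_ofPred_eq, not_or, not_not, hBad] at hcon
    obtain ⟨⟨e1, e2⟩, e3, e4⟩ := hcon
    apply hw
    simp only [mem_ofPred_eq, pt_comp] at e1 e2 ⊢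
    have e5 : αg (pt K J w ∘ a) = αa (pt K J w ∘ g) * αg (pt K J w) * (αa (pt K J w))⁻¹ := by
      rw [← e3]
      group
    have e6 : αg (pt K J' w ∘ a) = αa (pt K J' w ∘ g) * αg (pt K J' w) * (αa (pt K J' w))⁻¹ := by
      rw [← e4]
      group
    rw [e5, e6, e1, e2]
    constructor
    · intro h h'
      apply h
      rw [h']
    · intro h h'
      apply h
      have := mul_right_cancel h'
      exact mul_left_cancel this
  refine (measureReal_mono hsub).trans ((measureReal_union_le _ _).trans ?_)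
  rw [hnull, add_zero]
  refine (measureReal_union_le _ _).trans ?_
  linarith

/-- Uniform closeness. -/
theorem uniform_close [Countable I] (G : GapData I) {αa αb : (I → Bool) → Δ}
    (hαa : Measurable αa) (hαb : Measurable αb) {c : ℝ} (hc0 : 0 < c) (hc1 : c < 1 / 2) :
    ∃ K1 : ℕ, ∀ (g : Equiv.Perm I) (αg : (I → Bool) → Δ), Measurable αg →
      (∀ i, g (G.a i) = G.a (g i)) → (∀ i, g (G.b i) = G.b (g i)) →
      (∀ᵐ z ∂(coin I), αg (z ∘ G.a) * αa z = αa (z ∘ g) * αg z) →
      (∀ᵐ z ∂(coin I), αg (z ∘ G.b) * αb z = αb (z ∘ g) * αg z) →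
      ∀ j : ℕ, (coin (I × ℕ)).real {w | αg (pt K1 j w) ≠ αg (pt K1 (j + 1) w)} ≤ c := by
  classical
  set ε : ℝ := c * (1 - c) / 1296 with hεdef
  have hc2 : 0 < c * (1 - c) := by
    apply mul_pos hc0
    linarith
  have hε : 0 < ε := by positivity
  obtain ⟨Ka, hKa⟩ := close_pt hαa hε
  obtain ⟨Kb, hKb⟩ := close_pt hαb hε
  refine ⟨max Ka Kb, ?_⟩
  intro g αg hαg hga hgb hra hrb j
  set K1 := max Ka Kb with hK1
  have hε' : (0 : ℝ) < (1 - 2 * c) / 2 := by linarith
  obtain ⟨r, hr⟩ := close_pt hαg hε'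
  have hmeas : ∀ J J', MeasurableSet {w : (I × ℕ) → Bool |
      αg (pt (K1 + r) J w) ≠ αg (pt (K1 + r) J' w)} := by
    intro J J'
    have : MeasurableSet {w : (I × ℕ) → Bool |
        αg (pt (K1 + r) J w) = αg (pt (K1 + r) J' w)} :=
      measurableSet_eq_fun (hαg.comp (mp_pt _ J).measurable) (hαg.comp (mp_pt _ J').measurable)
    exact this.compl
  have hpow : 2 ^ (K1 + r) = 2 ^ r * 2 ^ K1 := by rw [pow_add, mul_comm]
  have hle : ∀ s ≤ 2 ^ r, (coin (I × ℕ)).real {w : (I × ℕ) → Bool |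
      αg (pt (K1 + r) (2 ^ r * j) w) ≠ αg (pt (K1 + r) (2 ^ r * j + s) w)} ≤ c := by
    intro s
    induction s with
    | zero =>
      intro _
      have : {w : (I × ℕ) → Bool | αg (pt (K1 + r) (2 ^ r * j) w) ≠
          αg (pt (K1 + r) (2 ^ r * j + 0) w)} = ∅ := by
        ext w
        simp
      rw [this]
      simp [hc0.le]
    | succ s ih =>
      intro hs
      have ih' := ih (by omega)
      have hclose : ∀ (Kx : ℕ) (hKx : Kx ≤ K1),
          (2 ^ r * j + (s + 1) - 2 ^ r * j) * 2 ^ Kx ≤ 2 ^ (K1 + r) := by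
        intro Kx hKx
        rw [hpow]
        have e1 : 2 ^ r * j + (s + 1) - 2 ^ r * j = s + 1 := by omega
        rw [e1]
        exact Nat.mul_le_mul hs (Nat.pow_le_pow_right (by norm_num) hKx)
      have ga := almost_invariant (K1 + r) (2 ^ r * j) (2 ^ r * j + (s + 1)) G.a g hga hαa hra
        (hKa (K1 + r) _ _ (by omega) (hclose Ka (le_max_left _ _)))
      have gb := almost_invariant (K1 + r) (2 ^ r * j) (2 ^ r * j + (s + 1)) G.b g hgb hαb hrb
        (hKb (K1 + r) _ _ (by omega) (hclose Kb (le_max_right _ _)))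
      have hgap := G.gap (hmeas (2 ^ r * j) (2 ^ r * j + (s + 1))) ga gb
      have hstep : (coin (I × ℕ)).real {w : (I × ℕ) → Bool |
          αg (pt (K1 + r) (2 ^ r * j) w) ≠ αg (pt (K1 + r) (2 ^ r * j + (s + 1)) w)} ≤
          c + (1 - 2 * c) / 2 := by
        have hsub : {w : (I × ℕ) → Bool |
          αg (pt (K1 + r) (2 ^ r * j) w) ≠ αg (pt (K1 + r) (2 ^ r * j + (s + 1)) w)} ⊆
          {w : (I × ℕ) → Bool |
          αg (pt (K1 + r) (2 ^ r * j) w) ≠ αg (pt (K1 + r) (2 ^ r * j + s) w)} ∪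
          {w : (I × ℕ) → Bool |
          αg (pt (K1 + r) (2 ^ r * j + s) w) ≠ αg (pt (K1 + r) (2 ^ r * j + (s + 1)) w)} := by
          intro w hw
          by_contra hcon
          simp only [mem_union, mem_ofPred_eq, not_or, not_not] at hcon
          exact hw (hcon.1.trans hcon.2)
        refine (measureReal_mono hsub).trans ((measureReal_union_le _ _).trans ?_)
        refine add_le_add ih' (hr (K1 + r) _ _ (by omega) ?_)
        have e1 : 2 ^ r * j + (s + 1) - (2 ^ r * j + s) = 1 := by omega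
        rw [e1, one_mul]
        exact Nat.pow_le_pow_right (by norm_num) (by omega)
      set p := (coin (I × ℕ)).real {w : (I × ℕ) → Bool |
          αg (pt (K1 + r) (2 ^ r * j) w) ≠ αg (pt (K1 + r) (2 ^ r * j + (s + 1)) w)}
      by_contra hcon
      push Not at hcon
      have h2 : 0 < (p - c) * (1 - c - p) := by
        apply mul_pos
        · linarith
        · linarith
      have h3 : 324 * (2 * ε) = c * (1 - c) / 2 := by
        rw [hεdef]
        ring
      rw [h3] at hgap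
      nlinarith
  have hfin := hle (2 ^ r) le_rfl
  have e1 : 2 ^ r * j + 2 ^ r = 2 ^ r * (j + 1) := by ring
  rw [e1] at hfin
  simpa only [pt_refine] using hfin

end Pool.Agent.Generics
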