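import Pool.Agent.Lib.MP_9214e0_lc.Cube

/-!
The Walsh functions are an orthonormal basis of `L²` of the coin-tossing measure.
-/

set_option autoImplicit false

namespace Pool.Agent.Generics

open MeasureTheory Set Function
open scoped ENNReal

variable {ι : Type}

/-- the sign of a bit -/
def sgn (b : Bool) : ℝ := if b then -1 else 1

theorem sgn_mul_self (b : Bool) : sgn b * sgn b = 1 := by cases b <;> simp [sgn]

theorem sgn_not (b : Bool) : sgn (!b) = - sgn b := by cases b <;> simp [sgn]

theorem abs_sgn (b : Bool) : |sgn b| = 1 := by cases b <;> simp [sgn]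

/-- The Walsh functions. -/
def walsh (S : Finset ι) (w : ι → Bool) : ℝ := ∏ i ∈ S, sgn (w i)

theorem walsh_empty (w : ι → Bool) : walsh ∅ w = 1 := by simp [walsh]

theorem abs_walsh (S : Finset ι) (w : ι → Bool) : |walsh S w| = 1 := by
  unfold walsh
  rw [Finset.abs_prod]
  exact Finset.prod_eq_one fun i _ => abs_sgn _

theorem walsh_mul_self (S : Finset ι) (w : ι → Bool) : walsh S w * walsh S w = 1 := by
  have := abs_walsh S w
  rw [← abs_mul_abs_self, this]
  norm_num

open scoped symmDiff in
theorem walsh_mul [DecidableEq ι] (S T : Finset ι) (w : ι → Bool) :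
    walsh S w * walsh T w = walsh (S ∆ T) w := by
  have h1 : walsh S w = walsh (S \ T) w * walsh (S ∩ T) w := by
    unfold walsh
    rw [← Finset.prod_union (Finset.disjoint_sdiff_inter S T), Finset.sdiff_union_inter]
  have h2 : walsh T w = walsh (T \ S) w * walsh (S ∩ T) w := by
    unfold walsh
    rw [Finset.inter_comm, ← Finset.prod_union (Finset.disjoint_sdiff_inter T S),
      Finset.sdiff_union_inter]
  have h3 : walsh (S ∆ T) w = walsh (S \ T) w * walsh (T \ S) w := by
    unfold walsh
    rw [← Finset.prod_union (by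
      rw [Finset.disjoint_left]
      intro i hi hi'
      exact (Finset.mem_sdiff.1 hi').2 (Finset.mem_sdiff.1 hi).1)]
    rfl
  rw [h1, h2, h3]
  have := walsh_mul_self (S ∩ T) w
  calc _ = walsh (S \ T) w * walsh (T \ S) w * (walsh (S ∩ T) w * walsh (S ∩ T) w) := by ring
    _ = _ := by rw [this, mul_one]

theorem walsh_comp (S : Finset ι) (e : Equiv.Perm ι) (w : ι → Bool) :
    walsh S (w ∘ e) = walsh (S.map e.toEmbedding) w := by
  simp [walsh]

theorem measurable_sgn : Measurable sgn := measurable_of_countable _

theorem measurable_walsh (S : Finset ι) : Measurable (walsh S) := by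
  unfold walsh
  exact Finset.measurable_prod _ fun i _ => measurable_sgn.comp (measurable_pi_apply i)

theorem continuous_walsh (S : Finset ι) : Continuous (walsh S) := by
  unfold walsh
  refine continuous_finsetProd _ fun i _ => ?_
  exact (continuous_of_discreteTopology (f := sgn)).comp (continuous_apply i)

/-- flipping one bit -/
theorem mp_flip [DecidableEq ι] (i : ι) :
    MeasurePreserving (fun (w : ι → Bool) j => if j = i then !(w j) else w j)
      (coin ι) (coin ι) := by
  have h := Measure.infinitePi_map_pi (μ := fun _ : ι => fair)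
    (f := fun j => (fun b : Bool => if j = i then !b else b))
    (fun j => measurable_of_countable _)
  refine ⟨?_, ?_⟩
  · rw [measurable_pi_iff]
    intro j
    exact (measurable_of_countable (fun b : Bool => if j = i then !b else b)).comp
      (measurable_pi_apply j)
  · unfold coin
    rw [h]
    congr 1
    funext j
    by_cases hj : j = i
    · simp only [hj, if_true]
      exact fair_map_not
    · simp [hj]

theorem integral_walsh (S : Finset ι) (hS : S.Nonempty) : ∫ w, walsh S w ∂(coin ι) = 0 := by
  classical
  obtain ⟨i, hi⟩ := hS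
  have h1 : ∀ w : ι → Bool, walsh S (fun j => if j = i then !(w j) else w j) = - walsh S w := by
    intro w
    unfold walsh
    rw [← Finset.mul_prod_erase _ _ hi, ← Finset.mul_prod_erase _ (fun i => sgn (w i)) hi]
    simp only [if_true]
    rw [sgn_not]
    have : ∏ x ∈ S.erase i, sgn (if x = i then !(w x) else w x) =
        ∏ x ∈ S.erase i, sgn (w x) := by
      refine Finset.prod_congr rfl fun x hx => ?_
      rw [if_neg (Finset.ne_of_mem_erase hx)]
    rw [this]
    ring
  have h2 : ∫ w, walsh S w ∂(coin ι) = ∫ w, - walsh S w ∂(coin ι) := by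
    conv_lhs => rw [← (mp_flip i).map_eq]
    rw [integral_map (mp_flip i).measurable.aemeasurable
      (measurable_walsh S).aestronglyMeasurable]
    exact integral_congr_ae (Filter.Eventually.of_forall h1)
  rw [integral_neg] at h2
  linarith

theorem memLp_walsh (S : Finset ι) (p : ℝ≥0∞) : MemLp (walsh S) p (coin ι) :=
  MemLp.of_bound (measurable_walsh S).aestronglyMeasurable 1
    (Filter.Eventually.of_forall fun w => by rw [Real.norm_eq_abs, abs_walsh])

/-- The Walsh functions as elements of `L²`. -/
noncomputable def walshLp (S : Finset ι) : Lp ℝ 2 (coin ι) := (memLp_walsh S 2).toLp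

theorem inner_walshLp (S T : Finset ι) :
    inner ℝ (walshLp S) (walshLp T) = ∫ w, walsh S w * walsh T w ∂(coin ι) := by
  rw [L2.inner_def]
  refine integral_congr_ae ?_
  filter_upwards [(memLp_walsh S 2).coeFn_toLp, (memLp_walsh T 2).coeFn_toLp] with w h1 h2
  simp only [walshLp, h1, h2]
  simp only [RCLike.inner_apply, conj_trivial]
  ring

theorem orthonormal_walsh : Orthonormal ℝ (walshLp (ι := ι)) := by
  classical
  rw [orthonormal_iff_ite]
  intro S T
  rw [inner_walshLp]
  split_ifs with h
  · subst h
    simp_rw [walsh_mul_self]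
    simp
  · simp_rw [walsh_mul]
    refine integral_walsh _ ?_
    rw [Finset.nonempty_iff_ne_empty]
    intro h'
    exact h (symmDiff_eq_bot.1 h')

/-- Walsh functions as continuous functions. -/
def walshC (S : Finset ι) : C(ι → Bool, ℝ) := ⟨walsh S, continuous_walsh S⟩

theorem span_walshC_isSubalgebra :
    ∃ A : Subalgebra ℝ C(ι → Bool, ℝ), Subalgebra.toSubmodule A =
      Submodule.span ℝ (range (walshC (ι := ι))) ∧ A.SeparatesPoints := by
  classical
  refine ⟨Algebra.adjoin ℝ (range walshC), ?_, ?_⟩
  · refine Algebra.adjoin_eq_span_of_subset (R := ℝ) (s := range (walshC (ι := ι))) ?_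
    refine Subset.trans ?_ Submodule.subset_span
    intro x hx
    refine Submonoid.closure_induction ?_ ?_ ?_ hx
    · intro y hy
      exact hy
    · exact ⟨∅, by ext w; simp [walshC, walsh_empty]⟩
    · rintro x y _ _ ⟨S, rfl⟩ ⟨T, rfl⟩
      exact ⟨symmDiff S T, by ext w; simp [walshC, walsh_mul]⟩
  · intro x y hxy
    obtain ⟨i, hi⟩ := Function.ne_iff.1 hxy
    refine ⟨walshC {i}, ⟨walshC {i}, Algebra.subset_adjoin (R := ℝ) ⟨{i}, rfl⟩, rfl⟩, ?_⟩
    simp only [walshC, ContinuousMap.coe_mk, walsh, Finset.prod_singleton]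
    intro h
    apply hi
    cases hx : x i <;> cases hy : y i <;> simp [sgn, hx, hy] at h ⊢ <;> norm_num at h

theorem span_walshC_closure : (Submodule.span ℝ (range (walshC (ι := ι)))).topologicalClosure = ⊤ := by
  obtain ⟨A, hA, hsep⟩ := span_walshC_isSubalgebra (ι := ι)
  rw [← hA]
  have h := ContinuousMap.subalgebra_topologicalClosure_eq_top_of_separatesPoints A hsep
  exact congr_arg Subalgebra.toSubmodule h

theorem span_walshLp_closure [Countable ι] :
    (Submodule.span ℝ (range (walshLp (ι := ι)))).topologicalClosure = ⊤ := by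
  have h := (ContinuousMap.toLp_denseRange ℝ (coin ι) ℝ (p := 2)
    (by norm_num)).topologicalClosure_map_submodule (span_walshC_closure (ι := ι))
  rw [Submodule.map_span, ← range_comp] at h
  exact h

/-- The Walsh basis. -/
noncomputable def walshBasis [Countable ι] : HilbertBasis (Finset ι) ℝ (Lp ℝ 2 (coin ι)) :=
  HilbertBasis.mk orthonormal_walsh span_walshLp_closure.ge

theorem coe_walshBasis [Countable ι] : ⇑(walshBasis (ι := ι)) = walshLp :=
  HilbertBasis.coe_mk _ _

/-- The Walsh coefficients. -/
noncomputable def coef (h : (ι → Bool) → ℝ) (S : Finset ι) : ℝ := ∫ w, h w * walsh S w ∂(coin ι)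

theorem inner_toLp_walshLp {h : (ι → Bool) → ℝ} (hh : MemLp h 2 (coin ι)) (S : Finset ι) :
    inner ℝ (walshLp S) (hh.toLp) = coef h S := by
  rw [L2.inner_def]
  refine integral_congr_ae ?_
  filter_upwards [(memLp_walsh S 2).coeFn_toLp, hh.coeFn_toLp] with w h1 h2
  simp only [walshLp, h1, h2]
  simp only [RCLike.inner_apply, conj_trivial]

theorem hasSum_coef_sq [Countable ι] {h : (ι → Bool) → ℝ} (hh : MemLp h 2 (coin ι)) :
    HasSum (fun S => coef h S ^ 2) (∫ w, h w ^ 2 ∂(coin ι)) := by
  have h1 := walshBasis.hasSum_inner_mul_inner (hh.toLp) (hh.toLp)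
  have h2 : inner ℝ (hh.toLp) (hh.toLp) = ∫ w, h w ^ 2 ∂(coin ι) := by
    rw [L2.inner_def]
    refine integral_congr_ae ?_
    filter_upwards [hh.coeFn_toLp] with w h2
    rw [h2]
    simp only [RCLike.inner_apply, conj_trivial]
    ring
  rw [h2] at h1
  have h3 : (fun S => coef h S ^ 2) = fun S => inner ℝ (hh.toLp) (walshBasis S) *
      inner ℝ (walshBasis S) (hh.toLp) := by
    funext S
    rw [coe_walshBasis, inner_toLp_walshLp, real_inner_comm, inner_toLp_walshLp, sq]
  rw [h3]
  exact h1

end Pool.Agent.Generics
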