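import Pool.Agent.Lib.MP_9214e0_lc.ForcDefs

/-!
Natural numbers, sets of natural numbers and reals as hereditarily countable sets.
-/

set_option autoImplicit false

namespace Pool.Agent.Generics

open Set ZFSet

theorem mem_nat {x : ZFSet.{0}} {n : ℕ} : x ∈ nat n ↔ ∃ k < n, nat k = x := by
  induction n with
  | zero => simp [nat]
  | succ n ih =>
    simp only [nat, ZFSet.mem_insert_iff, ih]
    constructor
    · rintro (rfl | ⟨k, hk, rfl⟩)
      · exact ⟨n, by omega, rfl⟩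
      · exact ⟨k, by omega, rfl⟩
    · rintro ⟨k, hk, rfl⟩
      rcases Nat.lt_succ_iff_lt_or_eq.1 hk with h | h
      · exact Or.inr ⟨k, h, rfl⟩
      · exact Or.inl (by rw [h])

theorem nat_mem_of_lt {k n : ℕ} (h : k < n) : nat k ∈ nat n := mem_nat.2 ⟨k, h, rfl⟩

theorem nat_inj {k n : ℕ} : nat k = nat n ↔ k = n := by
  constructor
  · intro h
    rcases lt_trichotomy k n with h1 | h1 | h1
    · have := nat_mem_of_lt h1
      rw [h] at this
      exact absurd this (ZFSet.mem_irrefl _)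
    · exact h1
    · have := nat_mem_of_lt h1
      rw [h] at this
      exact absurd this (ZFSet.mem_irrefl _)
  · rintro rfl
    rfl

theorem nat_mem_nat {k n : ℕ} : nat k ∈ nat n ↔ k < n := by
  rw [mem_nat]
  constructor
  · rintro ⟨j, hj, h⟩
    rw [← nat_inj.1 h]
    exact hj
  · intro h
    exact ⟨k, h, rfl⟩

theorem nat_succ (n : ℕ) : nat (n + 1) = insert (nat n) (nat n) := rfl

theorem succ_inj {x y : ZFSet.{0}} (h : insert x x = insert y y) : x = y := by
  have h1 : x ∈ insert y y := by rw [← h]; exact ZFSet.mem_insert x x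
  have h2 : y ∈ insert x x := by rw [h]; exact ZFSet.mem_insert y y
  rw [ZFSet.mem_insert_iff] at h1 h2
  rcases h1 with h1 | h1
  · exact h1
  rcases h2 with h2 | h2
  · exact h2.symm
  exact absurd h2 (ZFSet.mem_asymm h1)

theorem succ_ne_empty (x : ZFSet.{0}) : insert x x ≠ (∅ : ZFSet.{0}) := by
  intro h
  have := ZFSet.mem_insert x x
  rw [h] at this
  exact ZFSet.notMem_empty _ this

theorem mem_om {x : ZFSet.{0}} : x ∈ om ↔ ∃ n, nat n = x := by
  simp [om]

theorem nat_mem_om (n : ℕ) : nat n ∈ om := mem_om.2 ⟨n, rfl⟩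

open Classical in
/-- The inverse of `nat`; everything else is sent to `0`. -/
noncomputable def nn (x : ZFSet.{0}) : ℕ := if h : ∃ n, nat n = x then h.choose else 0

@[simp] theorem nn_nat (n : ℕ) : nn (nat n) = n := by
  have h : ∃ m, nat m = nat n := ⟨n, rfl⟩
  rw [nn, dif_pos h]
  exact nat_inj.1 h.choose_spec

theorem nat_nn {x : ZFSet.{0}} (h : x ∈ om) : nat (nn x) = x := by
  obtain ⟨n, rfl⟩ := mem_om.1 h
  rw [nn_nat]

theorem nn_of_notMem {x : ZFSet.{0}} (h : x ∉ om) : nn x = 0 := by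
  rw [nn, dif_neg]
  rwa [← mem_om]

theorem mem_code {u : Set ℕ} {x : ZFSet.{0}} : x ∈ code u ↔ ∃ n ∈ u, nat n = x := by
  simp [code]

@[simp] theorem nat_mem_code {u : Set ℕ} {n : ℕ} : nat n ∈ code u ↔ n ∈ u := by
  rw [mem_code]
  constructor
  · rintro ⟨k, hk, h⟩
    rwa [← nat_inj.1 h]
  · intro h
    exact ⟨n, h, rfl⟩

theorem code_subset (u : Set ℕ) : code u ⊆ om := by
  intro x hx
  obtain ⟨n, -, rfl⟩ := mem_code.1 hx
  exact nat_mem_om n

/-- The set of natural numbers coded by a set. -/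
def dec (x : ZFSet.{0}) : Set ℕ := {n | nat n ∈ x}

@[simp] theorem mem_dec {x : ZFSet.{0}} {n : ℕ} : n ∈ dec x ↔ nat n ∈ x := Iff.rfl

@[simp] theorem dec_code (u : Set ℕ) : dec (code u) = u := by
  ext n
  simp

theorem code_dec {x : ZFSet.{0}} (h : x ⊆ om) : code (dec x) = x := by
  ext y
  rw [mem_code]
  constructor
  · rintro ⟨n, hn, rfl⟩
    exact hn
  · intro hy
    obtain ⟨n, rfl⟩ := mem_om.1 (h hy)
    exact ⟨n, hy, rfl⟩

theorem code_dec' (x : ZFSet.{0}) : code (dec x) = ZFSet.sep (· ∈ om) x := by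
  ext y
  rw [mem_code, ZFSet.mem_sep]
  constructor
  · rintro ⟨n, hn, rfl⟩
    exact ⟨hn, nat_mem_om n⟩
  · rintro ⟨hy, h⟩
    obtain ⟨n, rfl⟩ := mem_om.1 h
    exact ⟨n, hy, rfl⟩

theorem code_inj {u v : Set ℕ} : code u = code v ↔ u = v := by
  constructor
  · intro h
    rw [← dec_code u, h, dec_code]
  · rintro rfl
    rfl

open Classical in
/-- The element of `2^ω` coded by a set. -/
noncomputable def ofz (z : ZFSet.{0}) : ℕ → Bool := fun n => decide (nat n ∈ z)

@[simp] theorem ofz_true {z : ZFSet.{0}} {n : ℕ} : ofz z n = true ↔ nat n ∈ z := by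
  simp [ofz]

@[simp] theorem nat_mem_real {x : ℕ → Bool} {n : ℕ} : nat n ∈ real x ↔ x n = true := by
  simp [real]

@[simp] theorem ofz_real (x : ℕ → Bool) : ofz (real x) = x := by
  funext n
  rw [Bool.eq_iff_iff]
  simp

theorem real_ofz {z : ZFSet.{0}} (h : z ⊆ om) : real (ofz z) = z := by
  rw [real]
  simp only [ofz_true]
  exact code_dec h

theorem real_subset (x : ℕ → Bool) : real x ⊆ om := code_subset _

theorem real_inj {x y : ℕ → Bool} : real x = real y ↔ x = y := by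
  constructor
  · intro h
    rw [← ofz_real x, h, ofz_real]
  · rintro rfl
    rfl

/-- The image of a set under a class function. -/
noncomputable def img (F : ZFSet.{0} → ZFSet.{0}) (a : ZFSet.{0}) : ZFSet.{0} :=
  ZFSet.range (fun x : a => F x)

@[simp] theorem mem_img {F : ZFSet.{0} → ZFSet.{0}} {a y : ZFSet.{0}} :
    y ∈ img F a ↔ ∃ x ∈ a, F x = y := by
  simp [img]

theorem mem_seqc {s : ℕ → ZFSet.{0}} {y : ZFSet.{0}} :
    y ∈ seqc s ↔ ∃ n, ZFSet.pair (nat n) (s n) = y := by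
  simp [seqc]

theorem pair_mem_seqc {s : ℕ → ZFSet.{0}} {n : ℕ} {y : ZFSet.{0}} :
    ZFSet.pair (nat n) y ∈ seqc s ↔ y = s n := by
  rw [mem_seqc]
  constructor
  · rintro ⟨k, hk⟩
    rw [ZFSet.pair_inj] at hk
    rw [← hk.2, nat_inj.1 hk.1]
  · rintro rfl
    exact ⟨n, rfl⟩

/-- The value of a function (as a set of pairs) at a point. -/
def app (f x : ZFSet.{0}) : ZFSet.{0} :=
  ⋃₀ (ZFSet.sep (fun y => ZFSet.pair x y ∈ f) (⋃₀ (⋃₀ f)))

theorem app_eq {f x y : ZFSet.{0}} (h : ZFSet.pair x y ∈ f)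
    (h' : ∀ z, ZFSet.pair x z ∈ f → z = y) : app f x = y := by
  have h1 : ZFSet.sep (fun y => ZFSet.pair x y ∈ f) (⋃₀ (⋃₀ f)) = {y} := by
    ext z
    rw [ZFSet.mem_sep, ZFSet.mem_singleton]
    constructor
    · rintro ⟨-, hz⟩
      exact h' z hz
    · rintro rfl
      refine ⟨?_, h⟩
      rw [ZFSet.mem_sUnion]
      refine ⟨{x, z}, ?_, by simp⟩
      rw [ZFSet.mem_sUnion]
      exact ⟨_, h, by simp [ZFSet.pair]⟩
  rw [app, h1, ZFSet.sUnion_singleton]

@[simp] theorem app_seqc (s : ℕ → ZFSet.{0}) (n : ℕ) : app (seqc s) (nat n) = s n :=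
  app_eq (pair_mem_seqc.2 rfl) (fun _ hz => pair_mem_seqc.1 hz)

end Pool.Agent.Generics
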