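import Pool.Agent.Lib.MP_9214e0_lc.Uniform
import Pool.Agent.Lib.MP_9214e0_lc.Intertwine

/-!
Ergodicity of products and independence of additional coordinates.
-/

set_option autoImplicit false

namespace Pool.Agent.Generics

open MeasureTheory Set Function
open scoped ENNReal

/-- The map `T` is ergodic for `μ`. -/
def Erg {Ω : Type} [MeasurableSpace Ω] (μ : Measure Ω) (T : Ω → Ω) : Prop :=
  ∀ A : Set Ω, MeasurableSet A → (∀ᵐ w ∂μ, T w ∈ A ↔ w ∈ A) →
    (∀ᵐ w ∂μ, w ∈ A) ∨ ∀ᵐ w ∂μ, w ∉ A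

theorem Erg.factor {Ω Ω' : Type} [MeasurableSpace Ω] [MeasurableSpace Ω'] {μ : Measure Ω}
    {μ' : Measure Ω'} {T : Ω → Ω} {T' : Ω' → Ω'} (h : Erg μ T) {π : Ω → Ω'}
    (hπ : MeasurePreserving π μ μ') (hT : ∀ w, π (T w) = T' (π w)) : Erg μ' T' := by
  intro A hA hinv
  have h1 := hπ.quasiMeasurePreserving.ae hinv
  have h2 := h (π ⁻¹' A) (hπ.measurable hA) (by
    filter_upwards [h1] with w hw
    simp only [mem_preimage, hT]
    exact hw)
  rcases h2 with h2 | h2
  · left
    rw [← hπ.map_eq]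
    exact (ae_map_iff (p := fun w => w ∈ A) hπ.measurable.aemeasurable hA).2 h2
  · right
    rw [← hπ.map_eq]
    exact (ae_map_iff (p := fun w => w ∉ A) hπ.measurable.aemeasurable hA.compl).2 h2

theorem erg_perm {ι : Type} [Countable ι] (e : Equiv.Perm ι)
    (he : ∀ i, Injective (fun n : ℕ => (e ^ n) i)) : Erg (coin ι) (fun w => w ∘ e) := by
  intro A hA hinv
  exact ergodic_family {e} (fun i => ⟨e, rfl, he i⟩) hA (by
    rintro _ rfl
    exact hinv)

/-- the product of two maps -/
abbrev pm {A B : Type} (S : A → A) (T : B → B) (p : A × B) : A × B := (S p.1, T p.2)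

section ZeroOne

variable {Z W : Type} [MeasurableSpace Z] [MeasurableSpace W] {ν : Measure Z} {lam : Measure W}
  [IsProbabilityMeasure ν] [IsProbabilityMeasure lam] {Δ : Type} [Countable Δ]
  [MeasurableSpace Δ] [DiscreteMeasurableSpace Δ]

/-- If the event that `F (z, w) = F (z, w')` is invariant under an ergodic map, then `F` does not
depend on `w`. -/
theorem zero_one {R : Z × (W × W) → Z × (W × W)} (herg : Erg (ν.prod (lam.prod lam)) R)
    {F : Z × W → Δ} (hF : Measurable F)
    (hinv : ∀ᵐ p ∂(ν.prod (lam.prod lam)), (F ((R p).1, (R p).2.1) = F ((R p).1, (R p).2.2)) ↔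
      F (p.1, p.2.1) = F (p.1, p.2.2)) :
    ∀ᵐ w' ∂lam, ∀ᵐ p ∂(ν.prod lam), F p = F (p.1, w') := by
  set D : Set (Z × (W × W)) := {p | F (p.1, p.2.1) = F (p.1, p.2.2)} with hD
  have hDm : MeasurableSet D := by
    refine measurableSet_eq_fun ?_ ?_
    · exact hF.comp (measurable_fst.prodMk (measurable_fst.comp measurable_snd))
    · exact hF.comp (measurable_fst.prodMk (measurable_snd.comp measurable_snd))
  rcases herg D hDm hinv with h | h
  · -- rearrange
    have h1 : MeasurePreserving (fun p : W × (Z × W) => (p.2.1, (p.2.2, p.1)))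
        (lam.prod (ν.prod lam)) (ν.prod (lam.prod lam)) := by
      have e1 : MeasurePreserving (Prod.swap : W × (Z × W) → (Z × W) × W)
          (lam.prod (ν.prod lam)) ((ν.prod lam).prod lam) := Measure.measurePreserving_swap
      have e2 : MeasurePreserving (MeasurableEquiv.prodAssoc : (Z × W) × W ≃ᵐ Z × (W × W))
          ((ν.prod lam).prod lam) (ν.prod (lam.prod lam)) := measurePreserving_prodAssoc _ _ _
      exact e2.comp e1
    have h2 := h1.quasiMeasurePreserving.ae h
    have h3 := Measure.ae_ae_of_ae_prod h2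
    filter_upwards [h3] with w' hw'
    filter_upwards [hw'] with p hp
    exact hp
  · exfalso
    have h1 := Measure.ae_ae_of_ae_prod h
    obtain ⟨z, hz⟩ := h1.exists
    have hFz : Measurable (fun w => F (z, w)) := hF.comp (measurable_const.prodMk measurable_id)
    have h2 : ∃ δ : Δ, lam ((fun w => F (z, w)) ⁻¹' {δ}) ≠ 0 := by
      by_contra hcon
      push Not at hcon
      have h3 : lam (⋃ δ : Δ, (fun w => F (z, w)) ⁻¹' {δ}) = 0 := measure_iUnion_null hcon
      have h4 : (⋃ δ : Δ, (fun w => F (z, w)) ⁻¹' {δ}) = univ := by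
        ext w
        simp
      rw [h4, measure_univ] at h3
      exact one_ne_zero h3
    obtain ⟨δ, hδ⟩ := h2
    rw [ae_iff] at hz
    have h3 : ((fun w => F (z, w)) ⁻¹' {δ}) ×ˢ ((fun w => F (z, w)) ⁻¹' {δ}) ⊆
        {q : W × W | ¬ (z, q) ∉ D} := by
      rintro ⟨w, w'⟩ ⟨h4, h5⟩
      simp only [mem_preimage, mem_singleton_iff] at h4 h5
      simp only [mem_ofPred_eq, not_not, hD]
      rw [h4, h5]
    have h4 := measure_mono_null h3 hz
    rw [Measure.prod_prod, mul_eq_zero] at h4
    rcases h4 with h4 | h4 <;> exact hδ h4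

end ZeroOne

/-- Products of actions on coordinates are ergodic. -/
theorem erg_prod {ι κ : Type} [Countable ι] [Countable κ] (e : Equiv.Perm ι) (f : Equiv.Perm κ)
    (he : ∀ i, Injective (fun n : ℕ => (e ^ n) i)) (hf : ∀ i, Injective (fun n : ℕ => (f ^ n) i)) :
    (∀ i, Injective (fun n : ℕ => ((Equiv.sumCongr e f) ^ n) i)) := by
  have h : ∀ n : ℕ, (Equiv.sumCongr e f) ^ n = Equiv.sumCongr (e ^ n) (f ^ n) := by
    intro n
    induction n with
    | zero =>
      ext i
      cases i <;> rfl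
    | succ n ih =>
      rw [pow_succ, ih, pow_succ, pow_succ]
      ext i
      cases i <;> rfl
  rintro (i | k) n m hnm
  · simp only [h, Equiv.sumCongr_apply, Sum.map_inl, Sum.inl.injEq] at hnm
    exact he i hnm
  · simp only [h, Equiv.sumCongr_apply, Sum.map_inr, Sum.inr.injEq] at hnm
    exact hf k hnm

theorem erg_two {ι κ : Type} [Countable ι] [Countable κ] (e : Equiv.Perm ι) (f : Equiv.Perm κ)
    (he : ∀ i, Injective (fun n : ℕ => (e ^ n) i)) (hf : ∀ i, Injective (fun n : ℕ => (f ^ n) i)) :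
    Erg ((coin ι).prod (coin κ)) (pm (fun w => w ∘ e) (fun w => w ∘ f)) :=
  (erg_perm (Equiv.sumCongr e f) (erg_prod e f he hf)).factor mp_sum (fun _ => rfl)

/-- The form of the product which is used. -/
theorem erg_four {ι κ : Type} [Countable ι] [Countable κ] (e : Equiv.Perm ι) (f : Equiv.Perm κ)
    (he : ∀ i, Injective (fun n : ℕ => (e ^ n) i)) (hf : ∀ i, Injective (fun n : ℕ => (f ^ n) i)) :
    Erg (((coin ι).prod (coin ι)).prod ((coin κ).prod (coin κ)))
      (pm (pm (fun w => w ∘ e) (fun w => w ∘ e)) (pm (fun w => w ∘ f) (fun w => w ∘ f))) := by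
  refine (erg_two (Equiv.sumCongr e e) (Equiv.sumCongr f f) (erg_prod e e he he)
    (erg_prod f f hf hf)).factor
    (π := Prod.map (fun w => (w ∘ Sum.inl, w ∘ Sum.inr)) (fun w => (w ∘ Sum.inl, w ∘ Sum.inr)))
    ?_ (fun _ => rfl)
  exact mp_sum.prod mp_sum

end Pool.Agent.Generics
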